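import Mathlib

/- Helper24.FF.H5.Tree -/
section
set_option autoImplicit false

/-!
Trees of residues of finite sets of integers modulo powers of a prime:
heavy and light steps, and the two-tree decoding lemma.
-/

namespace Pool.Agent.Helper5

/-- the number of elements of `D` congruent to `d` modulo `p ^ i` -/
def nd (p : ℕ) (D : Finset ℤ) (d : ℤ) (i : ℕ) : ℕ :=
  (D.filter (fun x => ((p : ℤ) ^ i ∣ x - d))).card

/-- `i` is a bad level for `d`: passing to residues modulo `p ^ (i+1)` loses at least the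
proportion `1 / K` of the class of `d` modulo `p ^ i`. -/
def bad (p K : ℕ) (D : Finset ℤ) (d : ℤ) (i : ℕ) : Prop :=
  K * nd p D d (i + 1) ≤ (K - 1) * nd p D d i

lemma nd_anti (p : ℕ) (D : Finset ℤ) (d : ℤ) {i j : ℕ} (h : i ≤ j) :
    nd p D d j ≤ nd p D d i := by
  unfold nd
  apply Finset.card_le_card
  intro x hx
  simp only [Finset.mem_filter] at hx ⊢
  exact ⟨hx.1, (pow_dvd_pow _ h).trans hx.2⟩

lemma nd_pos (p : ℕ) (D : Finset ℤ) {d : ℤ} (hd : d ∈ D) (i : ℕ) : 1 ≤ nd p D d i := by
  unfold nd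
  apply Finset.card_pos.mpr
  exact ⟨d, by simp [hd]⟩

lemma nd_zero (p : ℕ) (D : Finset ℤ) (d : ℤ) : nd p D d 0 = D.card := by
  unfold nd
  simp

lemma nd_le (p : ℕ) (D : Finset ℤ) (d : ℤ) (i : ℕ) : nd p D d i ≤ D.card := by
  rw [← nd_zero p D d]; exact nd_anti p D d (Nat.zero_le _)

lemma nd_congr (p : ℕ) (D : Finset ℤ) {d d' : ℤ} {i : ℕ} (h : (p : ℤ) ^ i ∣ d - d') :
    nd p D d i = nd p D d' i := by
  unfold nd
  congr 1
  ext x
  simp only [Finset.mem_filter, and_congr_right_iff]
  intro _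
  constructor
  · intro hx
    have := dvd_add hx h
    simpa using this
  · intro hx
    have := dvd_sub hx h
    have e : x - d' - (d - d') = x - d := by ring
    rwa [e] at this

lemma nd_add (p : ℕ) (D : Finset ℤ) {d d' : ℤ} {i : ℕ} (h : (p : ℤ) ^ i ∣ d - d')
    (h' : ¬ (p : ℤ) ^ (i + 1) ∣ d - d') :
    nd p D d (i + 1) + nd p D d' (i + 1) ≤ nd p D d i := by
  unfold nd
  rw [← Finset.card_union_of_disjoint]
  · apply Finset.card_le_card
    intro x hx
    simp only [Finset.mem_union, Finset.mem_filter] at hx ⊢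
    rcases hx with hx | hx
    · exact ⟨hx.1, (pow_dvd_pow _ (Nat.le_succ i)).trans hx.2⟩
    · refine ⟨hx.1, ?_⟩
      have h1 : (p : ℤ) ^ i ∣ x - d' := (pow_dvd_pow _ (Nat.le_succ i)).trans hx.2
      have := dvd_sub h1 h
      have e : x - d' - (d - d') = x - d := by ring
      rwa [e] at this
  · rw [Finset.disjoint_left]
    intro x hx hx'
    simp only [Finset.mem_filter] at hx hx'
    apply h'
    have := dvd_sub hx'.2 hx.2
    have e : x - d' - (x - d) = d - d' := by ring
    rwa [e] at this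

/-- if `d` is heavy at a level at which `d'` branches off, then `d'` is light there. -/
lemma light_of_heavy {p K : ℕ} {D : Finset ℤ} {d d' : ℤ} {i : ℕ}
    (h : (p : ℤ) ^ i ∣ d - d') (h' : ¬ (p : ℤ) ^ (i + 1) ∣ d - d')
    (hd : ¬ bad p K D d i) : K * nd p D d' (i + 1) < nd p D d' i := by
  unfold bad at hd
  push Not at hd
  have h1 := nd_add p D h h'
  have h2 := nd_congr p D h
  rw [← h2]
  rcases Nat.eq_zero_or_pos K with hK | hK
  · subst hK; simp at hd
  · obtain ⟨k, rfl⟩ : ∃ k, K = k + 1 := ⟨K - 1, by omega⟩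
    simp only [Nat.add_sub_cancel] at hd
    (clear * - h1 hd; nlinarith only [h1, hd])

/-- two elements branching at a level are not both heavy. -/
lemma not_both_heavy {p K : ℕ} (hK : 2 ≤ K) {D : Finset ℤ} {d d' : ℤ} {i : ℕ}
    (h : (p : ℤ) ^ i ∣ d - d') (h' : ¬ (p : ℤ) ^ (i + 1) ∣ d - d')
    (hd : ¬ bad p K D d i) : bad p K D d' i := by
  have h1 := light_of_heavy h h' hd
  unfold bad
  obtain ⟨k, rfl⟩ : ∃ k, K = k + 1 := ⟨K - 1, by omega⟩
  simp only [Nat.add_sub_cancel]
  (clear * - h1 hK; nlinarith only [hK, h1])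

/-- Counting lemma: each level in `V` shrinks the class by the factor `β / α`. -/
lemma card_levels {p : ℕ} {D : Finset ℤ} {d : ℤ} (hd : d ∈ D) (α β : ℕ) (V : Finset ℕ)
    (hV : ∀ i ∈ V, α * nd p D d (i + 1) ≤ β * nd p D d i) :
    α ^ V.card ≤ β ^ V.card * D.card := by
  have key : ∀ n : ℕ, α ^ (V.filter (· < n)).card * nd p D d n ≤
      β ^ (V.filter (· < n)).card * D.card := by
    intro n
    induction n with
    | zero => simp [nd_zero]
    | succ n ih =>
      by_cases hn : n ∈ V
      · have e : V.filter (· < n + 1) = insert n (V.filter (· < n)) := by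
          ext x
          simp only [Finset.mem_filter, Finset.mem_insert]
          constructor
          · rintro ⟨h1, h2⟩
            rcases Nat.lt_succ_iff_lt_or_eq.mp h2 with h | h
            · exact Or.inr ⟨h1, h⟩
            · exact Or.inl h
          · rintro (h | ⟨h1, h2⟩)
            · subst h; exact ⟨hn, Nat.lt_succ_self _⟩
            · exact ⟨h1, by omega⟩
        rw [e, Finset.card_insert_of_notMem (by simp)]
        have h1 := hV n hn
        calc α ^ ((V.filter (· < n)).card + 1) * nd p D d (n + 1)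
            = α ^ (V.filter (· < n)).card * (α * nd p D d (n + 1)) := by ring
          _ ≤ α ^ (V.filter (· < n)).card * (β * nd p D d n) := Nat.mul_le_mul_left _ h1
          _ = β * (α ^ (V.filter (· < n)).card * nd p D d n) := by ring
          _ ≤ β * (β ^ (V.filter (· < n)).card * D.card) := Nat.mul_le_mul_left _ ih
          _ = β ^ ((V.filter (· < n)).card + 1) * D.card := by ring
      · have e : V.filter (· < n + 1) = V.filter (· < n) := by
          ext x
          simp only [Finset.mem_filter, and_congr_right_iff]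
          intro hx
          constructor
          · intro h2
            rcases Nat.lt_succ_iff_lt_or_eq.mp h2 with h | h
            · exact h
            · subst h; exact absurd hx hn
          · intro h; omega
        rw [e]
        exact (Nat.mul_le_mul_left _ (nd_anti p D d (Nat.le_succ n))).trans ih
  obtain ⟨n, hn⟩ : ∃ n, ∀ i ∈ V, i < n := by
    refine ⟨V.sup id + 1, fun i hi => ?_⟩
    have := Finset.le_sup (f := id) hi
    simp only [id] at this
    omega
  have e : V.filter (· < n) = V := Finset.filter_true_of_mem hn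
  have h1 := key n
  rw [e] at h1
  calc α ^ V.card = α ^ V.card * 1 := by ring
    _ ≤ α ^ V.card * nd p D d n := Nat.mul_le_mul_left _ (nd_pos p D hd n)
    _ ≤ _ := h1

/-- the number of light levels is bounded -/
lemma card_light {p K : ℕ} {D : Finset ℤ} {d : ℤ} (hd : d ∈ D) (V : Finset ℕ)
    (hV : ∀ i ∈ V, K * nd p D d (i + 1) < nd p D d i) {L : ℕ} (hL : D.card < K ^ (L + 1))
    (hK : 2 ≤ K) : V.card ≤ L := by
  have h := card_levels hd K 1 V (fun i hi => by simpa using (hV i hi).le)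
  simp only [one_pow, one_mul] at h
  have h2 : K ^ V.card < K ^ (L + 1) := lt_of_le_of_lt h hL
  have := (Nat.pow_lt_pow_iff_right (by omega : 1 < K)).mp h2
  omega

/-- the number of bad levels is bounded -/
lemma card_bad {p K : ℕ} {D : Finset ℤ} {d : ℤ} (hd : d ∈ D) (V : Finset ℕ)
    (hV : ∀ i ∈ V, bad p K D d i) {j : ℕ} (hj : D.card < 2 ^ j)
    (hK : 2 ≤ K) : V.card < K * j := by
  by_contra hcon
  push Not at hcon
  obtain ⟨V', hV', hc⟩ := Finset.exists_subset_card_eq hcon
  have h := card_levels hd K (K - 1) V' (fun i hi => hV i (hV' hi))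
  rw [hc] at h
  obtain ⟨k, rfl⟩ : ∃ k, K = k + 1 := ⟨K - 1, by omega⟩
  simp only [Nat.add_sub_cancel] at h
  -- `2 * k ^ (k+1) ≤ (k+1) ^ (k+1)`
  have hB : 2 * k ^ (k + 1) ≤ (k + 1) ^ (k + 1) := by
    have hk : 1 ≤ k := by omega
    have h1 : ∀ n : ℕ, k ^ (n + 1) + (n + 1) * k ^ n ≤ (k + 1) ^ (n + 1) := by
      intro n
      induction n with
      | zero => simp
      | succ n ih =>
        calc k ^ (n + 1 + 1) + (n + 1 + 1) * k ^ (n + 1)
            ≤ (k + 1) * (k ^ (n + 1) + (n + 1) * k ^ n) := by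
              have : 0 ≤ (n + 1) * k ^ n := Nat.zero_le _
              have e : (k + 1) * (k ^ (n + 1) + (n + 1) * k ^ n) =
                k ^ (n + 1 + 1) + (n + 1 + 1) * k ^ (n + 1) + (n + 1) * k ^ n := by ring
              omega
          _ ≤ (k + 1) * (k + 1) ^ (n + 1) := Nat.mul_le_mul_left _ ih
          _ = (k + 1) ^ (n + 1 + 1) := by ring
    have h1 := h1 k
    have h3 : k ^ (k + 1) ≤ (k + 1) * k ^ k := by
      rw [pow_succ, mul_comm]
      exact Nat.mul_le_mul_right _ (Nat.le_succ k)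
    omega
  have h4 : (k + 1) ^ ((k + 1) * j) ≥ 2 ^ j * k ^ ((k + 1) * j) := by
    rw [pow_mul, pow_mul, ← mul_pow]
    exact Nat.pow_le_pow_left hB j
  have hkpos : 0 < k ^ ((k + 1) * j) := Nat.pow_pos (by omega)
  have h5 : 2 ^ j * k ^ ((k + 1) * j) ≤ D.card * k ^ ((k + 1) * j) := by
    calc 2 ^ j * k ^ ((k + 1) * j) ≤ (k + 1) ^ ((k + 1) * j) := h4
      _ ≤ k ^ ((k + 1) * j) * D.card := h
      _ = _ := by ring
  have h6 := Nat.le_of_mul_le_mul_right h5 hkpos
  omega

end Pool.Agent.Helper5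
end

/- Helper24.FF.H5.TwoTree -/
section
set_option autoImplicit false

namespace Pool.Agent.Helper5

lemma exists_pow_not_dvd {p : ℕ} (hp : 2 ≤ p) {x : ℤ} (hx : x ≠ 0) :
    ∃ i : ℕ, ¬ (p : ℤ) ^ (i + 1) ∣ x := by
  refine ⟨x.natAbs, fun h => ?_⟩
  have h1 : p ^ (x.natAbs + 1) ∣ x.natAbs := by
    have := Int.natAbs_dvd_natAbs.mpr h
    simpa [Int.natAbs_pow] using this
  have h2 := Nat.le_of_dvd (Int.natAbs_pos.mpr hx) h1
  have h3 : x.natAbs + 1 < p ^ (x.natAbs + 1) := Nat.lt_pow_self (by omega)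
  omega

/-- Decoding lemma for a single dilate: the pairs `(d, m)` with a given value of `d + u * m`
such that no level is simultaneously bad for `d` and (after the shift) for `m` are few. -/
lemma two_tree {p K : ℕ} (hp : 2 ≤ p) (hK : 2 ≤ K) (v : ℕ) (D M : Finset ℤ) (ℓ : ℕ) :
    ∀ (j : ℕ) (R : Finset (ℤ × ℤ)),
    (∀ e ∈ R, e.1 ∈ D ∧ e.2 ∈ M) →
    (∀ e ∈ R, ∀ e' ∈ R, ∀ i, ((p:ℤ)^(v+i) ∣ e.1 - e'.1 ↔ (p:ℤ)^i ∣ e.2 - e'.2)) →
    (∀ e ∈ R, ∀ e' ∈ R, e.2 = e'.2 → e = e') →
    (∀ e ∈ R, ∀ i, ¬ (bad p K D e.1 (v+i) ∧ bad p K M e.2 i)) →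
    (∀ e ∈ R, ∀ e' ∈ R, (p:ℤ)^j ∣ e.2 - e'.2) →
    (∀ e ∈ R, nd p D e.1 (v+j) * nd p M e.2 j < K^(ℓ+1)) →
    R.card ≤ 2^ℓ := by
  induction ℓ with
  | zero =>
    intro j R hR hdiv hinj hgood hcong hpot
    by_contra hcard
    push Not at hcard
    simp only [pow_zero] at hcard
    -- there are two distinct elements
    obtain ⟨e₁, he₁, e₂, he₂, hne⟩ := Finset.one_lt_card.mp hcard
    -- minimal branching level
    have hex : ∃ i : ℕ, ∃ e ∈ R, ∃ e' ∈ R, ¬ (p:ℤ)^(i+1) ∣ e.2 - e'.2 := by
      have : e₁.2 - e₂.2 ≠ 0 := fun h => hne (hinj e₁ he₁ e₂ he₂ (by linarith only [h]))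
      obtain ⟨i, hi⟩ := exists_pow_not_dvd hp this
      exact ⟨i, e₁, he₁, e₂, he₂, hi⟩
    classical
    let i := Nat.find hex
    obtain ⟨e, he, e', he', hnd⟩ := Nat.find_spec hex
    have hall : ∀ a ∈ R, ∀ b ∈ R, (p:ℤ)^i ∣ a.2 - b.2 := by
      intro a ha b hb
      rcases Nat.eq_zero_or_pos i with h0 | h0
      · rw [h0]; simp
      · have := Nat.find_min hex (m := i - 1) (by show i - 1 < i; omega)
        push Not at this
        have h2 := this a ha b hb
        rwa [Nat.sub_add_cancel h0] at h2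
    have hji : j ≤ i := by
      by_contra hlt
      push Not at hlt
      exact hnd ((pow_dvd_pow _ (by show i + 1 ≤ j; omega)).trans (hcong e he e' he'))
    have hD1 : (p:ℤ)^(v+i) ∣ e.1 - e'.1 := (hdiv e he e' he' i).mpr (hall e he e' he')
    have hD2 : ¬ (p:ℤ)^(v+i+1) ∣ e.1 - e'.1 := by
      intro h
      exact hnd ((hdiv e he e' he' (i+1)).mp (by rw [← add_assoc]; exact h))
    have hM1 := hall e he e' he'
    have hM2 : ¬ (p:ℤ)^(i+1) ∣ e.2 - e'.2 := hnd
    have hM1' : (p:ℤ)^i ∣ e'.2 - e.2 := hall e' he' e he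
    have hM2' : ¬ (p:ℤ)^(i+1) ∣ e'.2 - e.2 := by
      intro h; apply hM2
      have := (dvd_neg.mpr h); simpa using this
    have hD1' : (p:ℤ)^(v+i) ∣ e'.1 - e.1 := (hdiv e' he' e he i).mpr hM1'
    have hD2' : ¬ (p:ℤ)^(v+i+1) ∣ e'.1 - e.1 := by
      intro h; apply hD2
      have := (dvd_neg.mpr h); simpa using this
    have key : ∃ a ∈ R, K * nd p D a.1 (v+i+1) < nd p D a.1 (v+i) ∨
        K * nd p M a.2 (i+1) < nd p M a.2 i := by
      by_cases hb : bad p K D e.1 (v+i)
      · have hm : ¬ bad p K M e.2 i := fun h => hgood e he i ⟨hb, h⟩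
        exact ⟨e', he', Or.inr (light_of_heavy hM1 hM2 hm)⟩
      · exact ⟨e', he', Or.inl (light_of_heavy hD1 hD2 hb)⟩
    obtain ⟨a, ha, hlight⟩ := key
    have h1 : nd p D a.1 (v+i) * nd p M a.2 i < K^(0+1) :=
      lt_of_le_of_lt (Nat.mul_le_mul (nd_anti p D _ (by omega)) (nd_anti p M _ hji)) (hpot a ha)
    have hposD := nd_pos p D (hR a ha).1 (v+i)
    have hposM := nd_pos p M (hR a ha).2 i
    have hposD1 := nd_pos p D (hR a ha).1 (v+i+1)
    have hposM1 := nd_pos p M (hR a ha).2 (i+1)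
    simp only [zero_add, pow_one] at h1
    rcases hlight with h | h
    · have : K * 1 ≤ K * nd p D a.1 (v+i+1) := Nat.mul_le_mul_left _ hposD1
      nlinarith only [hposM, h1, h, this]
    · have : K * 1 ≤ K * nd p M a.2 (i+1) := Nat.mul_le_mul_left _ hposM1
      nlinarith only [hposD, hposM1, h1, h]
  | succ ℓ ih =>
    intro j R hR hdiv hinj hgood hcong hpot
    by_cases hcard : R.card ≤ 1
    · exact hcard.trans Nat.one_le_two_pow
    push Not at hcard
    obtain ⟨e₁, he₁, e₂, he₂, hne⟩ := Finset.one_lt_card.mp hcard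
    have hex : ∃ i : ℕ, ∃ e ∈ R, ∃ e' ∈ R, ¬ (p:ℤ)^(i+1) ∣ e.2 - e'.2 := by
      have : e₁.2 - e₂.2 ≠ 0 := fun h => hne (hinj e₁ he₁ e₂ he₂ (by linarith only [h]))
      obtain ⟨i, hi⟩ := exists_pow_not_dvd hp this
      exact ⟨i, e₁, he₁, e₂, he₂, hi⟩
    classical
    let i := Nat.find hex
    obtain ⟨g, hg, g', hg', hnd⟩ := Nat.find_spec hex
    have hall : ∀ a ∈ R, ∀ b ∈ R, (p:ℤ)^i ∣ a.2 - b.2 := by
      intro a ha b hb
      rcases Nat.eq_zero_or_pos i with h0 | h0
      · rw [h0]; simp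
      · have := Nat.find_min hex (m := i - 1) (by show i - 1 < i; omega)
        push Not at this
        have h2 := this a ha b hb
        rwa [Nat.sub_add_cancel h0] at h2
    have hji : j ≤ i := by
      by_contra hlt
      push Not at hlt
      exact hnd ((pow_dvd_pow _ (by show i + 1 ≤ j; omega)).trans (hcong g hg g' hg'))
    -- every element has a partner branching off at level i
    have hpartner : ∀ e ∈ R, ∃ e' ∈ R, ¬ (p:ℤ)^(i+1) ∣ e.2 - e'.2 := by
      intro e he
      by_contra hcon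
      push Not at hcon
      apply hnd
      have h1 := hcon g hg
      have h2 := hcon g' hg'
      have := dvd_sub h2 h1
      have e0 : e.2 - g'.2 - (e.2 - g.2) = g.2 - g'.2 := by ring
      rwa [e0] at this
    have htype : ∀ e ∈ R, (¬ bad p K D e.1 (v+i) ∧ K * nd p M e.2 (i+1) < nd p M e.2 i) ∨
        (bad p K D e.1 (v+i) ∧ ¬ bad p K M e.2 i ∧
          K * nd p D e.1 (v+i+1) < nd p D e.1 (v+i)) := by
      intro e he
      obtain ⟨e', he', hM2⟩ := hpartner e he
      have hM1 := hall e he e' he'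
      have hM1' : (p:ℤ)^i ∣ e'.2 - e.2 := hall e' he' e he
      have hM2' : ¬ (p:ℤ)^(i+1) ∣ e'.2 - e.2 := by
        intro h; apply hM2
        have := (dvd_neg.mpr h); simpa using this
      have hD1 : (p:ℤ)^(v+i) ∣ e.1 - e'.1 := (hdiv e he e' he' i).mpr hM1
      have hD2 : ¬ (p:ℤ)^(v+i+1) ∣ e.1 - e'.1 := by
        intro h
        exact hM2 ((hdiv e he e' he' (i+1)).mp (by rw [← add_assoc]; exact h))
      have hD1' : (p:ℤ)^(v+i) ∣ e'.1 - e.1 := (hdiv e' he' e he i).mpr hM1'
      have hD2' : ¬ (p:ℤ)^(v+i+1) ∣ e'.1 - e.1 := by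
        intro h; apply hD2
        have := (dvd_neg.mpr h); simpa using this
      by_cases hb : bad p K D e.1 (v+i)
      · right
        have hm : ¬ bad p K M e.2 i := fun h => hgood e he i ⟨hb, h⟩
        refine ⟨hb, hm, ?_⟩
        have hm' : bad p K M e'.2 i := not_both_heavy hK hM1 hM2 hm
        have hd' : ¬ bad p K D e'.1 (v+i) := fun h => hgood e' he' i ⟨h, hm'⟩
        exact light_of_heavy hD1' hD2' hd'
      · left
        refine ⟨hb, ?_⟩
        have hd' : bad p K D e'.1 (v+i) := not_both_heavy hK hD1 hD2 hb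
        have hm' : ¬ bad p K M e'.2 i := fun h => hgood e' he' i ⟨hd', h⟩
        exact light_of_heavy hM1' hM2' hm'
    have hpot' : ∀ e ∈ R, nd p D e.1 (v+(i+1)) * nd p M e.2 (i+1) < K^(ℓ+1) := by
      intro e he
      have h1 : nd p D e.1 (v+i) * nd p M e.2 i < K^(ℓ+1+1) :=
        lt_of_le_of_lt (Nat.mul_le_mul (nd_anti p D _ (by omega)) (nd_anti p M _ hji)) (hpot e he)
      have hKpos : 0 < K := by omega
      have hDle : nd p D e.1 (v+(i+1)) ≤ nd p D e.1 (v+i) := nd_anti p D _ (by omega)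
      have hMle : nd p M e.2 (i+1) ≤ nd p M e.2 i := nd_anti p M _ (by omega)
      have h2 : K * (nd p D e.1 (v+(i+1)) * nd p M e.2 (i+1)) < K * K^(ℓ+1) := by
        rcases htype e he with ⟨_, h⟩ | ⟨_, _, h⟩
        · calc K * (nd p D e.1 (v+(i+1)) * nd p M e.2 (i+1))
              = nd p D e.1 (v+(i+1)) * (K * nd p M e.2 (i+1)) := by ring
            _ ≤ nd p D e.1 (v+i) * nd p M e.2 i := Nat.mul_le_mul hDle h.le
            _ < K^(ℓ+1+1) := h1
            _ = K * K^(ℓ+1) := by ring
        · have h' : K * nd p D e.1 (v+(i+1)) ≤ nd p D e.1 (v+i) := by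
            rw [← add_assoc]; exact h.le
          calc K * (nd p D e.1 (v+(i+1)) * nd p M e.2 (i+1))
              = (K * nd p D e.1 (v+(i+1))) * nd p M e.2 (i+1) := by ring
            _ ≤ nd p D e.1 (v+i) * nd p M e.2 i := Nat.mul_le_mul h' hMle
            _ < K^(ℓ+1+1) := h1
            _ = K * K^(ℓ+1) := by ring
      exact Nat.lt_of_mul_lt_mul_left h2
    let R₁ := R.filter (fun e => ¬ bad p K D e.1 (v+i))
    let R₂ := R.filter (fun e => bad p K D e.1 (v+i))
    have hsplit : R.card = R₂.card + R₁.card := by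
      rw [← Finset.card_filter_add_card_filter_not (s := R) (fun e => bad p K D e.1 (v+i))]
    have hc1 : R₁.card ≤ 2^ℓ := by
      apply ih (i+1) R₁
      · intro e he; exact hR e (Finset.mem_filter.mp he).1
      · intro e he e' he'
        exact hdiv e (Finset.mem_filter.mp he).1 e' (Finset.mem_filter.mp he').1
      · intro e he e' he'
        exact hinj e (Finset.mem_filter.mp he).1 e' (Finset.mem_filter.mp he').1
      · intro e he; exact hgood e (Finset.mem_filter.mp he).1
      · intro e he e' he'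
        have he0 := Finset.mem_filter.mp he
        have he0' := Finset.mem_filter.mp he'
        by_contra hcon
        have hM1 := hall e he0.1 e' he0'.1
        have hD1 : (p:ℤ)^(v+i) ∣ e.1 - e'.1 := (hdiv e he0.1 e' he0'.1 i).mpr hM1
        have hD2 : ¬ (p:ℤ)^(v+i+1) ∣ e.1 - e'.1 := by
          intro h
          exact hcon ((hdiv e he0.1 e' he0'.1 (i+1)).mp (by rw [← add_assoc]; exact h))
        exact he0'.2 (not_both_heavy hK hD1 hD2 he0.2)
      · intro e he; exact hpot' e (Finset.mem_filter.mp he).1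
    have hc2 : R₂.card ≤ 2^ℓ := by
      apply ih (i+1) R₂
      · intro e he; exact hR e (Finset.mem_filter.mp he).1
      · intro e he e' he'
        exact hdiv e (Finset.mem_filter.mp he).1 e' (Finset.mem_filter.mp he').1
      · intro e he e' he'
        exact hinj e (Finset.mem_filter.mp he).1 e' (Finset.mem_filter.mp he').1
      · intro e he; exact hgood e (Finset.mem_filter.mp he).1
      · intro e he e' he'
        have he0 := Finset.mem_filter.mp he
        have he0' := Finset.mem_filter.mp he'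
        by_contra hcon
        have hM1 := hall e he0.1 e' he0'.1
        have hm : ¬ bad p K M e.2 i := fun h => hgood e he0.1 i ⟨he0.2, h⟩
        have hm' : ¬ bad p K M e'.2 i := fun h => hgood e' he0'.1 i ⟨he0'.2, h⟩
        exact hm' (not_both_heavy hK hM1 hcon hm)
      · intro e he; exact hpot' e (Finset.mem_filter.mp he).1
    rw [hsplit, pow_succ]
    omega

end Pool.Agent.Helper5
end

/- Helper24.FF.H5.SumStep -/
section
set_option autoImplicit false

namespace Pool.Agent.Helper5

/-- the `p`-adic valuation of an integer -/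
def val (p : ℕ) (a : ℤ) : ℕ := a.natAbs.factorization p

/-- the part of `a` composed of the primes in `P` -/
def uP (P : Finset ℕ) (a : ℤ) : ℕ := ∏ p ∈ P, p ^ val p a

/-- the part of `a` free of the primes in `P` -/
def mP (P : Finset ℕ) (a : ℤ) : ℤ := a / (uP P a : ℤ)

lemma pow_dvd_iff_val {p : ℕ} (hp : p.Prime) {a : ℤ} (ha : a ≠ 0) (i : ℕ) :
    (p : ℤ) ^ i ∣ a ↔ i ≤ val p a := by
  unfold val
  rw [← hp.pow_dvd_iff_le_factorization (Int.natAbs_ne_zero.mpr ha)]
  constructor
  · intro h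
    have := Int.natAbs_dvd_natAbs.mpr h
    simpa [Int.natAbs_pow] using this
  · intro h
    have : ((p ^ i : ℕ) : ℤ) ∣ (a.natAbs : ℤ) := Int.natCast_dvd_natCast.mpr h
    rw [Int.dvd_natAbs] at this
    simpa using this

lemma uP_pos {P : Finset ℕ} (hP : ∀ p ∈ P, p.Prime) (a : ℤ) : 0 < uP P a :=
  Finset.prod_pos (fun p hp => Nat.pow_pos (hP p hp).pos)

lemma uP_factorization {P : Finset ℕ} (hP : ∀ p ∈ P, p.Prime) (a : ℤ) (q : ℕ) :
    (uP P a).factorization q = if q ∈ P then val q a else 0 := by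
  unfold uP
  rw [Nat.factorization_prod (fun p hp => (Nat.pow_pos (hP p hp).pos).ne')]
  rw [Finsupp.finsetSum_apply]
  have : ∀ p ∈ P, ((p ^ val p a).factorization) q = if q = p then val p a else 0 := by
    intro p hp
    rw [(hP p hp).factorization_pow, Finsupp.single_apply]
    by_cases h : p = q
    · simp [h]
    · simp [h, Ne.symm h]
  rw [Finset.sum_congr rfl this]
  simp

lemma uP_dvd {P : Finset ℕ} (hP : ∀ p ∈ P, p.Prime) {a : ℤ} (ha : a ≠ 0) : (uP P a : ℤ) ∣ a := by
  rw [← Int.dvd_natAbs, Int.natCast_dvd_natCast]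
  rw [← Nat.factorization_le_iff_dvd (uP_pos hP a).ne' (Int.natAbs_ne_zero.mpr ha)]
  intro q
  rw [uP_factorization hP]
  split_ifs
  · exact le_refl _
  · exact Nat.zero_le _

lemma uP_mul_mP {P : Finset ℕ} (hP : ∀ p ∈ P, p.Prime) {a : ℤ} (ha : a ≠ 0) :
    (uP P a : ℤ) * mP P a = a := by
  unfold mP
  exact Int.mul_ediv_cancel' (uP_dvd hP ha)

lemma mP_ne_zero {P : Finset ℕ} (hP : ∀ p ∈ P, p.Prime) {a : ℤ} (ha : a ≠ 0) : mP P a ≠ 0 := by
  intro h
  have := uP_mul_mP hP ha
  rw [h, mul_zero] at this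
  exact ha this.symm

lemma val_mul {p : ℕ} {a b : ℤ} (ha : a ≠ 0) (hb : b ≠ 0) :
    val p (a * b) = val p a + val p b := by
  unfold val
  rw [Int.natAbs_mul, Nat.factorization_mul (Int.natAbs_ne_zero.mpr ha) (Int.natAbs_ne_zero.mpr hb)]
  rfl

lemma val_natCast (p n : ℕ) : val p (n : ℤ) = n.factorization p := by
  unfold val; simp

lemma val_mP {P : Finset ℕ} (hP : ∀ p ∈ P, p.Prime) {a : ℤ} (ha : a ≠ 0) (q : ℕ) :
    val q (mP P a) = if q ∈ P then 0 else val q a := by
  have h := uP_mul_mP hP ha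
  have h2 : val q ((uP P a : ℤ) * mP P a) = val q a := by rw [h]
  rw [val_mul (by exact_mod_cast (uP_pos hP a).ne') (mP_ne_zero hP ha), val_natCast,
    uP_factorization hP] at h2
  split_ifs at h2 ⊢ with hq
  · omega
  · omega

/-- if every graph `{f a = φ (g a)}` is sparse, then so are unions of few graphs -/
lemma card_filter_mem_le {A : Finset ℤ} {Q : ℕ} {f : ℤ → ℕ} {g : ℤ → ℤ}
    (h : ∀ φ : ℤ → ℕ, Q * (A.filter (fun a => f a = φ (g a))).card ≤ A.card) (R : ℕ) :
    ∀ T : ℤ → Finset ℕ, (∀ m, (T m).card ≤ R) →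
    Q * (A.filter (fun a => f a ∈ T (g a))).card ≤ R * A.card := by
  induction R with
  | zero =>
    intro T hT
    have : A.filter (fun a => f a ∈ T (g a)) = ∅ := by
      apply Finset.filter_false_of_mem
      intro a _ hmem
      have h0 := hT (g a)
      have : T (g a) = ∅ := Finset.card_eq_zero.mp (by omega)
      rw [this] at hmem
      exact absurd hmem (Finset.notMem_empty _)
    rw [this]; simp
  | succ R ih =>
    intro T hT
    classical
    let φ : ℤ → ℕ := fun m => if hm : (T m).Nonempty then (T m).min' hm else 0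
    let T' : ℤ → Finset ℕ := fun m => (T m).erase (φ m)
    have hT' : ∀ m, (T' m).card ≤ R := by
      intro m
      by_cases hm : (T m).Nonempty
      · have hmem : φ m ∈ T m := by
          simp only [φ, hm, dif_pos]; exact Finset.min'_mem _ _
        have := Finset.card_erase_of_mem hmem
        have h2 := hT m
        show ((T m).erase (φ m)).card ≤ R
        omega
      · rw [Finset.not_nonempty_iff_eq_empty] at hm
        show ((T m).erase (φ m)).card ≤ R
        rw [hm]; simp
    have hsub : A.filter (fun a => f a ∈ T (g a)) ⊆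
        A.filter (fun a => f a = φ (g a)) ∪ A.filter (fun a => f a ∈ T' (g a)) := by
      intro a ha
      rw [Finset.mem_filter] at ha
      rw [Finset.mem_union, Finset.mem_filter, Finset.mem_filter]
      by_cases hc : f a = φ (g a)
      · exact Or.inl ⟨ha.1, hc⟩
      · exact Or.inr ⟨ha.1, Finset.mem_erase.mpr ⟨hc, ha.2⟩⟩
    have h1 := (Finset.card_le_card hsub).trans (Finset.card_union_le _ _)
    have h2 := h φ
    have h3 := ih T' hT'
    calc Q * (A.filter (fun a => f a ∈ T (g a))).card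
        ≤ Q * ((A.filter (fun a => f a = φ (g a))).card +
            (A.filter (fun a => f a ∈ T' (g a))).card) := Nat.mul_le_mul_left _ h1
      _ = Q * (A.filter (fun a => f a = φ (g a))).card +
            Q * (A.filter (fun a => f a ∈ T' (g a))).card := by ring
      _ ≤ A.card + R * A.card := Nat.add_le_add h2 h3
      _ = (R + 1) * A.card := by ring

/-- for a fixed sum, few valuations of the second summand occur -/
lemma card_val_le {p K : ℕ} (hp : p.Prime) (hK : 2 ≤ K) {D : Finset ℤ} {L : ℕ}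
    (hL : D.card < K ^ (L + 1)) (S : ℤ) (W : Finset (ℤ × ℤ))
    (hW : ∀ e ∈ W, e.1 ∈ D ∧ e.2 ≠ 0 ∧ e.1 + e.2 = S ∧ ¬ bad p K D e.1 (val p e.2)) :
    (W.image (fun e => val p e.2)).card ≤ L + 1 := by
  classical
  set V := W.image (fun e => val p e.2) with hV
  rcases V.eq_empty_or_nonempty with h0 | hne
  · rw [h0]; simp
  · have hmax := V.max'_mem hne
    set a := V.max' hne with ha
    rw [hV, Finset.mem_image] at hmax
    obtain ⟨e, he, hea⟩ := hmax
    obtain ⟨heD, he0, heS, -⟩ := hW e he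
    have hlight : ∀ i ∈ V.erase a, K * nd p D e.1 (i + 1) < nd p D e.1 i := by
      intro i hi
      rw [Finset.mem_erase] at hi
      have hi2 := hi.2
      rw [hV, Finset.mem_image] at hi2
      obtain ⟨e', he', he'i⟩ := hi2
      obtain ⟨he'D, he'0, he'S, hb⟩ := hW e' he'
      have hlt : i < a := lt_of_le_of_ne (V.le_max' i hi.2) hi.1
      have hsub : e'.1 - e.1 = e.2 - e'.2 := by (clear * - heS he'S; linarith only [heS, he'S])
      have h1 : (p : ℤ) ^ (i + 1) ∣ e.2 := (pow_dvd_iff_val hp he0 _).mpr (by omega)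
      have h2 : (p : ℤ) ^ i ∣ e'.2 := (pow_dvd_iff_val hp he'0 _).mpr (by omega)
      have h3 : ¬ (p : ℤ) ^ (i + 1) ∣ e'.2 := by
        rw [pow_dvd_iff_val hp he'0]; omega
      rw [he'i] at hb
      apply light_of_heavy (d := e'.1) _ _ hb
      · rw [hsub]
        exact dvd_sub ((pow_dvd_pow _ (Nat.le_succ i)).trans h1) h2
      · rw [hsub]
        intro h4
        apply h3
        have := dvd_sub h1 h4
        have e0 : e.2 - (e.2 - e'.2) = e'.2 := by ring
        rwa [e0] at this
    have h5 := card_light heD (V.erase a) hlight hL hK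
    have h6 := Finset.card_erase_of_mem (V.max'_mem hne)
    have h7 : (V.erase a).card = V.card - 1 := h6
    have h8 : 1 ≤ V.card := Finset.card_pos.mpr hne
    omega

end Pool.Agent.Helper5
end

/- Helper24.FF.H2.E0 -/
section
set_option autoImplicit false

/-!
Residue classes inside finite sets of integers, and some elementary inequalities.
-/

open Finset

namespace Pool.Agent.Helper2.E

open Pool.Agent.Helper5

/-- the class of `d` modulo `n` inside `E` -/
def cl (n : ℤ) (E : Finset ℤ) (d : ℤ) : Finset ℤ := E.filter (fun x => x % n = d % n)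

theorem mem_cl {n : ℤ} {E : Finset ℤ} {d x : ℤ} : x ∈ cl n E d ↔ x ∈ E ∧ x % n = d % n := by
  unfold cl; rw [mem_filter]

theorem cl_subset (n : ℤ) (E : Finset ℤ) (d : ℤ) : cl n E d ⊆ E := filter_subset _ _

theorem self_mem_cl {n : ℤ} {E : Finset ℤ} {d : ℤ} (h : d ∈ E) : d ∈ cl n E d :=
  mem_cl.2 ⟨h, rfl⟩

theorem cl_congr {n : ℤ} {E : Finset ℤ} {d d' : ℤ} (h : d % n = d' % n) : cl n E d = cl n E d' := by
  unfold cl; rw [h]

theorem emod_eq_of_dvd {a b n m : ℤ} (h : a % n = b % n) (hd : m ∣ n) : a % m = b % m := by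
  have h1 : n ∣ a - b := Int.emod_eq_emod_iff_emod_sub_eq_zero.1 h |> Int.dvd_of_emod_eq_zero
  exact Int.emod_eq_emod_iff_emod_sub_eq_zero.2 (Int.emod_eq_zero_of_dvd (hd.trans h1))

theorem emod_eq_iff_dvd {a b n : ℤ} : a % n = b % n ↔ n ∣ a - b := by
  rw [Int.emod_eq_emod_iff_emod_sub_eq_zero]
  exact ⟨Int.dvd_of_emod_eq_zero, Int.emod_eq_zero_of_dvd⟩

/-- a finer class taken inside a class is the finer class -/
theorem cl_cl {n m : ℤ} (hd : m ∣ n) {E : Finset ℤ} {d d₀ : ℤ} (h : d % m = d₀ % m) :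
    cl n (cl m E d₀) d = cl n E d := by
  ext x
  rw [mem_cl, mem_cl, mem_cl]
  constructor
  · rintro ⟨⟨h1, _⟩, h3⟩; exact ⟨h1, h3⟩
  · rintro ⟨h1, h3⟩
    exact ⟨⟨h1, (emod_eq_of_dvd h3 hd).trans h⟩, h3⟩

/-- if `E` lies in one class then the class is `E` -/
theorem cl_eq_self {n : ℤ} {E : Finset ℤ} {d : ℤ} (h : ∀ x ∈ E, x % n = d % n) : cl n E d = E := by
  ext x; rw [mem_cl]; exact ⟨fun hx => hx.1, fun hx => ⟨hx, h x hx⟩⟩

theorem cl_card_anti {p : ℕ} (E : Finset ℤ) (d : ℤ) {i j : ℕ} (h : i ≤ j) :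
    (cl ((p:ℤ) ^ j) E d).card ≤ (cl ((p:ℤ) ^ i) E d).card := by
  apply card_le_card
  intro x hx
  rw [mem_cl] at hx ⊢
  exact ⟨hx.1, emod_eq_of_dvd hx.2 (pow_dvd_pow _ h)⟩

/-- matching of the residues of `d` and of `m` when `d + u m` is fixed -/
theorem matching {p : ℕ} (hp : p.Prime) {u : ℕ} (hu : u ≠ 0) {d m d' m' : ℤ}
    (h : d + (u : ℤ) * m = d' + (u : ℤ) * m') (j : ℕ) :
    d % (p:ℤ) ^ (u.factorization p + j) = d' % (p:ℤ) ^ (u.factorization p + j) ↔
      m % (p:ℤ) ^ j = m' % (p:ℤ) ^ j := by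
  rw [emod_eq_iff_dvd, emod_eq_iff_dvd]
  have h1 : d - d' = (u : ℤ) * (m' - m) := by rw [mul_sub]; (clear * - h; linarith only [h])
  rw [h1]
  by_cases hz : m' - m = 0
  · have hz' : m - m' = 0 := by linarith only [hz]
    rw [hz, hz']; simp
  · have hz' : m - m' ≠ 0 := fun h => hz (by linarith only [h])
    have hu0 : (u : ℤ) ≠ 0 := by exact_mod_cast hu
    rw [pow_dvd_iff_val hp (mul_ne_zero hu0 hz), pow_dvd_iff_val hp hz',
      val_mul hu0 hz, val_natCast]
    have : val p (m' - m) = val p (m - m') := by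
      unfold Pool.Agent.Helper5.val
      rw [← Int.natAbs_neg, neg_sub]
    rw [this]
    omega

theorem bern {θ y : ℝ} (hθ0 : 0 ≤ θ) (hθ1 : θ ≤ 1) (hy0 : 0 ≤ y) :
    y ^ θ + θ * (1 - y) ≤ 1 := by
  have h := rpow_one_add_le_one_add_mul_self (s := y - 1) (by (clear * - hy0; linarith only [hy0])) hθ0 hθ1
  have e : 1 + (y - 1) = y := by ring
  rw [e] at h
  (clear * - h; linarith)

/-- sum over the decreasing steps of an antitone sequence -/
theorem sum_steps {f : ℕ → ℝ} (hf0 : ∀ i, 0 ≤ f i) (hf : Antitone f) {ρ lam : ℝ}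
    (hρ0 : 0 ≤ ρ) (hρ1 : ρ < 1) (hl : 0 < lam) (L : Finset ℕ)
    (hL : ∀ i ∈ L, f (i + 1) ≤ ρ * f i) :
    ∑ i ∈ L, (f i) ^ lam ≤ (1 / (1 - ρ ^ lam)) * (f 0) ^ lam := by
  have hρl : ρ ^ lam < 1 := Real.rpow_lt_one hρ0 hρ1 hl
  have hpos : 0 < 1 - ρ ^ lam := by linarith
  rw [div_mul_eq_mul_div, one_mul, le_div_iff₀ hpos]
  have hg : Antitone (fun i => (f i) ^ lam) := fun i j hij =>
    Real.rpow_le_rpow (hf0 j) (hf hij) hl.le
  obtain ⟨n, hn⟩ : ∃ n, L ⊆ range n := by
    refine ⟨L.sup id + 1, fun i hi => ?_⟩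
    rw [mem_range]
    have := Finset.le_sup (f := id) hi
    simp only [id] at this
    omega
  calc (∑ i ∈ L, (f i) ^ lam) * (1 - ρ ^ lam)
      = ∑ i ∈ L, (f i) ^ lam * (1 - ρ ^ lam) := by rw [sum_mul]
    _ ≤ ∑ i ∈ L, ((f i) ^ lam - (f (i + 1)) ^ lam) := by
        apply sum_le_sum
        intro i hi
        have h1 : (f (i + 1)) ^ lam ≤ ρ ^ lam * (f i) ^ lam := by
          rw [← Real.mul_rpow hρ0 (hf0 i)]
          exact Real.rpow_le_rpow (hf0 _) (hL i hi) hl.le
        linarith
    _ ≤ ∑ i ∈ range n, ((f i) ^ lam - (f (i + 1)) ^ lam) := by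
        apply sum_le_sum_of_subset_of_nonneg hn
        intro i _ _
        have := hg (Nat.le_succ i)
        simp only at this
        linarith
    _ = (f 0) ^ lam - (f n) ^ lam := by
        rw [Finset.sum_range_sub' (fun i => (f i) ^ lam)]
    _ ≤ (f 0) ^ lam := by
        have := Real.rpow_nonneg (hf0 n) lam
        linarith

end Pool.Agent.Helper2.E
end

/- Helper24.FF.H2.EFail -/
section
set_option autoImplicit false

/-!
The failing exponent vectors of a pair `(d, m)` and their number.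
-/

open Finset

namespace Pool.Agent.Helper2.E

open Pool.Agent.Helper5 hiding val

/-- `(d, m)` is stopped at every prime of the list -/
def Fail (η : ℝ) (v : ℕ → ℕ) : List ℕ → Finset ℤ → Finset ℤ → ℤ → ℤ → Prop
  | [], _, _, _, _ => True
  | (p :: J), E, M, d, m => ∃ i : ℕ,
      ((cl ((p:ℤ) ^ (v p + (i + 1))) E d).card : ℝ) ≤
        (1 - η) * ((cl ((p:ℤ) ^ (v p + i)) E d).card : ℝ) ∧
      2 * (cl ((p:ℤ) ^ (i + 1)) M m).card ≤ (cl ((p:ℤ) ^ i) M m).card ∧
      Fail η v J (cl ((p:ℤ) ^ (v p + i)) E d) (cl ((p:ℤ) ^ i) M m) d m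

/-- number of failing vectors -/
theorem fail_count {η lam : ℝ} (hη0 : 0 < η) (hη1 : η ≤ 1) (hl : 0 < lam) {ι : Type*}
    [DecidableEq ι] (v : ι → ℕ → ℕ) :
    ∀ (J : List ℕ) (E M : Finset ℤ) (d m : ℤ), d ∈ E → m ∈ M → ∀ V : Finset ι,
      (∀ u ∈ V, Fail η (v u) J E M d m) →
      (∀ u ∈ V, ∀ u' ∈ V, (∀ p ∈ J, v u p = v u' p) → u = u') →
      (V.card : ℝ) ≤ ((1 / (1 - (1 - η) ^ lam)) * (1 / (1 - (1 / 2 : ℝ) ^ lam))) ^ J.length *
        ((E.card : ℝ) ^ lam * (M.card : ℝ) ^ lam) := by
  intro J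
  induction J with
  | nil =>
    intro E M d m hd hm V _ hinj
    have h1 : V.card ≤ 1 := by
      rw [card_le_one]
      intro u hu u' hu'
      exact hinj u hu u' hu' (by simp)
    have h2 : (V.card : ℝ) ≤ 1 := by exact_mod_cast h1
    have hE : (1 : ℝ) ≤ E.card := by exact_mod_cast card_pos.2 ⟨d, hd⟩
    have hM : (1 : ℝ) ≤ M.card := by exact_mod_cast card_pos.2 ⟨m, hm⟩
    have h3 : (1:ℝ) ≤ (E.card : ℝ) ^ lam := Real.one_le_rpow hE hl.le
    have h4 : (1:ℝ) ≤ (M.card : ℝ) ^ lam := Real.one_le_rpow hM hl.le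
    simp only [List.length_nil, pow_zero, one_mul]
    nlinarith only [h2, h3, h4]
  | cons p J ih =>
    intro E M d m hd hm V hV hinj
    classical
    simp only [Fail] at hV
    choose! i hi1 hi2 hi3 using hV
    set l : ι → ℕ := fun u => v u p + i u with hldef
    set c₁ := 1 / (1 - (1 - η) ^ lam) with hc₁
    set c₂ := 1 / (1 - (1 / 2 : ℝ) ^ lam) with hc₂
    have hc₁0 : 0 < c₁ := by
      have : (1 - η) ^ lam < 1 := Real.rpow_lt_one (by linarith only [hη1]) (by linarith only [hη0]) hl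
      rw [hc₁]; apply one_div_pos.2; linarith only [this]
    have hc₂0 : 0 < c₂ := by
      have : (1 / 2 : ℝ) ^ lam < 1 := Real.rpow_lt_one (by norm_num) (by norm_num) hl
      rw [hc₂]; apply one_div_pos.2; linarith only [this]
    set T := (c₁ * c₂) ^ J.length with hT
    have hT0 : 0 ≤ T := by (clear * - hc₁0 hc₂0; positivity)
    let key : ι → ℕ × ℕ := fun u => (l u, i u)
    have hpart : (V.card : ℝ) = ∑ z ∈ V.image key, ((V.filter (fun u => key u = z)).card : ℝ) := by
      have := Finset.card_eq_sum_card_image key V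
      exact_mod_cast this
    have hsmall : ∀ z ∈ V.image key, ((V.filter (fun u => key u = z)).card : ℝ) ≤
        T * (((cl ((p:ℤ) ^ z.1) E d).card : ℝ) ^ lam * ((cl ((p:ℤ) ^ z.2) M m).card : ℝ) ^ lam) := by
      intro z _
      apply ih _ _ d m (self_mem_cl hd) (self_mem_cl hm)
      · intro u hu
        rw [mem_filter] at hu
        have h1 := hi3 u hu.1
        have e1 : l u = z.1 := congrArg Prod.fst hu.2
        have e2 : i u = z.2 := congrArg Prod.snd hu.2
        rw [← e1, ← e2]
        exact h1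
      · intro u hu u' hu' hJ
        rw [mem_filter] at hu hu'
        apply hinj u hu.1 u' hu'.1
        intro q hq
        rcases List.mem_cons.1 hq with rfl | hq
        · have e1 : l u = l u' := congrArg Prod.fst (hu.2.trans hu'.2.symm)
          have e2 : i u = i u' := congrArg Prod.snd (hu.2.trans hu'.2.symm)
          simp only [hldef] at e1
          omega
        · exact hJ q hq
    set Lset := V.image l with hLset
    set Iset := V.image i with hIset
    have hsub : V.image key ⊆ Lset ×ˢ Iset := by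
      intro z hz
      rw [mem_image] at hz
      obtain ⟨u, hu, rfl⟩ := hz
      exact mem_product.2 ⟨mem_image_of_mem _ hu, mem_image_of_mem _ hu⟩
    have hE := sum_steps (f := fun j => ((cl ((p:ℤ) ^ j) E d).card : ℝ)) (fun _ => Nat.cast_nonneg _)
      (fun a b hab => Nat.cast_le.2 (cl_card_anti (p := p) E d hab)) (ρ := 1 - η) (by linarith only [hη1])
      (by linarith only [hη0]) hl Lset (by
        intro j hj
        rw [hLset, mem_image] at hj
        obtain ⟨u, hu, rfl⟩ := hj
        exact hi1 u hu)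
    have hM := sum_steps (f := fun j => ((cl ((p:ℤ) ^ j) M m).card : ℝ)) (fun _ => Nat.cast_nonneg _)
      (fun a b hab => Nat.cast_le.2 (cl_card_anti (p := p) M m hab)) (ρ := 1 / 2) (by norm_num)
      (by norm_num) hl Iset (by
        intro j hj
        rw [hIset, mem_image] at hj
        obtain ⟨u, hu, rfl⟩ := hj
        have := hi2 u hu
        have h' : (2:ℝ) * ((cl ((p:ℤ) ^ (i u + 1)) M m).card : ℝ) ≤
          ((cl ((p:ℤ) ^ (i u)) M m).card : ℝ) := by exact_mod_cast this
        linarith only [h'])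
    simp only [pow_zero] at hE hM
    have hE1 : cl (1:ℤ) E d = E := cl_eq_self (fun x _ => by simp)
    have hM1 : cl (1:ℤ) M m = M := cl_eq_self (fun x _ => by simp)
    rw [hE1, ← hc₁] at hE
    rw [hM1, ← hc₂] at hM
    calc (V.card : ℝ) = ∑ z ∈ V.image key, ((V.filter (fun u => key u = z)).card : ℝ) := hpart
      _ ≤ ∑ z ∈ V.image key, T * (((cl ((p:ℤ) ^ z.1) E d).card : ℝ) ^ lam *
            ((cl ((p:ℤ) ^ z.2) M m).card : ℝ) ^ lam) := sum_le_sum hsmall
      _ ≤ ∑ z ∈ Lset ×ˢ Iset, T * (((cl ((p:ℤ) ^ z.1) E d).card : ℝ) ^ lam *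
            ((cl ((p:ℤ) ^ z.2) M m).card : ℝ) ^ lam) := by
          apply sum_le_sum_of_subset_of_nonneg hsub
          intro z _ _
          (clear * - hc₁0 hc₂0; positivity)
      _ = T * ((∑ a ∈ Lset, ((cl ((p:ℤ) ^ a) E d).card : ℝ) ^ lam) *
            ∑ b ∈ Iset, ((cl ((p:ℤ) ^ b) M m).card : ℝ) ^ lam) := by
          rw [sum_product, sum_mul_sum, mul_sum]
          apply sum_congr rfl
          intro a _
          rw [mul_sum]
      _ ≤ T * ((c₁ * (E.card : ℝ) ^ lam) * (c₂ * (M.card : ℝ) ^ lam)) := by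
          apply mul_le_mul_of_nonneg_left _ hT0
          apply mul_le_mul hE hM (sum_nonneg fun _ _ => by (clear * -; positivity)) (by (clear * - hc₁0; positivity))
      _ = _ := by
          rw [hT, List.length_cons, pow_succ]
          ring

end Pool.Agent.Helper2.E
end

/- Helper24.FF.H2.EGlue -/
section
set_option autoImplicit false

/-!
Weights on `E × M` whose sums over the solutions of `d + u m = x` are at most one, and the two
gluing steps.
-/

open Finset

namespace Pool.Agent.Helper2.E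

/-- admissible weights on `E × M` for the multiplier `u` -/
structure Adm (u : ℕ) (E M : Finset ℤ) (W : ℤ → ℤ → ℝ) : Prop where
  pos : ∀ d ∈ E, ∀ m ∈ M, 0 < W d m
  ker : ∀ x : ℤ, ∑ e ∈ (E ×ˢ M).filter (fun e => e.1 + (u:ℤ) * e.2 = x), W e.1 e.2 ≤ 1

open Classical in
/-- there are admissible weights of small cost, up to failing elements -/
def Good (θ Λ T : ℝ) (u : ℕ) (E M : Finset ℤ) (F : ℤ → ℤ → Prop) : Prop :=
  ∃ W : ℤ → ℤ → ℝ, Adm u E M W ∧ ∀ m ∈ M, -∑ d ∈ E, Real.log (W d m) ≤
    (E.card : ℝ) * (θ * Real.log E.card + 2 * θ * Real.log M.card + T) +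
      Λ * ((E.filter (fun d => F d m)).card : ℝ)

theorem Good.mono {θ Λ T : ℝ} (hΛ : 0 ≤ Λ) {u : ℕ} {E M : Finset ℤ} {F F' : ℤ → ℤ → Prop}
    (h : Good θ Λ T u E M F) (hF : ∀ d ∈ E, ∀ m ∈ M, F d m → F' d m) : Good θ Λ T u E M F' := by
  classical
  obtain ⟨W, h1, h2⟩ := h
  refine ⟨W, h1, fun m hm => (h2 m hm).trans ?_⟩
  have : ((E.filter (fun d => F d m)).card : ℝ) ≤ ((E.filter (fun d => F' d m)).card : ℝ) := by
    apply Nat.cast_le.2
    apply card_le_card
    intro d hd
    rw [mem_filter] at hd ⊢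
    exact ⟨hd.1, hF d hd.1 m hm hd.2⟩
  have := mul_le_mul_of_nonneg_left this hΛ
  (clear * - this; linarith only [this])

/-- the classes met by the solutions form a partial matching -/
theorem glue {u : ℕ} {E M : Finset ℤ} {α β : ℤ → ℤ}
    (hmatch : ∀ d ∈ E, ∀ m ∈ M, ∀ d' ∈ E, ∀ m' ∈ M,
      d + (u:ℤ) * m = d' + (u:ℤ) * m' → (α d = α d' ↔ β m = β m'))
    {W' : ℤ → ℤ → ℤ → ℤ → ℝ}
    (hW : ∀ a ∈ E.image α, ∀ b ∈ M.image β,
      Adm u (E.filter (fun d => α d = a)) (M.filter (fun m => β m = b)) (W' a b))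
    (q : ℤ → ℤ → ℝ) (hq : ∀ a b, 0 ≤ q a b) (x : ℤ) :
    ∃ K : Finset (ℤ × ℤ), K ⊆ (E.image α) ×ˢ (M.image β) ∧
      (∀ z ∈ K, ∀ z' ∈ K, (z.1 = z'.1 ↔ z.2 = z'.2)) ∧
      ∑ e ∈ (E ×ˢ M).filter (fun e => e.1 + (u:ℤ) * e.2 = x),
        q (α e.1) (β e.2) * W' (α e.1) (β e.2) e.1 e.2 ≤ ∑ z ∈ K, q z.1 z.2 := by
  classical
  set S := (E ×ˢ M).filter (fun e => e.1 + (u:ℤ) * e.2 = x) with hS
  let key : ℤ × ℤ → ℤ × ℤ := fun e => (α e.1, β e.2)
  refine ⟨S.image key, ?_, ?_, ?_⟩
  · intro z hz
    rw [mem_image] at hz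
    obtain ⟨e, he, rfl⟩ := hz
    rw [hS, mem_filter, mem_product] at he
    exact mem_product.2 ⟨mem_image_of_mem _ he.1.1, mem_image_of_mem _ he.1.2⟩
  · intro z hz z' hz'
    rw [mem_image] at hz hz'
    obtain ⟨e, he, rfl⟩ := hz
    obtain ⟨e', he', rfl⟩ := hz'
    rw [hS, mem_filter, mem_product] at he he'
    exact hmatch e.1 he.1.1 e.2 he.1.2 e'.1 he'.1.1 e'.2 he'.1.2 (he.2.trans he'.2.symm)
  · rw [← Finset.sum_fiberwise_of_maps_to (t := S.image key) (g := key)
      (fun e he => mem_image_of_mem _ he)]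
    apply sum_le_sum
    intro z hz
    have hz' : z.1 ∈ E.image α ∧ z.2 ∈ M.image β := by
      rw [mem_image] at hz
      obtain ⟨e, he, rfl⟩ := hz
      rw [hS, mem_filter, mem_product] at he
      exact ⟨mem_image_of_mem _ he.1.1, mem_image_of_mem _ he.1.2⟩
    have hA := hW z.1 hz'.1 z.2 hz'.2
    calc ∑ e ∈ S.filter (fun e => key e = z), q (α e.1) (β e.2) * W' (α e.1) (β e.2) e.1 e.2
        = ∑ e ∈ S.filter (fun e => key e = z), q z.1 z.2 * W' z.1 z.2 e.1 e.2 := by
          apply sum_congr rfl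
          intro e he
          rw [mem_filter] at he
          have e1 : α e.1 = z.1 := congrArg Prod.fst he.2
          have e2 : β e.2 = z.2 := congrArg Prod.snd he.2
          rw [e1, e2]
      _ = q z.1 z.2 * ∑ e ∈ S.filter (fun e => key e = z), W' z.1 z.2 e.1 e.2 := by
          rw [mul_sum]
      _ ≤ q z.1 z.2 * 1 := by
          apply mul_le_mul_of_nonneg_left _ (hq _ _)
          refine le_trans ?_ (hA.ker x)
          apply sum_le_sum_of_subset_of_nonneg
          · intro e he
            rw [mem_filter, hS, mem_filter, mem_product] at he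
            have e1 : α e.1 = z.1 := congrArg Prod.fst he.2
            have e2 : β e.2 = z.2 := congrArg Prod.snd he.2
            rw [mem_filter, mem_product, mem_filter, mem_filter]
            exact ⟨⟨⟨he.1.1.1, e1⟩, ⟨he.1.1.2, e2⟩⟩, he.1.2⟩
          · intro e he _
            rw [mem_filter, mem_product] at he
            exact (hA.pos e.1 he.1.1 e.2 he.1.2).le
      _ = q z.1 z.2 := mul_one _

/-- cost of glued weights -/
theorem cost_glue {E : Finset ℤ} {α : ℤ → ℤ} (c : ℤ → ℝ) (w : ℤ → ℤ → ℝ)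
    (hc : ∀ a ∈ E.image α, 0 < c a) (hw : ∀ a ∈ E.image α, ∀ d ∈ E, α d = a → 0 < w a d) :
    -∑ d ∈ E, Real.log (c (α d) * w (α d) d) =
      ∑ a ∈ E.image α, (((E.filter (fun d => α d = a)).card : ℝ) * (-Real.log (c a)) +
        (-∑ d ∈ E.filter (fun d => α d = a), Real.log (w a d))) := by
  classical
  rw [← Finset.sum_fiberwise_of_maps_to (t := E.image α) (g := α)
      (fun e he => mem_image_of_mem _ he), ← sum_neg_distrib]
  apply sum_congr rfl
  intro a ha
  have : ∀ d ∈ E.filter (fun d => α d = a), Real.log (c (α d) * w (α d) d) =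
      Real.log (c a) + Real.log (w a d) := by
    intro d hd
    rw [mem_filter] at hd
    rw [hd.2, Real.log_mul (hc a ha).ne' (hw a ha d hd.1 hd.2).ne']
  rw [sum_congr rfl this, sum_add_distrib, sum_const, nsmul_eq_mul]
  ring

/-- a class is at most everything -/
theorem card_class_sum (E : Finset ℤ) (α : ℤ → ℤ) :
    ∑ a ∈ E.image α, ((E.filter (fun d => α d = a)).card : ℝ) = E.card := by
  classical
  have := Finset.card_eq_sum_card_image α E
  exact_mod_cast this.symm

open Classical in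
theorem fail_class_sum (E : Finset ℤ) (α : ℤ → ℤ) (F : ℤ → Prop) :
    ∑ a ∈ E.image α, (((E.filter (fun d => α d = a)).filter (fun d => F d)).card : ℝ) =
      ((E.filter (fun d => F d)).card : ℝ) := by
  have h1 : (E.filter (fun d => F d)).card =
      ∑ a ∈ E.image α, ((E.filter (fun d => F d)).filter (fun d => α d = a)).card := by
    apply Finset.card_eq_sum_card_fiberwise
    intro d hd
    rw [mem_coe, mem_filter] at hd
    exact mem_coe.2 (mem_image_of_mem _ hd.1)
  rw [h1]
  push_cast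
  apply sum_congr rfl
  intro a _
  congr 2
  ext d
  simp only [mem_filter]
  tauto

/-- **Type H step**: one class of `E` is heavy. -/
theorem stepH {θ η Λ T : ℝ} (hθ0 : 0 < θ) (hθ1 : θ ≤ 1) (hη0 : 0 < η) (hηθ : η ≤ θ)
    (hη : θ * Real.log η = Real.log θ) {u : ℕ} {E M : Finset ℤ} {α β : ℤ → ℤ}
    (hM : M.Nonempty)
    (hmatch : ∀ d ∈ E, ∀ m ∈ M, ∀ d' ∈ E, ∀ m' ∈ M,
      d + (u:ℤ) * m = d' + (u:ℤ) * m' → (α d = α d' ↔ β m = β m'))
    {F : ℤ → ℤ → Prop}
    (hsub : ∀ a ∈ E.image α, ∀ b ∈ M.image β,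
      Good θ Λ T u (E.filter (fun d => α d = a)) (M.filter (fun m => β m = b)) F)
    {h : ℤ} (hh : h ∈ E.image α)
    (hheavy : (1 - η) * (E.card : ℝ) ≤ ((E.filter (fun d => α d = h)).card : ℝ)) :
    Good θ Λ T u E M F := by
  classical
  choose! W hW hcost using hsub
  set s : ℤ → ℝ := fun b => ((M.filter (fun m => β m = b)).card : ℝ) / M.card with hs
  have hMpos : (0:ℝ) < M.card := by exact_mod_cast card_pos.2 hM
  have hs0 : ∀ b, 0 ≤ s b := fun b => by (clear * - hM; positivity)
  have hspos : ∀ b ∈ M.image β, 0 < s b := by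
    intro b hb
    obtain ⟨m, hm, rfl⟩ := mem_image.1 hb
    have : 0 < (M.filter (fun m' => β m' = β m)).card := card_pos.2 ⟨m, mem_filter.2 ⟨hm, rfl⟩⟩
    have : (0:ℝ) < ((M.filter (fun m' => β m' = β m)).card : ℝ) := by exact_mod_cast this
    positivity
  have hs1 : ∑ b ∈ M.image β, s b = 1 := by
    rw [hs, ← sum_div, card_class_sum, div_self hMpos.ne']
  let q : ℤ → ℤ → ℝ := fun a b => if a = h then (s b) ^ θ else θ * s b
  have hq0 : ∀ a b, 0 ≤ q a b := by
    intro a b
    simp only [q]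
    split_ifs
    · exact Real.rpow_nonneg (hs0 b) _
    · exact mul_nonneg hθ0.le (hs0 b)
  have hqpos : ∀ a, ∀ b ∈ M.image β, 0 < q a b := by
    intro a b hb
    simp only [q]
    split_ifs
    · exact Real.rpow_pos_of_pos (hspos b hb) _
    · exact mul_pos hθ0 (hspos b hb)
  refine ⟨fun d m => q (α d) (β m) * W (α d) (β m) d m, ⟨?_, ?_⟩, ?_⟩
  · intro d hd m hm
    exact mul_pos (hqpos _ _ (mem_image_of_mem _ hm))
      ((hW _ (mem_image_of_mem _ hd) _ (mem_image_of_mem _ hm)).pos d
        (mem_filter.2 ⟨hd, rfl⟩) m (mem_filter.2 ⟨hm, rfl⟩))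
  · intro x
    obtain ⟨K, hK1, hK2, hK3⟩ := glue hmatch hW q hq0 x
    refine hK3.trans ?_
    rw [← sum_filter_add_sum_filter_not K (fun z => z.1 = h)]
    have hinj : Set.InjOn Prod.snd (K : Set (ℤ × ℤ)) := by
      intro z hz z' hz' hzz
      exact Prod.ext ((hK2 z hz z' hz').2 hzz) hzz
    have hlight : ∑ z ∈ K.filter (fun z => ¬ z.1 = h), q z.1 z.2 =
        θ * ∑ b ∈ (K.filter (fun z => ¬ z.1 = h)).image Prod.snd, s b := by
      rw [sum_image (fun z hz z' hz' => hinj (mem_filter.1 hz).1 (mem_filter.1 hz').1), mul_sum]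
      apply sum_congr rfl
      intro z hz
      simp only [q]
      rw [if_neg (mem_filter.1 hz).2]
    have himg : (K.filter (fun z => ¬ z.1 = h)).image Prod.snd ⊆ M.image β := by
      intro b hb
      obtain ⟨z, hz, rfl⟩ := mem_image.1 hb
      exact (mem_product.1 (hK1 (mem_filter.1 hz).1)).2
    rw [hlight]
    rcases (K.filter (fun z => z.1 = h)).eq_empty_or_nonempty with h0 | ⟨z₀, hz₀⟩
    · rw [h0, sum_empty, zero_add]
      calc θ * ∑ b ∈ (K.filter (fun z => ¬ z.1 = h)).image Prod.snd, s b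
          ≤ θ * ∑ b ∈ M.image β, s b := by
            apply mul_le_mul_of_nonneg_left _ hθ0.le
            exact sum_le_sum_of_subset_of_nonneg himg (fun b _ _ => hs0 b)
        _ = θ := by rw [hs1, mul_one]
        _ ≤ 1 := hθ1
    · have h1 : K.filter (fun z => z.1 = h) = {z₀} := by
        ext z
        rw [mem_singleton]
        constructor
        · intro hz
          rw [mem_filter] at hz hz₀
          exact Prod.ext (hz.2.trans hz₀.2.symm)
            ((hK2 z hz.1 z₀ hz₀.1).1 (hz.2.trans hz₀.2.symm))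
        · rintro rfl; exact hz₀
      rw [h1, sum_singleton]
      rw [mem_filter] at hz₀
      have h2 : q z₀.1 z₀.2 = (s z₀.2) ^ θ := by simp only [q]; rw [if_pos hz₀.2]
      have hb₀ : z₀.2 ∈ M.image β := (mem_product.1 (hK1 hz₀.1)).2
      have h3 : ∑ b ∈ (K.filter (fun z => ¬ z.1 = h)).image Prod.snd, s b ≤ 1 - s z₀.2 := by
        rw [← hs1, ← add_sum_erase _ _ hb₀]
        have : ∑ b ∈ (K.filter (fun z => ¬ z.1 = h)).image Prod.snd, s b ≤
            ∑ b ∈ (M.image β).erase z₀.2, s b := by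
          apply sum_le_sum_of_subset_of_nonneg _ (fun b _ _ => hs0 b)
          intro b hb
          rw [mem_erase]
          refine ⟨?_, himg hb⟩
          rintro rfl
          obtain ⟨z, hz, hzz⟩ := mem_image.1 hb
          rw [mem_filter] at hz
          exact hz.2 (((hK2 z hz.1 z₀ hz₀.1).2 hzz).trans hz₀.2)
        linarith only [this]
      rw [h2]
      have h4 := bern hθ0.le hθ1 (hs0 z₀.2)
      have h5 := mul_le_mul_of_nonneg_left h3 hθ0.le
      linarith only [h4, h5]
  · intro m hm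
    have hb : β m ∈ M.image β := mem_image_of_mem _ hm
    set b := β m with hbdef
    have hE0 : E.Nonempty := by
      obtain ⟨d, hd, _⟩ := mem_image.1 hh
      exact ⟨d, hd⟩
    have hEpos : (0:ℝ) < E.card := by exact_mod_cast card_pos.2 hE0
    rw [cost_glue (fun a => q a b) (fun a d => W a b d m) (fun a _ => hqpos a b hb)
      (fun a ha d hd hda => (hW a ha b hb).pos d (mem_filter.2 ⟨hd, hda⟩) m
        (mem_filter.2 ⟨hm, rfl⟩))]
    set n : ℤ → ℝ := fun a => ((E.filter (fun d => α d = a)).card : ℝ) with hn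
    have hn1 : ∀ a ∈ E.image α, 1 ≤ n a := by
      intro a ha
      obtain ⟨d, hd, rfl⟩ := mem_image.1 ha
      have : 0 < (E.filter (fun d' => α d' = α d)).card := card_pos.2 ⟨d, mem_filter.2 ⟨hd, rfl⟩⟩
      simp only [hn]
      exact_mod_cast this
    have hnsum : ∑ a ∈ E.image α, n a = E.card := card_class_sum E α
    have hnle : ∀ a, n a ≤ E.card := fun a => by
      simp only [hn]; exact_mod_cast card_le_card (filter_subset _ _)
    have hMb : Real.log ((M.filter (fun m' => β m' = b)).card : ℝ) =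
        Real.log M.card + Real.log (s b) := by
      rw [← Real.log_mul hMpos.ne' (hspos b hb).ne']
      congr 1
      simp only [hs]
      (clear * - hM; field_simp)
    have hsle : s b ≤ 1 := by
      rw [← hs1]
      exact single_le_sum (fun b _ => hs0 b) hb
    have hlogs : Real.log (s b) ≤ 0 := Real.log_nonpos (hs0 b) hsle
    have hlogη : Real.log η ≤ 0 := Real.log_nonpos hη0.le (hηθ.trans hθ1)
    -- bound for each class
    have hterm : ∀ a ∈ E.image α, n a * (-Real.log (q a b)) +
        (-∑ d ∈ E.filter (fun d => α d = a), Real.log (W a b d m)) ≤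
        n a * (θ * Real.log E.card + 2 * θ * Real.log M.card + T) +
        (n a * (2 * θ * Real.log (s b)) - n a * (θ * Real.log (s b)) -
          (if a = h then 0 else n a * ((1 - θ) * Real.log (s b)))) +
        Λ * (((E.filter (fun d => α d = a)).filter (fun d => F d m)).card : ℝ) := by
      intro a ha
      have h1 := hcost a ha b hb m (mem_filter.2 ⟨hm, rfl⟩)
      rw [hMb] at h1
      have hna : 0 < n a := lt_of_lt_of_le one_pos (hn1 a ha)
      have h2 : Real.log (n a) ≤ Real.log E.card := Real.log_le_log hna (hnle a)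
      by_cases hah : a = h
      · rw [if_pos hah]
        have h3 : q a b = (s b) ^ θ := by simp only [q]; rw [if_pos hah]
        rw [h3, Real.log_rpow (hspos b hb)]
        have h4 : n a * (θ * Real.log (n a)) ≤ n a * (θ * Real.log E.card) := by (clear * - h2 hθ0 hna; gcongr)
        have h5 : n a * (θ * Real.log (n a) + 2 * θ * (Real.log M.card + Real.log (s b)) + T) =
          n a * (θ * Real.log (n a)) + n a * (2 * θ * Real.log M.card) +
          n a * (2 * θ * Real.log (s b)) + n a * T := by ring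
        have h6 : (-∑ d ∈ E.filter (fun d => α d = a), Real.log (W a b d m)) ≤
          n a * (θ * Real.log (n a) + 2 * θ * (Real.log M.card + Real.log (s b)) + T) +
          Λ * (((E.filter (fun d => α d = a)).filter (fun d => F d m)).card : ℝ) := h1
        rw [h5] at h6
        linarith only [h4, h6]
      · rw [if_neg hah]
        have h3 : q a b = θ * s b := by simp only [q]; rw [if_neg hah]
        rw [h3, Real.log_mul hθ0.ne' (hspos b hb).ne']
        have h2' : Real.log (n a) ≤ Real.log E.card + Real.log η := by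
          rw [← Real.log_mul hEpos.ne' hη0.ne']
          apply Real.log_le_log hna
          have h7 : n a + n h ≤ E.card := by
            rw [← hnsum]
            have := Finset.add_le_sum (s := E.image α) (f := n) (i := a) (j := h)
              (fun c hc => (zero_le_one.trans (hn1 c hc))) ha hh hah
            exact this
          have h8 : (1 - η) * (E.card : ℝ) ≤ n h := hheavy
          linarith only [h7, h8]
        have h4 : n a * (θ * Real.log (n a)) ≤
            n a * (θ * (Real.log E.card + Real.log η)) := by (clear * - h2' hθ0 hna; gcongr)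
        have h5 : n a * (θ * Real.log (n a) + 2 * θ * (Real.log M.card + Real.log (s b)) + T) =
          n a * (θ * Real.log (n a)) + n a * (2 * θ * Real.log M.card) +
          n a * (2 * θ * Real.log (s b)) + n a * T := by ring
        have h6 : (-∑ d ∈ E.filter (fun d => α d = a), Real.log (W a b d m)) ≤
          n a * (θ * Real.log (n a) + 2 * θ * (Real.log M.card + Real.log (s b)) + T) +
          Λ * (((E.filter (fun d => α d = a)).filter (fun d => F d m)).card : ℝ) := h1
        rw [h5] at h6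
        have h9 : n a * (θ * (Real.log E.card + Real.log η)) =
          n a * (θ * Real.log E.card) + n a * Real.log θ := by rw [mul_add θ, hη]; ring
        rw [h9] at h4
        linarith only [h4, h6]
    refine (sum_le_sum hterm).trans ?_
    rw [sum_add_distrib, sum_add_distrib, ← sum_mul, hnsum, ← mul_sum,
      fail_class_sum E α (fun d => F d m)]
    have hmid : ∑ a ∈ E.image α, (n a * (2 * θ * Real.log (s b)) - n a * (θ * Real.log (s b)) -
          (if a = h then 0 else n a * ((1 - θ) * Real.log (s b)))) ≤ 0 := by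
      rw [sum_sub_distrib, sum_sub_distrib, ← sum_mul, ← sum_mul, hnsum]
      have h1 : ∑ a ∈ E.image α, (if a = h then 0 else n a * ((1 - θ) * Real.log (s b))) =
          ((E.card : ℝ) - n h) * ((1 - θ) * Real.log (s b)) := by
        rw [← hnsum, ← add_sum_erase _ _ hh, ← add_sum_erase _ _ hh, if_pos rfl]
        have : ∀ a ∈ (E.image α).erase h, (if a = h then 0 else
            n a * ((1 - θ) * Real.log (s b))) = n a * ((1 - θ) * Real.log (s b)) := by
          intro a ha
          rw [if_neg (ne_of_mem_erase ha)]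
        rw [sum_congr rfl this, ← sum_mul]
        ring
      rw [h1]
      have h2 : (1 - η) * (E.card : ℝ) ≤ n h := hheavy
      have h3 : ((E.card : ℝ) - n h) * (1 - θ) ≤ θ * E.card := by
        have h4 : (E.card : ℝ) - n h ≤ η * E.card := by linarith only [h2]
        have h5 : 0 ≤ (E.card : ℝ) - n h := by linarith only [hnle h]
        have h6 : η * (E.card : ℝ) ≤ θ * E.card := by (clear * - hηθ hE0; gcongr)
        (clear * - h4 h6 hEpos h5; nlinarith only [hEpos, h4, h5, h6])
      nlinarith only [hlogs, h3]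
    linarith only [hmid]

end Pool.Agent.Helper2.E
end

/- Helper24.FF.H2.EStepB -/
section
set_option autoImplicit false

/-!
The second gluing step and the induction over levels and primes.
-/

open Finset

namespace Pool.Agent.Helper2.E

theorem add_bound {x y z w t : ℝ} (h1 : x ≤ y + z) (h2 : y ≤ w + t) : -t + x ≤ w + z := by
  linarith

/-- **Type B step**: no class of `E` is heavy. -/
theorem stepB {θ η Λ T T' : ℝ} (hθ0 : 0 < θ) (hη0 : 0 < η) (hη1 : η < 1)
    (hT : T' + -Real.log (1 - (1 - η) ^ θ) ≤ T) {u : ℕ} {E M : Finset ℤ} {α β : ℤ → ℤ}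
    (hE : E.Nonempty) (hM : M.Nonempty)
    (hmatch : ∀ d ∈ E, ∀ m ∈ M, ∀ d' ∈ E, ∀ m' ∈ M,
      d + (u:ℤ) * m = d' + (u:ℤ) * m' → (α d = α d' ↔ β m = β m'))
    {F F' : ℤ → ℤ → Prop} (hΛ : 0 ≤ Λ)
    (hsub : ∀ a ∈ E.image α, ∀ b ∈ M.image β,
      Good θ Λ T u (E.filter (fun d => α d = a)) (M.filter (fun m => β m = b)) F)
    (hlight : ∀ a ∈ E.image α,
      ((E.filter (fun d => α d = a)).card : ℝ) ≤ (1 - η) * (E.card : ℝ))
    (hnext : Good θ Λ T' u E M F')
    (hFF : ∀ d ∈ E, ∀ m ∈ M, 2 * (M.filter (fun m' => β m' = β m)).card ≤ M.card →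
      F' d m → F d m) :
    Good θ Λ T u E M F := by
  classical
  choose! W hW hcost using hsub
  obtain ⟨W', hW', hcost'⟩ := hnext
  have hρ0 : 0 < 1 - η := by linarith only [hη1]
  set ρ := (1 - η) ^ θ with hρ
  have hρpos : 0 < ρ := Real.rpow_pos_of_pos hρ0 _
  have hρ1 : ρ < 1 := Real.rpow_lt_one hρ0.le (by (clear * - hη0; linarith)) hθ0
  have hMpos : (0:ℝ) < M.card := by exact_mod_cast card_pos.2 hM
  have hEpos : (0:ℝ) < E.card := by exact_mod_cast card_pos.2 hE
  let heavy : ℤ → Prop := fun b => M.card < 2 * (M.filter (fun m' => β m' = b)).card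
  have huniq : ∀ b b', heavy b → heavy b' → b = b' := by
    intro b b' hb hb'
    by_contra hne
    have hdis : Disjoint (M.filter (fun m' => β m' = b)) (M.filter (fun m' => β m' = b')) := by
      rw [disjoint_left]
      intro m hm hm'
      rw [mem_filter] at hm hm'
      exact hne (hm.2.symm.trans hm'.2)
    have h1 := card_union_of_disjoint hdis
    have h2 : (M.filter (fun m' => β m' = b) ∪ M.filter (fun m' => β m' = b')).card ≤ M.card :=
      card_le_card (union_subset (filter_subset _ _) (filter_subset _ _))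
    simp only [heavy] at hb hb'
    omega
  let q : ℤ → ℤ → ℝ := fun _ b => if heavy b then ρ else 0
  have hq0 : ∀ a b, 0 ≤ q a b := by
    intro a b
    simp only [q]
    split_ifs
    · exact hρpos.le
    · exact le_rfl
  refine ⟨fun d m => if heavy (β m) then ρ * W (α d) (β m) d m else (1 - ρ) * W' d m,
    ⟨?_, ?_⟩, ?_⟩
  · intro d hd m hm
    split_ifs
    · exact mul_pos hρpos ((hW _ (mem_image_of_mem _ hd) _ (mem_image_of_mem _ hm)).pos d
        (mem_filter.2 ⟨hd, rfl⟩) m (mem_filter.2 ⟨hm, rfl⟩))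
    · exact mul_pos (by linarith only [hρ1]) (hW'.pos d hd m hm)
  · intro x
    obtain ⟨K, hK1, hK2, hK3⟩ := glue hmatch hW q hq0 x
    have h1 : ∑ e ∈ (E ×ˢ M).filter (fun e => e.1 + (u:ℤ) * e.2 = x),
        (if heavy (β e.2) then ρ * W (α e.1) (β e.2) e.1 e.2 else (1 - ρ) * W' e.1 e.2) ≤
        (∑ e ∈ (E ×ˢ M).filter (fun e => e.1 + (u:ℤ) * e.2 = x),
          q (α e.1) (β e.2) * W (α e.1) (β e.2) e.1 e.2) +
        (1 - ρ) * ∑ e ∈ (E ×ˢ M).filter (fun e => e.1 + (u:ℤ) * e.2 = x), W' e.1 e.2 := by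
      rw [mul_sum, ← sum_add_distrib]
      apply sum_le_sum
      intro e he
      rw [mem_filter, mem_product] at he
      have hp := hW'.pos e.1 he.1.1 e.2 he.1.2
      simp only [q]
      split_ifs
      · have := mul_nonneg (by linarith only [hρ1] : (0:ℝ) ≤ 1 - ρ) hp.le
        linarith only [this]
      · rw [zero_mul, zero_add]
    have h2 : ∑ z ∈ K, q z.1 z.2 ≤ ρ := by
      rw [← sum_filter_add_sum_filter_not K (fun z => heavy z.2)]
      have h3 : ∑ z ∈ K.filter (fun z => ¬ heavy z.2), q z.1 z.2 = 0 := by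
        apply sum_eq_zero
        intro z hz
        simp only [q]
        rw [if_neg (mem_filter.1 hz).2]
      have h4 : ∑ z ∈ K.filter (fun z => heavy z.2), q z.1 z.2 =
          ((K.filter (fun z => heavy z.2)).card : ℝ) * ρ := by
        rw [← nsmul_eq_mul, ← sum_const]
        apply sum_congr rfl
        intro z hz
        simp only [q]
        rw [if_pos (mem_filter.1 hz).2]
      have h5 : (K.filter (fun z => heavy z.2)).card ≤ 1 := by
        rw [card_le_one]
        intro z hz z' hz'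
        rw [mem_filter] at hz hz'
        have e2 := huniq _ _ hz.2 hz'.2
        exact Prod.ext ((hK2 z hz.1 z' hz'.1).2 e2) e2
      have h6 : ((K.filter (fun z => heavy z.2)).card : ℝ) ≤ 1 := by exact_mod_cast h5
      rw [h3, h4, add_zero]
      (clear * - hρpos h6; nlinarith only [hρpos, h6])
    have h7 := hW'.ker x
    have h8 : (1 - ρ) * ∑ e ∈ (E ×ˢ M).filter (fun e => e.1 + (u:ℤ) * e.2 = x), W' e.1 e.2 ≤
        (1 - ρ) * 1 := mul_le_mul_of_nonneg_left h7 (by linarith)
    linarith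
  · intro m hm
    have hb : β m ∈ M.image β := mem_image_of_mem _ hm
    by_cases hhv : heavy (β m)
    · simp only [if_pos hhv]
      set b := β m with hbdef
      rw [cost_glue (fun _ => ρ) (fun a d => W a b d m) (fun _ _ => hρpos)
        (fun a ha d hd hda => (hW a ha b hb).pos d (mem_filter.2 ⟨hd, hda⟩) m
          (mem_filter.2 ⟨hm, rfl⟩))]
      set n : ℤ → ℝ := fun a => ((E.filter (fun d => α d = a)).card : ℝ) with hn
      have hn1 : ∀ a ∈ E.image α, 1 ≤ n a := by
        intro a ha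
        obtain ⟨d, hd, rfl⟩ := mem_image.1 ha
        have : 0 < (E.filter (fun d' => α d' = α d)).card :=
          card_pos.2 ⟨d, mem_filter.2 ⟨hd, rfl⟩⟩
        simp only [hn]
        exact_mod_cast this
      have hnsum : ∑ a ∈ E.image α, n a = E.card := card_class_sum E α
      have hMb : Real.log ((M.filter (fun m' => β m' = b)).card : ℝ) ≤ Real.log M.card := by
        apply Real.log_le_log
        · have : 0 < (M.filter (fun m' => β m' = b)).card :=
            card_pos.2 ⟨m, mem_filter.2 ⟨hm, rfl⟩⟩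
          exact_mod_cast this
        · exact_mod_cast card_le_card (filter_subset _ _)
      have hterm : ∀ a ∈ E.image α, n a * (-Real.log ρ) +
          (-∑ d ∈ E.filter (fun d => α d = a), Real.log (W a b d m)) ≤
          n a * (θ * Real.log E.card + 2 * θ * Real.log M.card + T) +
          Λ * (((E.filter (fun d => α d = a)).filter (fun d => F d m)).card : ℝ) := by
        intro a ha
        have h1 := hcost a ha b hb m (mem_filter.2 ⟨hm, rfl⟩)
        have hna : 0 < n a := lt_of_lt_of_le one_pos (hn1 a ha)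
        have h2 : Real.log (n a) ≤ Real.log E.card + Real.log (1 - η) := by
          rw [← Real.log_mul hEpos.ne' hρ0.ne']
          apply Real.log_le_log hna
          have h9 : n a ≤ (1 - η) * (E.card : ℝ) := hlight a ha
          rw [mul_comm] at h9
          exact h9
        have h3 : Real.log ρ = θ * Real.log (1 - η) := by rw [hρ, Real.log_rpow hρ0]
        have h6 : (-∑ d ∈ E.filter (fun d => α d = a), Real.log (W a b d m)) ≤
          n a * (θ * Real.log (n a) + 2 * θ *
            Real.log ((M.filter (fun m' => β m' = b)).card : ℝ) + T) +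
          Λ * (((E.filter (fun d => α d = a)).filter (fun d => F d m)).card : ℝ) := h1
        have h7 : n a * (θ * Real.log (n a) + 2 * θ *
            Real.log ((M.filter (fun m' => β m' = b)).card : ℝ) + T) ≤
            n a * (θ * (Real.log E.card + Real.log (1 - η)) + 2 * θ * Real.log M.card + T) :=
          mul_le_mul_of_nonneg_left (add_le_add (add_le_add
            (mul_le_mul_of_nonneg_left h2 hθ0.le)
            (mul_le_mul_of_nonneg_left hMb (by linarith only [hθ0]))) le_rfl) hna.le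
        have h8 : n a * (θ * (Real.log E.card + Real.log (1 - η)) + 2 * θ * Real.log M.card + T) =
            n a * (θ * Real.log E.card + 2 * θ * Real.log M.card + T) +
            n a * (θ * Real.log (1 - η)) := by ring
        rw [h3]
        rw [h8] at h7
        have h10 : n a * (-(θ * Real.log (1 - η))) = -(n a * (θ * Real.log (1 - η))) := by ring
        rw [h10]
        exact add_bound h6 h7
      refine (sum_le_sum hterm).trans ?_
      rw [sum_add_distrib, ← sum_mul, hnsum, ← mul_sum, fail_class_sum E α (fun d => F d m)]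
    · simp only [if_neg hhv]
      have h1 : ∀ d ∈ E, Real.log ((1 - ρ) * W' d m) = Real.log (1 - ρ) + Real.log (W' d m) := by
        intro d hd
        rw [Real.log_mul (by linarith only [hρ1]) (hW'.pos d hd m hm).ne']
      rw [sum_congr rfl h1, sum_add_distrib, sum_const, nsmul_eq_mul]
      have h2 := hcost' m hm
      have h3 : ((E.filter (fun d => F' d m)).card : ℝ) ≤ ((E.filter (fun d => F d m)).card : ℝ) := by
        apply Nat.cast_le.2
        apply card_le_card
        intro d hd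
        rw [mem_filter] at hd ⊢
        refine ⟨hd.1, hFF d hd.1 m hm ?_ hd.2⟩
        simp only [heavy] at hhv
        omega
      have h4 := mul_le_mul_of_nonneg_left h3 hΛ
      have h5 : (E.card : ℝ) * (T' + -Real.log (1 - ρ)) ≤ (E.card : ℝ) * T := by (clear * - hT hE; gcongr)
      linarith only [h2, h4, h5]

/-- two singletons -/
theorem good_single {θ Λ T : ℝ} (hΛ : 0 ≤ Λ) (hT : 0 ≤ T) {u : ℕ} {E M : Finset ℤ}
    (hE : E.card = 1) (hM : M.card = 1) (F : ℤ → ℤ → Prop) : Good θ Λ T u E M F := by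
  classical
  refine ⟨fun _ _ => 1, ⟨fun _ _ _ _ => one_pos, ?_⟩, ?_⟩
  · intro x
    rw [sum_const, nsmul_eq_mul, mul_one]
    have h1 : ((E ×ˢ M).filter (fun e => e.1 + (u:ℤ) * e.2 = x)).card ≤ (E ×ˢ M).card :=
      card_le_card (filter_subset _ _)
    rw [card_product, hE, hM] at h1
    exact_mod_cast h1
  · intro m _
    simp only [Real.log_one, sum_const_zero, neg_zero, hE, hM, Nat.cast_one, mul_zero]
    (clear * - hT hΛ; positivity)

/-- no primes left: choose `d` at random -/
theorem good_nil {θ Λ T : ℝ} (hθ : 0 ≤ θ) (hT : 0 ≤ T) {u : ℕ} (hu : u ≠ 0) {E M : Finset ℤ}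
    (hE : E.Nonempty) (hM : M.Nonempty) (hΛ : Real.log E.card ≤ Λ) :
    Good θ Λ T u E M (fun _ _ => True) := by
  classical
  have hEpos : (0:ℝ) < E.card := by exact_mod_cast card_pos.2 hE
  have hE1 : (1:ℝ) ≤ E.card := by exact_mod_cast card_pos.2 hE
  have hM1 : (1:ℝ) ≤ M.card := by exact_mod_cast card_pos.2 hM
  refine ⟨fun _ _ => 1 / E.card, ⟨fun _ _ _ _ => by (clear * - hE; positivity), ?_⟩, ?_⟩
  · intro x
    rw [sum_const, nsmul_eq_mul]
    have h1 : ((E ×ˢ M).filter (fun e => e.1 + (u:ℤ) * e.2 = x)).card ≤ E.card := by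
      apply card_le_card_of_injOn Prod.fst
      · intro e he
        rw [mem_coe, mem_filter, mem_product] at he
        exact mem_coe.2 he.1.1
      · intro e he e' he' h
        rw [mem_coe, mem_filter] at he he'
        have h2 : (u:ℤ) * e.2 = (u:ℤ) * e'.2 := by
          have := he.2.trans he'.2.symm
          rw [h] at this
          (clear * - this; linarith only [this])
        have hu0 : (u:ℤ) ≠ 0 := by exact_mod_cast hu
        exact Prod.ext h (mul_left_cancel₀ hu0 h2)
    have h2 : (((E ×ˢ M).filter (fun e => e.1 + (u:ℤ) * e.2 = x)).card : ℝ) ≤ E.card := by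
      exact_mod_cast h1
    rw [mul_one_div, div_le_one hEpos]
    exact h2
  · intro m _
    have h0 : ∀ inst : DecidablePred (fun _ : ℤ => True),
        (@Finset.filter ℤ (fun _ => True) inst E).card = E.card := by
      intro inst
      congr 1
      ext x
      simp
    rw [h0, sum_const, nsmul_eq_mul, one_div, Real.log_inv]
    have h1 : 0 ≤ Real.log (E.card : ℝ) := Real.log_nonneg hE1
    have h2 : 0 ≤ Real.log (M.card : ℝ) := Real.log_nonneg hM1
    have h3 : (E.card : ℝ) * Real.log E.card ≤ (E.card : ℝ) * Λ := by (clear * - hΛ hE; gcongr)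
    have h4 : 0 ≤ (E.card : ℝ) * (θ * Real.log E.card + 2 * θ * Real.log M.card + T) := by
      (clear * - hE hθ hT; positivity)
    linarith only [h3, h4]

/-- fail predicate seen from level `i` -/
def FailFrom (η : ℝ) (v : ℕ → ℕ) (p : ℕ) (J : List ℕ) (i : ℕ) (E M : Finset ℤ) (d m : ℤ) :
    Prop := ∃ j : ℕ, i ≤ j ∧
      ((cl ((p:ℤ) ^ (v p + (j + 1))) E d).card : ℝ) ≤
        (1 - η) * ((cl ((p:ℤ) ^ (v p + j)) E d).card : ℝ) ∧
      2 * (cl ((p:ℤ) ^ (j + 1)) M m).card ≤ (cl ((p:ℤ) ^ j) M m).card ∧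
      Fail η v J (cl ((p:ℤ) ^ (v p + j)) E d) (cl ((p:ℤ) ^ j) M m) d m

theorem failFrom_cl {η : ℝ} {v : ℕ → ℕ} {p : ℕ} {J : List ℕ} {i : ℕ} {E M : Finset ℤ}
    {d m d₀ m₀ : ℤ} (hd : d % (p:ℤ) ^ (v p + i) = d₀ % (p:ℤ) ^ (v p + i))
    (hm : m % (p:ℤ) ^ i = m₀ % (p:ℤ) ^ i)
    (h : FailFrom η v p J i (cl ((p:ℤ) ^ (v p + i)) E d₀) (cl ((p:ℤ) ^ i) M m₀) d m) :
    FailFrom η v p J i E M d m := by
  obtain ⟨j, hij, h1, h2, h3⟩ := h
  have e1 : ∀ k, i ≤ k → cl ((p:ℤ) ^ (v p + k)) (cl ((p:ℤ) ^ (v p + i)) E d₀) d =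
      cl ((p:ℤ) ^ (v p + k)) E d := fun k hk => cl_cl (pow_dvd_pow _ (by omega)) hd
  have e2 : ∀ k, i ≤ k → cl ((p:ℤ) ^ k) (cl ((p:ℤ) ^ i) M m₀) m = cl ((p:ℤ) ^ k) M m :=
    fun k hk => cl_cl (pow_dvd_pow _ hk) hm
  rw [e1 j hij, e1 (j + 1) (by omega)] at h1
  rw [e2 j hij, e2 (j + 1) (by omega)] at h2
  rw [e1 j hij, e2 j hij] at h3
  exact ⟨j, hij, h1, h2, h3⟩

theorem FailFrom.anti {η : ℝ} {v : ℕ → ℕ} {p : ℕ} {J : List ℕ} {i i' : ℕ} (hi : i ≤ i')
    {E M : Finset ℤ} {d m : ℤ} (h : FailFrom η v p J i' E M d m) : FailFrom η v p J i E M d m := by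
  obtain ⟨j, hij, h'⟩ := h
  exact ⟨j, hi.trans hij, h'⟩

end Pool.Agent.Helper2.E
end

/- Helper24.FF.H2.EDecM -/
section
set_option autoImplicit false

/-!
Decoding `(d, m)` from `d + u m`: induction over levels and primes.
-/

open Finset

namespace Pool.Agent.Helper2.E

/-- splitting of `E` only -/
theorem stepS {θ Λ T : ℝ} (hθ0 : 0 < θ) {u : ℕ} {E M : Finset ℤ} {α : ℤ → ℤ}
    (hsame : ∀ d ∈ E, ∀ m ∈ M, ∀ d' ∈ E, ∀ m' ∈ M,
      d + (u:ℤ) * m = d' + (u:ℤ) * m' → α d = α d')
    {F : ℤ → ℤ → Prop}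
    (hsub : ∀ a ∈ E.image α, Good θ Λ T u (E.filter (fun d => α d = a)) M F) :
    Good θ Λ T u E M F := by
  classical
  choose! W hW hcost using hsub
  refine ⟨fun d m => 1 * W (α d) d m, ⟨?_, ?_⟩, ?_⟩
  · intro d hd m hm
    rw [one_mul]
    exact (hW _ (mem_image_of_mem _ hd)).pos d (mem_filter.2 ⟨hd, rfl⟩) m hm
  · intro x
    rcases ((E ×ˢ M).filter (fun e => e.1 + (u:ℤ) * e.2 = x)).eq_empty_or_nonempty with h0 | h0
    · rw [h0, sum_empty]; exact zero_le_one
    · obtain ⟨e₀, he₀⟩ := h0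
      rw [mem_filter, mem_product] at he₀
      have hA := hW _ (mem_image_of_mem α he₀.1.1)
      refine le_trans ?_ (hA.ker x)
      calc ∑ e ∈ (E ×ˢ M).filter (fun e => e.1 + (u:ℤ) * e.2 = x), 1 * W (α e.1) e.1 e.2
          = ∑ e ∈ (E ×ˢ M).filter (fun e => e.1 + (u:ℤ) * e.2 = x), W (α e₀.1) e.1 e.2 := by
            apply sum_congr rfl
            intro e he
            rw [mem_filter, mem_product] at he
            rw [one_mul, hsame e.1 he.1.1 e.2 he.1.2 e₀.1 he₀.1.1 e₀.2 he₀.1.2
              (he.2.trans he₀.2.symm)]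
        _ ≤ _ := by
            apply sum_le_sum_of_subset_of_nonneg
            · intro e he
              rw [mem_filter, mem_product] at he
              rw [mem_filter, mem_product, mem_filter]
              exact ⟨⟨⟨he.1.1, hsame e.1 he.1.1 e.2 he.1.2 e₀.1 he₀.1.1 e₀.2 he₀.1.2
                (he.2.trans he₀.2.symm)⟩, he.1.2⟩, he.2⟩
            · intro e he _
              rw [mem_filter, mem_product] at he
              exact (hA.pos e.1 he.1.1 e.2 he.1.2).le
  · intro m hm
    rw [cost_glue (fun _ => 1) (fun a d => W a d m) (fun _ _ => one_pos)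
      (fun a ha d hd hda => (hW a ha).pos d (mem_filter.2 ⟨hd, hda⟩) m hm)]
    set n : ℤ → ℝ := fun a => ((E.filter (fun d => α d = a)).card : ℝ) with hn
    have hn1 : ∀ a ∈ E.image α, 1 ≤ n a := by
      intro a ha
      obtain ⟨d, hd, rfl⟩ := mem_image.1 ha
      have : 0 < (E.filter (fun d' => α d' = α d)).card := card_pos.2 ⟨d, mem_filter.2 ⟨hd, rfl⟩⟩
      simp only [hn]
      exact_mod_cast this
    have hnsum : ∑ a ∈ E.image α, n a = E.card := card_class_sum E α
    have hterm : ∀ a ∈ E.image α, n a * (-Real.log 1) +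
        (-∑ d ∈ E.filter (fun d => α d = a), Real.log (W a d m)) ≤
        n a * (θ * Real.log E.card + 2 * θ * Real.log M.card + T) +
        Λ * (((E.filter (fun d => α d = a)).filter (fun d => F d m)).card : ℝ) := by
      intro a ha
      have h1 := hcost a ha m hm
      have hna : 0 < n a := lt_of_lt_of_le one_pos (hn1 a ha)
      have h2 : Real.log (n a) ≤ Real.log E.card := by
        apply Real.log_le_log hna
        simp only [hn]
        exact_mod_cast card_le_card (filter_subset _ _)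
      have h7 : n a * (θ * Real.log (n a) + 2 * θ * Real.log M.card + T) ≤
            n a * (θ * Real.log E.card + 2 * θ * Real.log M.card + T) :=
          mul_le_mul_of_nonneg_left (add_le_add (add_le_add
            (mul_le_mul_of_nonneg_left h2 hθ0.le) le_rfl) le_rfl) hna.le
      rw [Real.log_one, neg_zero, mul_zero, zero_add]
      exact h1.trans (add_le_add h7 le_rfl)
    refine (sum_le_sum hterm).trans ?_
    rw [sum_add_distrib, ← sum_mul, hnsum, ← mul_sum, fail_class_sum E α (fun d => F d m)]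

theorem card_one_of_close {n : ℤ} {E : Finset ℤ} (hE : E.Nonempty)
    (h1 : ∀ x ∈ E, ∀ y ∈ E, x % n = y % n) (h2 : ∀ x ∈ E, ∀ y ∈ E, |x - y| < n) : E.card = 1 := by
  obtain ⟨x₀, hx₀⟩ := hE
  rw [card_eq_one]
  refine ⟨x₀, ?_⟩
  ext x
  rw [mem_singleton]
  constructor
  · intro hx
    have h3 : n ∣ x - x₀ := emod_eq_iff_dvd.1 (h1 x hx x₀ hx₀)
    have h4 := Int.eq_zero_of_abs_lt_dvd h3 (h2 x hx x₀ hx₀)
    omega
  · rintro rfl; exact hx₀

/-- induction over the levels at one prime -/
theorem levels {θ η Λ T' : ℝ} (hθ0 : 0 < θ) (hθ1 : θ ≤ 1) (hη0 : 0 < η) (hη1 : η < 1)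
    (hηθ : η ≤ θ) (hη : θ * Real.log η = Real.log θ) (hΛ : 0 ≤ Λ) (hT' : 0 ≤ T')
    {p : ℕ} (hp : p.Prime) {u : ℕ} (hu : u ≠ 0) (J : List ℕ)
    (hnext : ∀ E M : Finset ℤ, E.Nonempty → M.Nonempty → Real.log E.card ≤ Λ →
      Good θ Λ T' u E M (Fail η u.factorization J E M)) :
    ∀ (n i : ℕ) (E M : Finset ℤ), E.Nonempty → M.Nonempty → Real.log E.card ≤ Λ →
      (∀ x ∈ E, ∀ y ∈ E, x % (p:ℤ) ^ (u.factorization p + i) =
        y % (p:ℤ) ^ (u.factorization p + i)) →
      (∀ x ∈ M, ∀ y ∈ M, x % (p:ℤ) ^ i = y % (p:ℤ) ^ i) →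
      (∀ x ∈ E, ∀ y ∈ E, |x - y| < (p:ℤ) ^ (i + n)) →
      (∀ x ∈ M, ∀ y ∈ M, |x - y| < (p:ℤ) ^ (i + n)) →
      Good θ Λ (T' + -Real.log (1 - (1 - η) ^ θ)) u E M
        (FailFrom η u.factorization p J i E M) := by
  classical
  have hb : 0 ≤ -Real.log (1 - (1 - η) ^ θ) := by
    rw [neg_nonneg]
    have h1 : (1 - η) ^ θ < 1 := Real.rpow_lt_one (by (clear * - hη1; linarith only [hη1])) (by (clear * - hη0; linarith only [hη0])) hθ0
    have h2 : 0 ≤ (1 - η) ^ θ := Real.rpow_nonneg (by (clear * - hη1; linarith)) _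
    exact Real.log_nonpos (by linarith only [h1]) (by linarith)
  have hp1 : (1:ℤ) ≤ p := by exact_mod_cast hp.one_lt.le
  intro n
  induction n with
  | zero =>
    intro i E M hE hM hΛE hEc hMc hEd hMd
    apply good_single hΛ (by (clear * - hT' hb; linarith only [hT', hb]))
    · apply card_one_of_close hE hEc
      intro x hx y hy
      refine (hEd x hx y hy).trans_le ?_
      rw [add_zero]
      exact pow_le_pow_right₀ hp1 (by omega)
    · apply card_one_of_close hM hMc
      intro x hx y hy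
      exact hMd x hx y hy
  | succ n ih =>
    intro i E M hE hM hΛE hEc hMc hEd hMd
    set v := u.factorization p with hv
    let α : ℤ → ℤ := fun d => d % (p:ℤ) ^ (v + (i + 1))
    let β : ℤ → ℤ := fun m => m % (p:ℤ) ^ (i + 1)
    have hmatch : ∀ d ∈ E, ∀ m ∈ M, ∀ d' ∈ E, ∀ m' ∈ M,
        d + (u:ℤ) * m = d' + (u:ℤ) * m' → (α d = α d' ↔ β m = β m') := by
      intro d _ m _ d' _ m' _ h
      exact matching hp hu h (i + 1)
    have hsub : ∀ a ∈ E.image α, ∀ b ∈ M.image β,
        Good θ Λ (T' + -Real.log (1 - (1 - η) ^ θ)) u (E.filter (fun d => α d = a))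
          (M.filter (fun m => β m = b)) (FailFrom η u.factorization p J i E M) := by
      intro a ha b hb'
      obtain ⟨d₀, hd₀, rfl⟩ := mem_image.1 ha
      obtain ⟨m₀, hm₀, rfl⟩ := mem_image.1 hb'
      have hEe : E.filter (fun d => α d = α d₀) = cl ((p:ℤ) ^ (v + (i + 1))) E d₀ := rfl
      have hMe : M.filter (fun m => β m = β m₀) = cl ((p:ℤ) ^ (i + 1)) M m₀ := rfl
      rw [hEe, hMe]
      have h1 := ih (i + 1) (cl ((p:ℤ) ^ (v + (i + 1))) E d₀) (cl ((p:ℤ) ^ (i + 1)) M m₀)
        ⟨d₀, self_mem_cl hd₀⟩ ⟨m₀, self_mem_cl hm₀⟩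
        (le_trans (Real.log_le_log (by exact_mod_cast card_pos.2 ⟨d₀, self_mem_cl hd₀⟩)
          (by exact_mod_cast card_le_card (cl_subset _ _ _))) hΛE)
        (fun x hx y hy => (mem_cl.1 hx).2.trans (mem_cl.1 hy).2.symm)
        (fun x hx y hy => (mem_cl.1 hx).2.trans (mem_cl.1 hy).2.symm)
        (fun x hx y hy => by
          rw [show i + 1 + n = i + (n + 1) by ring]
          exact hEd x (mem_cl.1 hx).1 y (mem_cl.1 hy).1)
        (fun x hx y hy => by
          rw [show i + 1 + n = i + (n + 1) by ring]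
          exact hMd x (mem_cl.1 hx).1 y (mem_cl.1 hy).1)
      refine h1.mono hΛ ?_
      intro d hd m hm hf
      exact (failFrom_cl (mem_cl.1 hd).2 (mem_cl.1 hm).2 hf).anti (Nat.le_succ i)
    by_cases hex : ∃ h ∈ E.image α, (1 - η) * (E.card : ℝ) ≤
        ((E.filter (fun d => α d = h)).card : ℝ)
    · obtain ⟨h, hh, hheavy⟩ := hex
      exact stepH hθ0 hθ1 hη0 hηθ hη hM hmatch hsub hh hheavy
    · push Not at hex
      apply stepB hθ0 hη0 hη1 le_rfl hE hM hmatch hΛ hsub (fun a ha => (hex a ha).le)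
        (hnext E M hE hM hΛE)
      intro d hd m hm hcrit hF
      have hE1 : cl ((p:ℤ) ^ (v + i)) E d = E := cl_eq_self (fun x hx => hEc x hx d hd)
      have hM1 : cl ((p:ℤ) ^ i) M m = M := cl_eq_self (fun x hx => hMc x hx m hm)
      refine ⟨i, le_rfl, ?_, ?_, ?_⟩
      · rw [hE1]
        exact (hex (α d) (mem_image_of_mem _ hd)).le
      · rw [hM1]
        exact hcrit
      · rw [hE1, hM1]
        exact hF

/-- induction over the primes -/
theorem primes {θ η Λ : ℝ} (hθ0 : 0 < θ) (hθ1 : θ ≤ 1) (hη0 : 0 < η) (hη1 : η < 1)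
    (hηθ : η ≤ θ) (hη : θ * Real.log η = Real.log θ) (hΛ : 0 ≤ Λ)
    {u : ℕ} (hu : u ≠ 0) : ∀ (J : List ℕ), (∀ p ∈ J, p.Prime) →
    ∀ E M : Finset ℤ, E.Nonempty → M.Nonempty → Real.log E.card ≤ Λ →
      Good θ Λ ((J.length : ℝ) * (-Real.log (1 - (1 - η) ^ θ))) u E M
        (Fail η u.factorization J E M) := by
  classical
  have hb : 0 ≤ -Real.log (1 - (1 - η) ^ θ) := by
    rw [neg_nonneg]
    have h1 : (1 - η) ^ θ < 1 := Real.rpow_lt_one (by (clear * - hη1; linarith)) (by (clear * - hη0; linarith only [hη0])) hθ0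
    have h2 : 0 ≤ (1 - η) ^ θ := Real.rpow_nonneg (by linarith) _
    exact Real.log_nonpos (by linarith) (by (clear * - h2; linarith))
  intro J
  induction J with
  | nil =>
    intro _ E M hE hM hΛE
    simp only [List.length_nil, Nat.cast_zero, zero_mul]
    exact good_nil hθ0.le le_rfl hu hE hM hΛE
  | cons p J ih =>
    intro hJ E M hE hM hΛE
    have hp : p.Prime := hJ p List.mem_cons_self
    have ihJ := ih (fun q hq => hJ q (List.mem_cons_of_mem _ hq))
    have hlev := levels hθ0 hθ1 hη0 hη1 hηθ hη hΛ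
      (T' := (J.length : ℝ) * (-Real.log (1 - (1 - η) ^ θ))) (by (clear * - hb; positivity)) hp hu J ihJ
    have hT : ((p :: J).length : ℝ) * (-Real.log (1 - (1 - η) ^ θ)) =
        (J.length : ℝ) * (-Real.log (1 - (1 - η) ^ θ)) + -Real.log (1 - (1 - η) ^ θ) := by
      rw [List.length_cons]; push_cast; ring
    rw [hT]
    set v := u.factorization p with hv
    -- a bound for all differences
    obtain ⟨n, hn⟩ : ∃ n : ℕ, (∀ x ∈ E, ∀ y ∈ E, |x - y| < (p:ℤ) ^ n) ∧
        (∀ x ∈ M, ∀ y ∈ M, |x - y| < (p:ℤ) ^ n) := by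
      set B : ℕ := ((E ×ˢ E) ∪ (M ×ˢ M)).sup (fun z => (z.1 - z.2).natAbs) with hB
      refine ⟨B, ?_, ?_⟩
      · intro x hx y hy
        have h1 : (x - y).natAbs ≤ B := Finset.le_sup (f := fun z : ℤ × ℤ => (z.1 - z.2).natAbs)
          (b := (x, y)) (mem_union_left _ (mem_product.2 ⟨hx, hy⟩))
        have h2 : B < p ^ B := Nat.lt_pow_self hp.one_lt
        have h3 : ((x - y).natAbs : ℤ) < ((p ^ B : ℕ) : ℤ) := by exact_mod_cast h1.trans_lt h2
        rw [Int.natCast_natAbs] at h3
        exact_mod_cast h3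
      · intro x hx y hy
        have h1 : (x - y).natAbs ≤ B := Finset.le_sup (f := fun z : ℤ × ℤ => (z.1 - z.2).natAbs)
          (b := (x, y)) (mem_union_right _ (mem_product.2 ⟨hx, hy⟩))
        have h2 : B < p ^ B := Nat.lt_pow_self hp.one_lt
        have h3 : ((x - y).natAbs : ℤ) < ((p ^ B : ℕ) : ℤ) := by exact_mod_cast h1.trans_lt h2
        rw [Int.natCast_natAbs] at h3
        exact_mod_cast h3
    apply stepS hθ0 (α := fun d => d % (p:ℤ) ^ (v + 0))
    · intro d _ m _ d' _ m' _ h
      exact (matching hp hu h 0).2 (by simp)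
    · intro a ha
      obtain ⟨d₀, hd₀, rfl⟩ := mem_image.1 ha
      have hEe : E.filter (fun d => d % (p:ℤ) ^ (v + 0) = d₀ % (p:ℤ) ^ (v + 0)) =
        cl ((p:ℤ) ^ (v + 0)) E d₀ := rfl
      rw [hEe]
      have h1 := hlev n 0 (cl ((p:ℤ) ^ (v + 0)) E d₀) M ⟨d₀, self_mem_cl hd₀⟩ hM
        (le_trans (Real.log_le_log (by exact_mod_cast card_pos.2 ⟨d₀, self_mem_cl hd₀⟩)
          (by exact_mod_cast card_le_card (cl_subset _ _ _))) hΛE)
        (fun x hx y hy => (mem_cl.1 hx).2.trans (mem_cl.1 hy).2.symm)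
        (fun x _ y _ => by simp)
        (fun x hx y hy => by
          rw [zero_add]
          exact hn.1 x (mem_cl.1 hx).1 y (mem_cl.1 hy).1)
        (fun x hx y hy => by
          rw [zero_add]
          exact hn.2 x hx y hy)
      refine h1.mono hΛ ?_
      intro d hd m hm hf
      have hM1 : cl ((p:ℤ) ^ 0) M m = M := cl_eq_self (fun x _ => by simp)
      have h2 : FailFrom η u.factorization p J 0 E M d m := by
        apply failFrom_cl (d₀ := d₀) (m₀ := m) (mem_cl.1 hd).2 rfl
        rw [hM1]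
        exact hf
      obtain ⟨j, _, h3, h4, h5⟩ := h2
      exact ⟨j, h3, h4, h5⟩

/-- **Decoding `(d, m)`**. -/
theorem decM {θ lam : ℝ} (hθ0 : 0 < θ) (hθ1 : θ ≤ 1 / 2) (hl : 0 < lam) :
    ∃ b C : ℝ, 0 ≤ b ∧ 1 ≤ C ∧ ∀ S : Finset ℕ, (∀ p ∈ S, p.Prime) →
      ∀ D M : Finset ℤ, D.Nonempty → M.Nonempty →
      ∃ F : ℕ → ℤ → ℤ → Prop,
        (∀ d ∈ D, ∀ m ∈ M, ∀ V : Finset ℕ, (∀ u ∈ V, u ≠ 0 ∧ u.primeFactors ⊆ S) →
          (∀ u ∈ V, F u d m) →
          (V.card : ℝ) ≤ C ^ S.card * ((D.card : ℝ) ^ lam * (M.card : ℝ) ^ lam)) ∧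
        (∀ u : ℕ, u ≠ 0 → Good θ (Real.log D.card) ((S.card : ℝ) * b) u D M (F u)) := by
  classical
  set η : ℝ := θ ^ (1 / θ) with hηdef
  have hη0 : 0 < η := Real.rpow_pos_of_pos hθ0 _
  have hη1 : η < 1 := Real.rpow_lt_one hθ0.le (by linarith only [hθ1]) (by (clear * - hθ0; positivity))
  have hηθ : η ≤ θ := by
    calc η = θ ^ (1 / θ) := rfl
      _ ≤ θ ^ (1:ℝ) := by
        apply Real.rpow_le_rpow_of_exponent_ge hθ0 (by (clear * - hθ1; linarith only [hθ1]))
        rw [le_div_iff₀ hθ0]; (clear * - hθ0 hθ1; linarith)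
      _ = θ := Real.rpow_one θ
  have hη : θ * Real.log η = Real.log θ := by
    rw [hηdef, Real.log_rpow hθ0]
    field_simp
  set C := (1 / (1 - (1 - η) ^ lam)) * (1 / (1 - (1 / 2 : ℝ) ^ lam)) with hC
  have hC1 : 1 ≤ C := by
    have h1 : (1 - η) ^ lam < 1 := Real.rpow_lt_one (by (clear * - hη1; linarith only [hη1])) (by linarith only [hη0]) hl
    have h1' : 0 ≤ (1 - η) ^ lam := Real.rpow_nonneg (by linarith only [hη1]) _
    have h2 : (1 / 2 : ℝ) ^ lam < 1 := Real.rpow_lt_one (by norm_num) (by norm_num) hl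
    have h2' : 0 ≤ (1 / 2 : ℝ) ^ lam := Real.rpow_nonneg (by norm_num) _
    have h3 : 1 ≤ 1 / (1 - (1 - η) ^ lam) := by rw [le_div_iff₀ (by linarith only [h1])]; linarith only [h1']
    have h4 : 1 ≤ 1 / (1 - (1 / 2 : ℝ) ^ lam) := by rw [le_div_iff₀ (by linarith only [h2])]; (clear * - h2'; linarith only [h2'])
    calc (1:ℝ) = 1 * 1 := (one_mul 1).symm
      _ ≤ _ := mul_le_mul h3 h4 zero_le_one (by linarith only [h3])
  refine ⟨-Real.log (1 - (1 - η) ^ θ), C, ?_, hC1, ?_⟩
  · rw [neg_nonneg]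
    have h1 : (1 - η) ^ θ < 1 := Real.rpow_lt_one (by linarith only [hη1]) (by linarith only [hη0]) hθ0
    have h2 : 0 ≤ (1 - η) ^ θ := Real.rpow_nonneg (by linarith only [hη1]) _
    exact Real.log_nonpos (by linarith only [h1]) (by linarith only [h2])
  · intro S hS D M hD hM
    refine ⟨fun u => Fail η u.factorization S.toList D M, ?_, ?_⟩
    · intro d hd m hm V hV hF
      have := fail_count hη0 hη1.le hl (fun u : ℕ => (u.factorization : ℕ → ℕ)) S.toList D M d m
        hd hm V hF (by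
          intro u hu u' hu' huu
          apply Nat.eq_of_factorization_eq (hV u hu).1 (hV u' hu').1
          intro q
          by_cases hq : q ∈ S
          · exact huu q (mem_toList.2 hq)
          · have h1 : q ∉ u.primeFactors := fun h => hq ((hV u hu).2 h)
            have h2 : q ∉ u'.primeFactors := fun h => hq ((hV u' hu').2 h)
            rw [← Nat.support_factorization, Finsupp.notMem_support_iff] at h1 h2
            rw [h1, h2])
      rw [length_toList] at this
      exact this
    · intro u hu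
      have := primes hθ0 (by (clear * - hθ1; linarith only [hθ1])) hη0 hη1 hηθ hη
        (Λ := Real.log D.card) (Real.log_natCast_nonneg _) hu S.toList
        (fun p hp => hS p (mem_toList.1 hp)) D M hD hM le_rfl
      rw [length_toList] at this
      exact this

end Pool.Agent.Helper2.E
end

/- Helper24.FF.H1.EDecU -/
section
set_option autoImplicit false

namespace Pool.Agent.Helper1

open Finset Pool.Agent.Helper5

/-- number of elements of `D` congruent to `x` modulo `Q` -/
noncomputable def nn (D : Finset ℤ) (Q : ℕ) (x : ℤ) : ℝ :=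
  ((D.filter (fun d => (Q : ℤ) ∣ d - x)).card : ℝ)

lemma nn_nonneg (D : Finset ℤ) (Q : ℕ) (x : ℤ) : 0 ≤ nn D Q x := Nat.cast_nonneg _

lemma nn_mono (D : Finset ℤ) {Q Q' : ℕ} (h : Q ∣ Q') (x : ℤ) : nn D Q' x ≤ nn D Q x := by
  unfold nn
  have : D.filter (fun d => (Q' : ℤ) ∣ d - x) ⊆ D.filter (fun d => (Q : ℤ) ∣ d - x) := by
    intro d hd
    rw [Finset.mem_filter] at hd ⊢
    exact ⟨hd.1, (Int.natCast_dvd_natCast.2 h).trans hd.2⟩
  exact_mod_cast Finset.card_le_card this

lemma bernoulli {y θ : ℝ} (hy0 : 0 ≤ y) (hθ0 : 0 ≤ θ) (hθ1 : θ ≤ 1) :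
    y ^ θ + θ * (1 - y) ≤ 1 := by
  have := _root_.rpow_one_add_le_one_add_mul_self (s := y - 1) (p := θ) (by (clear * - hy0; linarith only [hy0])) hθ0 hθ1
  have e : 1 + (y - 1) = y := by ring
  rw [e] at this
  (clear * - this; linarith only [this])

/-- one local factor -/
noncomputable def fac (θ : ℝ) (D : Finset ℤ) (x : ℤ) (Q p v : ℕ) : ℝ :=
  θ * (nn D (Q * p ^ v) x / nn D Q x) ^ θ * (1 - nn D (Q * p ^ (v + 1)) x / nn D (Q * p ^ v) x)

lemma fac_nonneg {θ : ℝ} (hθ0 : 0 < θ) (D : Finset ℤ) (x : ℤ) (Q p v : ℕ) :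
    0 ≤ fac θ D x Q p v := by
  unfold fac
  have h1 : nn D (Q * p ^ (v + 1)) x ≤ nn D (Q * p ^ v) x :=
    nn_mono D (Nat.mul_dvd_mul_left _ (pow_dvd_pow p (Nat.le_succ v))) x
  have h2 : nn D (Q * p ^ (v + 1)) x / nn D (Q * p ^ v) x ≤ 1 :=
    div_le_one_of_le₀ h1 (nn_nonneg _ _ _)
  have h3 : 0 ≤ (nn D (Q * p ^ v) x / nn D Q x) ^ θ :=
    Real.rpow_nonneg (div_nonneg (nn_nonneg _ _ _) (nn_nonneg _ _ _)) _
  exact mul_nonneg (mul_nonneg hθ0.le h3) (by (clear * - h2; linarith))

lemma fac_le {θ : ℝ} (hθ0 : 0 < θ) (hθ1 : θ ≤ 1) (D : Finset ℤ) (x : ℤ) (Q p v : ℕ) :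
    fac θ D x Q p v ≤ (nn D (Q * p ^ v) x / nn D Q x) ^ θ
      - (nn D (Q * p ^ (v + 1)) x / nn D Q x) ^ θ := by
  unfold fac
  have h1 : nn D (Q * p ^ (v + 1)) x ≤ nn D (Q * p ^ v) x :=
    nn_mono D (Nat.mul_dvd_mul_left _ (pow_dvd_pow p (Nat.le_succ v))) x
  rcases eq_or_lt_of_le (nn_nonneg D (Q * p ^ v) x) with h0 | h0
  · have h2 : nn D (Q * p ^ (v + 1)) x = 0 :=
      le_antisymm (by rw [← h0] at h1; exact h1) (nn_nonneg _ _ _)
    rw [← h0, h2]
    simp [Real.zero_rpow hθ0.ne']
  · have hy0 : 0 ≤ nn D (Q * p ^ (v + 1)) x / nn D (Q * p ^ v) x :=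
      div_nonneg (nn_nonneg _ _ _) h0.le
    have hB := bernoulli hy0 hθ0.le hθ1
    have hz0 : 0 ≤ nn D (Q * p ^ v) x / nn D Q x := div_nonneg h0.le (nn_nonneg _ _ _)
    have hsplit : nn D (Q * p ^ (v + 1)) x / nn D Q x =
        (nn D (Q * p ^ v) x / nn D Q x) * (nn D (Q * p ^ (v + 1)) x / nn D (Q * p ^ v) x) := by
      (clear * - h0; field_simp)
    rw [hsplit, Real.mul_rpow hz0 hy0]
    have hz : 0 ≤ (nn D (Q * p ^ v) x / nn D Q x) ^ θ := Real.rpow_nonneg hz0 _
    nlinarith only [hB, hz]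

lemma sum_fac_le {θ : ℝ} (hθ0 : 0 < θ) (hθ1 : θ ≤ 1) (D : Finset ℤ) (x : ℤ) (Q p : ℕ)
    (T : Finset ℕ) : ∑ v ∈ T, fac θ D x Q p v ≤ 1 := by
  obtain ⟨n, hn⟩ : ∃ n, T ⊆ Finset.range n := by
    refine ⟨T.sup id + 1, fun v hv => ?_⟩
    rw [Finset.mem_range]
    exact Nat.lt_succ_of_le (Finset.le_sup (f := id) hv)
  calc ∑ v ∈ T, fac θ D x Q p v ≤ ∑ v ∈ Finset.range n, fac θ D x Q p v :=
        Finset.sum_le_sum_of_subset_of_nonneg hn (fun v _ _ => fac_nonneg hθ0 D x Q p v)
    _ ≤ ∑ v ∈ Finset.range n, ((nn D (Q * p ^ v) x / nn D Q x) ^ θ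
      - (nn D (Q * p ^ (v + 1)) x / nn D Q x) ^ θ) :=
        Finset.sum_le_sum (fun v _ => fac_le hθ0 hθ1 D x Q p v)
    _ = (nn D (Q * p ^ 0) x / nn D Q x) ^ θ - (nn D (Q * p ^ n) x / nn D Q x) ^ θ :=
        Finset.sum_range_sub' (fun v => (nn D (Q * p ^ v) x / nn D Q x) ^ θ) n
    _ ≤ (nn D (Q * p ^ 0) x / nn D Q x) ^ θ := by
        have : 0 ≤ (nn D (Q * p ^ n) x / nn D Q x) ^ θ :=
          Real.rpow_nonneg (div_nonneg (nn_nonneg _ _ _) (nn_nonneg _ _ _)) _
        linarith only [this]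
    _ ≤ 1 := by
        rw [pow_zero, mul_one]
        apply Real.rpow_le_one (div_nonneg (nn_nonneg _ _ _) (nn_nonneg _ _ _)) _ hθ0.le
        exact div_self_le_one _

/-- the weight attached to a list of primes and a current modulus `Q` -/
noncomputable def wt (θ : ℝ) (D : Finset ℤ) (x : ℤ) (u : ℕ) : List ℕ → ℕ → ℝ
  | [], _ => 1
  | p :: l, Q => fac θ D x Q p (u.factorization p) * wt θ D x u l (Q * p ^ u.factorization p)

lemma wt_nonneg {θ : ℝ} (hθ0 : 0 < θ) (D : Finset ℤ) (x : ℤ) (u : ℕ) (l : List ℕ) :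
    ∀ Q, 0 ≤ wt θ D x u l Q := by
  induction l with
  | nil => intro Q; simp [wt]
  | cons p l ih =>
    intro Q
    simp only [wt]
    exact mul_nonneg (fac_nonneg hθ0 _ _ _ _ _) (ih _)

lemma sum_wt_le {θ : ℝ} (hθ0 : 0 < θ) (hθ1 : θ ≤ 1) (D : Finset ℤ) (x : ℤ) (l : List ℕ) :
    ∀ (Q : ℕ) (V : Finset ℕ), (∀ u ∈ V, ∀ u' ∈ V,
      (∀ p ∈ l, u.factorization p = u'.factorization p) → u = u') →
      ∑ u ∈ V, wt θ D x u l Q ≤ 1 := by
  classical
  induction l with
  | nil =>
    intro Q V hV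
    simp only [wt, Finset.sum_const, nsmul_eq_mul, mul_one]
    have : V.card ≤ 1 := Finset.card_le_one.2 (fun u hu u' hu' => hV u hu u' hu' (by simp))
    exact_mod_cast this
  | cons p l ih =>
    intro Q V hV
    simp only [wt]
    rw [← Finset.sum_fiberwise_of_maps_to (s := V) (t := V.image (fun u => u.factorization p))
      (g := fun u => u.factorization p) (fun u hu => Finset.mem_image_of_mem _ hu)]
    calc ∑ v ∈ V.image (fun u => u.factorization p), ∑ u ∈ V.filter (fun u => u.factorization p = v),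
          fac θ D x Q p (u.factorization p) * wt θ D x u l (Q * p ^ u.factorization p)
        ≤ ∑ v ∈ V.image (fun u => u.factorization p), fac θ D x Q p v := by
          apply Finset.sum_le_sum
          intro v _
          have h1 : ∑ u ∈ V.filter (fun u => u.factorization p = v),
              fac θ D x Q p (u.factorization p) * wt θ D x u l (Q * p ^ u.factorization p)
              = fac θ D x Q p v * ∑ u ∈ V.filter (fun u => u.factorization p = v),
                wt θ D x u l (Q * p ^ v) := by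
            rw [Finset.mul_sum]
            apply Finset.sum_congr rfl
            intro u hu
            rw [(Finset.mem_filter.1 hu).2]
          rw [h1]
          have h2 : ∑ u ∈ V.filter (fun u => u.factorization p = v),
                wt θ D x u l (Q * p ^ v) ≤ 1 := by
            apply ih
            intro u hu u' hu' h
            rw [Finset.mem_filter] at hu hu'
            apply hV u hu.1 u' hu'.1
            intro p' hp'
            rcases List.mem_cons.1 hp' with rfl | hp'
            · rw [hu.2, hu'.2]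
            · exact h p' hp'
          calc fac θ D x Q p v * ∑ u ∈ V.filter (fun u => u.factorization p = v),
                wt θ D x u l (Q * p ^ v) ≤ fac θ D x Q p v * 1 :=
                mul_le_mul_of_nonneg_left h2 (fac_nonneg hθ0 _ _ _ _ _)
            _ = _ := mul_one _
      _ ≤ 1 := sum_fac_le hθ0 hθ1 D x Q p _

/-- shifting the argument by a multiple of the modulus -/
lemma nn_shift (D : Finset ℤ) (Q : ℕ) (d a : ℤ) (h : (Q : ℤ) ∣ a) : nn D Q (d + a) = nn D Q d := by
  unfold nn
  congr 2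
  ext d'
  simp only [Finset.mem_filter, and_congr_right_iff]
  intro _
  have : d' - (d + a) = (d' - d) - a := by ring
  rw [this]
  exact dvd_sub_left h

lemma one_le_nn (D : Finset ℤ) (Q : ℕ) {d : ℤ} (hd : d ∈ D) : 1 ≤ nn D Q d := by
  unfold nn
  have : 0 < (D.filter (fun d' => (Q : ℤ) ∣ d' - d)).card :=
    Finset.card_pos.2 ⟨d, Finset.mem_filter.2 ⟨hd, by simp⟩⟩
  exact_mod_cast this

/-- disjointness of two subclasses -/
lemma nn_add_le (D : Finset ℤ) {Q Q' : ℕ} (hQQ : Q ∣ Q') {a : ℤ} (hQ : (Q : ℤ) ∣ a)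
    (hQ' : ¬ (Q' : ℤ) ∣ a) (d : ℤ) : nn D Q' d + nn D Q' (d + a) ≤ nn D Q d := by
  classical
  have h : (D.filter (fun d' => (Q' : ℤ) ∣ d' - d)).card
      + (D.filter (fun d' => (Q' : ℤ) ∣ d' - (d + a))).card
      ≤ (D.filter (fun d' => (Q : ℤ) ∣ d' - d)).card := by
    rw [← Finset.card_union_of_disjoint]
    · apply Finset.card_le_card
      intro d' hd'
      rw [Finset.mem_union, Finset.mem_filter, Finset.mem_filter] at hd'
      rw [Finset.mem_filter]
      have hc : (Q : ℤ) ∣ (Q' : ℤ) := Int.natCast_dvd_natCast.2 hQQ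
      rcases hd' with ⟨h1, h2⟩ | ⟨h1, h2⟩
      · exact ⟨h1, hc.trans h2⟩
      · refine ⟨h1, ?_⟩
        have h3 := dvd_add (hc.trans h2) hQ
        have : d' - (d + a) + a = d' - d := by ring
        rwa [this] at h3
    · rw [Finset.disjoint_left]
      intro d' h1 h2
      rw [Finset.mem_filter] at h1 h2
      apply hQ'
      have := dvd_sub h1.2 h2.2
      have e : d' - d - (d' - (d + a)) = a := by ring
      rwa [e] at this
  unfold nn
  exact_mod_cast h

/-- the averaged ratio bound -/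
lemma sum_ratio_le (D : Finset ℤ) (Q : ℕ) (a : ℤ) :
    ∑ d ∈ D, nn D Q (d + a) / nn D Q d ≤ D.card := by
  classical
  have h1 : ∀ d ∈ D, nn D Q (d + a) / nn D Q d =
      ∑ d' ∈ D, if (Q : ℤ) ∣ d' - (d + a) then 1 / nn D Q d else 0 := by
    intro d _
    rw [← Finset.sum_filter, Finset.sum_const, nsmul_eq_mul, mul_one_div]
    rfl
  rw [Finset.sum_congr rfl h1, Finset.sum_comm]
  have h2 : ∀ d' ∈ D, ∑ d ∈ D, (if (Q : ℤ) ∣ d' - (d + a) then 1 / nn D Q d else 0) ≤ 1 := by
    intro d' _
    rw [← Finset.sum_filter]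
    rcases (D.filter (fun d => (Q : ℤ) ∣ d' - (d + a))).eq_empty_or_nonempty with he | ⟨d0, hd0⟩
    · rw [he]; simp
    · have hd0' := (Finset.mem_filter.1 hd0).2
      have hset : D.filter (fun d => (Q : ℤ) ∣ d' - (d + a)) =
          D.filter (fun d => (Q : ℤ) ∣ d - d0) := by
        ext d
        simp only [Finset.mem_filter, and_congr_right_iff]
        intro _
        constructor
        · intro h
          have := dvd_sub hd0' h
          have e : d' - (d0 + a) - (d' - (d + a)) = d - d0 := by ring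
          rwa [e] at this
        · intro h
          have := dvd_sub hd0' h
          have e : d' - (d0 + a) - (d - d0) = d' - (d + a) := by ring
          rwa [e] at this
      rw [hset]
      have hconst : ∀ d ∈ D.filter (fun d => (Q : ℤ) ∣ d - d0), 1 / nn D Q d = 1 / nn D Q d0 := by
        intro d hd
        have hd := (Finset.mem_filter.1 hd).2
        have : d = d0 + (d - d0) := by ring
        rw [this, nn_shift D Q d0 (d - d0) hd]
      rw [Finset.sum_congr rfl hconst, Finset.sum_const, nsmul_eq_mul]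
      change nn D Q d0 * (1 / nn D Q d0) ≤ 1
      have hpos : 0 < nn D Q d0 := lt_of_lt_of_le one_pos (one_le_nn D Q (Finset.mem_filter.1 hd0).1)
      rw [mul_one_div, div_self hpos.ne']
  calc ∑ d' ∈ D, ∑ d ∈ D, (if (Q : ℤ) ∣ d' - (d + a) then 1 / nn D Q d else 0)
      ≤ ∑ d' ∈ D, (1 : ℝ) := Finset.sum_le_sum h2
    _ = D.card := by simp

/-- pointwise cost of one factor -/
lemma neg_log_fac_le {θ : ℝ} (hθ0 : 0 < θ) (D : Finset ℤ) {d a : ℤ} (hd : d ∈ D) {Q p v : ℕ}
    (h1 : ((Q * p ^ v : ℕ) : ℤ) ∣ a) (h2 : ¬ ((Q * p ^ (v + 1) : ℕ) : ℤ) ∣ a) :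
    0 < fac θ D (d + a) Q p v ∧ -Real.log (fac θ D (d + a) Q p v) ≤
      Real.log (1 / θ) + θ * (Real.log (nn D Q d) - Real.log (nn D (Q * p ^ v) d))
      + nn D (Q * p ^ (v + 1)) (d + a) / nn D (Q * p ^ (v + 1)) d := by
  have hQa : (Q : ℤ) ∣ a := by
    refine dvd_trans ?_ h1
    rw [Nat.cast_mul]
    exact dvd_mul_right _ _
  have e1 : nn D (Q * p ^ v) (d + a) = nn D (Q * p ^ v) d := nn_shift _ _ _ _ h1
  have e2 : nn D Q (d + a) = nn D Q d := nn_shift _ _ _ _ hQa
  have hdis := nn_add_le D (Nat.mul_dvd_mul_left Q (pow_dvd_pow p (Nat.le_succ v))) h1 h2 d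
  have hK : 1 ≤ nn D (Q * p ^ (v + 1)) d := one_le_nn D _ hd
  have hN0 : 1 ≤ nn D Q d := one_le_nn D _ hd
  have hN1 : 1 ≤ nn D (Q * p ^ v) d := one_le_nn D _ hd
  have hplus : 0 ≤ nn D (Q * p ^ (v + 1)) (d + a) := nn_nonneg _ _ _
  set K := nn D (Q * p ^ (v + 1)) d
  set N1 := nn D (Q * p ^ v) d
  set N0 := nn D Q d
  set P := nn D (Q * p ^ (v + 1)) (d + a)
  have hfac : fac θ D (d + a) Q p v = θ * (N1 / N0) ^ θ * (1 - P / N1) := by
    unfold fac
    rw [e1, e2]
  have hpos1 : 0 < (N1 / N0) ^ θ := Real.rpow_pos_of_pos (by (clear * - hN1 hN0; positivity)) _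
  have hpos2 : 0 < 1 - P / N1 := by
    rw [sub_pos, div_lt_one (by linarith only [hN1])]
    (clear * - hK hdis; linarith only [hK, hdis])
  refine ⟨by rw [hfac]; (clear * - hθ0 hN1 hN0 hpos2; positivity), ?_⟩
  rw [hfac, Real.log_mul (by (clear * - hθ0 hN1 hN0; positivity)) hpos2.ne', Real.log_mul hθ0.ne' hpos1.ne',
    Real.log_rpow (by (clear * - hN1 hN0; positivity)), Real.log_div (by (clear * - hN1; positivity)) (by (clear * - hN0; positivity)),
    Real.log_div one_ne_zero hθ0.ne', Real.log_one]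
  have hlog : -Real.log (1 - P / N1) ≤ P / K := by
    have h3 : -Real.log (1 - P / N1) = Real.log ((1 - P / N1)⁻¹) := by rw [Real.log_inv]
    rw [h3]
    have h4 := Real.log_le_sub_one_of_pos (inv_pos.2 hpos2)
    refine h4.trans ?_
    have h5 : (1 - P / N1)⁻¹ - 1 = P / (N1 - P) := by
      have hne : N1 - P ≠ 0 := by
        have : 0 < N1 - P := by linarith only [hK, hdis]
        exact this.ne'
      have hN1' : N1 ≠ 0 := by (clear * - hN1; positivity)
      have : 1 - P / N1 = (N1 - P) / N1 := by field_simp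
      rw [this, inv_div]
      field_simp
      ring
    rw [h5]
    exact div_le_div_of_nonneg_left hplus (by linarith only [hK]) (by linarith only [hdis])
  linarith only [hlog]

lemma wt_cost {θ : ℝ} (hθ0 : 0 < θ) (D : Finset ℤ) (u : ℕ) (a : ℤ) (ha : a ≠ 0) (l : List ℕ) :
    ∀ Q : ℕ, l.Nodup → (∀ p ∈ l, p.Prime) → (∀ p ∈ l, Nat.Coprime p Q) → (Q : ℤ) ∣ a →
      (∀ p ∈ l, val p a = u.factorization p) →
      (∀ d ∈ D, 0 < wt θ D (d + a) u l Q) ∧
      -∑ d ∈ D, Real.log (wt θ D (d + a) u l Q) ≤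
        D.card * (l.length * (Real.log (1 / θ) + 1)) + θ * ∑ d ∈ D, Real.log (nn D Q d) := by
  induction l with
  | nil =>
    intro Q _ _ _ _ _
    refine ⟨fun d _ => by simp [wt], ?_⟩
    simp only [wt, Real.log_one, Finset.sum_const_zero, neg_zero, List.length_nil, Nat.cast_zero,
      zero_mul, mul_zero, zero_add]
    apply mul_nonneg hθ0.le
    exact Finset.sum_nonneg (fun d hd => Real.log_nonneg (one_le_nn D Q hd))
  | cons p l ih =>
    intro Q hnd hpr hco hQ hval
    have hp : p.Prime := hpr p (by simp)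
    set v := u.factorization p with hv
    have hva : val p a = v := hval p (by simp)
    have hpv : (p : ℤ) ^ v ∣ a := (pow_dvd_iff_val hp ha v).2 hva.ge
    have hpv' : ¬ (p : ℤ) ^ (v + 1) ∣ a := by
      rw [pow_dvd_iff_val hp ha]; omega
    have hcoQ : IsCoprime (Q : ℤ) ((p : ℤ) ^ v) := by
      have h := (hco p (by simp)).symm
      have h' : Nat.Coprime Q (p ^ v) := Nat.Coprime.pow_right v h
      have := Nat.isCoprime_iff_coprime.2 h'
      rwa [Nat.cast_pow] at this
    have h1 : ((Q * p ^ v : ℕ) : ℤ) ∣ a := by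
      rw [Nat.cast_mul, Nat.cast_pow]
      exact hcoQ.mul_dvd hQ hpv
    have h2 : ¬ ((Q * p ^ (v + 1) : ℕ) : ℤ) ∣ a := by
      intro h
      apply hpv'
      refine dvd_trans ?_ h
      rw [Nat.cast_mul, Nat.cast_pow]
      exact dvd_mul_left _ _
    have hnd' := List.nodup_cons.1 hnd
    obtain ⟨ihpos, ihcost⟩ := ih (Q * p ^ v) hnd'.2 (fun q hq => hpr q (by simp [hq]))
      (fun q hq => by
        have hq1 : Nat.Coprime q Q := hco q (by simp [hq])
        have hq2 : Nat.Coprime q (p ^ v) := by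
          apply Nat.Coprime.pow_right
          rw [Nat.coprime_primes (hpr q (by simp [hq])) hp]
          rintro rfl
          exact hnd'.1 hq
        exact Nat.Coprime.mul_right hq1 hq2)
      h1 (fun q hq => hval q (by simp [hq]))
    have hf := fun d (hd : d ∈ D) => neg_log_fac_le hθ0 D hd h1 h2
    refine ⟨fun d hd => ?_, ?_⟩
    · simp only [wt]
      rw [← hv]
      exact mul_pos (hf d hd).1 (ihpos d hd)
    · have hsum : -∑ d ∈ D, Real.log (wt θ D (d + a) u (p :: l) Q) =
          ∑ d ∈ D, -Real.log (fac θ D (d + a) Q p v)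
          + -∑ d ∈ D, Real.log (wt θ D (d + a) u l (Q * p ^ v)) := by
        rw [← Finset.sum_neg_distrib, ← Finset.sum_neg_distrib, ← Finset.sum_add_distrib]
        apply Finset.sum_congr rfl
        intro d hd
        simp only [wt]
        rw [← hv, Real.log_mul (hf d hd).1.ne' (ihpos d hd).ne']
        ring
      rw [hsum]
      have hA : ∑ d ∈ D, -Real.log (fac θ D (d + a) Q p v) ≤
          ∑ d ∈ D, (Real.log (1 / θ) + θ * (Real.log (nn D Q d) - Real.log (nn D (Q * p ^ v) d))
            + nn D (Q * p ^ (v + 1)) (d + a) / nn D (Q * p ^ (v + 1)) d) :=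
        Finset.sum_le_sum (fun d hd => (hf d hd).2)
      have hB := sum_ratio_le D (Q * p ^ (v + 1)) a
      have hC : ∑ d ∈ D, (Real.log (1 / θ) + θ * (Real.log (nn D Q d)
            - Real.log (nn D (Q * p ^ v) d))
            + nn D (Q * p ^ (v + 1)) (d + a) / nn D (Q * p ^ (v + 1)) d) =
          D.card * Real.log (1 / θ) + θ * (∑ d ∈ D, Real.log (nn D Q d))
            - θ * (∑ d ∈ D, Real.log (nn D (Q * p ^ v) d))
            + ∑ d ∈ D, nn D (Q * p ^ (v + 1)) (d + a) / nn D (Q * p ^ (v + 1)) d := by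
        rw [Finset.sum_add_distrib, Finset.sum_add_distrib, Finset.sum_const, nsmul_eq_mul,
          ← Finset.mul_sum, Finset.sum_sub_distrib]
        ring
      rw [hC] at hA
      have hlen : ((p :: l).length : ℝ) = (l.length : ℝ) + 1 := by
        simp
      rw [hlen]
      (clear * - ihcost hA hB; linarith only [ihcost, hA, hB])

/-- Module DECU of Theorem E: decoding the `S`-unit part of `a` from `d + a`. -/
theorem decU (S : Finset ℕ) (hS : ∀ p ∈ S, p.Prime) (θ : ℝ) (hθ0 : 0 < θ) (hθ1 : θ ≤ 1)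
    (D : Finset ℤ) (hD : D.Nonempty) :
    ∃ q : ℤ → ℕ → ℝ, (∀ x u, 0 ≤ q x u) ∧
      (∀ x, ∀ V : Finset ℕ, (∀ u ∈ V, u ≠ 0 ∧ u.primeFactors ⊆ S) → ∑ u ∈ V, q x u ≤ 1) ∧
      (∀ (u : ℕ) (a : ℤ), a ≠ 0 → (∀ p ∈ S, val p a = u.factorization p) →
        (∀ d ∈ D, 0 < q (d + a) u) ∧
        -∑ d ∈ D, Real.log (q (d + a) u) ≤
          D.card * (θ * Real.log D.card + S.card * (Real.log (1 / θ) + 2))) := by
  refine ⟨fun x u => wt θ D x u S.toList 1, fun x u => wt_nonneg hθ0 D x u _ 1, ?_, ?_⟩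
  · intro x V hV
    apply sum_wt_le hθ0 hθ1
    intro u hu u' hu' h
    apply Nat.eq_of_factorization_eq (hV u hu).1 (hV u' hu').1
    intro p
    by_cases hp : p ∈ S
    · exact h p (Finset.mem_toList.2 hp)
    · have h1 : p ∉ u.primeFactors := fun h => hp ((hV u hu).2 h)
      have h2 : p ∉ u'.primeFactors := fun h => hp ((hV u' hu').2 h)
      rw [← Nat.support_factorization] at h1 h2
      rw [Finsupp.notMem_support_iff.1 h1, Finsupp.notMem_support_iff.1 h2]
  · intro u a ha hval
    obtain ⟨h1, h2⟩ := wt_cost hθ0 D u a ha S.toList 1 S.nodup_toList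
      (fun p hp => hS p (Finset.mem_toList.1 hp)) (fun p _ => Nat.coprime_one_right p) (by simp)
      (fun p hp => hval p (Finset.mem_toList.1 hp))
    refine ⟨h1, h2.trans ?_⟩
    have hn1 : ∀ d ∈ D, Real.log (nn D 1 d) = Real.log D.card := by
      intro d _
      unfold nn
      simp
    rw [Finset.sum_congr rfl hn1, Finset.sum_const, nsmul_eq_mul, Finset.length_toList]
    have hc : (0 : ℝ) ≤ D.card := Nat.cast_nonneg _
    have hs : (0 : ℝ) ≤ S.card := Nat.cast_nonneg _
    nlinarith only []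

end Pool.Agent.Helper1
end

/- Helper24.FF.H5.SumMain -/
section
set_option autoImplicit false

namespace Pool.Agent.Helper5

open Finset

/-- a pair `(d, Y)` is good -/
def good (P : Finset ℕ) (q K : ℕ) (D M : Finset ℤ) (e : ℤ × ℤ) : Prop :=
  (∀ p ∈ P, ¬ bad p K D e.1 (val p e.2)) ∧
  ∀ i, ¬ (bad q K D e.1 (val q e.2 + i) ∧ bad q K M (mP P e.2) i)

lemma card_fibre_le {P : Finset ℕ} (hP : ∀ p ∈ P, p.Prime) {q K L ℓ : ℕ} (hq : q ∈ P)
    (hK : 2 ≤ K) {D A : Finset ℤ} (hA : (0 : ℤ) ∉ A)
    (hL : D.card < K ^ (L + 1)) (hℓ : D.card * A.card < K ^ (ℓ + 1)) (S : ℤ)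
    (R : Finset (ℤ × ℤ))
    (hR : ∀ e ∈ R, e.1 ∈ D ∧ e.2 ∈ A ∧ e.1 + e.2 = S ∧ good P q K D (A.image (mP P)) e) :
    R.card ≤ (L + 1) ^ P.card * 2 ^ ℓ := by
  classical
  have hne0 : ∀ e ∈ R, e.2 ≠ 0 := fun e he h => hA (h ▸ (hR e he).2.1)
  -- the valuation vector
  let F : ℤ × ℤ → ({p // p ∈ P} → ℕ) := fun e p => val p.1 e.2
  have himg : (R.image F).card ≤ (L + 1) ^ P.card := by
    have hsub : R.image F ⊆ Fintype.piFinset
        (fun p : {p // p ∈ P} => R.image (fun e => val p.1 e.2)) := by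
      intro f hf
      rw [mem_image] at hf
      obtain ⟨e, he, rfl⟩ := hf
      rw [Fintype.mem_piFinset]
      intro p
      exact mem_image_of_mem _ he
    refine (card_le_card hsub).trans ?_
    rw [Fintype.card_piFinset]
    calc ∏ p : {p // p ∈ P}, (R.image (fun e => val p.1 e.2)).card
        ≤ ∏ _p : {p // p ∈ P}, (L + 1) := by
          apply prod_le_prod' 
          intro p _
          apply card_val_le (hP p.1 p.2) hK hL S R
          intro e he
          obtain ⟨h1, h2, h3, h4⟩ := hR e he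
          exact ⟨h1, hne0 e he, h3, h4.1 p.1 p.2⟩
      _ = (L + 1) ^ P.card := by simp
  have hfib : ∀ f ∈ R.image F, (R.filter (fun e => F e = f)).card ≤ 2 ^ ℓ := by
    intro f _
    set R' := R.filter (fun e => F e = f) with hR'
    rcases R'.eq_empty_or_nonempty with h0 | ⟨e₀, he₀⟩
    · rw [h0]; simp
    have he₀' := he₀
    rw [hR', mem_filter] at he₀'
    set u : ℕ := uP P e₀.2 with hu
    have hupos : 0 < u := uP_pos hP _
    have huu : ∀ e ∈ R', uP P e.2 = u := by
      intro e he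
      rw [hR', mem_filter] at he
      unfold uP at hu ⊢
      rw [hu]
      apply prod_congr rfl
      intro p hp
      have h1 := congrFun (he.2.trans he₀'.2.symm) ⟨p, hp⟩
      simp only [F] at h1
      rw [h1]
    set v := val q e₀.2 with hv
    have hvv : ∀ e ∈ R', val q e.2 = v := by
      intro e he
      rw [hR', mem_filter] at he
      have h1 := congrFun (he.2.trans he₀'.2.symm) ⟨q, hq⟩
      simpa [F] using h1
    have hYe : ∀ e ∈ R', (u : ℤ) * mP P e.2 = e.2 := by
      intro e he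
      rw [← huu e he]
      rw [hR', mem_filter] at he
      exact uP_mul_mP hP (hne0 e he.1)
    have hqp := hP q hq
    -- u = q^v * u'
    have hvu : u.factorization q = v := by
      rw [hu, uP_factorization hP, if_pos hq]
    let Φ : ℤ × ℤ → ℤ × ℤ := fun e => (e.1, mP P e.2)
    have hinjΦ : Set.InjOn Φ R' := by
      intro e he e' he' h
      simp only [Φ, Prod.mk.injEq] at h
      have h1 : e.1 = e'.1 := h.1
      have h2 : mP P e.2 = mP P e'.2 := h.2
      have h3 : e.2 = e'.2 := by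
        rw [← hYe e he, ← hYe e' he', h2]
      exact Prod.ext h1 h3
    rw [← card_image_of_injOn hinjΦ]
    have hmemR : ∀ e ∈ R', e ∈ R := fun e he => (mem_filter.mp he).1
    apply two_tree hqp.two_le hK v D (A.image (mP P)) ℓ 0
    · intro x hx
      rw [mem_image] at hx
      obtain ⟨e, he, rfl⟩ := hx
      exact ⟨(hR e (hmemR e he)).1, mem_image_of_mem _ (hR e (hmemR e he)).2.1⟩
    · intro x hx x' hx' i
      rw [mem_image] at hx hx'
      obtain ⟨e, he, rfl⟩ := hx
      obtain ⟨e', he', rfl⟩ := hx'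
      simp only [Φ]
      have hs := (hR e (hmemR e he)).2.2.1
      have hs' := (hR e' (hmemR e' he')).2.2.1
      have h1 : e.1 - e'.1 = (u : ℤ) * (mP P e'.2 - mP P e.2) := by
        rw [mul_sub, hYe e he, hYe e' he']; linarith only [hs, hs']
      rw [h1]
      by_cases hz : mP P e'.2 - mP P e.2 = 0
      · have hz' : mP P e.2 - mP P e'.2 = 0 := by linarith only [hz]
        rw [hz, hz']; simp
      · have hz' : mP P e.2 - mP P e'.2 ≠ 0 := fun h => hz (by linarith only [h])
        have hu0 : (u : ℤ) ≠ 0 := by exact_mod_cast hupos.ne'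
        rw [pow_dvd_iff_val hqp (mul_ne_zero hu0 hz), pow_dvd_iff_val hqp hz',
          val_mul hu0 hz, val_natCast, hvu]
        have : val q (mP P e'.2 - mP P e.2) = val q (mP P e.2 - mP P e'.2) := by
          unfold val
          rw [← Int.natAbs_neg, neg_sub]
        rw [this]
        omega
    · intro x hx x' hx' h
      rw [mem_image] at hx hx'
      obtain ⟨e, he, rfl⟩ := hx
      obtain ⟨e', he', rfl⟩ := hx'
      simp only [Φ] at h
      have h3 : e.2 = e'.2 := by
        rw [← hYe e he, ← hYe e' he', h]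
      have hs := (hR e (hmemR e he)).2.2.1
      have hs' := (hR e' (hmemR e' he')).2.2.1
      have h4 : e.1 = e'.1 := by linarith only [h3, hs, hs']
      simp only [Φ, h3, h4]
    · intro x hx i
      rw [mem_image] at hx
      obtain ⟨e, he, rfl⟩ := hx
      have h1 := (hR e (hmemR e he)).2.2.2.2 i
      rw [hvv e he] at h1
      exact h1
    · intro x _ x' _; simp
    · intro x hx
      rw [mem_image] at hx
      obtain ⟨e, he, rfl⟩ := hx
      refine lt_of_le_of_lt ?_ hℓ
      exact Nat.mul_le_mul (nd_le _ _ _ _) ((nd_le _ _ _ _).trans card_image_le)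
  calc R.card ≤ 2 ^ ℓ * (R.image F).card := 
        card_le_mul_card_image R (2 ^ ℓ) hfib
    _ ≤ 2 ^ ℓ * (L + 1) ^ P.card := Nat.mul_le_mul_left _ himg
    _ = _ := by ring

/-- few summands are bad for a given `d` -/
lemma card_not_good_le {P : Finset ℕ} (hP : ∀ p ∈ P, p.Prime) {q K Q jD jM : ℕ} (hq : q ∈ P)
    (hK : 2 ≤ K) {D A : Finset ℤ}
    (hjD : D.card < 2 ^ jD) (hjM : A.card < 2 ^ jM)
    (hQ : ∀ p ∈ P, ∀ φ : ℤ → ℕ, Q * (A.filter (fun a => val p a = φ (mP P a))).card ≤ A.card)
    {M : Finset ℤ} (hM : M = A.image (mP P))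
    {d : ℤ} (hd : d ∈ D) [DecidablePred (fun Y => ¬ good P q K D M (d, Y))] :
    Q * (A.filter (fun Y => ¬ good P q K D M (d, Y))).card ≤
      (P.card * (K * jD) + (K * jD) * (K * jM)) * A.card := by
  classical
  -- first kind
  let T1 : ℕ → Finset ℕ := fun p => (A.image (val p)).filter (bad p K D d)
  have hT1 : ∀ p ∈ P, (T1 p).card ≤ K * jD := by
    intro p hp
    exact (card_bad hd (T1 p) (fun i hi => (mem_filter.mp hi).2) hjD hK).le
  have h1 : ∀ p ∈ P, Q * (A.filter (fun Y => val p Y ∈ T1 p)).card ≤ (K * jD) * A.card := by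
    intro p hp
    exact card_filter_mem_le (f := val p) (g := mP P) (hQ p hp) (K * jD) (fun _ => T1 p)
      (fun _ => hT1 p hp)
  -- second kind
  let T2 : ℤ → Finset ℕ := fun m => if m ∈ M then
    (A.image (val q)).filter (fun x => ∃ i, bad q K D d (x + i) ∧ bad q K M m i) else ∅
  have hT2 : ∀ m, (T2 m).card ≤ (K * jD) * (K * jM) := by
    intro m
    by_cases hm : m ∈ M
    · have hex : ∀ x ∈ T2 m, ∃ i, bad q K D d (x + i) ∧ bad q K M m i := by
        intro x hx
        simp only [T2, if_pos hm, mem_filter] at hx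
        exact hx.2
      choose! ι hι using hex
      have hinj : Set.InjOn (fun x => (x + ι x, ι x)) (T2 m : Set ℕ) := by
        intro x _ y _ h
        simp only [Prod.mk.injEq] at h
        omega
      rw [← card_image_of_injOn hinj]
      have hsub : (T2 m).image (fun x => (x + ι x, ι x)) ⊆
          ((T2 m).image (fun x => x + ι x)) ×ˢ ((T2 m).image ι) := by
        intro z hz
        rw [mem_image] at hz
        obtain ⟨x, hx, rfl⟩ := hz
        rw [mem_product]
        exact ⟨mem_image_of_mem _ hx, mem_image_of_mem _ hx⟩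
      refine (card_le_card hsub).trans ?_
      rw [card_product]
      apply Nat.mul_le_mul
      · refine (card_bad (p := q) hd _ (fun i hi => ?_) hjD hK).le
        rw [mem_image] at hi
        obtain ⟨x, hx, rfl⟩ := hi
        exact (hι x hx).1
      · refine (card_bad (p := q) hm _ (fun i hi => ?_) (lt_of_le_of_lt (hM ▸ card_image_le) hjM) hK).le
        rw [mem_image] at hi
        obtain ⟨x, hx, rfl⟩ := hi
        exact (hι x hx).2
    · simp [T2, hm]
  have h2 : Q * (A.filter (fun Y => val q Y ∈ T2 (mP P Y))).card ≤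
      ((K * jD) * (K * jM)) * A.card :=
    card_filter_mem_le (f := val q) (g := mP P) (hQ q hq) _ T2 hT2
  have hsub : A.filter (fun Y => ¬ good P q K D M (d, Y)) ⊆
      (P.biUnion (fun p => A.filter (fun Y => val p Y ∈ T1 p))) ∪
        A.filter (fun Y => val q Y ∈ T2 (mP P Y)) := by
    intro Y hY
    rw [mem_filter] at hY
    obtain ⟨hYA, hYg⟩ := hY
    unfold good at hYg
    rw [not_and_or] at hYg
    rw [mem_union]
    rcases hYg with h | h
    · left
      push Not at h
      obtain ⟨p, hp, hb⟩ := h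
      rw [mem_biUnion]
      refine ⟨p, hp, ?_⟩
      rw [mem_filter]
      exact ⟨hYA, mem_filter.mpr ⟨mem_image_of_mem _ hYA, hb⟩⟩
    · right
      push Not at h
      obtain ⟨i, hb1, hb2⟩ := h
      rw [mem_filter]
      refine ⟨hYA, ?_⟩
      simp only [T2]
      rw [if_pos (hM ▸ mem_image_of_mem _ hYA), mem_filter]
      exact ⟨mem_image_of_mem _ hYA, i, hb1, hb2⟩
  have h3 := (card_le_card hsub).trans (card_union_le _ _)
  have h4 : (P.biUnion (fun p => A.filter (fun Y => val p Y ∈ T1 p))).card ≤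
      ∑ p ∈ P, (A.filter (fun Y => val p Y ∈ T1 p)).card := card_biUnion_le
  calc Q * (A.filter (fun Y => ¬ good P q K D M (d, Y))).card
      ≤ Q * ((∑ p ∈ P, (A.filter (fun Y => val p Y ∈ T1 p)).card) +
          (A.filter (fun Y => val q Y ∈ T2 (mP P Y))).card) := by
        apply Nat.mul_le_mul_left
        omega
    _ = (∑ p ∈ P, Q * (A.filter (fun Y => val p Y ∈ T1 p)).card) +
          Q * (A.filter (fun Y => val q Y ∈ T2 (mP P Y))).card := by
        rw [mul_add, mul_sum]
    _ ≤ (∑ _p ∈ P, (K * jD) * A.card) + ((K * jD) * (K * jM)) * A.card := by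
        apply Nat.add_le_add _ h2
        exact sum_le_sum h1
    _ = _ := by rw [sum_const, smul_eq_mul]; ring

/-- **Sum step**: adding the structured set `A` to an arbitrary set `D` is almost injective. -/
theorem sum_step {P : Finset ℕ} (hP : ∀ p ∈ P, p.Prime) (hne : P.Nonempty)
    {K Q jD jM L ℓ : ℕ} (hK : 2 ≤ K) {D A : Finset ℤ} (hA : (0 : ℤ) ∉ A)
    (hjD : D.card < 2 ^ jD) (hjM : A.card < 2 ^ jM)
    (hL : D.card < K ^ (L + 1)) (hℓ : D.card * A.card < K ^ (ℓ + 1))
    (hQ : ∀ p ∈ P, ∀ φ : ℤ → ℕ, Q * (A.filter (fun a => val p a = φ (mP P a))).card ≤ A.card)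
    (hQbig : 2 * (P.card * (K * jD) + (K * jD) * (K * jM)) ≤ Q) :
    D.card * A.card ≤ 2 * ((L + 1) ^ P.card * 2 ^ ℓ) * (image₂ (· + ·) D A).card := by
  classical
  rcases D.eq_empty_or_nonempty with rfl | hDne
  · simp
  obtain ⟨q, hq⟩ := hne
  set M := A.image (mP P) with hM
  have hjDpos : 0 < jD := by
    rcases Nat.eq_zero_or_pos jD with h | h
    · subst h
      have := Finset.card_pos.mpr hDne
      simp at hjD
      exact absurd hjD hDne.ne_empty
    · exact h
  set X := P.card * (K * jD) + (K * jD) * (K * jM) with hX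
  have hXpos : 0 < X := by
    have : 0 < P.card := Finset.card_pos.mpr ⟨q, hq⟩
    have : 0 < P.card * (K * jD) := by (clear * - this hK hjDpos; positivity)
    (clear * - Q L ℓ D A this; omega)
  let G := (D ×ˢ A).filter (fun e => good P q K D M e)
  have hG : D.card * A.card ≤ 2 * G.card := by
    have h1 : ∀ d ∈ D, A.card ≤ 2 * (A.filter (fun Y => good P q K D M (d, Y))).card := by
      intro d hd
      have hb := card_not_good_le hP hq hK hjD hjM hQ hM hd
      have hsplit := Finset.card_filter_add_card_filter_not (s := A)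
        (fun Y => good P q K D M (d, Y))
      set b := (A.filter (fun Y => ¬ good P q K D M (d, Y))).card with hbdef
      set g := (A.filter (fun Y => good P q K D M (d, Y))).card with hgdef
      have h2 : 2 * X * b ≤ X * A.card := by
        calc 2 * X * b ≤ Q * b := Nat.mul_le_mul_right _ hQbig
          _ ≤ X * A.card := hb
      have h3 : 2 * b ≤ A.card := by
        have : X * (2 * b) ≤ X * A.card := by
          calc X * (2 * b) = 2 * X * b := by ring
            _ ≤ _ := h2
        exact Nat.le_of_mul_le_mul_left this hXpos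
      omega
    have h2 : G.card = ∑ d ∈ D, (A.filter (fun Y => good P q K D M (d, Y))).card := by
      show ((D ×ˢ A).filter (fun e => good P q K D M e)).card = _
      rw [card_filter, sum_product]
      apply sum_congr rfl
      intro d _
      rw [card_filter]
    rw [h2, mul_sum]
    calc D.card * A.card = ∑ _d ∈ D, A.card := by rw [sum_const, smul_eq_mul]
      _ ≤ _ := sum_le_sum h1
  have hfib : ∀ S ∈ G.image (fun e => e.1 + e.2),
      (G.filter (fun e => e.1 + e.2 = S)).card ≤ (L + 1) ^ P.card * 2 ^ ℓ := by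
    intro S _
    apply card_fibre_le hP hq hK hA hL hℓ S
    intro e he
    rw [mem_filter, mem_filter, mem_product] at he
    exact ⟨he.1.1.1, he.1.1.2, he.2, he.1.2⟩
  have h3 := card_le_mul_card_image G ((L + 1) ^ P.card * 2 ^ ℓ) hfib
  have h4 : (G.image (fun e => e.1 + e.2)).card ≤ (image₂ (· + ·) D A).card := by
    apply card_le_card
    intro S hS
    rw [mem_image] at hS
    obtain ⟨e, he, rfl⟩ := hS
    rw [mem_filter, mem_product] at he
    exact mem_image₂_of_mem he.1.1 he.1.2
  calc D.card * A.card ≤ 2 * G.card := hG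
    _ ≤ 2 * (((L + 1) ^ P.card * 2 ^ ℓ) * (G.image (fun e => e.1 + e.2)).card) :=
        Nat.mul_le_mul_left _ h3
    _ ≤ 2 * (((L + 1) ^ P.card * 2 ^ ℓ) * (image₂ (· + ·) D A).card) :=
        Nat.mul_le_mul_left _ (Nat.mul_le_mul_left _ h4)
    _ = _ := by ring

end Pool.Agent.Helper5
end

/- Helper24.FF.H5.Structure -/
section
set_option autoImplicit false

namespace Pool.Agent.Helper5

open Finset

lemma uP_erase {P : Finset ℕ} {p : ℕ} (hp : p ∈ P) (a : ℤ) :
    uP P a = p ^ val p a * uP (P.erase p) a := by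
  unfold uP
  rw [← mul_prod_erase P _ hp]

lemma mP_erase {P : Finset ℕ} (hP : ∀ p ∈ P, p.Prime) {p : ℕ} (hp : p ∈ P) {a : ℤ} (ha : a ≠ 0) :
    mP (P.erase p) a = (p : ℤ) ^ val p a * mP P a := by
  have hP' : ∀ q ∈ P.erase p, q.Prime := fun q hq => hP q (mem_of_mem_erase hq)
  have h1 := uP_mul_mP hP ha
  have h2 := uP_mul_mP hP' ha
  have h3 : (uP (P.erase p) a : ℤ) ≠ 0 := by exact_mod_cast (uP_pos hP' a).ne'
  apply mul_left_cancel₀ h3
  rw [h2]
  rw [uP_erase hp] at h1
  push_cast at h1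
  linarith only [h1]

/-- **Popular fixing**: pass to a large subset on which, for all primes in a subset `P'`, the
valuations are spread on the fibres; the number of `P'`-free parts does not grow. -/
theorem popular (Q : ℕ) : ∀ (n : ℕ) (P : Finset ℕ), P.card = n → (∀ p ∈ P, p.Prime) →
    ∀ A : Finset ℤ, (0 : ℤ) ∉ A → ∃ P' ⊆ P, ∃ A' ⊆ A,
      A.card ≤ A'.card * Q ^ (P.card - P'.card) ∧
      (A'.image (mP P')).card ≤ (A.image (mP P)).card ∧
      ∀ p ∈ P', ∀ φ : ℤ → ℕ,
        Q * (A'.filter (fun a => val p a = φ (mP P' a))).card ≤ A'.card := by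
  intro n
  induction n with
  | zero =>
    intro P hPn hP A hA
    have hP0 : P = ∅ := card_eq_zero.mp hPn
    subst hP0
    exact ⟨∅, subset_refl _, A, subset_refl _, by simp, le_refl _, by simp⟩
  | succ n ih =>
    intro P hPn hP A hA
    classical
    by_cases hall : ∀ p ∈ P, ∀ φ : ℤ → ℕ,
        Q * (A.filter (fun a => val p a = φ (mP P a))).card ≤ A.card
    · exact ⟨P, subset_refl _, A, subset_refl _, by simp, le_refl _, hall⟩
    · push Not at hall
      obtain ⟨p, hp, φ, hφ⟩ := hall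
      set A₁ := A.filter (fun a => val p a = φ (mP P a)) with hA₁
      have hcard : (P.erase p).card = n := by rw [card_erase_of_mem hp, hPn]; rfl
      obtain ⟨P', hP', A', hA', h1, h2, h3⟩ := ih (P.erase p) hcard
        (fun q hq => hP q (mem_of_mem_erase hq)) A₁ (fun h => hA (mem_filter.mp h).1)
      refine ⟨P', hP'.trans (erase_subset _ _), A', hA'.trans (filter_subset _ _), ?_, ?_, h3⟩
      · have hle : P'.card ≤ n := by rw [← hcard]; exact card_le_card hP'
        have e : P.card - P'.card = ((P.erase p).card - P'.card) + 1 := by omega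
        rw [e, pow_succ]
        calc A.card ≤ Q * A₁.card := hφ.le
          _ ≤ Q * (A'.card * Q ^ ((P.erase p).card - P'.card)) := Nat.mul_le_mul_left _ h1
          _ = _ := by ring
      · refine h2.trans ?_
        have hsub : A₁.image (mP (P.erase p)) ⊆
            (A.image (mP P)).image (fun m => (p : ℤ) ^ φ m * m) := by
          intro x hx
          rw [mem_image] at hx
          obtain ⟨a, ha, rfl⟩ := hx
          rw [hA₁, mem_filter] at ha
          have ha0 : a ≠ 0 := fun h => hA (h ▸ ha.1)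
          rw [mem_image]
          refine ⟨mP P a, mem_image_of_mem _ ha.1, ?_⟩
          rw [mP_erase hP hp ha0, ha.2]
        exact (card_le_card hsub).trans card_image_le

/-- **Kernel**: a set of primes `P` contained in `Z a` for many `a`, all other primes being
rare. -/
theorem kernel (A : Finset ℤ) (Z : ℤ → Finset ℕ) (H : ℕ) :
    ∃ P : Finset ℕ, A.card ≤ H ^ P.card * (A.filter (fun a => P ⊆ Z a)).card ∧
      ∀ p, p ∉ P → H * ((A.filter (fun a => P ⊆ Z a)).filter (fun a => p ∈ Z a)).card ≤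
        (A.filter (fun a => P ⊆ Z a)).card := by
  classical
  rcases A.eq_empty_or_nonempty with rfl | hA
  · exact ⟨∅, by simp, by simp⟩
  let U := A.biUnion Z
  let Fam := U.powerset.filter
    (fun P => A.card ≤ H ^ P.card * (A.filter (fun a => P ⊆ Z a)).card)
  have hne : Fam.Nonempty := by
    refine ⟨∅, ?_⟩
    simp [Fam]
  obtain ⟨P, hP, hmax⟩ := exists_max_image Fam Finset.card hne
  rw [mem_filter, mem_powerset] at hP
  refine ⟨P, hP.2, ?_⟩
  intro p hp
  by_contra hcon
  push Not at hcon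
  set A₀ := A.filter (fun a => P ⊆ Z a) with hA₀
  set A₁ := A₀.filter (fun a => p ∈ Z a) with hA₁
  have hA₁eq : A₁ = A.filter (fun a => insert p P ⊆ Z a) := by
    ext a
    simp only [hA₁, hA₀, mem_filter, insert_subset_iff]
    tauto
  have hA₁ne : A₁.Nonempty := by
    rw [← card_pos]
    rcases Nat.eq_zero_or_pos A₁.card with h | h
    · rw [h] at hcon; simp at hcon
    · exact h
  obtain ⟨a, ha⟩ := hA₁ne
  have ha' := ha
  rw [hA₁eq, mem_filter] at ha'
  have hmem : insert p P ∈ Fam := by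
    rw [mem_filter, mem_powerset]
    refine ⟨?_, ?_⟩
    · intro q hq
      exact mem_biUnion.mpr ⟨a, ha'.1, ha'.2 hq⟩
    · rw [← hA₁eq, card_insert_of_notMem hp]
      calc A.card ≤ H ^ P.card * A₀.card := hP.2
        _ ≤ H ^ P.card * (H * A₁.card) := Nat.mul_le_mul_left _ hcon.le
        _ = _ := by ring
  have := hmax _ hmem
  rw [card_insert_of_notMem hp] at this
  omega

/-- number of functions supported on `T` with sum at most `r` -/
lemma card_fun_le (T : Finset ℕ) : ∀ (r : ℕ) (W : Finset (ℕ → ℕ)),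
    (∀ f ∈ W, (∀ p, p ∉ T → f p = 0) ∧ ∑ p ∈ T, f p ≤ r) → W.card ≤ 2 ^ (T.card + r) := by
  classical
  induction T using Finset.induction_on with
  | empty =>
    intro r W hW
    have : W ⊆ {0} := by
      intro f hf
      rw [mem_singleton]
      ext p
      exact (hW f hf).1 p (notMem_empty _)
    have h1 := card_le_card this
    have h2 : 1 ≤ 2 ^ r := Nat.one_le_two_pow
    simp only [card_singleton] at h1
    simp only [card_empty, zero_add]
    omega
  | insert p T hp ih =>
    intro r W hW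
    have hsub : W ⊆ (range (r + 1)).biUnion (fun j => W.filter (fun f => f p = j)) := by
      intro f hf
      rw [mem_biUnion]
      refine ⟨f p, ?_, mem_filter.mpr ⟨hf, rfl⟩⟩
      have := (hW f hf).2
      rw [sum_insert hp] at this
      rw [mem_range]; omega
    have hj : ∀ j ∈ range (r + 1), (W.filter (fun f => f p = j)).card ≤ 2 ^ (T.card + (r - j)) := by
      intro j hj
      have hinj : Set.InjOn (fun f : ℕ → ℕ => Function.update f p 0)
          (W.filter (fun f => f p = j) : Finset (ℕ → ℕ)) := by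
        intro f hf g hg h
        rw [mem_coe, mem_filter] at hf hg
        ext q
        by_cases hq : q = p
        · subst hq; rw [hf.2, hg.2]
        · have := congrFun h q
          simpa [Function.update_of_ne hq] using this
      rw [← card_image_of_injOn hinj]
      apply ih
      intro g hg
      rw [mem_image] at hg
      obtain ⟨f, hf, rfl⟩ := hg
      rw [mem_filter] at hf
      have h1 := hW f hf.1
      refine ⟨?_, ?_⟩
      · intro q hq
        by_cases hqp : q = p
        · subst hqp; simp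
        · rw [Function.update_of_ne hqp]
          exact h1.1 q (by simp [hqp, hq])
      · have h2 := h1.2
        rw [sum_insert hp, hf.2] at h2
        have : ∑ q ∈ T, Function.update f p 0 q = ∑ q ∈ T, f q := by
          apply sum_congr rfl
          intro q hq
          rw [Function.update_of_ne]
          rintro rfl; exact hp hq
        rw [this]; (clear * - h2 this; omega)
    have hgeom : ∀ r : ℕ, ∑ j ∈ range (r + 1), 2 ^ (T.card + (r - j)) ≤ 2 ^ (T.card + 1 + r) := by
      intro r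
      have h1 : ∑ j ∈ range (r + 1), 2 ^ (T.card + (r - j)) =
          ∑ j ∈ range (r + 1), 2 ^ (T.card + j) := by
        have h := sum_range_reflect (fun j => 2 ^ (T.card + j)) (r + 1)
        rw [← h]
        apply sum_congr rfl
        intro j _
        congr 1
      rw [h1]
      have h2 : ∀ n, ∑ j ∈ range n, 2 ^ (T.card + j) ≤ 2 ^ (T.card + n) := by
        intro n
        induction n with
        | zero => simp
        | succ n ihn =>
          rw [sum_range_succ, ← add_assoc, pow_succ]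
          omega
      have h3 := h2 (r + 1)
      rwa [show T.card + (r + 1) = T.card + 1 + r by ring] at h3
    rw [card_insert_of_notMem hp]
    calc W.card ≤ _ := card_le_card hsub
      _ ≤ ∑ j ∈ range (r + 1), (W.filter (fun f => f p = j)).card := card_biUnion_le
      _ ≤ ∑ j ∈ range (r + 1), 2 ^ (T.card + (r - j)) := sum_le_sum hj
      _ ≤ _ := hgeom r

end Pool.Agent.Helper5
end

/- Helper24.FF.H5.ProdStep -/
section
set_option autoImplicit false

namespace Pool.Agent.Helper5

open Finset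

/-- `a` has at most `s` primes in `Z a`, and at most `r` prime factors (with multiplicity)
outside `Z a`. -/
def st (Z : ℤ → Finset ℕ) (s r : ℕ) (a : ℤ) : Prop :=
  (Z a).card ≤ s ∧ ∑ p ∈ a.natAbs.primeFactors \ Z a, val p a ≤ r

lemma val_pos_of_mem {p : ℕ} {a : ℤ} (hp : p ∈ a.natAbs.primeFactors) : 1 ≤ val p a := by
  unfold val
  rw [Nat.mem_primeFactors] at hp
  exact (hp.1.dvd_iff_one_le_factorization hp.2.2).mp hp.2.1

lemma st_card {Z : ℤ → Finset ℕ} {s r : ℕ} {a : ℤ} (h : st Z s r a) :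
    a.natAbs.primeFactors.card ≤ s + r := by
  have h1 : (a.natAbs.primeFactors \ Z a).card ≤ r := by
    calc (a.natAbs.primeFactors \ Z a).card = ∑ _p ∈ a.natAbs.primeFactors \ Z a, 1 := by simp
      _ ≤ ∑ p ∈ a.natAbs.primeFactors \ Z a, val p a := by
          apply sum_le_sum
          intro p hp
          exact val_pos_of_mem (mem_sdiff.mp hp).1
      _ ≤ r := h.2
  have h2 : a.natAbs.primeFactors ⊆ Z a ∪ (a.natAbs.primeFactors \ Z a) := by
    intro p hp
    by_cases hz : p ∈ Z a
    · exact mem_union_left _ hz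
    · exact mem_union_right _ (mem_sdiff.mpr ⟨hp, hz⟩)
  have h3 := (card_le_card h2).trans (card_union_le _ _)
  have := h.1
  omega

lemma val_eq_zero_of_not_dvd {p : ℕ} {a : ℤ} (h : p ∉ a.natAbs.primeFactors) : val p a = 0 := by
  unfold val
  exact Finsupp.notMem_support_iff.mp (by rwa [Nat.support_factorization])

lemma sum_val_le {Z : ℤ → Finset ℕ} {s r : ℕ} {a : ℤ} (h : st Z s r a) (T : Finset ℕ)
    (hT : ∀ p ∈ T, p ∉ Z a) : ∑ p ∈ T, val p a ≤ r := by
  classical
  refine le_trans ?_ h.2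
  calc ∑ p ∈ T, val p a = ∑ p ∈ T ∩ a.natAbs.primeFactors, val p a := by
        symm
        apply sum_subset inter_subset_left
        intro p hp hp'
        apply val_eq_zero_of_not_dvd
        intro h; exact hp' (mem_inter.mpr ⟨hp, h⟩)
    _ ≤ _ := by
        apply sum_le_sum_of_subset
        intro p hp
        rw [mem_inter] at hp
        exact mem_sdiff.mpr ⟨hp.2, hT p hp.1⟩

lemma sign_mP {P : Finset ℕ} (hP : ∀ p ∈ P, p.Prime) {a : ℤ} (ha : a ≠ 0) :
    (mP P a < 0 ↔ a < 0) := by
  have h := uP_mul_mP hP ha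
  have hu : (0 : ℤ) < uP P a := by exact_mod_cast uP_pos hP a
  constructor
  · intro h1
    rw [← h]; exact mul_neg_of_pos_of_neg hu h1
  · intro h1
    rw [← h] at h1
    by_contra hcon
    push Not at hcon
    have := mul_nonneg hu.le hcon
    omega

lemma eq_of_val {a b : ℤ} (ha : a ≠ 0) (hb : b ≠ 0) (hs : a < 0 ↔ b < 0)
    (h : ∀ q : ℕ, q.Prime → val q a = val q b) : a = b := by
  have h1 : a.natAbs = b.natAbs := by
    apply Nat.eq_of_factorization_eq (Int.natAbs_ne_zero.mpr ha) (Int.natAbs_ne_zero.mpr hb)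
    intro q
    by_cases hq : q.Prime
    · exact h q hq
    · rw [Nat.factorization_eq_zero_of_not_prime _ hq, Nat.factorization_eq_zero_of_not_prime _ hq]
  (clear * - hs h1; omega)

/-- bound for the number of representations of `x` as a product of a good pair -/
lemma card_prod_fibre_le {P : Finset ℕ} (hP : ∀ p ∈ P, p.Prime) {A D : Finset ℤ}
    (hA : (0 : ℤ) ∉ A) (hD : (0 : ℤ) ∉ D) {Z ZD : ℤ → Finset ℕ} {s r sD rD F : ℕ}
    (hZ : ∀ a ∈ A, st Z s r a) (hZD : ∀ d ∈ D, st ZD sD rD d)
    (hF : ∀ m, (A.filter (fun a => mP P a = m)).card ≤ F) (x : ℤ) (R : Finset (ℤ × ℤ))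
    (hR : ∀ e ∈ R, e.1 ∈ D ∧ e.2 ∈ A ∧ e.1 * e.2 = x ∧ ∀ p ∈ ZD e.1, p ∈ Z e.2 → p ∈ P) :
    R.card ≤ 2 * (2 ^ (s + r + sD + rD) * 2 ^ (s + r + sD + rD + (r + rD))) * F := by
  classical
  rcases R.eq_empty_or_nonempty with rfl | ⟨e₀, he₀⟩
  · simp
  have h1ne : ∀ e ∈ R, e.1 ≠ 0 := fun e he h => hD (h ▸ (hR e he).1)
  have h2ne : ∀ e ∈ R, e.2 ≠ 0 := fun e he h => hA (h ▸ (hR e he).2.1)
  have hx : x ≠ 0 := by
    rw [← (hR e₀ he₀).2.2.1]; exact mul_ne_zero (h1ne _ he₀) (h2ne _ he₀)
  set T := x.natAbs.primeFactors \ P with hT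
  have hTcard : T.card ≤ s + r + sD + rD := by
    have h1 := st_card (hZ _ (hR e₀ he₀).2.1)
    have h2 := st_card (hZD _ (hR e₀ he₀).1)
    have h3 : x.natAbs.primeFactors = e₀.1.natAbs.primeFactors ∪ e₀.2.natAbs.primeFactors := by
      rw [← (hR e₀ he₀).2.2.1, Int.natAbs_mul, Nat.primeFactors_mul
        (Int.natAbs_ne_zero.mpr (h1ne _ he₀)) (Int.natAbs_ne_zero.mpr (h2ne _ he₀))]
    have h4 : T.card ≤ x.natAbs.primeFactors.card := card_le_card sdiff_subset
    rw [h3] at h4
    have h5 := card_union_le e₀.1.natAbs.primeFactors e₀.2.natAbs.primeFactors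
    omega
  -- the code
  let f : ℤ × ℤ → (ℕ → ℕ) := fun e p =>
    if p ∈ T then (if p ∈ Z e.2 then val p e.1 else val p e.2) else 0
  let c : ℤ × ℤ → Bool × Finset ℕ × (ℕ → ℕ) := fun e =>
    (decide (e.2 < 0), T.filter (fun p => p ∈ Z e.2), f e)
  have hcodes : (R.image c).card ≤ 2 * (2 ^ (s + r + sD + rD) * 2 ^ (s + r + sD + rD + (r + rD))) := by
    have hsub : R.image c ⊆ (univ : Finset Bool) ×ˢ (T.powerset ×ˢ (R.image f)) := by
      intro z hz
      rw [mem_image] at hz
      obtain ⟨e, he, rfl⟩ := hz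
      simp only [c, mem_product, mem_univ, true_and, mem_powerset]
      exact ⟨filter_subset _ _, mem_image_of_mem _ he⟩
    refine (card_le_card hsub).trans ?_
    rw [card_product, card_product, card_powerset]
    simp only [card_univ, Fintype.card_bool]
    apply Nat.mul_le_mul_left
    apply Nat.mul_le_mul
    · exact Nat.pow_le_pow_right (by norm_num) hTcard
    · refine (card_fun_le T (r + rD) (R.image f) ?_).trans
        (Nat.pow_le_pow_right (by norm_num) (by omega))
      intro g hg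
      rw [mem_image] at hg
      obtain ⟨e, he, rfl⟩ := hg
      refine ⟨fun p hp => by simp [f, hp], ?_⟩
      have e1 : ∑ p ∈ T, f e p = ∑ p ∈ T.filter (fun p => p ∈ Z e.2), val p e.1 +
          ∑ p ∈ T.filter (fun p => ¬ p ∈ Z e.2), val p e.2 := by
        rw [← sum_filter_add_sum_filter_not T (fun p => p ∈ Z e.2)]
        congr 1
        · apply sum_congr rfl
          intro p hp
          rw [mem_filter] at hp
          simp [f, hp.1, hp.2]
        · apply sum_congr rfl
          intro p hp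
          rw [mem_filter] at hp
          simp [f, hp.1, hp.2]
      rw [e1]
      obtain ⟨hd, ha, _, hdis⟩ := hR e he
      have h1 : ∑ p ∈ T.filter (fun p => p ∈ Z e.2), val p e.1 ≤ rD := by
        apply sum_val_le (hZD _ hd)
        intro p hp hz
        rw [mem_filter, hT, mem_sdiff] at hp
        exact hp.1.2 (hdis p hz hp.2)
      have h2 : ∑ p ∈ T.filter (fun p => ¬ p ∈ Z e.2), val p e.2 ≤ r := by
        apply sum_val_le (hZ _ ha)
        intro p hp
        rw [mem_filter] at hp
        exact hp.2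
      omega
  have hfib : ∀ z ∈ R.image c, (R.filter (fun e => c e = z)).card ≤ F := by
    intro z hz
    rw [mem_image] at hz
    obtain ⟨e₁, he₁, rfl⟩ := hz
    -- all elements of the fibre have the same `mP P e.2`
    have hm : ∀ e ∈ R.filter (fun e => c e = c e₁), mP P e.2 = mP P e₁.2 := by
      intro e he
      rw [mem_filter] at he
      obtain ⟨heR, hce⟩ := he
      simp only [c, Prod.mk.injEq] at hce
      obtain ⟨hc1, hc2, hc3⟩ := hce
      have hc1' : e.2 < 0 ↔ e₁.2 < 0 := by simpa using hc1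
      apply eq_of_val (mP_ne_zero hP (h2ne e heR)) (mP_ne_zero hP (h2ne e₁ he₁))
      · rw [sign_mP hP (h2ne e heR), sign_mP hP (h2ne e₁ he₁), hc1']
      · intro q hq
        rw [val_mP hP (h2ne e heR), val_mP hP (h2ne e₁ he₁)]
        by_cases hqP : q ∈ P
        · simp [hqP]
        · rw [if_neg hqP, if_neg hqP]
          by_cases hqT : q ∈ T
          · have hE : q ∈ Z e.2 ↔ q ∈ Z e₁.2 := by
              have := congrArg (fun (W : Finset ℕ) => q ∈ W) hc2
              simpa [hqT] using this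
            have hfq : f e q = f e₁ q := congrFun hc3 q
            by_cases hz : q ∈ Z e.2
            · have hz' := hE.mp hz
              simp only [f, if_pos hqT, if_pos hz, if_pos hz'] at hfq
              have hv : val q e.1 + val q e.2 = val q x := by
                rw [← val_mul (h1ne e heR) (h2ne e heR), (hR e heR).2.2.1]
              have hv' : val q e₁.1 + val q e₁.2 = val q x := by
                rw [← val_mul (h1ne e₁ he₁) (h2ne e₁ he₁), (hR e₁ he₁).2.2.1]
              omega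
            · have hz' : q ∉ Z e₁.2 := fun h => hz (hE.mpr h)
              simp only [f, if_pos hqT, if_neg hz, if_neg hz'] at hfq
              exact hfq
          · have hqx : q ∉ x.natAbs.primeFactors := fun h => hqT (mem_sdiff.mpr ⟨h, hqP⟩)
            have hv : val q e.1 + val q e.2 = val q x := by
              rw [← val_mul (h1ne e heR) (h2ne e heR), (hR e heR).2.2.1]
            have hv' : val q e₁.1 + val q e₁.2 = val q x := by
              rw [← val_mul (h1ne e₁ he₁) (h2ne e₁ he₁), (hR e₁ he₁).2.2.1]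
            have h0 := val_eq_zero_of_not_dvd hqx
            omega
    have hinj : Set.InjOn (fun e : ℤ × ℤ => e.2) (R.filter (fun e => c e = c e₁) : Finset (ℤ × ℤ)) := by
      intro e he e' he' h
      rw [mem_coe, mem_filter] at he he'
      have h1 := (hR e he.1).2.2.1
      have h2 := (hR e' he'.1).2.2.1
      simp only at h
      rw [← h] at h2
      have h3 : e.1 = e'.1 := mul_right_cancel₀ (h2ne e he.1) (h1.trans h2.symm)
      exact Prod.ext h3 h
    rw [← card_image_of_injOn hinj]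
    refine (card_le_card ?_).trans (hF (mP P e₁.2))
    intro a ha
    rw [mem_image] at ha
    obtain ⟨e, he, rfl⟩ := ha
    rw [mem_filter]
    exact ⟨(hR e (mem_filter.mp he).1).2.1, hm e he⟩
  calc R.card ≤ F * (R.image c).card := card_le_mul_card_image R F hfib
    _ ≤ F * (2 * (2 ^ (s + r + sD + rD) * 2 ^ (s + r + sD + rD + (r + rD)))) :=
        Nat.mul_le_mul_left _ hcodes
    _ = _ := by ring

/-- **Product step** -/
theorem prod_step {P : Finset ℕ} (hP : ∀ p ∈ P, p.Prime) {A D : Finset ℤ}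
    (hA : (0 : ℤ) ∉ A) (hD : (0 : ℤ) ∉ D) {Z ZD : ℤ → Finset ℕ} {s r sD rD F H : ℕ}
    (hZ : ∀ a ∈ A, st Z s r a) (hZD : ∀ d ∈ D, st ZD sD rD d)
    (hF : ∀ m, (A.filter (fun a => mP P a = m)).card ≤ F)
    (hH : ∀ p, p ∉ P → H * (A.filter (fun a => p ∈ Z a)).card ≤ 2 * A.card)
    (hHs : 4 * sD ≤ H) :
    D.card * A.card ≤
      2 * (2 * (2 ^ (s + r + sD + rD) * 2 ^ (s + r + sD + rD + (r + rD))) * F) *
        (image₂ (· * ·) D A).card := by
  classical
  let g : ℤ × ℤ → Prop := fun e => ∀ p ∈ ZD e.1, p ∈ Z e.2 → p ∈ P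
  let G := (D ×ˢ A).filter g
  have hG : D.card * A.card ≤ 2 * G.card := by
    have h1 : ∀ d ∈ D, A.card ≤ 2 * (A.filter (fun a => g (d, a))).card := by
      intro d hd
      have hsplit := Finset.card_filter_add_card_filter_not (s := A) (fun a => g (d, a))
      set b := (A.filter (fun a => ¬ g (d, a))).card with hb
      have hbs : b ≤ ∑ p ∈ ZD d \ P, (A.filter (fun a => p ∈ Z a)).card := by
        refine le_trans (card_le_card ?_) card_biUnion_le
        intro a ha
        rw [mem_filter] at ha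
        obtain ⟨haA, hg⟩ := ha
        simp only [g] at hg
        push Not at hg
        obtain ⟨p, hp1, hp2, hp3⟩ := hg
        rw [mem_biUnion]
        exact ⟨p, mem_sdiff.mpr ⟨hp1, hp3⟩, mem_filter.mpr ⟨haA, hp2⟩⟩
      have h2 : H * b ≤ sD * (2 * A.card) := by
        calc H * b ≤ H * ∑ p ∈ ZD d \ P, (A.filter (fun a => p ∈ Z a)).card :=
              Nat.mul_le_mul_left _ hbs
          _ = ∑ p ∈ ZD d \ P, H * (A.filter (fun a => p ∈ Z a)).card := by rw [mul_sum]
          _ ≤ ∑ _p ∈ ZD d \ P, 2 * A.card := by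
              apply sum_le_sum
              intro p hp
              exact hH p (mem_sdiff.mp hp).2
          _ = (ZD d \ P).card * (2 * A.card) := by rw [sum_const, smul_eq_mul]
          _ ≤ sD * (2 * A.card) := by
              apply Nat.mul_le_mul_right
              exact (card_le_card sdiff_subset).trans (hZD d hd).1
      have h3 : 2 * b ≤ A.card := by
        rcases Nat.eq_zero_or_pos sD with h0 | h0
        · have : (ZD d \ P) = ∅ := by
            have := (card_le_card (sdiff_subset (s := ZD d) (t := P))).trans (hZD d hd).1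
            exact card_eq_zero.mp (by omega)
          rw [this] at hbs
          simp only [sum_empty] at hbs
          omega
        · have : sD * (2 * (2 * b)) ≤ sD * (2 * A.card) := by
            calc sD * (2 * (2 * b)) = 4 * sD * b := by ring
              _ ≤ H * b := Nat.mul_le_mul_right _ hHs
              _ ≤ _ := h2
          have := Nat.le_of_mul_le_mul_left this h0
          omega
      omega
    have h2 : G.card = ∑ d ∈ D, (A.filter (fun a => g (d, a))).card := by
      show ((D ×ˢ A).filter g).card = _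
      rw [card_filter, sum_product]
      apply sum_congr rfl
      intro d _
      rw [card_filter]
    rw [h2, mul_sum]
    calc D.card * A.card = ∑ _d ∈ D, A.card := by rw [sum_const, smul_eq_mul]
      _ ≤ _ := sum_le_sum h1
  set B := 2 * (2 ^ (s + r + sD + rD) * 2 ^ (s + r + sD + rD + (r + rD))) * F with hB
  have hfib : ∀ x ∈ G.image (fun e => e.1 * e.2), (G.filter (fun e => e.1 * e.2 = x)).card ≤ B := by
    intro x _
    apply card_prod_fibre_le hP hA hD hZ hZD hF x
    intro e he
    rw [mem_filter, mem_filter, mem_product] at he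
    exact ⟨he.1.1.1, he.1.1.2, he.2, he.1.2⟩
  have h3 := card_le_mul_card_image G B hfib
  have h4 : (G.image (fun e => e.1 * e.2)).card ≤ (image₂ (· * ·) D A).card := by
    apply card_le_card
    intro S hS
    rw [mem_image] at hS
    obtain ⟨e, he, rfl⟩ := hS
    rw [mem_filter, mem_product] at he
    exact mem_image₂_of_mem he.1.1 he.1.2
  calc D.card * A.card ≤ 2 * G.card := hG
    _ ≤ 2 * (B * (G.image (fun e => e.1 * e.2)).card) := Nat.mul_le_mul_left _ h3
    _ ≤ 2 * (B * (image₂ (· * ·) D A).card) :=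
        Nat.mul_le_mul_left _ (Nat.mul_le_mul_left _ h4)
    _ = _ := by ring

end Pool.Agent.Helper5
end

/- Helper24.FF.H5.Iterate -/
section
set_option autoImplicit false

namespace Pool.Agent.Helper5

open Finset

/-- iterated sumset -/
def sI (A : Finset ℤ) : ℕ → Finset ℤ
  | 0 => {0}
  | (j + 1) => image₂ (· + ·) (sI A j) A

/-- iterated product set -/
def pI (A : Finset ℤ) : ℕ → Finset ℤ
  | 0 => {1}
  | (j + 1) => image₂ (· * ·) (pI A j) A

lemma sI_subset {A A' : Finset ℤ} (h : A ⊆ A') (j : ℕ) :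
    sI A j ⊆ (Fintype.piFinset (fun _ : Fin j => A')).image (fun f : Fin j → ℤ => ∑ i, f i) := by
  induction j with
  | zero => intro x hx; simp [sI] at hx; subst hx; simp
  | succ j ih =>
    intro x hx
    simp only [sI, mem_image₂] at hx
    obtain ⟨y, hy, a, ha, rfl⟩ := hx
    have hy' := ih hy
    rw [mem_image] at hy' ⊢
    obtain ⟨f, hf, rfl⟩ := hy'
    refine ⟨Fin.snoc f a, ?_, ?_⟩
    · rw [Fintype.mem_piFinset] at hf ⊢
      intro i
      refine Fin.lastCases ?_ (fun i => ?_) i
      · simpa using h ha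
      · simpa using hf i
    · rw [Fin.sum_univ_castSucc]; simp

lemma pI_subset {A A' : Finset ℤ} (h : A ⊆ A') (j : ℕ) :
    pI A j ⊆ (Fintype.piFinset (fun _ : Fin j => A')).image (fun f : Fin j → ℤ => ∏ i, f i) := by
  induction j with
  | zero => intro x hx; simp [pI] at hx; subst hx; simp
  | succ j ih =>
    intro x hx
    simp only [pI, mem_image₂] at hx
    obtain ⟨y, hy, a, ha, rfl⟩ := hx
    have hy' := ih hy
    rw [mem_image] at hy' ⊢
    obtain ⟨f, hf, rfl⟩ := hy'
    refine ⟨Fin.snoc f a, ?_, ?_⟩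
    · rw [Fintype.mem_piFinset] at hf ⊢
      intro i
      refine Fin.lastCases ?_ (fun i => ?_) i
      · simpa using h ha
      · simpa using hf i
    · rw [Fin.prod_univ_castSucc]; simp

lemma sI_card (A : Finset ℤ) (j : ℕ) : (sI A j).card ≤ A.card ^ j := by
  induction j with
  | zero => simp [sI]
  | succ j ih =>
    simp only [sI, pow_succ]
    exact (card_image₂_le _ _ _).trans (Nat.mul_le_mul_right _ ih)

lemma pI_ne_zero {A : Finset ℤ} (hA : (0 : ℤ) ∉ A) (j : ℕ) : (0 : ℤ) ∉ pI A j := by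
  induction j with
  | zero => simp [pI]
  | succ j ih =>
    intro h
    simp only [pI, mem_image₂] at h
    obtain ⟨y, hy, a, ha, h⟩ := h
    rcases mul_eq_zero.mp h with h | h
    · exact ih (h ▸ hy)
    · exact hA (h ▸ ha)

lemma pI_st {A : Finset ℤ} (hA : (0 : ℤ) ∉ A) {Z : ℤ → Finset ℕ} {s r : ℕ}
    (hZ : ∀ a ∈ A, st Z s r a) (j : ℕ) :
    ∀ x ∈ pI A j, ∃ E : Finset ℕ, st (fun _ => E) (j * s) (j * r) x := by
  induction j with
  | zero =>
    intro x hx
    simp only [pI, mem_singleton] at hx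
    subst hx
    exact ⟨∅, by simp [st]⟩
  | succ j ih =>
    intro x hx
    simp only [pI, mem_image₂] at hx
    obtain ⟨y, hy, a, ha, rfl⟩ := hx
    obtain ⟨E, hE⟩ := ih y hy
    have hy0 : y ≠ 0 := fun h => pI_ne_zero hA j (h ▸ hy)
    have ha0 : a ≠ 0 := fun h => hA (h ▸ ha)
    refine ⟨E ∪ Z a, ?_, ?_⟩
    · have h1 := card_union_le E (Z a)
      have h2 := hE.1
      have h3 := (hZ a ha).1
      calc (E ∪ Z a).card ≤ E.card + (Z a).card := h1
        _ ≤ j * s + s := Nat.add_le_add h2 h3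
        _ = (j + 1) * s := by ring
    · have h1 : ∀ T : Finset ℕ, (∀ p ∈ T, p ∉ E ∪ Z a) →
          ∑ p ∈ T, val p (y * a) ≤ (j + 1) * r := by
        intro T hT
        have e1 : ∑ p ∈ T, val p (y * a) = ∑ p ∈ T, val p y + ∑ p ∈ T, val p a := by
          rw [← sum_add_distrib]
          apply sum_congr rfl
          intro p _
          exact val_mul hy0 ha0
        rw [e1]
        have h2 := sum_val_le hE T (fun p hp h => hT p hp (mem_union_left _ h))
        have h3 := sum_val_le (hZ a ha) T (fun p hp h => hT p hp (mem_union_right _ h))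
        calc _ ≤ j * r + r := Nat.add_le_add h2 h3
          _ = _ := by ring
      exact h1 _ (fun p hp => (mem_sdiff.mp hp).2)

lemma prod_iter {P : Finset ℕ} (hP : ∀ p ∈ P, p.Prime) {A : Finset ℤ}
    (hA : (0 : ℤ) ∉ A) {Z : ℤ → Finset ℕ} {s r F H k : ℕ}
    (hZ : ∀ a ∈ A, st Z s r a)
    (hF : ∀ m, (A.filter (fun a => mP P a = m)).card ≤ F)
    (hH : ∀ p, p ∉ P → H * (A.filter (fun a => p ∈ Z a)).card ≤ 2 * A.card)
    (hHs : 4 * (k * s) ≤ H) (j : ℕ) (hj : j ≤ k) :
    A.card ^ j ≤ (2 * (2 * (2 ^ (k * (s + r)) * 2 ^ (2 * (k * (s + r)))) * F)) ^ j *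
      (pI A j).card := by
  classical
  induction j with
  | zero => simp [pI]
  | succ j ih =>
    have ih := ih (by omega)
    have hex := pI_st hA hZ j
    choose! E hE using hex
    have hstep := prod_step (P := P) hP (A := A) (D := pI A j) hA (pI_ne_zero hA j) (Z := Z)
      (ZD := E) (s := s) (r := r) (sD := j * s) (rD := j * r) (F := F) (H := H) hZ
      (fun d hd => hE d hd) hF hH (by
        have : j * s ≤ k * s := Nat.mul_le_mul_right _ (by omega)
        (clear * - A r F hHs this; omega))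
    set B := 2 * (2 ^ (k * (s + r)) * 2 ^ (2 * (k * (s + r)))) * F with hB
    have hle : 2 * (2 ^ (s + r + j * s + j * r) * 2 ^ (s + r + j * s + j * r + (r + j * r))) * F ≤
        B := by
      apply Nat.mul_le_mul_right
      apply Nat.mul_le_mul_left
      have h1 : s + r + j * s + j * r = (j + 1) * (s + r) := by ring
      have h2 : (j + 1) * (s + r) ≤ k * (s + r) := Nat.mul_le_mul_right _ hj
      have h3 : r + j * r ≤ k * (s + r) := by
        calc r + j * r = (j + 1) * r := by ring
          _ ≤ (j + 1) * (s + r) := Nat.mul_le_mul_left _ (by omega)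
          _ ≤ _ := h2
      apply Nat.mul_le_mul
      · exact Nat.pow_le_pow_right (by norm_num) (by omega)
      · exact Nat.pow_le_pow_right (by norm_num) (by (clear * - A F H h1 h2 h3; omega))
    calc A.card ^ (j + 1) = A.card ^ j * A.card := by ring
      _ ≤ ((2 * B) ^ j * (pI A j).card) * A.card := Nat.mul_le_mul_right _ ih
      _ = (2 * B) ^ j * ((pI A j).card * A.card) := by ring
      _ ≤ (2 * B) ^ j * (2 * B * (pI A (j + 1)).card) := by
          apply Nat.mul_le_mul_left
          refine hstep.trans ?_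
          exact Nat.mul_le_mul_right _ (Nat.mul_le_mul_left _ hle)
      _ = _ := by ring

lemma sum_iter {P : Finset ℕ} (hP : ∀ p ∈ P, p.Prime) (hne : P.Nonempty)
    {K Q j₀ ℓ s k N : ℕ} (hK : 2 ≤ K) {A : Finset ℤ} (hA : (0 : ℤ) ∉ A)
    (hAN : A.card ≤ N) (hN : 1 ≤ N)
    (hj : N ^ k < 2 ^ j₀) (hℓ : N ^ k < K ^ (ℓ + 1)) (hPs : P.card ≤ s)
    (hQ : ∀ p ∈ P, ∀ φ : ℤ → ℕ, Q * (A.filter (fun a => val p a = φ (mP P a))).card ≤ A.card)
    (hQbig : 2 * (s * (K * j₀) + (K * j₀) * (K * j₀)) ≤ Q) (j : ℕ) (hjk : j ≤ k) :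
    A.card ^ j ≤ (2 * ((ℓ + 1) ^ s * 2 ^ ℓ)) ^ j * (sI A j).card := by
  classical
  induction j with
  | zero => simp [sI]
  | succ j ih =>
    have ih := ih (by omega)
    have hDA : (sI A j).card * A.card ≤ N ^ k := by
      calc (sI A j).card * A.card ≤ A.card ^ j * A.card := Nat.mul_le_mul_right _ (sI_card A j)
        _ = A.card ^ (j + 1) := by ring
        _ ≤ N ^ (j + 1) := Nat.pow_le_pow_left hAN _
        _ ≤ N ^ k := Nat.pow_le_pow_right hN hjk
    have hD : (sI A j).card ≤ N ^ k := by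
      calc (sI A j).card ≤ A.card ^ j := sI_card A j
        _ ≤ N ^ j := Nat.pow_le_pow_left hAN _
        _ ≤ N ^ k := Nat.pow_le_pow_right hN (by omega)
    have hA1 : A.card ≤ N ^ k := by
      calc A.card ≤ N := hAN
        _ = N ^ 1 := (pow_one N).symm
        _ ≤ N ^ k := Nat.pow_le_pow_right hN (by omega)
    have hstep := sum_step (P := P) hP hne (K := K) (Q := Q) (jD := j₀) (jM := j₀) (L := ℓ)
      (ℓ := ℓ) hK (D := sI A j) (A := A) hA (lt_of_le_of_lt hD hj) (lt_of_le_of_lt hA1 hj)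
      (lt_of_le_of_lt hD hℓ) (lt_of_le_of_lt hDA hℓ) hQ (by
        have : P.card * (K * j₀) ≤ s * (K * j₀) := Nat.mul_le_mul_right _ hPs
        (clear * - ℓ k N A hQbig j this; omega))
    calc A.card ^ (j + 1) = A.card ^ j * A.card := by ring
      _ ≤ ((2 * ((ℓ + 1) ^ s * 2 ^ ℓ)) ^ j * (sI A j).card) * A.card :=
          Nat.mul_le_mul_right _ ih
      _ = (2 * ((ℓ + 1) ^ s * 2 ^ ℓ)) ^ j * ((sI A j).card * A.card) := by ring
      _ ≤ (2 * ((ℓ + 1) ^ s * 2 ^ ℓ)) ^ j *
            (2 * ((ℓ + 1) ^ s * 2 ^ ℓ) * (sI A (j + 1)).card) := by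
          apply Nat.mul_le_mul_left
          refine hstep.trans ?_
          apply Nat.mul_le_mul_right
          apply Nat.mul_le_mul_left
          apply Nat.mul_le_mul_right
          exact Nat.pow_le_pow_right (by omega) hPs
      _ = _ := by ring

lemma mP_empty (a : ℤ) : mP ∅ a = a := by
  unfold mP uP; simp

/-- **Dichotomy**: either the product set or the sumset is large. -/
theorem dichotomy {k s r K j₀ ℓ H F Q N : ℕ} (hk : 1 ≤ k) (hK : 2 ≤ K) {A : Finset ℤ}
    (hA : (0 : ℤ) ∉ A) (hAN : A.card ≤ N) (hN : 1 ≤ N) (Z : ℤ → Finset ℕ)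
    (hZp : ∀ a ∈ A, ∀ p ∈ Z a, p.Prime) (hZ : ∀ a ∈ A, st Z s r a)
    (hj : N ^ k < 2 ^ j₀) (hℓ : N ^ k < K ^ (ℓ + 1)) (hH : 4 * (k * s) ≤ H) (hH1 : 1 ≤ H)
    (hQ : 2 * (s * (K * j₀) + (K * j₀) * (K * j₀)) ≤ Q) (hF : Q ^ s ≤ F) (hQ1 : 1 ≤ Q) :
    A.card ^ k ≤ (2 * H ^ s * (2 * (2 * (2 ^ (k * (s + r)) * 2 ^ (2 * (k * (s + r)))) * F))) ^ k *
      (pI A k).card ∨
    A.card ^ k ≤ (2 * H ^ s * Q ^ s * (2 * ((ℓ + 1) ^ s * 2 ^ ℓ))) ^ k * (sI A k).card := by
  classical
  rcases A.eq_empty_or_nonempty with rfl | hAne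
  · left
    rw [card_empty, zero_pow (by omega)]
    exact Nat.zero_le _
  obtain ⟨P, hP1, hP2⟩ := kernel A Z H
  set A₀ := A.filter (fun a => P ⊆ Z a) with hA₀
  have hA₀ne : A₀.Nonempty := by
    rw [← card_pos]
    rcases Nat.eq_zero_or_pos A₀.card with h | h
    · rw [h, mul_zero] at hP1
      have := card_pos.mpr hAne
      omega
    · exact h
  obtain ⟨a₀, ha₀⟩ := hA₀ne
  rw [hA₀, mem_filter] at ha₀
  have hP : ∀ p ∈ P, p.Prime := fun p hp => hZp a₀ ha₀.1 p (ha₀.2 hp)
  have hPs : P.card ≤ s := (card_le_card ha₀.2).trans (hZ a₀ ha₀.1).1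
  have hAA₀ : A.card ≤ H ^ s * A₀.card :=
    hP1.trans (Nat.mul_le_mul_right _ (Nat.pow_le_pow_right hH1 hPs))
  -- fibre sizes
  let fib : ℤ → ℕ := fun a => (A₀.filter (fun b => mP P b = mP P a)).card
  set As := A₀.filter (fun a => fib a ≤ F) with hAs
  set Al := A₀.filter (fun a => ¬ fib a ≤ F) with hAl
  have hsplit : As.card + Al.card = A₀.card := card_filter_add_card_filter_not _
  have hAsA : As ⊆ A := (filter_subset _ _).trans (filter_subset _ _)
  have hAlA : Al ⊆ A := (filter_subset _ _).trans (filter_subset _ _)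
  by_cases hcase : A₀.card ≤ 2 * As.card
  · -- product case
    left
    have hiter := prod_iter (P := P) hP (A := As) (fun h => hA (hAsA h)) (Z := Z) (s := s)
      (r := r) (F := F) (H := H) (k := k) (fun a ha => hZ a (hAsA ha)) (by
        intro m
        rcases (As.filter (fun a => mP P a = m)).eq_empty_or_nonempty with h0 | ⟨b, hb⟩
        · rw [h0]; simp
        · rw [mem_filter, hAs, mem_filter] at hb
          have h1 : fib b ≤ F := hb.1.2
          refine (card_le_card ?_).trans h1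
          intro x hx
          rw [mem_filter, hAs, mem_filter] at hx
          rw [mem_filter]
          exact ⟨hx.1.1, by rw [hx.2, hb.2]⟩) (by
        intro p hp
        have h1 := hP2 p hp
        have h2 : (As.filter (fun a => p ∈ Z a)).card ≤ (A₀.filter (fun a => p ∈ Z a)).card :=
          card_le_card (filter_subset_filter _ (filter_subset _ _))
        calc H * (As.filter (fun a => p ∈ Z a)).card
            ≤ H * (A₀.filter (fun a => p ∈ Z a)).card := Nat.mul_le_mul_left _ h2
          _ ≤ A₀.card := h1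
          _ ≤ 2 * As.card := hcase) hH k (le_refl _)
    set B := 2 * (2 * (2 ^ (k * (s + r)) * 2 ^ (2 * (k * (s + r)))) * F) with hB
    have h1 : A.card ≤ 2 * H ^ s * As.card := by
      calc A.card ≤ H ^ s * A₀.card := hAA₀
        _ ≤ H ^ s * (2 * As.card) := Nat.mul_le_mul_left _ hcase
        _ = _ := by ring
    have hmono : (pI As k).card ≤ (pI A k).card := by
      have : ∀ j, pI As j ⊆ pI A j := by
        intro j
        induction j with
        | zero => simp [pI]
        | succ j ih => exact image₂_subset ih hAsA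
      exact card_le_card (this k)
    calc A.card ^ k ≤ (2 * H ^ s * As.card) ^ k := Nat.pow_le_pow_left h1 k
      _ = (2 * H ^ s) ^ k * As.card ^ k := by rw [mul_pow]
      _ ≤ (2 * H ^ s) ^ k * (B ^ k * (pI As k).card) := Nat.mul_le_mul_left _ hiter
      _ ≤ (2 * H ^ s) ^ k * (B ^ k * (pI A k).card) :=
          Nat.mul_le_mul_left _ (Nat.mul_le_mul_left _ hmono)
      _ = _ := by rw [← mul_assoc, ← mul_pow]
  · -- sum case
    right
    push Not at hcase
    have hAlbig : A₀.card ≤ 2 * Al.card := by omega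
    have hAlne : Al.Nonempty := by
      rw [← card_pos]; omega
    have hAl0 : (0 : ℤ) ∉ Al := fun h => hA (hAlA h)
    obtain ⟨P', hP'P, A', hA'Al, h1, h2, h3⟩ := popular Q P.card P rfl hP Al hAl0
    have hA'A : A' ⊆ A := hA'Al.trans hAlA
    have hQs : Q ^ (P.card - P'.card) ≤ Q ^ s := Nat.pow_le_pow_right hQ1 (by omega)
    have hAlA' : Al.card ≤ A'.card * Q ^ s := h1.trans (Nat.mul_le_mul_left _ hQs)
    have hP'ne : P'.Nonempty := by
      by_contra hcon
      rw [not_nonempty_iff_eq_empty] at hcon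
      subst hcon
      have h4 : (A'.image (mP ∅)).card = A'.card := by
        apply card_image_of_injective
        intro x y h
        simpa [mP_empty] using h
      rw [h4] at h2
      -- fibres of `Al` are large
      have h5 : (F + 1) * (Al.image (mP P)).card ≤ Al.card := by
        apply mul_card_image_le_card
        intro m hm
        rw [mem_image] at hm
        obtain ⟨a, ha, rfl⟩ := hm
        have ha' := ha
        rw [hAl, mem_filter] at ha'
        have h6 : F + 1 ≤ fib a := by have := ha'.2; omega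
        refine h6.trans (card_le_card ?_)
        intro b hb
        rw [mem_filter] at hb ⊢
        refine ⟨?_, hb.2⟩
        rw [hAl, mem_filter]
        refine ⟨hb.1, ?_⟩
        simp only [fib, hb.2]
        exact ha'.2
      have h6 : Al.card ≤ F * (Al.image (mP P)).card := by
        calc Al.card ≤ A'.card * Q ^ s := hAlA'
          _ ≤ (Al.image (mP P)).card * F := Nat.mul_le_mul h2 hF
          _ = _ := by ring
      have h7 : 0 < (Al.image (mP P)).card := card_pos.mpr (hAlne.image _)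
      (clear * - h5 h6 h7; linarith only [h5, h6, h7])
    have hiter := sum_iter (P := P') (fun p hp => hP p (hP'P hp)) hP'ne (K := K) (Q := Q)
      (j₀ := j₀) (ℓ := ℓ) (s := s) (k := k) (N := N) hK (A := A') (fun h => hA (hA'A h))
      ((card_le_card hA'A).trans hAN) hN hj hℓ ((card_le_card hP'P).trans hPs) h3 hQ k (le_refl _)
    have h4 : A.card ≤ 2 * H ^ s * Q ^ s * A'.card := by
      calc A.card ≤ H ^ s * A₀.card := hAA₀
        _ ≤ H ^ s * (2 * Al.card) := Nat.mul_le_mul_left _ hAlbig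
        _ ≤ H ^ s * (2 * (A'.card * Q ^ s)) :=
            Nat.mul_le_mul_left _ (Nat.mul_le_mul_left _ hAlA')
        _ = _ := by ring
    have hmono : (sI A' k).card ≤ (sI A k).card := by
      have : ∀ j, sI A' j ⊆ sI A j := by
        intro j
        induction j with
        | zero => simp [sI]
        | succ j ih => exact image₂_subset ih hA'A
      exact card_le_card (this k)
    set B := 2 * ((ℓ + 1) ^ s * 2 ^ ℓ) with hB
    calc A.card ^ k ≤ (2 * H ^ s * Q ^ s * A'.card) ^ k := Nat.pow_le_pow_left h4 k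
      _ = (2 * H ^ s * Q ^ s) ^ k * A'.card ^ k := by rw [mul_pow]
      _ ≤ (2 * H ^ s * Q ^ s) ^ k * (B ^ k * (sI A' k).card) := Nat.mul_le_mul_left _ hiter
      _ ≤ (2 * H ^ s * Q ^ s) ^ k * (B ^ k * (sI A k).card) :=
          Nat.mul_le_mul_left _ (Nat.mul_le_mul_left _ hmono)
      _ = _ := by rw [← mul_assoc, ← mul_pow]

end Pool.Agent.Helper5
end

/- Helper24.FF.H2.ESum -/
section
set_option autoImplicit false

/-!
The sum step: for every finite `D`, the sumset `D + A` is almost as large as `|D| |A|` when the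
fibres of the `S`-free part on `A` are large.
-/

open Finset

namespace Pool.Agent.Helper2.E

open Pool.Agent.Helper5 (uP mP uP_pos uP_mul_mP uP_factorization mP_ne_zero sI sI_card)

/-- a sub-probability on the fibres of `f` forces many values -/
theorem log_image_ge {ι : Type*} [DecidableEq ι] {Ω : Finset ι} (hΩ : Ω.Nonempty) (f : ι → ℤ)
    (w : ι → ℝ) (hw : ∀ e ∈ Ω, 0 < w e)
    (hker : ∀ x, ∑ e ∈ Ω.filter (fun e => f e = x), w e ≤ 1) :
    Real.log Ω.card + (1 / (Ω.card : ℝ)) * ∑ e ∈ Ω, Real.log (w e) ≤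
      Real.log ((Ω.image f).card : ℝ) := by
  classical
  have hn : (0:ℝ) < Ω.card := by exact_mod_cast card_pos.2 hΩ
  have hT : (0:ℝ) < ((Ω.image f).card : ℝ) := by exact_mod_cast card_pos.2 (hΩ.image f)
  set n : ℝ := (Ω.card : ℝ) with hndef
  set T : ℝ := ((Ω.image f).card : ℝ) with hTdef
  have hsum : ∑ e ∈ Ω, w e ≤ T := by
    rw [← Finset.sum_fiberwise_of_maps_to (t := Ω.image f) (g := f)
      (fun e he => mem_image_of_mem _ he)]
    calc ∑ x ∈ Ω.image f, ∑ e ∈ Ω.filter (fun e => f e = x), w e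
        ≤ ∑ _x ∈ Ω.image f, (1:ℝ) := sum_le_sum (fun x _ => hker x)
      _ = T := by rw [sum_const, nsmul_eq_mul, mul_one]
  have h1 : ∀ e ∈ Ω, Real.log (w e) ≤ Real.log (T / n) + (n / T * w e - 1) := by
    intro e he
    have h2 : Real.log (n / T * w e) ≤ n / T * w e - 1 :=
      Real.log_le_sub_one_of_pos (mul_pos (div_pos hn hT) (hw e he))
    have h3 : Real.log (n / T * w e) = -Real.log (T / n) + Real.log (w e) := by
      rw [Real.log_mul (div_pos hn hT).ne' (hw e he).ne', Real.log_div hn.ne' hT.ne',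
        Real.log_div hT.ne' hn.ne']
      ring
    linarith only [h2, h3]
  have h4 : ∑ e ∈ Ω, Real.log (w e) ≤ n * Real.log (T / n) := by
    refine (sum_le_sum h1).trans ?_
    rw [sum_add_distrib, sum_sub_distrib, ← mul_sum, sum_const, sum_const, nsmul_eq_mul,
      nsmul_eq_mul, mul_one]
    have h5 : n / T * ∑ e ∈ Ω, w e ≤ n / T * T :=
      mul_le_mul_of_nonneg_left hsum (div_pos hn hT).le
    have h6 : n / T * T = n := by field_simp
    linarith only [h5, h6]
  have h7 : (1 / n) * ∑ e ∈ Ω, Real.log (w e) ≤ Real.log (T / n) := by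
    have := mul_le_mul_of_nonneg_left h4 (by (clear * - hΩ; positivity) : 0 ≤ 1 / n)
    have h8 : 1 / n * (n * Real.log (T / n)) = Real.log (T / n) := by field_simp
    (clear * - this h8; linarith)
  rw [Real.log_div hT.ne' hn.ne'] at h7
  linarith

/-- **Sum step.** -/
theorem sum_step {θ lam : ℝ} (hθ0 : 0 < θ) (hθ1 : θ ≤ 1 / 2) (hl : 0 < lam) :
    ∃ b C : ℝ, 0 ≤ b ∧ 1 ≤ C ∧ ∀ S : Finset ℕ, (∀ p ∈ S, p.Prime) →
      ∀ D A : Finset ℤ, D.Nonempty → A.Nonempty → (0:ℤ) ∉ A → ∀ R : ℝ, 0 < R →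
      (∀ a ∈ A, R ≤ ((A.filter (fun a' => mP S a' = mP S a)).card : ℝ)) →
      Real.log D.card + Real.log A.card - (S.card : ℝ) * (Real.log (1 / θ) + 2 + b) -
          2 * θ * (Real.log D.card + Real.log A.card) -
          Real.log D.card * (C ^ S.card * ((D.card : ℝ) ^ lam * (A.card : ℝ) ^ lam) / R) ≤
        Real.log ((image₂ (· + ·) D A).card : ℝ) := by
  classical
  obtain ⟨b, C, hb, hC, hdec⟩ := decM hθ0 hθ1 hl
  refine ⟨b, C, hb, hC, ?_⟩
  intro S hS D A hD hA h0 R hR hfib
  have hA0 : ∀ a ∈ A, a ≠ 0 := fun a ha h => h0 (h ▸ ha)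
  set M := A.image (mP S) with hM
  have hMne : M.Nonempty := hA.image _
  obtain ⟨q, hq0, hq1, hq2⟩ := Pool.Agent.Helper1.decU S hS θ hθ0 (by linarith only [hθ1]) D hD
  obtain ⟨F, hF, hgood⟩ := hdec S hS D M hD hMne
  have hu0 : ∀ a : ℤ, uP S a ≠ 0 := fun a => (uP_pos hS a).ne'
  have hval : ∀ a : ℤ, ∀ p ∈ S, Pool.Agent.Helper5.val p a = (uP S a).factorization p := by
    intro a p hp
    rw [uP_factorization hS, if_pos hp]
  have hsupp : ∀ a : ℤ, (uP S a).primeFactors ⊆ S := by
    intro a p hp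
    rw [← Nat.support_factorization, Finsupp.mem_support_iff, uP_factorization hS] at hp
    by_contra h
    rw [if_neg h] at hp
    exact hp rfl
  choose W hWadm hWcost using fun u : ℕ => fun hu : u ≠ 0 => hgood u hu
  let w : ℤ × ℤ → ℝ := fun e => q (e.1 + e.2) (uP S e.2) * W (uP S e.2) (hu0 e.2) e.1 (mP S e.2)
  have hD1 : (1:ℝ) ≤ D.card := by exact_mod_cast card_pos.2 hD
  have hA1 : (1:ℝ) ≤ A.card := by exact_mod_cast card_pos.2 hA
  have hM1 : (1:ℝ) ≤ M.card := by exact_mod_cast card_pos.2 hMne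
  have hMA : (M.card : ℝ) ≤ A.card := by exact_mod_cast card_image_le
  have hqpos : ∀ a ∈ A, ∀ d ∈ D, 0 < q (d + a) (uP S a) := fun a ha d hd =>
    (hq2 (uP S a) a (hA0 a ha) (hval a)).1 d hd
  have hWpos : ∀ a ∈ A, ∀ d ∈ D, 0 < W (uP S a) (hu0 a) d (mP S a) := fun a ha d hd =>
    (hWadm _ (hu0 a)).pos d hd _ (mem_image_of_mem _ ha)
  have hwpos : ∀ e ∈ D ×ˢ A, 0 < w e := by
    intro e he
    rw [mem_product] at he
    exact mul_pos (hqpos e.2 he.2 e.1 he.1) (hWpos e.2 he.2 e.1 he.1)
  -- kernel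
  have hker : ∀ x, ∑ e ∈ (D ×ˢ A).filter (fun e => e.1 + e.2 = x), w e ≤ 1 := by
    intro x
    set Ω := (D ×ˢ A).filter (fun e => e.1 + e.2 = x) with hΩ
    rw [← Finset.sum_fiberwise_of_maps_to (t := A.image (uP S)) (g := fun e : ℤ × ℤ => uP S e.2)
      (fun e he => mem_image_of_mem _ (mem_product.1 (mem_filter.1 he).1).2)]
    refine le_trans (sum_le_sum (g := fun u => q x u) ?_) (hq1 x (A.image (uP S)) ?_)
    · intro u hu
      obtain ⟨a₀, ha₀, rfl⟩ := mem_image.1 hu
      set u := uP S a₀ with hudef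
      have h1 : ∀ e ∈ Ω.filter (fun e => uP S e.2 = u), w e =
          q x u * W u (hu0 a₀) e.1 (mP S e.2) := by
        intro e he
        rw [mem_filter] at he
        have he1 := (mem_filter.1 he.1).2
        have h2 : ∀ (u' : ℕ) (h' : u' ≠ 0), u' = u →
            W u' h' e.1 (mP S e.2) = W u (hu0 a₀) e.1 (mP S e.2) := by
          intro u' h' hh; subst hh; rfl
        show q (e.1 + e.2) (uP S e.2) * W (uP S e.2) (hu0 e.2) e.1 (mP S e.2) = _
        rw [h2 _ _ he.2, he1, he.2]
      rw [sum_congr rfl h1, ← mul_sum]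
      have h3 : ∑ e ∈ Ω.filter (fun e => uP S e.2 = u), W u (hu0 a₀) e.1 (mP S e.2) ≤ 1 := by
        refine le_trans ?_ ((hWadm u (hu0 a₀)).ker x)
        have hinj : Set.InjOn (fun e : ℤ × ℤ => (e.1, mP S e.2))
            (Ω.filter (fun e => uP S e.2 = u) : Finset (ℤ × ℤ)) := by
          intro e he e' he' h
          rw [mem_coe, mem_filter] at he he'
          simp only [Prod.mk.injEq] at h
          have ha := hA0 _ (mem_product.1 (mem_filter.1 he.1).1).2
          have ha' := hA0 _ (mem_product.1 (mem_filter.1 he'.1).1).2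
          have e2 : e.2 = e'.2 := by
            rw [← uP_mul_mP hS ha, ← uP_mul_mP hS ha', he.2, he'.2, h.2]
          exact Prod.ext h.1 e2
        rw [← sum_image (f := fun z : ℤ × ℤ => W u (hu0 a₀) z.1 z.2) hinj]
        apply sum_le_sum_of_subset_of_nonneg
        · intro z hz
          obtain ⟨e, he, rfl⟩ := mem_image.1 hz
          rw [mem_filter] at he
          have he1 := mem_filter.1 he.1
          have he2 := mem_product.1 he1.1
          rw [mem_filter, mem_product]
          refine ⟨⟨he2.1, mem_image_of_mem _ he2.2⟩, ?_⟩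
          simp only
          rw [← he.2, uP_mul_mP hS (hA0 _ he2.2)]
          exact he1.2
        · intro z hz _
          rw [mem_filter, mem_product] at hz
          exact ((hWadm u (hu0 a₀)).pos z.1 hz.1.1 z.2 hz.1.2).le
      calc q x u * ∑ e ∈ Ω.filter (fun e => uP S e.2 = u), W u (hu0 a₀) e.1 (mP S e.2)
          ≤ q x u * 1 := mul_le_mul_of_nonneg_left h3 (hq0 x u)
        _ = q x u := mul_one _
    · intro u hu
      obtain ⟨a₀, _, rfl⟩ := mem_image.1 hu
      exact ⟨hu0 a₀, hsupp a₀⟩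
  have hmain := log_image_ge (hD.product hA) (fun e : ℤ × ℤ => e.1 + e.2) w hwpos hker
  have himg : (D ×ˢ A).image (fun e : ℤ × ℤ => e.1 + e.2) = image₂ (· + ·) D A := rfl
  rw [himg, card_product] at hmain
  push_cast at hmain
  rw [Real.log_mul (by (clear * - hD; positivity)) (by (clear * - hA; positivity))] at hmain
  -- the cost
  set LD := Real.log (D.card : ℝ) with hLD
  set LA := Real.log (A.card : ℝ) with hLA
  have hLD0 : 0 ≤ LD := Real.log_nonneg hD1
  have hLM : Real.log (M.card : ℝ) ≤ LA := Real.log_le_log (by linarith only [hM1]) hMA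
  have hcost : -∑ e ∈ D ×ˢ A, Real.log (w e) ≤
      (D.card : ℝ) * A.card * ((S.card : ℝ) * (Real.log (1 / θ) + 2 + b) + 2 * θ * (LD + LA)) +
      LD * ((D.card : ℝ) * M.card * (C ^ S.card * ((D.card : ℝ) ^ lam * (A.card : ℝ) ^ lam))) := by
    rw [sum_product_right, ← sum_neg_distrib]
    have h1 : ∀ a ∈ A, -∑ d ∈ D, Real.log (w (d, a)) ≤
        (D.card : ℝ) * ((S.card : ℝ) * (Real.log (1 / θ) + 2 + b) + 2 * θ * (LD + LA)) +
        LD * ((D.filter (fun d => F (uP S a) d (mP S a))).card : ℝ) := by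
      intro a ha
      have e1 : ∀ d ∈ D, Real.log (w (d, a)) =
          Real.log (q (d + a) (uP S a)) + Real.log (W (uP S a) (hu0 a) d (mP S a)) := by
        intro d hd
        exact Real.log_mul (hqpos a ha d hd).ne' (hWpos a ha d hd).ne'
      rw [sum_congr rfl e1, sum_add_distrib]
      have h2 := (hq2 (uP S a) a (hA0 a ha) (hval a)).2
      have h3 := hWcost (uP S a) (hu0 a) (mP S a) (mem_image_of_mem _ ha)
      have h4 : (D.card : ℝ) * (2 * θ * Real.log (M.card : ℝ)) ≤ (D.card : ℝ) * (2 * θ * LA) := by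
        (clear * - hLM hθ0 hD; gcongr)
      have h5 : (D.card : ℝ) * (θ * LD + 2 * θ * Real.log (M.card : ℝ) + (S.card : ℝ) * b) =
        (D.card : ℝ) * (θ * LD) + (D.card : ℝ) * (2 * θ * Real.log (M.card : ℝ)) +
        (D.card : ℝ) * ((S.card : ℝ) * b) := by ring
      rw [h5] at h3
      have h6 : (D.card : ℝ) * (θ * LD + (S.card : ℝ) * (Real.log (1 / θ) + 2)) =
        (D.card : ℝ) * (θ * LD) + (D.card : ℝ) * ((S.card : ℝ) * (Real.log (1 / θ) + 2)) := by
        ring
      rw [h6] at h2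
      have h7 : (D.card : ℝ) * ((S.card : ℝ) * (Real.log (1 / θ) + 2 + b) + 2 * θ * (LD + LA)) =
        (D.card : ℝ) * ((S.card : ℝ) * (Real.log (1 / θ) + 2)) +
        (D.card : ℝ) * ((S.card : ℝ) * b) + (D.card : ℝ) * (θ * LD) +
        (D.card : ℝ) * (θ * LD) + (D.card : ℝ) * (2 * θ * LA) := by ring
      rw [h7]
      linarith only [h2, h3, h4]
    refine (sum_le_sum h1).trans ?_
    rw [sum_add_distrib, sum_const, nsmul_eq_mul, ← mul_sum]
    have hfail : ∑ a ∈ A, ((D.filter (fun d => F (uP S a) d (mP S a))).card : ℝ) ≤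
        (D.card : ℝ) * M.card * (C ^ S.card * ((D.card : ℝ) ^ lam * (A.card : ℝ) ^ lam)) := by
      have e1 : ∑ a ∈ A, ((D.filter (fun d => F (uP S a) d (mP S a))).card : ℝ) =
          ∑ d ∈ D, ((A.filter (fun a => F (uP S a) d (mP S a))).card : ℝ) := by
        have := Finset.sum_card_bipartiteAbove_eq_sum_card_bipartiteBelow (s := A) (t := D)
          (fun a d => F (uP S a) d (mP S a))
        unfold bipartiteAbove bipartiteBelow at this
        exact_mod_cast this
      rw [e1]
      have h2 : ∀ d ∈ D, ((A.filter (fun a => F (uP S a) d (mP S a))).card : ℝ) ≤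
          (M.card : ℝ) * (C ^ S.card * ((D.card : ℝ) ^ lam * (A.card : ℝ) ^ lam)) := by
        intro d hd
        have h3 : (A.filter (fun a => F (uP S a) d (mP S a))).card =
            ∑ m ∈ M, ((A.filter (fun a => F (uP S a) d (mP S a))).filter
              (fun a => mP S a = m)).card := by
          apply Finset.card_eq_sum_card_fiberwise
          intro a ha
          rw [mem_coe, mem_filter] at ha
          exact mem_coe.2 (mem_image_of_mem _ ha.1)
        rw [h3]
        push_cast
        have h4 : ∀ m ∈ M, (((A.filter (fun a => F (uP S a) d (mP S a))).filter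
              (fun a => mP S a = m)).card : ℝ) ≤
            C ^ S.card * ((D.card : ℝ) ^ lam * (A.card : ℝ) ^ lam) := by
          intro m hm
          set Y := (A.filter (fun a => F (uP S a) d (mP S a))).filter
              (fun a => mP S a = m) with hY
          have hinj : Set.InjOn (uP S) (Y : Set ℤ) := by
            intro a ha a' ha' h
            rw [mem_coe, hY, mem_filter, mem_filter] at ha ha'
            rw [← uP_mul_mP hS (hA0 _ ha.1.1), ← uP_mul_mP hS (hA0 _ ha'.1.1), h, ha.2, ha'.2]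
          rw [← card_image_of_injOn hinj]
          have h5 := hF d hd m hm (Y.image (uP S)) (by
            intro u hu
            obtain ⟨a, _, rfl⟩ := mem_image.1 hu
            exact ⟨hu0 a, hsupp a⟩) (by
            intro u hu
            obtain ⟨a, ha, rfl⟩ := mem_image.1 hu
            rw [hY, mem_filter, mem_filter] at ha
            rw [← ha.2]
            exact ha.1.2)
          refine h5.trans ?_
          apply mul_le_mul_of_nonneg_left _ (by positivity)
          apply mul_le_mul_of_nonneg_left _ (by (clear * - hD; positivity))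
          exact Real.rpow_le_rpow (by (clear * - hMne; positivity)) hMA hl.le
        refine (sum_le_sum h4).trans ?_
        rw [sum_const, nsmul_eq_mul]
      refine (sum_le_sum h2).trans ?_
      rw [sum_const, nsmul_eq_mul, mul_assoc]
    have h8 := mul_le_mul_of_nonneg_left hfail hLD0
    have h9 : (A.card : ℝ) * ((D.card : ℝ) * ((S.card : ℝ) * (Real.log (1 / θ) + 2 + b) +
        2 * θ * (LD + LA))) = (D.card : ℝ) * A.card * ((S.card : ℝ) * (Real.log (1 / θ) + 2 + b) +
        2 * θ * (LD + LA)) := by ring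
    rw [h9]
    linarith only [h8]
  -- the fibres are large
  have hMR : (M.card : ℝ) * R ≤ A.card := by
    have h1 : (A.card : ℝ) = ∑ m ∈ M, ((A.filter (fun a => mP S a = m)).card : ℝ) := by
      have := Finset.card_eq_sum_card_image (mP S) A
      exact_mod_cast this
    rw [h1, ← nsmul_eq_mul, ← sum_const]
    apply sum_le_sum
    intro m hm
    obtain ⟨a, ha, rfl⟩ := mem_image.1 hm
    exact hfib a ha
  set G := C ^ S.card * ((D.card : ℝ) ^ lam * (A.card : ℝ) ^ lam) with hG
  have hG0 : 0 ≤ G := by (clear * - hC hD hA; positivity)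
  have hDpos : (0:ℝ) < D.card := by linarith only [hD1]
  have hApos : (0:ℝ) < A.card := by linarith only [hM1, hMA]
  have h10 : (1 / ((D.card : ℝ) * A.card)) * (-∑ e ∈ D ×ˢ A, Real.log (w e)) ≤
      (S.card : ℝ) * (Real.log (1 / θ) + 2 + b) + 2 * θ * (LD + LA) + LD * (G / R) := by
    have h11 := mul_le_mul_of_nonneg_left hcost
      (by (clear * - hD hA; positivity) : 0 ≤ 1 / ((D.card : ℝ) * A.card))
    refine h11.trans ?_
    have h12 : (1 / ((D.card : ℝ) * A.card)) * ((D.card : ℝ) * A.card *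
        ((S.card : ℝ) * (Real.log (1 / θ) + 2 + b) + 2 * θ * (LD + LA)) +
        LD * ((D.card : ℝ) * M.card * G)) =
        ((S.card : ℝ) * (Real.log (1 / θ) + 2 + b) + 2 * θ * (LD + LA)) +
        LD * (G * (M.card / A.card)) := by
      (clear * - hD hA; field_simp)
    rw [h12]
    have h13 : (M.card : ℝ) / A.card ≤ 1 / R := by
      rw [div_le_div_iff₀ hApos hR]
      linarith only [hMR]
    have h14 : LD * (G * (M.card / A.card)) ≤ LD * (G * (1 / R)) := by (clear * - h13 hC hD hA; gcongr)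
    have h15 : LD * (G * (1 / R)) = LD * (G / R) := by ring
    linarith only [h14, h15]
  have h16 : (1 / ((D.card : ℝ) * A.card)) * (-∑ e ∈ D ×ˢ A, Real.log (w e)) =
      -((1 / ((D.card : ℝ) * A.card)) * ∑ e ∈ D ×ˢ A, Real.log (w e)) := by ring
  rw [h16] at h10
  linarith only [hmain, h10]

end Pool.Agent.Helper2.E
end

/- Helper24.FF.H2.EIter -/
section
set_option autoImplicit false

/-!
Iterated sumsets.
-/

open Finset

namespace Pool.Agent.Helper2.E

open Pool.Agent.Helper5 (uP mP sI sI_card)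

theorem sI_nonempty {A : Finset ℤ} (hA : A.Nonempty) (j : ℕ) : (sI A j).Nonempty := by
  induction j with
  | zero => exact ⟨0, by simp [sI]⟩
  | succ j ih => exact Finset.Nonempty.image₂ ih hA

/-- **Iterated sum step.** -/
theorem sum_iter {θ lam : ℝ} (hθ0 : 0 < θ) (hθ1 : θ ≤ 1 / 2) (hl : 0 < lam) :
    ∃ b C : ℝ, 0 ≤ b ∧ 1 ≤ C ∧ ∀ S : Finset ℕ, (∀ p ∈ S, p.Prime) →
      ∀ A : Finset ℤ, A.Nonempty → (0:ℤ) ∉ A → ∀ R : ℝ, 0 < R →
      (∀ a ∈ A, R ≤ ((A.filter (fun a' => mP S a' = mP S a)).card : ℝ)) →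
      ∀ N k : ℕ, A.card ≤ N → ∀ j : ℕ, j ≤ k →
      (j : ℝ) * (Real.log A.card - ((S.card : ℝ) * (Real.log (1 / θ) + 2 + b) +
        2 * θ * (((k:ℝ) + 1) * Real.log N) +
        (k * Real.log N) * (C ^ S.card * (N : ℝ) ^ (lam * (k + 1)) / R))) ≤
        Real.log ((sI A j).card : ℝ) := by
  classical
  obtain ⟨b, C, hb, hC, hstep⟩ := sum_step hθ0 hθ1 hl
  refine ⟨b, C, hb, hC, ?_⟩
  intro S hS A hA h0 R hR hfib N k hAN
  have hA1 : 1 ≤ A.card := card_pos.2 hA
  have hN1 : 1 ≤ N := hA1.trans hAN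
  have hN1' : (1:ℝ) ≤ N := by exact_mod_cast hN1
  have hNpos : (0:ℝ) < N := by linarith only [hN1']
  have hLN : 0 ≤ Real.log N := Real.log_nonneg hN1'
  have hAN' : (A.card : ℝ) ≤ N := by exact_mod_cast hAN
  have hApos : (0:ℝ) < A.card := by exact_mod_cast hA1
  have hLA : Real.log A.card ≤ Real.log N := Real.log_le_log hApos hAN'
  intro j
  induction j with
  | zero => intro _; simp [sI]
  | succ j ih =>
    intro hj
    have ih' := ih (by omega)
    have hne := sI_nonempty hA j
    have hDpos : (0:ℝ) < ((sI A j).card : ℝ) := by exact_mod_cast card_pos.2 hne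
    have hD1 : (1:ℝ) ≤ ((sI A j).card : ℝ) := by exact_mod_cast card_pos.2 hne
    have hDN : ((sI A j).card : ℝ) ≤ (N:ℝ) ^ k := by
      have h1 : (sI A j).card ≤ N ^ k :=
        (sI_card A j).trans ((Nat.pow_le_pow_left hAN j).trans
          (Nat.pow_le_pow_right hN1 (by omega)))
      exact_mod_cast h1
    have hLD : Real.log ((sI A j).card : ℝ) ≤ k * Real.log N := by
      rw [← Real.log_pow]
      exact Real.log_le_log hDpos hDN
    have hLD0 : 0 ≤ Real.log ((sI A j).card : ℝ) := Real.log_nonneg hD1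
    have h2 := hstep S hS (sI A j) A hne hA h0 R hR hfib
    have h3 : ((sI A j).card : ℝ) ^ lam * (A.card : ℝ) ^ lam ≤ (N : ℝ) ^ (lam * (k + 1)) := by
      calc ((sI A j).card : ℝ) ^ lam * (A.card : ℝ) ^ lam
          ≤ ((N:ℝ) ^ k) ^ lam * (N : ℝ) ^ lam := by
            apply mul_le_mul (Real.rpow_le_rpow hDpos.le hDN hl.le)
              (Real.rpow_le_rpow hApos.le hAN' hl.le) (by (clear * - hA; positivity)) (by positivity)
        _ = (N : ℝ) ^ (lam * (k + 1)) := by
            rw [← Real.rpow_natCast, ← Real.rpow_mul hNpos.le, ← Real.rpow_add hNpos]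
            congr 1
            ring
    have h4 : Real.log ((sI A j).card : ℝ) *
        (C ^ S.card * (((sI A j).card : ℝ) ^ lam * (A.card : ℝ) ^ lam) / R) ≤
        (k * Real.log N) * (C ^ S.card * (N : ℝ) ^ (lam * (k + 1)) / R) := by
      apply mul_le_mul hLD _ (by (clear * - hC hne hA hR; positivity)) (by (clear * -; positivity))
      (clear * - h3 hC hR; gcongr)
    have h5 : 2 * θ * (Real.log ((sI A j).card : ℝ) + Real.log A.card) ≤
        2 * θ * (((k:ℝ) + 1) * Real.log N) := by
      apply mul_le_mul_of_nonneg_left _ (by linarith only [hθ0])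
      linarith only [hLA, hLD]
    have h6 : image₂ (· + ·) (sI A j) A = sI A (j + 1) := rfl
    rw [h6] at h2
    push_cast
    linarith only [ih', h2, h4, h5]

end Pool.Agent.Helper2.E
end

/- Helper24.FF.H1.EProd -/
section
set_option autoImplicit false

namespace Pool.Agent.Helper1

open Finset Pool.Agent.Helper5

/-- the elements of `K` with `q`-adic valuation `v` -/
def cls (K : Finset ℤ) (q v : ℕ) : Finset ℤ := K.filter (fun d => val q d = v)

lemma mem_cls {K : Finset ℤ} {q v : ℕ} {d : ℤ} : d ∈ cls K q v ↔ d ∈ K ∧ val q d = v := by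
  unfold cls; rw [Finset.mem_filter]

lemma cls_subset (K : Finset ℤ) (q v : ℕ) : cls K q v ⊆ K := Finset.filter_subset _ _

/-- the weight of a pair `(d,b)` along a list of primes -/
noncomputable def wq (d b : ℤ) : List ℕ → Finset ℤ → ℝ
  | [], _ => 1
  | q :: l, K => (if (q : ℤ) ∣ b then ((cls K q (val q d)).card : ℝ) / K.card else 1)
      * wq d b l (cls K q (val q d))

lemma wq_nonneg (d b : ℤ) (l : List ℕ) : ∀ K, 0 ≤ wq d b l K := by
  induction l with
  | nil => intro K; simp [wq]
  | cons q l ih =>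
    intro K
    simp only [wq]
    refine mul_nonneg ?_ (ih _)
    split_ifs
    · (clear * -; positivity)
    · exact zero_le_one

lemma sum_cls_le (K : Finset ℤ) (q : ℕ) (V : Finset ℕ) :
    ∑ v ∈ V, ((cls K q v).card : ℝ) / K.card ≤ 1 := by
  classical
  rw [← Finset.sum_div]
  apply div_le_one_of_le₀ _ (Nat.cast_nonneg _)
  rw [← Nat.cast_sum]
  have : ∑ v ∈ V, (cls K q v).card ≤ K.card := by
    rw [← Finset.card_biUnion]
    · apply Finset.card_le_card
      intro d hd
      rw [Finset.mem_biUnion] at hd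
      obtain ⟨v, _, hd⟩ := hd
      exact cls_subset _ _ _ hd
    · intro v _ v' _ hne
      rw [Function.onFun, Finset.disjoint_left]
      intro d h1 h2
      exact hne ((mem_cls.1 h1).2.symm.trans (mem_cls.1 h2).2)
  exact_mod_cast this

/-- the kernel bound -/
lemma sum_wq_le (y : ℤ) (hy : y ≠ 0) (l : List ℕ) (hl : ∀ q ∈ l, q.Prime) :
    ∀ (K : Finset ℤ) (E : Finset (ℤ × ℤ)), (∀ e ∈ E, e.1 * e.2 = y) →
      (∀ e ∈ E, ∀ e' ∈ E, (∀ q ∈ l, val q e.1 = val q e'.1) → e = e') →
      ∑ e ∈ E, wq e.1 e.2 l K ≤ 2 ^ (l.filter (fun q : ℕ => (q : ℤ) ∣ y)).length := by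
  classical
  induction l with
  | nil =>
    intro K E hE hinj
    simp only [wq, Finset.sum_const, nsmul_eq_mul, mul_one, List.filter_nil, List.length_nil,
      pow_zero]
    have : E.card ≤ 1 := Finset.card_le_one.2 (fun e he e' he' => hinj e he e' he' (by simp))
    exact_mod_cast this
  | cons q l ih =>
    intro K E hE hinj
    have hq : q.Prime := hl q (by simp)
    have hl' : ∀ q ∈ l, q.Prime := fun q' h => hl q' (by simp [h])
    -- a subset with constant valuation
    have key : ∀ (F : Finset (ℤ × ℤ)), F ⊆ E → ∀ v : ℕ, (∀ e ∈ F, val q e.1 = v) →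
        ∑ e ∈ F, wq e.1 e.2 l (cls K q v) ≤ 2 ^ (l.filter (fun q : ℕ => (q : ℤ) ∣ y)).length := by
      intro F hF v hv
      apply ih hl' _ _ (fun e he => hE e (hF he))
      intro e he e' he' h
      apply hinj e (hF he) e' (hF he')
      intro q' hq'
      rcases List.mem_cons.1 hq' with rfl | hq'
      · rw [hv e he, hv e' he']
      · exact h q' hq'
    set M : ℝ := 2 ^ (l.filter (fun q : ℕ => (q : ℤ) ∣ y)).length with hM
    have hM0 : 0 < M := by positivity
    have hE0 : ∀ e ∈ E, e.1 ≠ 0 ∧ e.2 ≠ 0 := by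
      intro e he
      have := hE e he
      constructor
      · rintro h; rw [h, zero_mul] at this; exact hy this.symm
      · rintro h; rw [h, mul_zero] at this; exact hy this.symm
    -- the part with `q ∤ b`
    have hval0 : ∀ e ∈ E.filter (fun e => ¬ (q : ℤ) ∣ e.2), val q e.1 = val q y := by
      intro e he
      rw [Finset.mem_filter] at he
      have h1 := hE e he.1
      have h2 : val q e.2 = 0 := by
        by_contra h
        have : 1 ≤ val q e.2 := Nat.one_le_iff_ne_zero.2 h
        have := (pow_dvd_iff_val hq (hE0 e he.1).2 1).2 this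
        rw [pow_one] at this
        exact he.2 this
      rw [← h1, val_mul (hE0 e he.1).1 (hE0 e he.1).2, h2, add_zero]
    have part0 : ∑ e ∈ E.filter (fun e => ¬ (q : ℤ) ∣ e.2), wq e.1 e.2 (q :: l) K ≤ M := by
      have h1 : ∑ e ∈ E.filter (fun e => ¬ (q : ℤ) ∣ e.2), wq e.1 e.2 (q :: l) K =
          ∑ e ∈ E.filter (fun e => ¬ (q : ℤ) ∣ e.2), wq e.1 e.2 l (cls K q (val q y)) := by
        apply Finset.sum_congr rfl
        intro e he
        simp only [wq]
        rw [if_neg (Finset.mem_filter.1 he).2, one_mul, hval0 e he]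
      rw [h1]
      exact key _ (Finset.filter_subset _ _) _ hval0
    by_cases hqy : (q : ℤ) ∣ y
    · have part1 : ∑ e ∈ E.filter (fun e => (q : ℤ) ∣ e.2), wq e.1 e.2 (q :: l) K ≤ M := by
        set F := E.filter (fun e => (q : ℤ) ∣ e.2) with hF
        rw [← Finset.sum_fiberwise_of_maps_to (s := F) (t := F.image (fun e => val q e.1))
          (g := fun e => val q e.1) (fun e he => Finset.mem_image_of_mem _ he)]
        calc ∑ v ∈ F.image (fun e => val q e.1), ∑ e ∈ F.filter (fun e => val q e.1 = v),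
              wq e.1 e.2 (q :: l) K
            ≤ ∑ v ∈ F.image (fun e => val q e.1), ((cls K q v).card : ℝ) / K.card * M := by
              apply Finset.sum_le_sum
              intro v _
              have h1 : ∑ e ∈ F.filter (fun e => val q e.1 = v), wq e.1 e.2 (q :: l) K =
                  ((cls K q v).card : ℝ) / K.card *
                    ∑ e ∈ F.filter (fun e => val q e.1 = v), wq e.1 e.2 l (cls K q v) := by
                rw [Finset.mul_sum]
                apply Finset.sum_congr rfl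
                intro e he
                rw [Finset.mem_filter, hF, Finset.mem_filter] at he
                simp only [wq]
                rw [if_pos he.1.2, he.2]
              rw [h1]
              apply mul_le_mul_of_nonneg_left _ (by (clear * -; positivity))
              apply key _ _ _ (fun e he => (Finset.mem_filter.1 he).2)
              exact (Finset.filter_subset _ _).trans (Finset.filter_subset _ _)
          _ = (∑ v ∈ F.image (fun e => val q e.1), ((cls K q v).card : ℝ) / K.card) * M := by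
              rw [Finset.sum_mul]
          _ ≤ 1 * M := mul_le_mul_of_nonneg_right (sum_cls_le K q _) hM0.le
          _ = M := one_mul _
      rw [List.filter_cons_of_pos (by simpa using hqy), List.length_cons, pow_succ, ← hM,
        ← Finset.sum_filter_add_sum_filter_not E (fun e => (q : ℤ) ∣ e.2)]
      linarith
    · rw [List.filter_cons_of_neg (by simpa using hqy), ← hM]
      have : E.filter (fun e => ¬ (q : ℤ) ∣ e.2) = E := by
        apply Finset.filter_true_of_mem
        intro e he h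
        apply hqy
        rw [← hE e he]
        exact dvd_mul_of_dvd_right h _
      rw [this] at part0
      exact part0

/-- the cost bound -/
lemma wq_cost (κ : ℝ) (A : Finset ℤ) (f : ℤ → ℤ) (d : ℤ) (l : List ℕ)
    (hκA : ∀ q ∈ l, ((A.filter (fun a => (q : ℤ) ∣ f a)).card : ℝ) ≤ κ * A.card) (hκ : 0 ≤ κ) :
    ∀ K : Finset ℤ, d ∈ K → (∀ a ∈ A, 0 < wq d (f a) l K) ∧
      -∑ a ∈ A, Real.log (wq d (f a) l K) ≤ κ * A.card * Real.log K.card := by
  classical
  induction l with
  | nil =>
    intro K hd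
    refine ⟨fun a _ => by simp [wq], ?_⟩
    simp only [wq, Real.log_one, Finset.sum_const_zero, neg_zero]
    have : 1 ≤ K.card := Finset.card_pos.2 ⟨d, hd⟩
    have h1 : 0 ≤ Real.log K.card := Real.log_nonneg (by exact_mod_cast this)
    (clear * - hκ; positivity)
  | cons q l ih =>
    intro K hd
    obtain ⟨ihpos, ihcost⟩ := ih (fun q hq => hκA q (by simp [hq])) (cls K q (val q d))
      (mem_cls.2 ⟨hd, rfl⟩)
    have hK1 : 0 < (cls K q (val q d)).card := Finset.card_pos.2 ⟨d, mem_cls.2 ⟨hd, rfl⟩⟩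
    have hK2 : (cls K q (val q d)).card ≤ K.card := Finset.card_le_card (cls_subset _ _ _)
    set K' := cls K q (val q d) with hK'
    have hk1 : (0 : ℝ) < K'.card := by exact_mod_cast hK1
    have hk2 : (K'.card : ℝ) ≤ K.card := by exact_mod_cast hK2
    have hk3 : (0 : ℝ) < K.card := lt_of_lt_of_le hk1 hk2
    refine ⟨fun a ha => ?_, ?_⟩
    · simp only [wq]
      rw [← hK']
      refine mul_pos ?_ (ihpos a ha)
      split_ifs
      · (clear * - hK1 hk3; positivity)
      · exact zero_lt_one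
    · have h1 : ∀ a ∈ A, Real.log (wq d (f a) (q :: l) K) =
          (if (q : ℤ) ∣ f a then Real.log K'.card - Real.log K.card else 0)
            + Real.log (wq d (f a) l K') := by
        intro a ha
        simp only [wq]
        rw [← hK']
        split_ifs with h
        · rw [Real.log_mul (by (clear * - hK1 hk3; positivity)) (ihpos a ha).ne', Real.log_div hk1.ne' hk3.ne']
        · rw [one_mul, zero_add]
      rw [Finset.sum_congr rfl h1, Finset.sum_add_distrib, ← Finset.sum_filter, Finset.sum_const,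
        nsmul_eq_mul]
      have h2 := hκA q (by simp)
      have h3 : Real.log K'.card ≤ Real.log K.card := Real.log_le_log hk1 hk2
      linarith only [mul_le_mul_of_nonneg_right h2 (sub_nonneg.2 h3), ihcost]

/-- Module PROD of Theorem E: the product set is nearly as large as possible. -/
theorem prodB {P : Finset ℕ} (hP : ∀ p ∈ P, p.Prime) (κ R : ℝ) (hκ : 0 ≤ κ) (hR1 : 0 ≤ R)
    (W : ℕ) (A D : Finset ℤ) (_hAne : A.Nonempty) (_hDne : D.Nonempty) (hA : (0:ℤ) ∉ A)
    (hD : ∀ d ∈ D, d ≠ 0 ∧ ∀ p ∈ P, val p d = 0)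
    (hκA : ∀ q : ℕ, q.Prime → q ∉ P →
      ((A.filter (fun a => (q:ℤ) ∣ a)).card : ℝ) ≤ κ * A.card)
    (hR : ∀ b, ((A.filter (fun a => mP P a = b)).card : ℝ) ≤ R)
    (hW : ∀ d ∈ D, ∀ a ∈ A, (d * mP P a).natAbs.primeFactors.card ≤ W) :
    (D.card : ℝ) * A.card ≤ 2 * R * 2 ^ W * (D.card : ℝ) ^ κ *
      ((image₂ (· * ·) D (A.image (mP P))).card : ℝ) := by
  classical
  set B := A.image (mP P) with hB
  have hA0 : ∀ a ∈ A, a ≠ 0 := fun a ha h => hA (h ▸ ha)
  set Pr : Finset ℕ := (D ×ˢ A).biUnion (fun x => (x.1 * mP P x.2).natAbs.primeFactors) with hPr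
  set l := Pr.toList with hl
  have hlp : ∀ q ∈ l, q.Prime := by
    intro q hq
    rw [hl, Finset.mem_toList, hPr, Finset.mem_biUnion] at hq
    obtain ⟨x, _, hx⟩ := hq
    exact Nat.prime_of_mem_primeFactors hx
  have hκA' : ∀ q ∈ l, ((A.filter (fun a => (q : ℤ) ∣ mP P a)).card : ℝ) ≤ κ * A.card := by
    intro q hq
    have hqp := hlp q hq
    by_cases hqP : q ∈ P
    · have : A.filter (fun a => (q : ℤ) ∣ mP P a) = ∅ := by
        apply Finset.filter_false_of_mem
        intro a ha h
        have h1 := (pow_dvd_iff_val hqp (mP_ne_zero hP (hA0 a ha)) 1).1 (by rwa [pow_one])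
        rw [val_mP hP (hA0 a ha), if_pos hqP] at h1
        omega
      rw [this]
      simp only [Finset.card_empty, Nat.cast_zero]
      (clear * - hκ _hAne; positivity)
    · refine le_trans ?_ (hκA q hqp hqP)
      have : A.filter (fun a => (q : ℤ) ∣ mP P a) ⊆ A.filter (fun a => (q : ℤ) ∣ a) := by
        intro a ha
        rw [Finset.mem_filter] at ha ⊢
        refine ⟨ha.1, ?_⟩
        rw [← uP_mul_mP hP (hA0 a ha.1)]
        exact dvd_mul_of_dvd_right ha.2 _
      exact_mod_cast Finset.card_le_card this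
  -- lower bound
  have hlow : ∀ d ∈ D, (A.card : ℝ) * (D.card : ℝ) ^ (-κ) ≤ ∑ a ∈ A, wq d (mP P a) l D := by
    intro d hd
    obtain ⟨hpos, hcost⟩ := wq_cost κ A (mP P) d l hκA' hκ D hd
    have hDc : (0 : ℝ) < D.card := by exact_mod_cast Finset.card_pos.2 ⟨d, hd⟩
    set c := κ * Real.log D.card with hc
    have he : (D.card : ℝ) ^ (-κ) = Real.exp (-c) := by
      rw [Real.rpow_def_of_pos hDc, hc]
      ring_nf
    rw [he]
    have h1 : ∀ a ∈ A, Real.exp (-c) * (1 + (Real.log (wq d (mP P a) l D) + c)) ≤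
        wq d (mP P a) l D := by
      intro a ha
      have h2 := Real.add_one_le_exp (Real.log (wq d (mP P a) l D) + c)
      calc Real.exp (-c) * (1 + (Real.log (wq d (mP P a) l D) + c))
          ≤ Real.exp (-c) * Real.exp (Real.log (wq d (mP P a) l D) + c) := by
            apply mul_le_mul_of_nonneg_left _ (Real.exp_pos _).le
            linarith only [h2]
        _ = Real.exp (Real.log (wq d (mP P a) l D)) := by
            rw [← Real.exp_add]; ring_nf
        _ = wq d (mP P a) l D := Real.exp_log (hpos a ha)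
    calc (A.card : ℝ) * Real.exp (-c)
        ≤ Real.exp (-c) * (A.card + (∑ a ∈ A, Real.log (wq d (mP P a) l D) + A.card * c)) := by
          have h3 : 0 ≤ ∑ a ∈ A, Real.log (wq d (mP P a) l D) + A.card * c := by
            rw [hc]; (clear * - hcost; linarith only [hcost])
          linarith only [mul_nonneg (Real.exp_pos (-c)).le h3]
      _ = ∑ a ∈ A, Real.exp (-c) * (1 + (Real.log (wq d (mP P a) l D) + c)) := by
          rw [← Finset.mul_sum, Finset.sum_add_distrib, Finset.sum_add_distrib, Finset.sum_const,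
            Finset.sum_const, nsmul_eq_mul, nsmul_eq_mul, mul_one]
      _ ≤ _ := Finset.sum_le_sum h1
  -- upper bound
  set Y := image₂ (· * ·) D B with hY
  have hB0 : ∀ b ∈ B, b ≠ 0 := by
    intro b hb
    rw [hB, Finset.mem_image] at hb
    obtain ⟨a, ha, rfl⟩ := hb
    exact mP_ne_zero hP (hA0 a ha)
  have hker : ∀ y ∈ Y, ∑ e ∈ (D ×ˢ B).filter (fun e => e.1 * e.2 = y), wq e.1 e.2 l D ≤
      2 * 2 ^ W := by
    intro y hy
    rw [hY, Finset.mem_image₂] at hy
    obtain ⟨d0, hd0, b0, hb0, hy⟩ := hy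
    have hy0 : y ≠ 0 := by rw [← hy]; exact mul_ne_zero (hD d0 hd0).1 (hB0 b0 hb0)
    have hyW : (l.filter (fun q : ℕ => (q : ℤ) ∣ y)).length ≤ W := by
      rw [hB, Finset.mem_image] at hb0
      obtain ⟨a0, ha0, rfl⟩ := hb0
      refine le_trans ?_ (hW d0 hd0 a0 ha0)
      have hnd : (l.filter (fun q : ℕ => (q : ℤ) ∣ y)).Nodup := (Finset.nodup_toList Pr).filter _
      rw [← List.toFinset_card_of_nodup hnd]
      apply Finset.card_le_card
      intro q hq
      rw [List.mem_toFinset, List.mem_filter] at hq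
      have hq2 : (q : ℤ) ∣ y := by simpa using hq.2
      rw [← hy] at hq2
      rw [Nat.mem_primeFactors]
      refine ⟨hlp q hq.1, ?_, ?_⟩
      · exact Int.natCast_dvd.1 hq2
      · rw [Int.natAbs_ne_zero]
        exact mul_ne_zero (hD d0 hd0).1 (mP_ne_zero hP (hA0 a0 ha0))
    set E := (D ×ˢ B).filter (fun e => e.1 * e.2 = y) with hE
    have hEm : ∀ e ∈ E, e.1 ∈ D ∧ e.2 ∈ B ∧ e.1 * e.2 = y := by
      intro e he
      rw [hE, Finset.mem_filter, Finset.mem_product] at he
      exact ⟨he.1.1, he.1.2, he.2⟩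
    -- injectivity up to sign
    have hinj : ∀ e ∈ E, ∀ e' ∈ E, (∀ q ∈ l, val q e.1 = val q e'.1) →
        (0 < e.1 ↔ 0 < e'.1) → e = e' := by
      intro e he e' he' h hs
      obtain ⟨h1, h2, h3⟩ := hEm e he
      obtain ⟨h1', h2', h3'⟩ := hEm e' he'
      have hn : e.1.natAbs = e'.1.natAbs := by
        apply Nat.eq_of_factorization_eq (Int.natAbs_ne_zero.2 (hD _ h1).1)
          (Int.natAbs_ne_zero.2 (hD _ h1').1)
        intro q
        by_cases hq : q ∈ l
        · exact h q hq
        · have aux : ∀ g ∈ E, g.1.natAbs.factorization q = 0 := by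
            intro g hg
            obtain ⟨g1, g2, g3⟩ := hEm g hg
            rw [hB, Finset.mem_image] at g2
            obtain ⟨a, ha, hga⟩ := g2
            rw [← Finsupp.notMem_support_iff, Nat.support_factorization]
            intro hqg
            apply hq
            rw [hl, Finset.mem_toList, hPr, Finset.mem_biUnion]
            refine ⟨(g.1, a), Finset.mem_product.2 ⟨g1, ha⟩, ?_⟩
            rw [Nat.mem_primeFactors] at hqg ⊢
            refine ⟨hqg.1, ?_, ?_⟩
            · rw [Int.natAbs_mul]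
              exact dvd_mul_of_dvd_left hqg.2.1 _
            · rw [Int.natAbs_ne_zero]
              exact mul_ne_zero (hD _ g1).1 (mP_ne_zero hP (hA0 a ha))
          rw [aux e he, aux e' he']
      have hne := (hD _ h1).1
      have hne' := (hD _ h1').1
      have h11 : e.1 = e'.1 := by omega
      have h22 : e.2 = e'.2 := by
        have : e.1 * e.2 = e.1 * e'.2 := by rw [h3, h11, h3']
        exact mul_left_cancel₀ hne this
      exact Prod.ext h11 h22
    have hp1 : ∑ e ∈ E.filter (fun e => 0 < e.1), wq e.1 e.2 l D ≤ 2 ^ W := by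
      refine le_trans (sum_wq_le y hy0 l hlp D _
        (fun e he => (hEm e (Finset.mem_filter.1 he).1).2.2) ?_)
        (pow_le_pow_right₀ (by norm_num) hyW)
      intro e he e' he' h
      rw [Finset.mem_filter] at he he'
      exact hinj e he.1 e' he'.1 h (by simp [he.2, he'.2])
    have hp2 : ∑ e ∈ E.filter (fun e => ¬ 0 < e.1), wq e.1 e.2 l D ≤ 2 ^ W := by
      refine le_trans (sum_wq_le y hy0 l hlp D _
        (fun e he => (hEm e (Finset.mem_filter.1 he).1).2.2) ?_)
        (pow_le_pow_right₀ (by norm_num) hyW)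
      intro e he e' he' h
      rw [Finset.mem_filter] at he he'
      exact hinj e he.1 e' he'.1 h (by simp only [he.2, he'.2])
    rw [← Finset.sum_filter_add_sum_filter_not E (fun e => 0 < e.1)]
    (clear * - hp1 hp2; linarith only [hp1, hp2])
  have hup : ∑ d ∈ D, ∑ a ∈ A, wq d (mP P a) l D ≤ R * (Y.card * (2 * 2 ^ W)) := by
    have h1 : ∀ d ∈ D, ∑ a ∈ A, wq d (mP P a) l D ≤ R * ∑ b ∈ B, wq d b l D := by
      intro d _
      rw [← Finset.sum_fiberwise_of_maps_to (s := A) (t := B) (g := mP P)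
        (fun a ha => Finset.mem_image_of_mem _ ha), Finset.mul_sum]
      apply Finset.sum_le_sum
      intro b _
      have : ∑ a ∈ A.filter (fun a => mP P a = b), wq d (mP P a) l D =
          ((A.filter (fun a => mP P a = b)).card : ℝ) * wq d b l D := by
        rw [← nsmul_eq_mul, ← Finset.sum_const]
        apply Finset.sum_congr rfl
        intro a ha
        rw [(Finset.mem_filter.1 ha).2]
      rw [this]
      exact mul_le_mul_of_nonneg_right (hR b) (wq_nonneg _ _ _ _)
    calc ∑ d ∈ D, ∑ a ∈ A, wq d (mP P a) l D ≤ ∑ d ∈ D, R * ∑ b ∈ B, wq d b l D :=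
          Finset.sum_le_sum h1
      _ = R * ∑ e ∈ D ×ˢ B, wq e.1 e.2 l D := by
          rw [← Finset.mul_sum, Finset.sum_product]
      _ = R * ∑ y ∈ Y, ∑ e ∈ (D ×ˢ B).filter (fun e => e.1 * e.2 = y), wq e.1 e.2 l D := by
          rw [Finset.sum_fiberwise_of_maps_to]
          intro e he
          rw [Finset.mem_product] at he
          exact Finset.mem_image₂_of_mem he.1 he.2
      _ ≤ R * ∑ y ∈ Y, (2 * 2 ^ W : ℝ) :=
          mul_le_mul_of_nonneg_left (Finset.sum_le_sum hker) hR1
      _ = R * (Y.card * (2 * 2 ^ W)) := by rw [Finset.sum_const, nsmul_eq_mul]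
  have hlow' : (D.card : ℝ) * (A.card * (D.card : ℝ) ^ (-κ)) ≤
      ∑ d ∈ D, ∑ a ∈ A, wq d (mP P a) l D := by
    rw [← nsmul_eq_mul, ← Finset.sum_const]
    exact Finset.sum_le_sum hlow
  have hfin := hlow'.trans hup
  have hDc : (0 : ℝ) < D.card := by exact_mod_cast Finset.card_pos.2 _hDne
  have hk : (0 : ℝ) < (D.card : ℝ) ^ κ := Real.rpow_pos_of_pos hDc _
  rw [Real.rpow_neg hDc.le] at hfin
  have e1 : (D.card : ℝ) * A.card =
      (D.card : ℝ) * (A.card * ((D.card : ℝ) ^ κ)⁻¹) * (D.card : ℝ) ^ κ := by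
    (clear * - _hDne _hAne; field_simp)
  rw [e1]
  calc (D.card : ℝ) * (A.card * ((D.card : ℝ) ^ κ)⁻¹) * (D.card : ℝ) ^ κ
      ≤ R * (Y.card * (2 * 2 ^ W)) * (D.card : ℝ) ^ κ :=
        mul_le_mul_of_nonneg_right hfin hk.le
    _ = 2 * R * 2 ^ W * (D.card : ℝ) ^ κ * Y.card := by ring

end Pool.Agent.Helper1
end

/- Helper24.FF.H1.EProdIter -/
section
set_option autoImplicit false

namespace Pool.Agent.Helper1

open Finset Pool.Agent.Helper5

lemma uP_mul (P : Finset ℕ) {x y : ℤ} (hx : x ≠ 0) (hy : y ≠ 0) :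
    uP P (x * y) = uP P x * uP P y := by
  unfold uP
  rw [← Finset.prod_mul_distrib]
  apply Finset.prod_congr rfl
  intro p _
  rw [val_mul hx hy, pow_add]

lemma mP_mul {P : Finset ℕ} (hP : ∀ p ∈ P, p.Prime) {x y : ℤ} (hx : x ≠ 0) (hy : y ≠ 0) :
    mP P (x * y) = mP P x * mP P y := by
  have h1 := uP_mul_mP hP hx
  have h2 := uP_mul_mP hP hy
  have h3 := uP_mul_mP hP (mul_ne_zero hx hy)
  rw [uP_mul P hx hy] at h3
  have hpos : ((uP P x * uP P y : ℕ) : ℤ) ≠ 0 := by
    have := Nat.mul_pos (uP_pos hP x) (uP_pos hP y)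
    exact_mod_cast this.ne'
  apply mul_left_cancel₀ hpos
  rw [h3, Nat.cast_mul]
  calc x * y = ((uP P x : ℤ) * mP P x) * ((uP P y : ℤ) * mP P y) := by rw [h1, h2]
    _ = _ := by ring

lemma pI_primeFactors {A : Finset ℤ} (hA : (0 : ℤ) ∉ A) {s : ℕ}
    (hω : ∀ a ∈ A, a.natAbs.primeFactors.card ≤ s) (j : ℕ) :
    ∀ x ∈ pI A j, x.natAbs.primeFactors.card ≤ j * s := by
  classical
  induction j with
  | zero =>
    intro x hx
    simp only [pI, mem_singleton] at hx
    subst hx
    simp
  | succ j ih =>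
    intro x hx
    simp only [pI, mem_image₂] at hx
    obtain ⟨y, hy, a, ha, rfl⟩ := hx
    have hy0 : y ≠ 0 := fun h => pI_ne_zero hA j (h ▸ hy)
    have ha0 : a ≠ 0 := fun h => hA (h ▸ ha)
    rw [Int.natAbs_mul, Nat.primeFactors_mul (Int.natAbs_ne_zero.2 hy0) (Int.natAbs_ne_zero.2 ha0)]
    calc _ ≤ y.natAbs.primeFactors.card + a.natAbs.primeFactors.card := card_union_le _ _
      _ ≤ j * s + s := Nat.add_le_add (ih y hy) (hω a ha)
      _ = _ := by ring

lemma pI_nonempty {A : Finset ℤ} (hA : A.Nonempty) (j : ℕ) : (pI A j).Nonempty := by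
  induction j with
  | zero => simp [pI]
  | succ j ih => exact Finset.Nonempty.image₂ ih hA

lemma pI_card (A : Finset ℤ) (j : ℕ) : (pI A j).card ≤ A.card ^ j := by
  induction j with
  | zero => simp [pI]
  | succ j ih =>
    simp only [pI, pow_succ]
    exact (card_image₂_le _ _ _).trans (Nat.mul_le_mul_right _ ih)

/-- Iteration of `prodB`. -/
theorem prod_iter' {P : Finset ℕ} (hP : ∀ p ∈ P, p.Prime) {A : Finset ℤ} (hA : (0 : ℤ) ∉ A)
    (hAne : A.Nonempty) (κ R : ℝ) (hκ : 0 ≤ κ) (hR0 : 0 < R) (s k N : ℕ) (hAN : A.card ≤ N)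
    (hω : ∀ a ∈ A, a.natAbs.primeFactors.card ≤ s)
    (hκA : ∀ q : ℕ, q.Prime → q ∉ P →
      ((A.filter (fun a => (q:ℤ) ∣ a)).card : ℝ) ≤ κ * A.card)
    (hR : ∀ b, ((A.filter (fun a => mP P a = b)).card : ℝ) ≤ R) :
    (k : ℝ) * (Real.log A.card - Real.log 2 - Real.log R - k * s * Real.log 2
      - κ * k * Real.log N) ≤ Real.log (pI A k).card := by
  classical
  have hlogN : 0 ≤ Real.log N := Real.log_natCast_nonneg N
  have hAc : (0 : ℝ) < A.card := by exact_mod_cast Finset.card_pos.2 hAne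
  have hNc : (A.card : ℝ) ≤ N := by exact_mod_cast hAN
  set c := Real.log A.card - Real.log 2 - Real.log R - k * s * Real.log 2
      - κ * k * Real.log N with hc
  let D : ℕ → Finset ℤ := fun j => (pI A j).image (mP P)
  have hDne : ∀ j, (D j).Nonempty := fun j => (pI_nonempty hAne j).image _
  have hDcard : ∀ j, Real.log (D j).card ≤ j * Real.log N := by
    intro j
    have h1 : (D j).card ≤ N ^ j :=
      Finset.card_image_le.trans ((pI_card A j).trans (Nat.pow_le_pow_left hAN j))
    have h2 : (0 : ℝ) < (D j).card := by exact_mod_cast Finset.card_pos.2 (hDne j)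
    calc Real.log (D j).card ≤ Real.log ((N : ℝ) ^ j) :=
          Real.log_le_log h2 (by exact_mod_cast h1)
      _ = j * Real.log N := Real.log_pow _ _
  have hDsucc : ∀ j, image₂ (· * ·) (D j) (A.image (mP P)) = D (j + 1) := by
    intro j
    ext y
    simp only [D, mem_image₂, mem_image, pI]
    constructor
    · rintro ⟨_, ⟨x, hx, rfl⟩, _, ⟨a, ha, rfl⟩, rfl⟩
      refine ⟨x * a, ⟨x, hx, a, ha, rfl⟩, ?_⟩
      exact mP_mul hP (fun h => pI_ne_zero hA j (h ▸ hx)) (fun h => hA (h ▸ ha))
    · rintro ⟨_, ⟨x, hx, a, ha, rfl⟩, rfl⟩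
      refine ⟨mP P x, ⟨x, hx, rfl⟩, mP P a, ⟨a, ha, rfl⟩, ?_⟩
      exact (mP_mul hP (fun h => pI_ne_zero hA j (h ▸ hx)) (fun h => hA (h ▸ ha))).symm
  have hstep : ∀ j, j + 1 ≤ k → Real.log (D j).card + c ≤ Real.log (D (j + 1)).card := by
    intro j hj
    have hB := prodB hP κ R hκ hR0.le (k * s) A (D j) hAne (hDne j) hA (by
      intro d hd
      simp only [D, mem_image] at hd
      obtain ⟨x, hx, rfl⟩ := hd
      have hx0 : x ≠ 0 := fun h => pI_ne_zero hA j (h ▸ hx)
      refine ⟨mP_ne_zero hP hx0, fun p hp => ?_⟩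
      rw [val_mP hP hx0, if_pos hp]) hκA hR (by
      intro d hd a ha
      simp only [D, mem_image] at hd
      obtain ⟨x, hx, rfl⟩ := hd
      have hx0 : x ≠ 0 := fun h => pI_ne_zero hA j (h ▸ hx)
      have ha0 : a ≠ 0 := fun h => hA (h ▸ ha)
      rw [← mP_mul hP hx0 ha0]
      have hxa : x * a ∈ pI A (j + 1) := by
        simp only [pI]
        exact mem_image₂_of_mem hx ha
      have h1 := pI_primeFactors hA hω (j + 1) _ hxa
      have h2 : (mP P (x * a)).natAbs.primeFactors ⊆ (x * a).natAbs.primeFactors := by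
        apply Nat.primeFactors_mono
        · apply Int.natAbs_dvd_natAbs.2
          exact Dvd.intro_left _ (uP_mul_mP hP (mul_ne_zero hx0 ha0))
        · exact Int.natAbs_ne_zero.2 (mul_ne_zero hx0 ha0)
      exact (Finset.card_le_card h2).trans (h1.trans (Nat.mul_le_mul_right _ hj)))
    rw [hDsucc j] at hB
    have hD0 : (0 : ℝ) < (D j).card := by exact_mod_cast Finset.card_pos.2 (hDne j)
    have hD1 : (0 : ℝ) < (D (j + 1)).card := by exact_mod_cast Finset.card_pos.2 (hDne (j + 1))
    have hk0 : (0 : ℝ) < ((D j).card : ℝ) ^ κ := Real.rpow_pos_of_pos hD0 _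
    have hlog := Real.log_le_log (mul_pos hD0 hAc) hB
    rw [Real.log_mul hD0.ne' hAc.ne', Real.log_mul (by (clear * - hR0 hDne; positivity)) hD1.ne',
      Real.log_mul (by positivity) hk0.ne', Real.log_mul (by positivity) (by positivity),
      Real.log_mul (by norm_num) hR0.ne', Real.log_pow, Real.log_rpow hD0] at hlog
    have h3 : κ * Real.log (D j).card ≤ κ * k * Real.log N := by
      have h4 := hDcard j
      have h5 : (j : ℝ) ≤ k := by exact_mod_cast (Nat.le_of_succ_le hj)
      have h6 : (j : ℝ) * Real.log N ≤ k * Real.log N := mul_le_mul_of_nonneg_right h5 hlogN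
      rw [mul_assoc]
      exact mul_le_mul_of_nonneg_left (h4.trans h6) hκ
    push_cast at hlog
    rw [hc]
    linarith only [h3, hlog]
  have hiter : ∀ j, j ≤ k → (j : ℝ) * c ≤ Real.log (D j).card := by
    intro j
    induction j with
    | zero =>
      intro _
      have : 1 ≤ (D 0).card := Finset.card_pos.2 (hDne 0)
      have h1 : 0 ≤ Real.log (D 0).card := Real.log_natCast_nonneg _
      simpa using h1
    | succ j ih =>
      intro hj
      have h1 := ih (by omega)
      have h2 := hstep j hj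
      push_cast
      (clear * - h1 h2; linarith only [h1, h2])
  refine (hiter k le_rfl).trans ?_
  apply Real.log_le_log
  · exact_mod_cast Finset.card_pos.2 (hDne k)
  · exact_mod_cast Finset.card_image_le

end Pool.Agent.Helper1
end
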