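import Mathlib
import Pool.Agent.Helper24.FG.G01

/- Helper24.FF.H5.Numeric -/
section
set_option autoImplicit false

namespace Pool.Agent.Helper5

open Real

/-- choice of the parameters -/
theorem numeric (k : ℕ) (hk : 1 ≤ k) (ε : ℝ) (hε : 0 < ε) :
    ∃ c : ℝ, 0 < c ∧ ∃ n₀ : ℕ, 2 ≤ n₀ ∧ ∀ n : ℕ, n₀ ≤ n → ∀ s r : ℕ,
      (s : ℝ) * log (log n) ≤ c * log n → (r : ℝ) ≤ c * log n →
      ∃ K j₀ ℓ : ℕ, 2 ≤ K ∧ n ^ k < 2 ^ j₀ ∧ n ^ k < K ^ (ℓ + 1) ∧ 1 ≤ j₀ ∧
      (8 * (4 * (k:ℝ) * (s + 1)) ^ s * (2 * (s * (K * j₀) + (K * j₀) * (K * j₀))) ^ s *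
        2 ^ (3 * (k * (s + r))) * ((ℓ : ℝ) + 1) ^ s * 2 ^ ℓ) ≤ (n : ℝ) ^ (ε / k) := by
  have hk0 : (0 : ℝ) < k := by exact_mod_cast hk
  have hk1 : (1 : ℝ) ≤ k := by exact_mod_cast hk
  obtain ⟨C₀, hC₀⟩ := exists_nat_gt (4 * (k : ℝ) / ε)
  have hC₀pos : (0 : ℝ) < C₀ := lt_trans (by (clear * - hk hε; positivity)) hC₀
  have hC₀1 : 1 ≤ C₀ := by exact_mod_cast hC₀pos
  have hC₀1' : (1 : ℝ) ≤ C₀ := by exact_mod_cast hC₀1
  set c : ℝ := min (1 / 2) (ε / (2 * k * (10 + 6 * k + k * C₀))) with hc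
  have hcpos : 0 < c := by
    rw [hc]; apply lt_min (by norm_num); (clear * - hε hk hC₀1; positivity)
  have hc2 : c ≤ 1 / 2 := min_le_left _ _
  have hc3 : c * (10 + 6 * k + k * C₀) ≤ ε / (2 * k) := by
    have h1 : c ≤ ε / (2 * k * (10 + 6 * k + k * C₀)) := min_le_right _ _
    calc c * (10 + 6 * k + k * C₀)
        ≤ ε / (2 * k * (10 + 6 * k + k * C₀)) * (10 + 6 * k + k * C₀) :=
          mul_le_mul_of_nonneg_right h1 (by positivity)
      _ = ε / (2 * k) := by
          field_simp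
  clear_value c
  set x₀ : ℝ := 128 * k ^ 2 + k * C₀ + k * C₀ / c + 3 / c + 3 with hx₀
  obtain ⟨n₀, hn₀⟩ := exists_nat_gt (exp x₀)
  refine ⟨c, hcpos, max n₀ 2, le_max_right _ _, ?_⟩
  intro n hn s r hs hr
  have hnn : exp x₀ ≤ n := by
    have : (n₀ : ℝ) ≤ n := by exact_mod_cast (le_max_left _ _).trans hn
    linarith only [hn₀, this]
  have hnpos : (0 : ℝ) < n := lt_of_lt_of_le (exp_pos _) hnn
  set x := log n with hx
  have hxx : x₀ ≤ x := by rw [hx]; exact (le_log_iff_exp_le hnpos).mpr hnn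
  have hnx : (n : ℝ) = exp x := by rw [hx, exp_log hnpos]
  have e1 : 0 ≤ 128 * (k:ℝ) ^ 2 := by positivity
  have e2 : 0 ≤ k * (C₀:ℝ) := by positivity
  have e3 : 0 ≤ k * (C₀:ℝ) / c := by positivity
  have e4 : 0 ≤ 3 / c := by positivity
  have hx3 : 3 ≤ x := by linarith only [hxx, e1, e2, e3, e4]
  have hx128 : 128 * (k:ℝ) ^ 2 ≤ x := by linarith only [hxx, e2, e3, e4]
  have hxkC : k * (C₀:ℝ) ≤ x := by linarith only [hxx, e1, e3, e4]
  have hxkCc : k * (C₀:ℝ) ≤ c * x := by
    have : k * (C₀:ℝ) / c ≤ x := by linarith only [hxx, e1, e2, e4]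
    rw [div_le_iff₀ hcpos] at this
    linarith only [this]
  have hx3c : 3 ≤ c * x := by
    have : 3 / c ≤ x := by linarith only [hxx, e1, e2, e3]
    rw [div_le_iff₀ hcpos] at this
    linarith only [this]
  have hxpos : 0 < x := by linarith only [hx3]
  clear_value x₀
  set y := log x with hy
  have hxy : x = exp y := by rw [hy, exp_log hxpos]
  have hy1 : 1 ≤ y := by
    rw [hy, le_log_iff_exp_le hxpos]
    exact (exp_one_lt_d9.le.trans (by norm_num)).trans hx3
  have hs1 : (s : ℝ) ≤ c * x := by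
    calc (s : ℝ) = s * 1 := by ring
      _ ≤ s * y := mul_le_mul_of_nonneg_left hy1 (Nat.cast_nonneg _)
      _ ≤ c * x := hs
  have hsx : (s : ℝ) + 1 ≤ x := by
    have : c * x ≤ 1 / 2 * x := mul_le_mul_of_nonneg_right hc2 hxpos.le
    linarith only [hx3c, hs1, this]
  have hk4 : 4 * (k:ℝ) ≤ x := by
    have : (k:ℝ) * 1 ≤ k * k := mul_le_mul_of_nonneg_left hk1 hk0.le
    have h2 : (k:ℝ) ^ 2 = k * k := by ring
    rw [h2] at hx128
    linarith only [hx128, this]
  clear_value y
  set B : ℕ := C₀ * (s + 1) with hB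
  have hBpos : 0 < B := by rw [hB]; (clear * - hC₀1; positivity)
  have hBr : (B : ℝ) = C₀ * (s + 1) := by rw [hB]; push_cast; ring
  have hBpos' : (0 : ℝ) < B := by exact_mod_cast hBpos
  set K : ℕ := ⌊(exp (x / B))⌋₊ + 1 with hK
  have hKlow : exp (x / B) < K := by rw [hK]; push_cast; exact Nat.lt_floor_add_one _
  have hexp1 : 1 ≤ exp (x / B) := one_le_exp (by (clear * - hx3 hC₀1; positivity))
  have hKup : (K : ℝ) ≤ 2 * exp (x / B) := by
    rw [hK]; push_cast
    have := Nat.floor_le (exp_pos (x / B)).le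
    (clear * - hexp1 this; linarith only [hexp1, this])
  have hK2 : 2 ≤ K := by
    rw [hK]
    have : 1 ≤ ⌊(exp (x / B))⌋₊ := Nat.le_floor (by simpa using hexp1)
    omega
  set j₀ : ℕ := 2 * k * (⌊x⌋₊ + 1) with hj₀
  have hfl : x < (⌊x⌋₊ : ℝ) + 1 := Nat.lt_floor_add_one _
  have hfl2 : (⌊x⌋₊ : ℝ) ≤ x := Nat.floor_le hxpos.le
  have hj₀r : (j₀ : ℝ) = 2 * k * (⌊x⌋₊ + 1) := by rw [hj₀]; push_cast; ring
  have hj₀up : (j₀ : ℝ) ≤ 4 * k * x := by
    rw [hj₀r]
    have h1 : (⌊x⌋₊ : ℝ) + 1 ≤ 2 * x := by linarith only [hsx, hfl2]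
    have h2 := mul_le_mul_of_nonneg_left h1 (by positivity : (0:ℝ) ≤ 2 * k)
    linarith only [h2]
  have hj₀1 : 1 ≤ j₀ := by
    rw [hj₀]
    have : 0 < 2 * k * (⌊x⌋₊ + 1) := by (clear * - hk; positivity)
    omega
  set ℓ : ℕ := k * B - 1 with hℓ
  have hkB : 1 ≤ k * B := Nat.one_le_iff_ne_zero.mpr (by (clear * - hk hC₀1; positivity))
  have hℓ1 : ℓ + 1 = k * B := by omega
  clear_value ℓ j₀ K B
  refine ⟨K, j₀, ℓ, hK2, ?_, ?_, hj₀1, ?_⟩
  · -- n^k < 2^j₀
    have : ((n ^ k : ℕ) : ℝ) < ((2 ^ j₀ : ℕ) : ℝ) := by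
      push_cast
      rw [hnx, ← exp_nat_mul]
      have h2 : (2 : ℝ) ^ j₀ = exp (j₀ * log 2) := by
        rw [mul_comm, ← rpow_def_of_pos (by norm_num : (0:ℝ) < 2), rpow_natCast]
      rw [h2, exp_lt_exp, hj₀r]
      have hl2 : (1 : ℝ) / 2 ≤ log 2 := by
        have := log_two_gt_d9; (clear * - this; linarith only [this])
      have h3 : k * x < k * ((⌊x⌋₊ : ℝ) + 1) := mul_lt_mul_of_pos_left hfl hk0
      have h4 : 0 ≤ 2 * k * ((⌊x⌋₊ : ℝ) + 1) := by (clear * - hk; positivity)
      calc k * x < k * ((⌊x⌋₊ : ℝ) + 1) := h3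
        _ = 2 * k * ((⌊x⌋₊ : ℝ) + 1) * (1 / 2) := by ring
        _ ≤ 2 * k * ((⌊x⌋₊ : ℝ) + 1) * log 2 := mul_le_mul_of_nonneg_left hl2 h4
    exact_mod_cast this
  · -- n^k < K^(ℓ+1)
    have h1 : (n : ℝ) < ((K ^ B : ℕ) : ℝ) := by
      push_cast
      calc (n : ℝ) = exp (x / B) ^ B := by
            rw [← exp_nat_mul, hnx]; congr 1; (clear * - hBpos hx3; field_simp)
        _ < (K : ℝ) ^ B := pow_lt_pow_left₀ hKlow (exp_pos _).le hBpos.ne'
    have h2 : n < K ^ B := by exact_mod_cast h1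
    calc n ^ k < (K ^ B) ^ k := Nat.pow_lt_pow_left h2 (by omega)
      _ = K ^ (ℓ + 1) := by
          rw [hℓ1, mul_comm k B]
          exact (pow_mul K B k).symm
  · -- the main bound
    have hs0 : (0:ℝ) ≤ s := Nat.cast_nonneg _
    have hr0 : (0:ℝ) ≤ r := Nat.cast_nonneg _
    have powexp : ∀ (t a : ℝ) (m : ℕ), 0 ≤ t → t ≤ exp a → t ^ m ≤ exp (m * a) := by
      intro t a m ht hta
      rw [exp_nat_mul]
      exact pow_le_pow_left₀ ht hta m
    have h2e : (2 : ℝ) ≤ exp 1 := by
      have := exp_one_gt_d9; (clear * - this; linarith only [this])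
    -- factor 1
    have f1 : (8 : ℝ) ≤ exp (c * x) := by
      calc (8 : ℝ) = 2 ^ 3 := by norm_num
        _ ≤ exp (3 * 1) := by
            have := powexp 2 1 3 (by norm_num) h2e
            simpa using this
        _ ≤ exp (c * x) := exp_le_exp.mpr (by linarith only [hx3c])
    -- factor 2
    have hxsq : x ^ 2 = exp (2 * y) := by
      have h : x ^ 2 = exp y ^ 2 := by rw [← hxy]
      rw [h, ← exp_nat_mul]; norm_num
    have f2 : (4 * (k:ℝ) * (s + 1)) ^ s ≤ exp (2 * c * x) := by
      have h1 : 4 * (k:ℝ) * (s + 1) ≤ exp (2 * y) := by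
        rw [← hxsq, sq]
        exact mul_le_mul hk4 hsx (by (clear * -; positivity)) hxpos.le
      refine (powexp _ _ s (by (clear * - hk; positivity)) h1).trans (exp_le_exp.mpr ?_)
      linarith only [hs]
    -- factor 3
    have f3 : (2 * ((s:ℝ) * (K * j₀) + (K * j₀) * (K * j₀))) ^ s ≤ exp (4 * c * x + 2 * x / C₀) := by
      have hKj1 : (1:ℝ) ≤ K * j₀ := by
        have h1 : (1:ℝ) ≤ K := by exact_mod_cast (by omega : 1 ≤ K)
        have h2 : (1:ℝ) ≤ j₀ := by exact_mod_cast hj₀1
        exact one_le_mul_of_one_le_of_one_le h1 h2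
      have h1 : 2 * ((s:ℝ) * (K * j₀) + (K * j₀) * (K * j₀)) ≤ 2 * (s + 1) * (K * j₀) ^ 2 := by
        generalize (K:ℝ) * j₀ = t at hKj1 ⊢
        have h2 : t ≤ t ^ 2 := by
          have := mul_le_mul_of_nonneg_left hKj1 (by linarith only [hKj1] : (0:ℝ) ≤ t)
          calc t = t * 1 := by ring
            _ ≤ t * t := this
            _ = t ^ 2 := by ring
        have h3 := mul_le_mul_of_nonneg_left h2 hs0
        calc 2 * ((s:ℝ) * t + t * t) = 2 * (s * t) + 2 * t ^ 2 := by ring
          _ ≤ 2 * (s * t ^ 2) + 2 * t ^ 2 := by linarith only [h3]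
          _ = 2 * (s + 1) * t ^ 2 := by ring
      have h2 : (K:ℝ) * j₀ ≤ (2 * exp (x / B)) * (4 * k * x) := by
        apply mul_le_mul hKup hj₀up (Nat.cast_nonneg _) (by positivity)
      have h3 : ((K:ℝ) * j₀) ^ 2 ≤ ((2 * exp (x / B)) * (4 * k * x)) ^ 2 :=
        pow_le_pow_left₀ (by (clear * - hK2 hj₀1; positivity)) h2 2
      have h4 : 2 * ((s:ℝ) * (K * j₀) + (K * j₀) * (K * j₀)) ≤ exp (4 * y + 2 * (x / B)) := by
        calc 2 * ((s:ℝ) * (K * j₀) + (K * j₀) * (K * j₀))
            ≤ 2 * (s + 1) * (K * j₀) ^ 2 := h1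
          _ ≤ 2 * x * ((2 * exp (x / B)) * (4 * k * x)) ^ 2 := by
              apply mul_le_mul _ h3 (by (clear * - hK2 hj₀1; positivity)) (by positivity)
              linarith only [hsx]
          _ = (128 * k ^ 2) * x ^ 3 * exp (x / B) ^ 2 := by ring
          _ ≤ x * x ^ 3 * exp (x / B) ^ 2 := by
              apply mul_le_mul_of_nonneg_right _ (by positivity)
              apply mul_le_mul_of_nonneg_right hx128 (by positivity)
          _ = exp (4 * y + 2 * (x / B)) := by
              rw [exp_add]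
              congr 1
              · have : x * x ^ 3 = x ^ 4 := by ring
                rw [this]
                have h5 : x ^ 4 = exp y ^ 4 := by rw [← hxy]
                rw [h5, ← exp_nat_mul]; norm_num
              · rw [← exp_nat_mul]; norm_num
      refine (powexp _ _ s (by (clear * - hK2 hj₀1; positivity)) h4).trans (exp_le_exp.mpr ?_)
      have h5 : (s:ℝ) * (x / B) ≤ x / C₀ := by
        rw [hBr]
        rw [mul_div_assoc', div_le_div_iff₀ (by (clear * - hC₀1; positivity)) hC₀pos]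
        have := mul_pos hxpos hC₀pos
        linarith only [this]
      have h6 : (s:ℝ) * (4 * y + 2 * (x / B)) = 4 * (s * y) + 2 * (s * (x / B)) := by ring
      rw [h6]
      have h7 : 2 * x / C₀ = 2 * (x / C₀) := by ring
      rw [h7]
      linarith only [hs, h5]
    -- factor 4
    have f4 : (2:ℝ) ^ (3 * (k * (s + r))) ≤ exp (6 * k * c * x) := by
      refine (powexp 2 1 _ (by norm_num) h2e).trans (exp_le_exp.mpr ?_)
      push_cast
      have : (s:ℝ) + r ≤ 2 * (c * x) := by linarith only [hr, hs1]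
      have h8 := mul_le_mul_of_nonneg_left this (by positivity : (0:ℝ) ≤ 3 * k)
      linarith only [h8]
    -- factor 5
    have hℓr : (ℓ : ℝ) + 1 = k * (C₀ * (s + 1)) := by
      have : ((ℓ + 1 : ℕ) : ℝ) = ((k * B : ℕ) : ℝ) := by rw [hℓ1]
      push_cast at this
      rw [this, hBr]
    have f5 : ((ℓ : ℝ) + 1) ^ s ≤ exp (2 * c * x) := by
      have h1 : (ℓ : ℝ) + 1 ≤ exp (2 * y) := by
        rw [← hxsq, hℓr, sq, ← mul_assoc]
        exact mul_le_mul hxkC hsx (by (clear * -; positivity)) hxpos.le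
      refine (powexp _ _ s (by (clear * -; positivity)) h1).trans (exp_le_exp.mpr ?_)
      linarith only [hs]
    -- factor 6
    have f6 : (2 : ℝ) ^ ℓ ≤ exp (k * C₀ * c * x + c * x) := by
      refine (powexp 2 1 ℓ (by norm_num) h2e).trans (exp_le_exp.mpr ?_)
      have h1 : (ℓ : ℝ) ≤ k * (C₀ * (s + 1)) := by linarith only [hℓr]
      have h2 : k * (C₀:ℝ) * s ≤ k * C₀ * (c * x) := mul_le_mul_of_nonneg_left hs1 (by positivity)
      linarith only [hxkCc, h1, h2]
    -- combine
    have hfin : exp (c * x) * exp (2 * c * x) * exp (4 * c * x + 2 * x / C₀) *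
        exp (6 * k * c * x) * exp (2 * c * x) * exp (k * C₀ * c * x + c * x) ≤
        (n:ℝ) ^ (ε / k) := by
      rw [← exp_add, ← exp_add, ← exp_add, ← exp_add, ← exp_add, rpow_def_of_pos hnpos, ← hx]
      apply exp_le_exp.mpr
      have h1 : 2 * x / C₀ ≤ ε / (2 * k) * x := by
        rw [div_le_iff₀ hC₀pos]
        have h2 : 4 * (k:ℝ) < ε * C₀ := by
          rw [div_lt_iff₀ hε] at hC₀; linarith only [hC₀]
        have h3 : 2 ≤ ε / (2 * k) * C₀ := by
          rw [div_mul_eq_mul_div, le_div_iff₀ (by positivity)]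
          linarith only [h2]
        calc 2 * x ≤ (ε / (2 * k) * C₀) * x := mul_le_mul_of_nonneg_right h3 hxpos.le
          _ = ε / (2 * k) * x * C₀ := by ring
      have h2 : c * (10 + 6 * k + k * C₀) * x ≤ ε / (2 * k) * x :=
        mul_le_mul_of_nonneg_right hc3 hxpos.le
      have h3 : ε / (2 * k) * x + ε / (2 * k) * x = x * (ε / k) := by
        field_simp; ring
      linarith only [h1, h2, h3]
    refine le_trans ?_ hfin
    have g2 := mul_le_mul f1 f2 (by (clear * - hk; positivity)) (exp_pos _).le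
    have g3 := mul_le_mul g2 f3 (by (clear * - hK2 hj₀1; positivity)) (by positivity)
    have g4 := mul_le_mul g3 f4 (by positivity) (by positivity)
    have g5 := mul_le_mul g4 f5 (by (clear * -; positivity)) (by positivity)
    exact mul_le_mul g5 f6 (by positivity) (by positivity)

end Pool.Agent.Helper5
end

/- Helper24.FF.H5.FewPrimes -/
section
set_option autoImplicit false

namespace Pool.Agent.Helper5

open Finset

/-- the `k`-fold sumset -/
abbrev kS (k : ℕ) (A : Finset ℤ) : Finset ℤ :=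
  (Fintype.piFinset (fun _ : Fin k => A)).image (fun f : Fin k → ℤ => ∑ i, f i)

/-- the `k`-fold product set -/
abbrev kP (k : ℕ) (A : Finset ℤ) : Finset ℤ :=
  (Fintype.piFinset (fun _ : Fin k => A)).image (fun f : Fin k → ℤ => ∏ i, f i)

lemma kS_nonempty (k : ℕ) {A : Finset ℤ} (hA : A.Nonempty) : (kS k A).Nonempty := by
  obtain ⟨a, ha⟩ := hA
  exact ⟨_, mem_image_of_mem _ (Fintype.mem_piFinset.mpr (fun _ => ha) :
    (fun _ : Fin k => a) ∈ Fintype.piFinset (fun _ : Fin k => A))⟩

lemma kS_mono (k : ℕ) {A B : Finset ℤ} (h : B ⊆ A) : kS k B ⊆ kS k A := by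
  apply image_subset_image
  exact Fintype.piFinset_subset _ _ (fun _ => h)

lemma kP_mono (k : ℕ) {A B : Finset ℤ} (h : B ⊆ A) : kP k B ⊆ kP k A := by
  apply image_subset_image
  exact Fintype.piFinset_subset _ _ (fun _ => h)

/-- `a` is the product of an integer with few distinct prime factors and an integer with few prime
factors counted with multiplicity. -/
def fewP (c n : ℝ) (a : ℤ) : Prop :=
  ∃ z w : ℤ, a = z * w ∧
    (z.natAbs.primeFactors.card : ℝ) * Real.log (Real.log n) ≤ c * Real.log n ∧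
    (w.natAbs.primeFactorsList.length : ℝ) ≤ c * Real.log n

lemma sum_val_le_length {w : ℤ} (T : Finset ℕ) :
    ∑ p ∈ T, val p w ≤ w.natAbs.primeFactorsList.length := by
  classical
  have h1 : w.natAbs.primeFactorsList.length = ∑ p ∈ w.natAbs.primeFactors, val p w := by
    have := ArithmeticFunction.cardFactors_eq_sum_factorization (n := w.natAbs)
    rw [ArithmeticFunction.cardFactors_apply] at this
    rw [this, Finsupp.sum, Nat.support_factorization]
    rfl
  rw [h1]
  calc ∑ p ∈ T, val p w = ∑ p ∈ T ∩ w.natAbs.primeFactors, val p w := by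
        symm
        apply sum_subset inter_subset_left
        intro p hp hp'
        apply val_eq_zero_of_not_dvd
        intro h; exact hp' (mem_inter.mpr ⟨hp, h⟩)
    _ ≤ _ := sum_le_sum_of_subset inter_subset_right

theorem core (k : ℕ) (hk : 1 ≤ k) (ε : ℝ) (hε : 0 < ε) :
    ∃ c : ℝ, 0 < c ∧ ∀ A : Finset ℤ, A.Nonempty →
      (∀ a ∈ A, a ≠ 0 → fewP c A.card a) →
      c * (A.card : ℝ) ^ ((k : ℝ) - ε) ≤ max ((kS k A).card : ℝ) ((kP k A).card : ℝ) := by
  classical
  obtain ⟨c₁, hc₁, n₀, hn₀2, hnum⟩ := numeric k hk ε hε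
  have hn₀pos : (0 : ℝ) < n₀ := by exact_mod_cast (by omega : 0 < n₀)
  refine ⟨min c₁ (min (1 / 2 ^ k) (1 / (n₀ : ℝ) ^ k)), by (clear * - hc₁ hn₀2; positivity), ?_⟩
  intro A hAne hfew
  set c := min c₁ (min (1 / 2 ^ k) (1 / (n₀ : ℝ) ^ k)) with hc
  have hcc₁ : c ≤ c₁ := min_le_left _ _
  have hc2 : c ≤ 1 / 2 ^ k := (min_le_right _ _).trans (min_le_left _ _)
  have hc3 : c ≤ 1 / (n₀ : ℝ) ^ k := (min_le_right _ _).trans (min_le_right _ _)
  have hcpos : 0 < c := by rw [hc]; positivity
  clear_value c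
  set n := A.card with hn
  have hn1 : 1 ≤ n := card_pos.mpr hAne
  have hn1' : (1 : ℝ) ≤ n := by exact_mod_cast hn1
  have hnpos : (0 : ℝ) < n := by linarith only [hn1']
  have hmax1 : (1 : ℝ) ≤ max ((kS k A).card : ℝ) ((kP k A).card : ℝ) := by
    apply le_max_of_le_left
    exact_mod_cast card_pos.mpr (kS_nonempty k hAne)
  rcases lt_or_ge n n₀ with hlt | hge
  · -- small sets
    have h1 : (n : ℝ) ^ ((k : ℝ) - ε) ≤ (n₀ : ℝ) ^ k := by
      calc (n : ℝ) ^ ((k : ℝ) - ε) ≤ (n : ℝ) ^ (k : ℝ) :=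
            Real.rpow_le_rpow_of_exponent_le hn1' (by linarith only [hε])
        _ = (n : ℝ) ^ k := Real.rpow_natCast _ _
        _ ≤ (n₀ : ℝ) ^ k := by
            apply pow_le_pow_left₀ hnpos.le
            exact_mod_cast hlt.le
    calc c * (n : ℝ) ^ ((k : ℝ) - ε) ≤ (1 / (n₀ : ℝ) ^ k) * (n₀ : ℝ) ^ k :=
          mul_le_mul hc3 h1 (by (clear * - hAne hc hcc₁ hc2 hc3 hcpos hfew; positivity)) (by positivity)
      _ = 1 := by field_simp
      _ ≤ _ := hmax1
  · -- large sets
    set A' := A.erase 0 with hA'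
    have hA'0 : (0 : ℤ) ∉ A' := notMem_erase 0 A
    have hA'A : A' ⊆ A := erase_subset _ _
    have hA'card : n ≤ A'.card + 1 := by
      have h : A.card - 1 ≤ A'.card := pred_card_le_card_erase
      omega
    have hA'card2 : n ≤ 2 * A'.card := by omega
    have hA'ne : A'.Nonempty := by rw [← card_pos]; omega
    have hex : ∀ a ∈ A', fewP c n a := fun a ha => hfew a (hA'A ha) (ne_of_mem_erase ha)
    unfold fewP at hex
    choose! z w hzw hz hw using hex
    let Z : ℤ → Finset ℕ := fun a => (z a).natAbs.primeFactors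
    let s := A'.sup (fun a => (Z a).card)
    let r := A'.sup (fun a => (w a).natAbs.primeFactorsList.length)
    have hlogn : 0 ≤ Real.log n := Real.log_nonneg hn1'
    have hs : (s : ℝ) * Real.log (Real.log n) ≤ c₁ * Real.log n := by
      obtain ⟨a, ha, hs'⟩ := exists_mem_eq_sup A' hA'ne (fun a => (Z a).card)
      have h1 := hz a ha
      have h2 : s = (z a).natAbs.primeFactors.card := hs'
      rw [h2]
      exact h1.trans (mul_le_mul_of_nonneg_right hcc₁ hlogn)
    have hr : (r : ℝ) ≤ c₁ * Real.log n := by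
      obtain ⟨a, ha, hr'⟩ := exists_mem_eq_sup A' hA'ne
        (fun a => (w a).natAbs.primeFactorsList.length)
      have h1 := hw a ha
      have h2 : r = (w a).natAbs.primeFactorsList.length := hr'
      rw [h2]
      exact h1.trans (mul_le_mul_of_nonneg_right hcc₁ hlogn)
    obtain ⟨K, j₀, ℓ, hK2, hj, hℓ, hj₀1, hbound⟩ := hnum n hge s r hs hr
    set Q := 2 * (s * (K * j₀) + (K * j₀) * (K * j₀)) with hQ
    have hQ1 : 1 ≤ Q := by
      have h1 : 0 < K * j₀ := Nat.mul_pos (by omega) (by omega)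
      have h2 : 0 < (K * j₀) * (K * j₀) := Nat.mul_pos h1 h1
      omega
    have hst : ∀ a ∈ A', st Z s r a := by
      intro a ha
      refine ⟨Finset.le_sup (f := fun a => (Z a).card) ha, ?_⟩
      have ha0 : a ≠ 0 := ne_of_mem_erase ha
      have hz0 : z a ≠ 0 := fun h => ha0 (by rw [hzw a ha, h, zero_mul])
      have hw0 : w a ≠ 0 := fun h => ha0 (by rw [hzw a ha, h, mul_zero])
      have h1 : ∑ p ∈ a.natAbs.primeFactors \ Z a, val p a =
          ∑ p ∈ a.natAbs.primeFactors \ Z a, val p (w a) := by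
        apply sum_congr rfl
        intro p hp
        rw [mem_sdiff] at hp
        have h2 : val p a = val p (z a) + val p (w a) := by
          conv_lhs => rw [hzw a ha]
          exact val_mul hz0 hw0
        have h3 : val p (z a) = 0 := val_eq_zero_of_not_dvd hp.2
        omega
      rw [h1]
      exact (sum_val_le_length _).trans
        (Finset.le_sup (f := fun a => (w a).natAbs.primeFactorsList.length) ha)
    have hdich := dichotomy (k := k) (s := s) (r := r) (K := K) (j₀ := j₀) (ℓ := ℓ)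
      (H := 4 * k * (s + 1)) (F := Q ^ s) (Q := Q) (N := n) hk hK2 (A := A') hA'0
      (card_le_card hA'A) hn1 Z
      (fun a _ p hp => (Nat.mem_primeFactors.mp hp).1) hst hj hℓ
      (by linarith only []) (by
        have : 0 < 4 * k * (s + 1) := by (clear * - hk; positivity)
        omega) (le_of_eq hQ.symm) (le_refl _) hQ1
    set X : ℕ := 8 * (4 * k * (s + 1)) ^ s * Q ^ s * 2 ^ (3 * (k * (s + r))) * (ℓ + 1) ^ s * 2 ^ ℓ
      with hX
    have hXbound : (X : ℝ) ≤ (n : ℝ) ^ (ε / k) := by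
      refine le_trans (le_of_eq ?_) hbound
      rw [hX, hQ]
      push_cast
      ring
    have hkS : (sI A' k).card ≤ (kS k A).card := card_le_card (sI_subset hA'A k)
    have hkP : (pI A' k).card ≤ (kP k A).card := card_le_card (pI_subset hA'A k)
    set m := max (kS k A).card (kP k A).card with hm
    have hpos1 : 1 ≤ (ℓ + 1) ^ s * 2 ^ ℓ := Nat.one_le_iff_ne_zero.mpr (by (clear * -; positivity))
    have hpos2 : 1 ≤ 2 ^ (3 * (k * (s + r))) := Nat.one_le_two_pow
    have hmain : A'.card ^ k ≤ X ^ k * m := by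
      rcases hdich with h | h
      · refine h.trans (Nat.mul_le_mul (Nat.pow_le_pow_left ?_ k) (hkP.trans (le_max_right _ _)))
        have e : 2 * (4 * k * (s + 1)) ^ s * (2 * (2 * (2 ^ (k * (s + r)) *
            2 ^ (2 * (k * (s + r)))) * Q ^ s)) =
            8 * (4 * k * (s + 1)) ^ s * Q ^ s * 2 ^ (3 * (k * (s + r))) * 1 := by
          have : 2 ^ (3 * (k * (s + r))) = 2 ^ (k * (s + r)) * 2 ^ (2 * (k * (s + r))) := by
            rw [← pow_add]; congr 1; ring
          rw [this]; ring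
        rw [e, hX, mul_assoc (8 * (4 * k * (s + 1)) ^ s * Q ^ s * 2 ^ (3 * (k * (s + r))))]
        exact Nat.mul_le_mul_left _ hpos1
      · refine h.trans (Nat.mul_le_mul (Nat.pow_le_pow_left ?_ k) (hkS.trans (le_max_left _ _)))
        have e : 2 * (4 * k * (s + 1)) ^ s * Q ^ s * (2 * ((ℓ + 1) ^ s * 2 ^ ℓ)) =
            (4 * (4 * k * (s + 1)) ^ s * Q ^ s * (ℓ + 1) ^ s * 2 ^ ℓ) * 1 := by ring
        rw [e]
        calc (4 * (4 * k * (s + 1)) ^ s * Q ^ s * (ℓ + 1) ^ s * 2 ^ ℓ) * 1
            ≤ (4 * (4 * k * (s + 1)) ^ s * Q ^ s * (ℓ + 1) ^ s * 2 ^ ℓ) *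
                (2 * 2 ^ (3 * (k * (s + r)))) := Nat.mul_le_mul_left _ (by omega)
          _ = X := by rw [hX]; ring
    have hmainR : ((n : ℝ) / 2) ^ k ≤ (n : ℝ) ^ ε * m := by
      have h1 : ((A'.card : ℝ)) ^ k ≤ (X : ℝ) ^ k * m := by exact_mod_cast hmain
      have h2 : (n : ℝ) / 2 ≤ A'.card := by
        have : (n : ℝ) ≤ 2 * A'.card := by exact_mod_cast hA'card2
        linarith only [this]
      have h3 : (X : ℝ) ^ k ≤ (n : ℝ) ^ ε := by
        calc (X : ℝ) ^ k ≤ ((n : ℝ) ^ (ε / k)) ^ k :=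
              pow_le_pow_left₀ (Nat.cast_nonneg _) hXbound k
          _ = (n : ℝ) ^ ε := by
              rw [← Real.rpow_natCast, ← Real.rpow_mul hnpos.le]
              congr 1
              have : (k : ℝ) ≠ 0 := by positivity
              field_simp
      calc ((n : ℝ) / 2) ^ k ≤ ((A'.card : ℝ)) ^ k := pow_le_pow_left₀ (by (clear * - hAne hc hcc₁ hc2 hc3 hcpos hfew hz hw; positivity)) h2 k
        _ ≤ (X : ℝ) ^ k * m := h1
        _ ≤ (n : ℝ) ^ ε * m := mul_le_mul_of_nonneg_right h3 (Nat.cast_nonneg _)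
    have hmR : (m : ℝ) = max ((kS k A).card : ℝ) ((kP k A).card : ℝ) := by
      rw [hm]; push_cast; rfl
    rw [← hmR]
    have h4 : (n : ℝ) ^ ((k : ℝ) - ε) = (n : ℝ) ^ k / (n : ℝ) ^ ε := by
      rw [Real.rpow_sub hnpos, Real.rpow_natCast]
    rw [h4]
    have hnε : 0 < (n : ℝ) ^ ε := Real.rpow_pos_of_pos hnpos _
    have h5 : (n : ℝ) ^ k ≤ 2 ^ k * ((n : ℝ) ^ ε * m) := by
      rw [div_pow, div_le_iff₀ (by positivity)] at hmainR
      linarith only [hmainR]
    calc c * ((n : ℝ) ^ k / (n : ℝ) ^ ε) ≤ (1 / 2 ^ k) * ((n : ℝ) ^ k / (n : ℝ) ^ ε) :=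
          mul_le_mul_of_nonneg_right hc2 (by (clear * - hAne hc hcc₁ hc2 hc3 hcpos hfew hz hw; positivity))
      _ ≤ (1 / 2 ^ k) * (2 ^ k * ((n : ℝ) ^ ε * m) / (n : ℝ) ^ ε) := by
          apply mul_le_mul_of_nonneg_left _ (by positivity)
          exact div_le_div_of_nonneg_right h5 hnε.le
      _ = m := by (clear * - hn1; field_simp)

end Pool.Agent.Helper5
end

/- Helper24.FF.H2.EFinal -/
section
set_option autoImplicit false

/-!
Assembly of the theorem for sets of integers with few distinct prime factors.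
-/

open Finset

namespace Pool.Agent.Helper2.E

open Pool.Agent.Helper5 (uP mP sI pI kS kP kernel sI_subset pI_subset kS_nonempty)

theorem mul_exp_neg_le {x t : ℝ} (ht : 0 < t) : x * Real.exp (-(t * x)) ≤ 1 / t := by
  have h1 : t * x ≤ Real.exp (t * x) := by
    have := Real.add_one_le_exp (t * x)
    linarith only [this]
  rw [Real.exp_neg, ← div_eq_mul_inv, div_le_div_iff₀ (Real.exp_pos _) ht]
  linarith

theorem coreE (k : ℕ) (hk : 1 ≤ k) (ε : ℝ) (hε : 0 < ε) :
    ∃ c : ℝ, 0 < c ∧ ∀ A : Finset ℤ, A.Nonempty →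
      (∀ a ∈ A, a ≠ 0 → (a.natAbs.primeFactors.card : ℝ) ≤ c * Real.log A.card) →
      c * (A.card : ℝ) ^ ((k : ℝ) - ε) ≤ max ((kS k A).card : ℝ) ((kP k A).card : ℝ) := by
  classical
  have hk0 : (0:ℝ) < k := by exact_mod_cast hk
  have hk1 : (1:ℝ) ≤ k := by exact_mod_cast hk
  -- parameters
  set ε₁ : ℝ := ε / (4 * k) with hε₁
  have hε₁0 : 0 < ε₁ := by (clear * - hε hk; positivity)
  set θ : ℝ := min (1 / 2) (ε / (8 * k * (k + 1))) with hθdef
  have hθ0 : 0 < θ := by
    rw [hθdef]; apply lt_min (by norm_num) (by (clear * - hε hk; positivity))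
  have hθ1 : θ ≤ 1 / 2 := min_le_left _ _
  have hθ2 : θ ≤ ε / (8 * k * (k + 1)) := min_le_right _ _
  set lam : ℝ := ε₁ / (4 * (k + 1)) with hlam
  have hlam0 : 0 < lam := by positivity
  set H : ℕ := ⌈8 * (k:ℝ) ^ 2 / ε⌉₊ + 2 with hH
  have hH2 : (2:ℝ) ≤ H := by
    rw [hH]; push_cast
    have : (0:ℝ) ≤ (⌈8 * (k:ℝ) ^ 2 / ε⌉₊ : ℝ) := Nat.cast_nonneg _
    linarith only []
  have hHge : 8 * (k:ℝ) ^ 2 / ε ≤ H := by
    rw [hH]; push_cast
    have := Nat.le_ceil (8 * (k:ℝ) ^ 2 / ε)
    linarith only [this]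
  have hHpos : (0:ℝ) < H := by linarith only [hH2]
  have hlogH : 0 ≤ Real.log H := Real.log_nonneg (by linarith only [hH2])
  obtain ⟨b, C, hb, hC, hsum⟩ := sum_iter hθ0 hθ1 hlam0
  have hlogC : 0 ≤ Real.log C := Real.log_nonneg hC
  have hlogθ : 0 ≤ Real.log (1 / θ) := by
    apply Real.log_nonneg
    rw [le_div_iff₀ hθ0]; linarith only [hθ1]
  set Y : ℝ := Real.log H + k + Real.log (1 / θ) + 2 + b + Real.log C + 1 with hY
  have hY1 : 1 ≤ Y := by rw [hY]; linarith only [hlogH, hb, hlogC, hlogθ]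
  have hYpos : 0 < Y := by linarith only [hY1]
  set c₁ : ℝ := ε / (16 * k * Y) with hc₁
  have hc₁0 : 0 < c₁ := by (clear * - hε hk hlogθ hb hlogC; positivity)
  have hkc : k * c₁ * Y = ε / 16 := by rw [hc₁]; field_simp
  have hlog2 : Real.log 2 ≤ 1 := by
    have := Real.log_le_sub_one_of_pos (show (0:ℝ) < 2 by norm_num)
    linarith only [this]
  have hlog2' : 0 < Real.log 2 := Real.log_pos (by norm_num)
  have hb1 : k * c₁ * Real.log H ≤ ε / 16 := by
    rw [← hkc]; apply mul_le_mul_of_nonneg_left _ (by (clear * - hk hε hlogθ hb hlogC; positivity)); rw [hY]; linarith only [hb, hlogC, hlogθ]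
  have hb2 : k * c₁ * (k * Real.log 2) ≤ ε / 16 := by
    rw [← hkc]; apply mul_le_mul_of_nonneg_left _ (by (clear * - hk hε hlogθ hb hlogC; positivity))
    have : (k:ℝ) * Real.log 2 ≤ k * 1 := by (clear * - hlog2 hk; gcongr)
    rw [hY]; linarith only [hlogH, hb, hlogC, hlogθ, this]
  have hb3 : k * c₁ * (Real.log (1 / θ) + 2 + b) ≤ ε / 16 := by
    rw [← hkc]; apply mul_le_mul_of_nonneg_left _ (by (clear * - hk hε hlogθ hb hlogC; positivity)); rw [hY]; linarith only [hlogH, hlogC]
  have hb4 : c₁ * Real.log C ≤ ε₁ / 4 := by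
    have h1 : k * c₁ * Real.log C ≤ ε / 16 := by
      rw [← hkc]; apply mul_le_mul_of_nonneg_left _ (by (clear * - hk hε hlogθ hb hlogC; positivity)); rw [hY]; linarith only [hlogH, hb, hlogθ]
    have h2 : k * (ε₁ / 4) = ε / 16 := by rw [hε₁]; field_simp; norm_num
    have h3 : k * (c₁ * Real.log C) ≤ k * (ε₁ / 4) := by rw [h2]; linarith only [h1]
    exact le_of_mul_le_mul_left h3 hk0
  set K₁ : ℝ := k * (3 * Real.log 2 + k * (2 / ε₁)) with hK₁
  have hK₁0 : 0 ≤ K₁ := by positivity
  refine ⟨min c₁ (Real.exp (-K₁)), lt_min hc₁0 (Real.exp_pos _), ?_⟩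
  intro A hAne hfew
  set c := min c₁ (Real.exp (-K₁)) with hc
  have hcc₁ : c ≤ c₁ := min_le_left _ _
  have hcK : c ≤ Real.exp (-K₁) := min_le_right _ _
  have hcpos : 0 < c := lt_min hc₁0 (Real.exp_pos _)
  clear_value c
  set n := A.card with hn
  have hn1 : 1 ≤ n := card_pos.mpr hAne
  have hn1' : (1 : ℝ) ≤ n := by exact_mod_cast hn1
  have hnpos : (0 : ℝ) < n := by (clear * - hn1'; linarith only [hn1'])
  have hmax1 : (1 : ℝ) ≤ max ((kS k A).card : ℝ) ((kP k A).card : ℝ) := by
    apply le_max_of_le_left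
    exact_mod_cast card_pos.mpr (kS_nonempty k hAne)
  rcases Nat.lt_or_ge n 2 with hlt | hge
  · have hn1'' : n = 1 := by (clear * - k ε hn1 hlt; omega)
    rw [hn1'']
    have : c ≤ 1 := hcK.trans (Real.exp_le_one_iff.2 (by linarith only [hK₁0]))
    simp only [Nat.cast_one, Real.one_rpow, mul_one]
    linarith only [hmax1, this]
  · set L := Real.log n with hL
    have hL0 : 0 ≤ L := Real.log_nonneg hn1'
    set A' := A.erase 0 with hA'
    have hA'0 : (0 : ℤ) ∉ A' := notMem_erase 0 A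
    have hA'A : A' ⊆ A := erase_subset _ _
    have hA'card : n ≤ A'.card + 1 := by
      have h : A.card - 1 ≤ A'.card := pred_card_le_card_erase
      omega
    have hA'card2 : n ≤ 2 * A'.card := by omega
    have hA'ne : A'.Nonempty := by rw [← card_pos]; omega
    set s := ⌊c₁ * L⌋₊ with hs
    have hsL : (s:ℝ) ≤ c₁ * L := Nat.floor_le (by (clear * - hε hk hlogθ hb hlogC; positivity))
    have hω : ∀ a ∈ A', a.natAbs.primeFactors.card ≤ s := by
      intro a ha
      apply Nat.le_floor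
      have h1 := hfew a (hA'A ha) (ne_of_mem_erase ha)
      have h2 : c * L ≤ c₁ * L := by (clear * - hcc₁; gcongr)
      exact h1.trans h2
    obtain ⟨P, hP1, hP2⟩ := kernel A' (fun a => a.natAbs.primeFactors) H
    set A₀ := A'.filter (fun a => P ⊆ a.natAbs.primeFactors) with hA₀
    have hA₀pos : 0 < A₀.card := by
      rcases Nat.eq_zero_or_pos A₀.card with h | h
      · rw [h, mul_zero] at hP1
        have := card_pos.2 hA'ne
        (clear * - k ε b C hP1 this; omega)
      · exact h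
    obtain ⟨a₀, ha₀⟩ := card_pos.1 hA₀pos
    have ha₀' := mem_filter.1 ha₀
    have hPprime : ∀ p ∈ P, p.Prime := fun p hp => (Nat.mem_primeFactors.1 (ha₀'.2 hp)).1
    have hPs : P.card ≤ s := (card_le_card ha₀'.2).trans (hω a₀ ha₀'.1)
    have hPL : (P.card : ℝ) ≤ c₁ * L := le_trans (by exact_mod_cast hPs) hsL
    have hA₀A : A₀ ⊆ A := (filter_subset _ _).trans hA'A
    have hA₀0 : (0:ℤ) ∉ A₀ := fun h => hA'0 (mem_filter.1 h).1
    -- size of A₀
    have hlogA₀ : L - Real.log 2 - c₁ * L * Real.log H ≤ Real.log A₀.card := by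
      have h1 : (n:ℝ) ≤ 2 * ((H:ℝ) ^ P.card * A₀.card) := by
        have h2 : n ≤ 2 * (H ^ P.card * A₀.card) :=
          hA'card2.trans (Nat.mul_le_mul_left 2 hP1)
        exact_mod_cast h2
      have hA₀pos' : (0:ℝ) < A₀.card := by exact_mod_cast hA₀pos
      have h3 : L ≤ Real.log (2 * ((H:ℝ) ^ P.card * A₀.card)) := Real.log_le_log hnpos h1
      rw [Real.log_mul (by norm_num) (by (clear * - hk hε hA₀pos; positivity)), Real.log_mul (by positivity) (by (clear * - hA₀pos; positivity)),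
        Real.log_pow] at h3
      have h4 : (P.card : ℝ) * Real.log H ≤ c₁ * L * Real.log H := by (clear * - hPL; gcongr)
      linarith only [h3, h4]
    set R : ℝ := Real.exp (ε₁ * L) with hR
    have hR0 : 0 < R := Real.exp_pos _
    -- it suffices to bound the logarithm
    have hfin : ∀ m : ℕ, 1 ≤ m → (k:ℝ) * L - ε * L - K₁ ≤ Real.log m →
        (m:ℝ) ≤ max ((kS k A).card : ℝ) ((kP k A).card : ℝ) →
        c * (n : ℝ) ^ ((k : ℝ) - ε) ≤ max ((kS k A).card : ℝ) ((kP k A).card : ℝ) := by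
      intro m hm1 hlog hm
      refine le_trans ?_ hm
      have hmpos : (0:ℝ) < m := by exact_mod_cast hm1
      calc c * (n : ℝ) ^ ((k : ℝ) - ε) ≤ Real.exp (-K₁) * Real.exp (((k:ℝ) - ε) * L) := by
            apply mul_le_mul hcK _ (by (clear * - hAne hc hcc₁ hcK hcpos hfew; positivity)) (Real.exp_pos _).le
            rw [Real.rpow_def_of_pos hnpos, mul_comm]
        _ = Real.exp ((k:ℝ) * L - ε * L - K₁) := by rw [← Real.exp_add]; congr 1; ring
        _ ≤ Real.exp (Real.log m) := Real.exp_le_exp.2 hlog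
        _ = m := Real.exp_log hmpos
    set fib : ℤ → ℕ := fun a => (A₀.filter (fun a' => mP P a' = mP P a)).card with hfib
    set As := A₀.filter (fun a => (fib a : ℝ) ≤ R) with hAs
    set Al := A₀.filter (fun a => ¬ (fib a : ℝ) ≤ R) with hAl
    have hsplit : As.card + Al.card = A₀.card := card_filter_add_card_filter_not _
    rcases le_total Al.card As.card with hcase | hcase
    · -- product side
      have hhalf : A₀.card ≤ 2 * As.card := by omega
      have hAspos : 0 < As.card := by omega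
      have hAsne : As.Nonempty := card_pos.1 hAspos
      have hAs0 : (0:ℤ) ∉ As := fun h => hA₀0 (mem_filter.1 h).1
      have hAsA : As ⊆ A := (filter_subset _ _).trans hA₀A
      have hAsn : As.card ≤ n := card_le_card hAsA
      have hκA : ∀ q : ℕ, q.Prime → q ∉ P →
          ((As.filter (fun a => (q:ℤ) ∣ a)).card : ℝ) ≤ (2 / (H:ℝ)) * As.card := by
        intro q hq hqP
        have h1 := hP2 q hqP
        have h2 : (As.filter (fun a => (q:ℤ) ∣ a)).card ≤
            (A₀.filter (fun a => q ∈ a.natAbs.primeFactors)).card := by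
          apply card_le_card
          intro a ha
          rw [mem_filter] at ha
          have ha1 := (mem_filter.1 ha.1).1
          rw [mem_filter]
          refine ⟨ha1, ?_⟩
          rw [Nat.mem_primeFactors]
          exact ⟨hq, Int.natCast_dvd.1 ha.2, Int.natAbs_ne_zero.2 (fun h => hA₀0 (h ▸ ha1))⟩
        have h3 : H * (As.filter (fun a => (q:ℤ) ∣ a)).card ≤ 2 * As.card :=
          (Nat.mul_le_mul_left _ h2).trans (h1.trans hhalf)
        have h4 : (H:ℝ) * ((As.filter (fun a => (q:ℤ) ∣ a)).card : ℝ) ≤ 2 * As.card := by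
          exact_mod_cast h3
        rw [div_mul_eq_mul_div, le_div_iff₀ hHpos]
        linarith only [h4]
      have hRfib : ∀ x, ((As.filter (fun a => mP P a = x)).card : ℝ) ≤ R := by
        intro x
        rcases (As.filter (fun a => mP P a = x)).eq_empty_or_nonempty with h0 | ⟨a, ha⟩
        · rw [h0]; simpa using hR0.le
        · rw [mem_filter] at ha
          have ha2 := (mem_filter.1 ha.1).2
          refine le_trans ?_ ha2
          rw [← ha.2]
          apply Nat.cast_le.2
          apply card_le_card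
          intro a' ha'
          rw [mem_filter] at ha' ⊢
          exact ⟨(mem_filter.1 ha'.1).1, ha'.2⟩
      have hprod := Pool.Agent.Helper1.prod_iter' hPprime hAs0 hAsne (2 / (H:ℝ)) R (by (clear * - hk hε; positivity))
        hR0 s k n hAsn (fun a ha => hω a (mem_filter.1 (mem_filter.1 ha).1).1) hκA hRfib
      have hpIne : 1 ≤ (pI As k).card := by
        rcases Nat.eq_zero_or_pos (pI As k).card with h | h
        · exfalso
          have : ∀ j, (pI As j).Nonempty := by
            intro j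
            induction j with
            | zero => exact ⟨1, by simp [pI]⟩
            | succ j ih => exact Finset.Nonempty.image₂ ih hAsne
          have := card_pos.2 (this k)
          omega
        · exact h
      have hpk : ((pI As k).card : ℝ) ≤ max ((kS k A).card : ℝ) ((kP k A).card : ℝ) := by
        apply le_max_of_le_right
        exact_mod_cast card_le_card (pI_subset hAsA k)
      refine hfin _ hpIne ?_ hpk
      refine le_trans ?_ hprod
      have hlogAs : Real.log A₀.card - Real.log 2 ≤ Real.log As.card := by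
        have h1 : (A₀.card : ℝ) ≤ 2 * As.card := by exact_mod_cast hhalf
        have hA₀pos' : (0:ℝ) < A₀.card := by exact_mod_cast hA₀pos
        have hAspos' : (0:ℝ) < As.card := by exact_mod_cast hAspos
        have h2 := Real.log_le_log hA₀pos' h1
        rw [Real.log_mul (by norm_num) hAspos'.ne'] at h2
        linarith only [h2]
      have hlogR : Real.log R = ε₁ * L := by rw [hR, Real.log_exp]
      rw [hlogR]
      have h5 : (s:ℝ) * Real.log 2 ≤ c₁ * L * Real.log 2 := by (clear * - hsL; gcongr)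
      have h6 : 2 / (H:ℝ) * k * k ≤ ε / 4 := by
        have : 8 * (k:ℝ) ^ 2 / ε ≤ H := hHge
        rw [div_le_iff₀ hε] at this
        rw [div_mul_eq_mul_div, div_mul_eq_mul_div, div_le_iff₀ hHpos]
        linarith only [this]
      have h7 : (k:ℝ) * ε₁ = ε / 4 := by rw [hε₁]; (clear * - hk hε; field_simp)
      have h8 : (k:ℝ) * (L - 3 * Real.log 2 - c₁ * L * Real.log H - ε₁ * L -
          k * (c₁ * L * Real.log 2) - 2 / (H:ℝ) * k * L) ≤
          (k:ℝ) * (Real.log As.card - Real.log 2 - ε₁ * L - k * s * Real.log 2 -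
            2 / (H:ℝ) * k * Real.log n) := by
        apply mul_le_mul_of_nonneg_left _ hk0.le
        have h9 : (k:ℝ) * s * Real.log 2 ≤ k * (c₁ * L * Real.log 2) := by
          rw [mul_assoc]; (clear * - h5 hk; gcongr)
        linarith only [hlogA₀, hlogAs, h9]
      refine le_trans ?_ h8
      have h10 : (k:ℝ) * (L - 3 * Real.log 2 - c₁ * L * Real.log H - ε₁ * L -
          k * (c₁ * L * Real.log 2) - 2 / (H:ℝ) * k * L) =
          k * L - k * (3 * Real.log 2) - (k * c₁ * Real.log H + k * ε₁ +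
            k * c₁ * (k * Real.log 2) + 2 / (H:ℝ) * k * k) * L := by ring
      rw [h10]
      have h11 : (k * c₁ * Real.log H + k * ε₁ + k * c₁ * (k * Real.log 2) +
          2 / (H:ℝ) * k * k) * L ≤ ε * L := by
        apply mul_le_mul_of_nonneg_right _ hL0
        linarith only [hε, hb1, hb2, h6, h7]
      have h12 : (k:ℝ) * (3 * Real.log 2) ≤ K₁ := by
        rw [hK₁]
        apply mul_le_mul_of_nonneg_left _ hk0.le
        have : 0 ≤ (k:ℝ) * (2 / ε₁) := by positivity
        linarith only [this]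
      linarith only [h11, h12]
    · -- sum side
      have hhalf : A₀.card ≤ 2 * Al.card := by omega
      have hAlpos : 0 < Al.card := by omega
      have hAlne : Al.Nonempty := card_pos.1 hAlpos
      have hAl0 : (0:ℤ) ∉ Al := fun h => hA₀0 (mem_filter.1 h).1
      have hAlA : Al ⊆ A := (filter_subset _ _).trans hA₀A
      have hAln : Al.card ≤ n := card_le_card hAlA
      have hRfib : ∀ a ∈ Al, R ≤ ((Al.filter (fun a' => mP P a' = mP P a)).card : ℝ) := by
        intro a ha
        have ha2 := (mem_filter.1 ha).2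
        push Not at ha2
        refine ha2.le.trans ?_
        apply Nat.cast_le.2
        apply card_le_card
        intro a' ha'
        rw [mem_filter] at ha' ⊢
        refine ⟨?_, ha'.2⟩
        rw [hAl, mem_filter]
        refine ⟨ha'.1, ?_⟩
        have : fib a' = fib a := by
          simp only [hfib]; rw [ha'.2]
        rw [this]
        push Not
        exact ha2
      have hsumk := hsum P hPprime Al hAlne hAl0 R hR0 hRfib n k hAln k le_rfl
      have hsIne : 1 ≤ (sI Al k).card := card_pos.2 (sI_nonempty hAlne k)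
      have hsk : ((sI Al k).card : ℝ) ≤ max ((kS k A).card : ℝ) ((kP k A).card : ℝ) := by
        apply le_max_of_le_left
        exact_mod_cast card_le_card (sI_subset hAlA k)
      refine hfin _ hsIne ?_ hsk
      refine le_trans ?_ hsumk
      have hlogAl : Real.log A₀.card - Real.log 2 ≤ Real.log Al.card := by
        have h1 : (A₀.card : ℝ) ≤ 2 * Al.card := by exact_mod_cast hhalf
        have hA₀pos' : (0:ℝ) < A₀.card := by exact_mod_cast hA₀pos
        have hAlpos' : (0:ℝ) < Al.card := by exact_mod_cast hAlpos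
        have h2 := Real.log_le_log hA₀pos' h1
        rw [Real.log_mul (by norm_num) hAlpos'.ne'] at h2
        linarith only [h2]
      -- the exceptional term
      have hCpos : 0 < C := by linarith only [hC]
      have h1 : C ^ P.card * (n : ℝ) ^ (lam * (k + 1)) / R ≤ Real.exp (-(ε₁ / 2 * L)) := by
        have e1 : C ^ P.card ≤ Real.exp (ε₁ / 4 * L) := by
          have : C ^ P.card = Real.exp (P.card * Real.log C) := by
            rw [← Real.log_pow, Real.exp_log (by positivity)]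
          rw [this]
          apply Real.exp_le_exp.2
          calc (P.card : ℝ) * Real.log C ≤ (c₁ * L) * Real.log C := by (clear * - hPL hlogC; gcongr)
            _ = (c₁ * Real.log C) * L := by ring
            _ ≤ ε₁ / 4 * L := by (clear * - hb4; gcongr)
        have e2 : (n : ℝ) ^ (lam * (k + 1)) = Real.exp (ε₁ / 4 * L) := by
          rw [Real.rpow_def_of_pos hnpos]
          congr 1
          rw [hlam]
          field_simp
          exact hL.symm
        rw [e2, div_le_iff₀ hR0, hR, ← Real.exp_add]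
        calc C ^ P.card * Real.exp (ε₁ / 4 * L)
            ≤ Real.exp (ε₁ / 4 * L) * Real.exp (ε₁ / 4 * L) := by (clear * - e1; gcongr)
          _ = Real.exp (-(ε₁ / 2 * L) + ε₁ * L) := by
              rw [← Real.exp_add]; congr 1; ring
      have h2 : (k * L) * (C ^ P.card * (n : ℝ) ^ (lam * (k + 1)) / R) ≤ k * (2 / ε₁) := by
        calc (k * L) * (C ^ P.card * (n : ℝ) ^ (lam * (k + 1)) / R)
            ≤ (k * L) * Real.exp (-(ε₁ / 2 * L)) := by (clear * - h1 hk; gcongr)
          _ = k * (L * Real.exp (-(ε₁ / 2 * L))) := by ring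
          _ ≤ k * (1 / (ε₁ / 2)) := by
              apply mul_le_mul_of_nonneg_left (mul_exp_neg_le (by positivity)) hk0.le
          _ = k * (2 / ε₁) := by congr 1; (clear * - hε₁0; field_simp)
      have h3 : (P.card : ℝ) * (Real.log (1 / θ) + 2 + b) ≤
          c₁ * L * (Real.log (1 / θ) + 2 + b) := by (clear * - hPL hlogθ hb; gcongr)
      have h4 : (k:ℝ) * (L - 2 * Real.log 2 - c₁ * L * Real.log H -
          (c₁ * L * (Real.log (1 / θ) + 2 + b) + 2 * θ * ((k + 1) * L) + k * (2 / ε₁))) ≤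
          (k:ℝ) * (Real.log Al.card - ((P.card : ℝ) * (Real.log (1 / θ) + 2 + b) +
        2 * θ * (((k:ℝ) + 1) * Real.log n) +
        (k * Real.log n) * (C ^ P.card * (n : ℝ) ^ (lam * (k + 1)) / R))) := by
        apply mul_le_mul_of_nonneg_left _ hk0.le
        rw [← hL]
        linarith only [hlogA₀, hlogAl, h2, h3]
      refine le_trans ?_ h4
      have h5 : (k:ℝ) * (2 * θ * (k + 1)) ≤ ε / 4 := by
        calc (k:ℝ) * (2 * θ * (k + 1)) = 2 * k * (k + 1) * θ := by ring
          _ ≤ 2 * k * (k + 1) * (ε / (8 * k * (k + 1))) := by (clear * - hθ2 hk; gcongr)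
          _ = ε / 4 := by field_simp; norm_num
      have h10 : (k:ℝ) * (L - 2 * Real.log 2 - c₁ * L * Real.log H -
          (c₁ * L * (Real.log (1 / θ) + 2 + b) + 2 * θ * ((k + 1) * L) + k * (2 / ε₁))) =
          k * L - k * (2 * Real.log 2 + k * (2 / ε₁)) - (k * c₁ * Real.log H +
            k * c₁ * (Real.log (1 / θ) + 2 + b) + k * (2 * θ * (k + 1))) * L := by ring
      rw [h10]
      have h11 : (k * c₁ * Real.log H + k * c₁ * (Real.log (1 / θ) + 2 + b) +
          k * (2 * θ * (k + 1))) * L ≤ ε * L := by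
        apply mul_le_mul_of_nonneg_right _ hL0
        linarith only [hε, hb1, hb3, h5]
      have h12 : (k:ℝ) * (2 * Real.log 2 + k * (2 / ε₁)) ≤ K₁ := by
        rw [hK₁]
        apply mul_le_mul_of_nonneg_left _ hk0.le
        linarith only [hlog2']
      linarith only [h11, h12]

end Pool.Agent.Helper2.E
end
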