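import Pool.Agent.Helper24.FG.G01

/- Helper24.FF.H2.ESum2 -/
section
set_option autoImplicit false

/-!
The sum step for general factorisations `a = U a * m a`, where `U a` depends only on the
valuations of `a` at a small set of primes.
-/

open Finset

namespace Pool.Agent.Helper2.E

open Pool.Agent.Helper5 (uP mP uP_pos uP_mul_mP uP_factorization mP_ne_zero sI sI_card)

/-- **Decoding `(d, m)`**, with general multipliers. -/
theorem decM' {θ lam : ℝ} (hθ0 : 0 < θ) (hθ1 : θ ≤ 1 / 2) (hl : 0 < lam) :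
    ∃ b C : ℝ, 0 ≤ b ∧ 1 ≤ C ∧ ∀ S : Finset ℕ, (∀ p ∈ S, p.Prime) →
      ∀ D M : Finset ℤ, D.Nonempty → M.Nonempty →
      ∃ F : ℕ → ℤ → ℤ → Prop,
        (∀ d ∈ D, ∀ m ∈ M, ∀ V : Finset ℕ,
          (∀ u ∈ V, ∀ u' ∈ V, (∀ p ∈ S, u.factorization p = u'.factorization p) → u = u') →
          (∀ u ∈ V, F u d m) →
          (V.card : ℝ) ≤ C ^ S.card * ((D.card : ℝ) ^ lam * (M.card : ℝ) ^ lam)) ∧
        (∀ u : ℕ, u ≠ 0 → Good θ (Real.log D.card) ((S.card : ℝ) * b) u D M (F u)) := by
  classical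
  set η : ℝ := θ ^ (1 / θ) with hηdef
  have hη0 : 0 < η := Real.rpow_pos_of_pos hθ0 _
  have hη1 : η < 1 := Real.rpow_lt_one hθ0.le (by (clear * - hθ1; linarith only [hθ1])) (by (clear * - hθ0; positivity))
  have hηθ : η ≤ θ := by
    calc η = θ ^ (1 / θ) := rfl
      _ ≤ θ ^ (1:ℝ) := by
        apply Real.rpow_le_rpow_of_exponent_ge hθ0 (by (clear * - hθ1; linarith only [hθ1]))
        rw [le_div_iff₀ hθ0]; (clear * - hθ1; linarith only [hθ1])
      _ = θ := Real.rpow_one θ
  have hη : θ * Real.log η = Real.log θ := by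
    rw [hηdef, Real.log_rpow hθ0]
    field_simp
  set C := (1 / (1 - (1 - η) ^ lam)) * (1 / (1 - (1 / 2 : ℝ) ^ lam)) with hC
  have hC1 : 1 ≤ C := by
    have h1 : (1 - η) ^ lam < 1 := Real.rpow_lt_one (by (clear * - hη1; linarith only [hη1])) (by linarith only [hη0]) hl
    have h1' : 0 ≤ (1 - η) ^ lam := Real.rpow_nonneg (by linarith only [hη1]) _
    have h2 : (1 / 2 : ℝ) ^ lam < 1 := Real.rpow_lt_one (by norm_num) (by norm_num) hl
    have h2' : 0 ≤ (1 / 2 : ℝ) ^ lam := Real.rpow_nonneg (by norm_num) _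
    have h3 : 1 ≤ 1 / (1 - (1 - η) ^ lam) := by rw [le_div_iff₀ (by linarith only [h1])]; linarith only [h1']
    have h4 : 1 ≤ 1 / (1 - (1 / 2 : ℝ) ^ lam) := by rw [le_div_iff₀ (by linarith only [h2])]; linarith only [h2']
    calc (1:ℝ) = 1 * 1 := (one_mul 1).symm
      _ ≤ _ := mul_le_mul h3 h4 zero_le_one (by (clear * - h3; linarith only [h3]))
  refine ⟨-Real.log (1 - (1 - η) ^ θ), C, ?_, hC1, ?_⟩
  · rw [neg_nonneg]
    have h1 : (1 - η) ^ θ < 1 := Real.rpow_lt_one (by linarith only [hη1]) (by linarith only [hη0]) hθ0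
    have h2 : 0 ≤ (1 - η) ^ θ := Real.rpow_nonneg (by linarith only [hη1]) _
    exact Real.log_nonpos (by linarith only [h1]) (by linarith only [h2])
  · intro S hS D M hD hM
    refine ⟨fun u => Fail η u.factorization S.toList D M, ?_, ?_⟩
    · intro d hd m hm V hV hF
      have := fail_count hη0 hη1.le hl (fun u : ℕ => (u.factorization : ℕ → ℕ)) S.toList D M d m
        hd hm V hF (by
          intro u hu u' hu' huu
          apply hV u hu u' hu'
          intro p hp
          exact huu p (mem_toList.2 hp))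
      rw [length_toList] at this
      exact this
    · intro u hu
      have := primes hθ0 (by linarith only [hθ1]) hη0 hη1 hηθ hη
        (Λ := Real.log D.card) (Real.log_natCast_nonneg _) hu S.toList
        (fun p hp => hS p (mem_toList.1 hp)) D M hD hM le_rfl
      rw [length_toList] at this
      exact this

/-- **Sum step.** -/
theorem sum_step' {θ lam : ℝ} (hθ0 : 0 < θ) (hθ1 : θ ≤ 1 / 2) (hl : 0 < lam) :
    ∃ b C : ℝ, 0 ≤ b ∧ 1 ≤ C ∧ ∀ S : Finset ℕ, (∀ p ∈ S, p.Prime) →
      ∀ D A : Finset ℤ, D.Nonempty → A.Nonempty → (0:ℤ) ∉ A →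
      ∀ (U : ℤ → ℕ) (m : ℤ → ℤ), (∀ a, U a ≠ 0) → (∀ a ∈ A, (U a : ℤ) * m a = a) →
      (∀ a ∈ A, ∀ a' ∈ A, (∀ p ∈ S, Pool.Agent.Helper5.val p a = Pool.Agent.Helper5.val p a') →
        U a = U a') →
      ∀ R : ℝ, 0 < R →
      (∀ a ∈ A, R ≤ ((A.filter (fun a' => m a' = m a)).card : ℝ)) →
      Real.log D.card + Real.log A.card - (S.card : ℝ) * (Real.log (1 / θ) + 2 + b) -
          2 * θ * (Real.log D.card + Real.log A.card) -
          Real.log D.card * (C ^ S.card * ((D.card : ℝ) ^ lam * (A.card : ℝ) ^ lam) / R) ≤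
        Real.log ((image₂ (· + ·) D A).card : ℝ) := by
  classical
  obtain ⟨b, C, hb, hC, hdec⟩ := decM' hθ0 hθ1 hl
  refine ⟨b, C, hb, hC, ?_⟩
  intro S hS D A hD hA h0 U m hU0 hUm hdet R hR hfib
  have hA0 : ∀ a ∈ A, a ≠ 0 := fun a ha h => h0 (h ▸ ha)
  have hm0 : ∀ a ∈ A, m a ≠ 0 := by
    intro a ha h
    have := hUm a ha
    rw [h, mul_zero] at this
    exact hA0 a ha this.symm
  set M := A.image m with hM
  have hMne : M.Nonempty := hA.image _
  obtain ⟨q, hq0, hq1, hq2⟩ := Pool.Agent.Helper1.decU S hS θ hθ0 (by (clear * - hθ1; linarith only [hθ1])) D hD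
  obtain ⟨F, hF, hgood⟩ := hdec S hS D M hD hMne
  have hval : ∀ a : ℤ, ∀ p ∈ S, Pool.Agent.Helper5.val p a = (uP S a).factorization p := by
    intro a p hp
    rw [uP_factorization hS, if_pos hp]
  have hsupp : ∀ a : ℤ, (uP S a).primeFactors ⊆ S := by
    intro a p hp
    rw [← Nat.support_factorization, Finsupp.mem_support_iff, uP_factorization hS] at hp
    by_contra h
    rw [if_neg h] at hp
    exact hp rfl
  have hdet' : ∀ a ∈ A, ∀ a' ∈ A, uP S a = uP S a' → U a = U a' := by
    intro a ha a' ha' h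
    apply hdet a ha a' ha'
    intro p hp
    rw [hval a p hp, hval a' p hp, h]
  choose W hWadm hWcost using fun u : ℕ => fun hu : u ≠ 0 => hgood u hu
  let w : ℤ × ℤ → ℝ := fun e => q (e.1 + e.2) (uP S e.2) * W (U e.2) (hU0 e.2) e.1 (m e.2)
  have hD1 : (1:ℝ) ≤ D.card := by exact_mod_cast card_pos.2 hD
  have hA1 : (1:ℝ) ≤ A.card := by exact_mod_cast card_pos.2 hA
  have hM1 : (1:ℝ) ≤ M.card := by exact_mod_cast card_pos.2 hMne
  have hMA : (M.card : ℝ) ≤ A.card := by exact_mod_cast card_image_le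
  have hqpos : ∀ a ∈ A, ∀ d ∈ D, 0 < q (d + a) (uP S a) := fun a ha d hd =>
    (hq2 (uP S a) a (hA0 a ha) (hval a)).1 d hd
  have hWpos : ∀ a ∈ A, ∀ d ∈ D, 0 < W (U a) (hU0 a) d (m a) := fun a ha d hd =>
    (hWadm _ (hU0 a)).pos d hd _ (mem_image_of_mem _ ha)
  have hwpos : ∀ e ∈ D ×ˢ A, 0 < w e := by
    intro e he
    rw [mem_product] at he
    exact mul_pos (hqpos e.2 he.2 e.1 he.1) (hWpos e.2 he.2 e.1 he.1)
  -- kernel
  have hker : ∀ x, ∑ e ∈ (D ×ˢ A).filter (fun e => e.1 + e.2 = x), w e ≤ 1 := by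
    intro x
    set Ω := (D ×ˢ A).filter (fun e => e.1 + e.2 = x) with hΩ
    rw [← Finset.sum_fiberwise_of_maps_to (t := A.image (uP S)) (g := fun e : ℤ × ℤ => uP S e.2)
      (fun e he => mem_image_of_mem _ (mem_product.1 (mem_filter.1 he).1).2)]
    refine le_trans (sum_le_sum (g := fun u => q x u) ?_) (hq1 x (A.image (uP S)) ?_)
    · intro u hu
      obtain ⟨a₀, ha₀, rfl⟩ := mem_image.1 hu
      set u := uP S a₀ with hudef
      have hUeq : ∀ e ∈ Ω.filter (fun e => uP S e.2 = u), U e.2 = U a₀ := by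
        intro e he
        rw [mem_filter] at he
        exact hdet' _ (mem_product.1 (mem_filter.1 he.1).1).2 _ ha₀ he.2
      have h1 : ∀ e ∈ Ω.filter (fun e => uP S e.2 = u), w e =
          q x u * W (U a₀) (hU0 a₀) e.1 (m e.2) := by
        intro e he
        have hUe := hUeq e he
        rw [mem_filter] at he
        have he1 := (mem_filter.1 he.1).2
        have h2 : ∀ (u' : ℕ) (h' : u' ≠ 0), u' = U a₀ →
            W u' h' e.1 (m e.2) = W (U a₀) (hU0 a₀) e.1 (m e.2) := by
          intro u' h' hh; subst hh; rfl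
        show q (e.1 + e.2) (uP S e.2) * W (U e.2) (hU0 e.2) e.1 (m e.2) = _
        rw [h2 _ _ hUe, he1, he.2]
      rw [sum_congr rfl h1, ← mul_sum]
      have h3 : ∑ e ∈ Ω.filter (fun e => uP S e.2 = u), W (U a₀) (hU0 a₀) e.1 (m e.2) ≤ 1 := by
        refine le_trans ?_ ((hWadm (U a₀) (hU0 a₀)).ker x)
        have hinj : Set.InjOn (fun e : ℤ × ℤ => (e.1, m e.2))
            (Ω.filter (fun e => uP S e.2 = u) : Finset (ℤ × ℤ)) := by
          intro e he e' he' h
          have hUe := hUeq e he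
          have hUe' := hUeq e' he'
          rw [mem_coe, mem_filter] at he he'
          simp only [Prod.mk.injEq] at h
          have ha := (mem_product.1 (mem_filter.1 he.1).1).2
          have ha' := (mem_product.1 (mem_filter.1 he'.1).1).2
          have e2 : e.2 = e'.2 := by
            rw [← hUm _ ha, ← hUm _ ha', hUe, hUe', h.2]
          exact Prod.ext h.1 e2
        rw [← sum_image (f := fun z : ℤ × ℤ => W (U a₀) (hU0 a₀) z.1 z.2) hinj]
        apply sum_le_sum_of_subset_of_nonneg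
        · intro z hz
          obtain ⟨e, he, rfl⟩ := mem_image.1 hz
          have hUe := hUeq e he
          rw [mem_filter] at he
          have he1 := mem_filter.1 he.1
          have he2 := mem_product.1 he1.1
          rw [mem_filter, mem_product]
          refine ⟨⟨he2.1, mem_image_of_mem _ he2.2⟩, ?_⟩
          simp only
          rw [← hUe, hUm _ he2.2]
          exact he1.2
        · intro z hz _
          rw [mem_filter, mem_product] at hz
          exact ((hWadm (U a₀) (hU0 a₀)).pos z.1 hz.1.1 z.2 hz.1.2).le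
      calc q x u * ∑ e ∈ Ω.filter (fun e => uP S e.2 = u), W (U a₀) (hU0 a₀) e.1 (m e.2)
          ≤ q x u * 1 := mul_le_mul_of_nonneg_left h3 (hq0 x u)
        _ = q x u := mul_one _
    · intro u hu
      obtain ⟨a₀, _, rfl⟩ := mem_image.1 hu
      exact ⟨(uP_pos hS a₀).ne', hsupp a₀⟩
  have hmain := log_image_ge (hD.product hA) (fun e : ℤ × ℤ => e.1 + e.2) w hwpos hker
  have himg : (D ×ˢ A).image (fun e : ℤ × ℤ => e.1 + e.2) = image₂ (· + ·) D A := rfl
  rw [himg, card_product] at hmain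
  push_cast at hmain
  rw [Real.log_mul (by (clear * - hD; positivity)) (by (clear * - hA; positivity))] at hmain
  -- the cost
  set LD := Real.log (D.card : ℝ) with hLD
  set LA := Real.log (A.card : ℝ) with hLA
  have hLD0 : 0 ≤ LD := Real.log_nonneg hD1
  have hLM : Real.log (M.card : ℝ) ≤ LA := Real.log_le_log (by linarith only [hM1]) hMA
  have hcost : -∑ e ∈ D ×ˢ A, Real.log (w e) ≤
      (D.card : ℝ) * A.card * ((S.card : ℝ) * (Real.log (1 / θ) + 2 + b) + 2 * θ * (LD + LA)) +
      LD * ((D.card : ℝ) * M.card * (C ^ S.card * ((D.card : ℝ) ^ lam * (A.card : ℝ) ^ lam))) := by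
    rw [sum_product_right, ← sum_neg_distrib]
    have h1 : ∀ a ∈ A, -∑ d ∈ D, Real.log (w (d, a)) ≤
        (D.card : ℝ) * ((S.card : ℝ) * (Real.log (1 / θ) + 2 + b) + 2 * θ * (LD + LA)) +
        LD * ((D.filter (fun d => F (U a) d (m a))).card : ℝ) := by
      intro a ha
      have e1 : ∀ d ∈ D, Real.log (w (d, a)) =
          Real.log (q (d + a) (uP S a)) + Real.log (W (U a) (hU0 a) d (m a)) := by
        intro d hd
        exact Real.log_mul (hqpos a ha d hd).ne' (hWpos a ha d hd).ne'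
      rw [sum_congr rfl e1, sum_add_distrib]
      have h2 := (hq2 (uP S a) a (hA0 a ha) (hval a)).2
      have h3 := hWcost (U a) (hU0 a) (m a) (mem_image_of_mem _ ha)
      have h4 : (D.card : ℝ) * (2 * θ * Real.log (M.card : ℝ)) ≤ (D.card : ℝ) * (2 * θ * LA) := by
        (clear * - hLM hθ0 hD; gcongr)
      have h5 : (D.card : ℝ) * (θ * LD + 2 * θ * Real.log (M.card : ℝ) + (S.card : ℝ) * b) =
        (D.card : ℝ) * (θ * LD) + (D.card : ℝ) * (2 * θ * Real.log (M.card : ℝ)) +
        (D.card : ℝ) * ((S.card : ℝ) * b) := by ring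
      rw [h5] at h3
      have h6 : (D.card : ℝ) * (θ * LD + (S.card : ℝ) * (Real.log (1 / θ) + 2)) =
        (D.card : ℝ) * (θ * LD) + (D.card : ℝ) * ((S.card : ℝ) * (Real.log (1 / θ) + 2)) := by
        ring
      rw [h6] at h2
      have h7 : (D.card : ℝ) * ((S.card : ℝ) * (Real.log (1 / θ) + 2 + b) + 2 * θ * (LD + LA)) =
        (D.card : ℝ) * ((S.card : ℝ) * (Real.log (1 / θ) + 2)) +
        (D.card : ℝ) * ((S.card : ℝ) * b) + (D.card : ℝ) * (θ * LD) +
        (D.card : ℝ) * (θ * LD) + (D.card : ℝ) * (2 * θ * LA) := by ring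
      rw [h7]
      linarith only [h2, h3, h4]
    refine (sum_le_sum h1).trans ?_
    rw [sum_add_distrib, sum_const, nsmul_eq_mul, ← mul_sum]
    have hfail : ∑ a ∈ A, ((D.filter (fun d => F (U a) d (m a))).card : ℝ) ≤
        (D.card : ℝ) * M.card * (C ^ S.card * ((D.card : ℝ) ^ lam * (A.card : ℝ) ^ lam)) := by
      have e1 : ∑ a ∈ A, ((D.filter (fun d => F (U a) d (m a))).card : ℝ) =
          ∑ d ∈ D, ((A.filter (fun a => F (U a) d (m a))).card : ℝ) := by
        have := Finset.sum_card_bipartiteAbove_eq_sum_card_bipartiteBelow (s := A) (t := D)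
          (fun a d => F (U a) d (m a))
        unfold bipartiteAbove bipartiteBelow at this
        exact_mod_cast this
      rw [e1]
      have h2 : ∀ d ∈ D, ((A.filter (fun a => F (U a) d (m a))).card : ℝ) ≤
          (M.card : ℝ) * (C ^ S.card * ((D.card : ℝ) ^ lam * (A.card : ℝ) ^ lam)) := by
        intro d hd
        have h3 : (A.filter (fun a => F (U a) d (m a))).card =
            ∑ m₀ ∈ M, ((A.filter (fun a => F (U a) d (m a))).filter
              (fun a => m a = m₀)).card := by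
          apply Finset.card_eq_sum_card_fiberwise
          intro a ha
          rw [mem_coe, mem_filter] at ha
          exact mem_coe.2 (mem_image_of_mem _ ha.1)
        rw [h3]
        push_cast
        have h4 : ∀ m₀ ∈ M, (((A.filter (fun a => F (U a) d (m a))).filter
              (fun a => m a = m₀)).card : ℝ) ≤
            C ^ S.card * ((D.card : ℝ) ^ lam * (A.card : ℝ) ^ lam) := by
          intro m₀ hm₀
          set Y := (A.filter (fun a => F (U a) d (m a))).filter
              (fun a => m a = m₀) with hY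
          have hinj : Set.InjOn U (Y : Set ℤ) := by
            intro a ha a' ha' h
            rw [mem_coe, hY, mem_filter, mem_filter] at ha ha'
            rw [← hUm _ ha.1.1, ← hUm _ ha'.1.1, h, ha.2, ha'.2]
          rw [← card_image_of_injOn hinj]
          have h5 := hF d hd m₀ hm₀ (Y.image U) (by
            intro u hu u' hu' huu
            obtain ⟨a, ha, rfl⟩ := mem_image.1 hu
            obtain ⟨a', ha', rfl⟩ := mem_image.1 hu'
            rw [hY, mem_filter, mem_filter] at ha ha'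
            apply hdet a ha.1.1 a' ha'.1.1
            intro p hp
            have hm₀0 : m₀ ≠ 0 := by rw [← ha.2]; exact hm0 a ha.1.1
            have e3 : ∀ x : ℤ, x ∈ A → m x = m₀ → Pool.Agent.Helper5.val p x =
                (U x).factorization p + Pool.Agent.Helper5.val p m₀ := by
              intro x hx hmx
              have hUx : (U x : ℤ) ≠ 0 := by exact_mod_cast hU0 x
              conv_lhs => rw [← hUm x hx, hmx]
              rw [Pool.Agent.Helper5.val_mul hUx hm₀0, Pool.Agent.Helper5.val_natCast]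
            rw [e3 a ha.1.1 ha.2, e3 a' ha'.1.1 ha'.2, huu p hp]) (by
            intro u hu
            obtain ⟨a, ha, rfl⟩ := mem_image.1 hu
            rw [hY, mem_filter, mem_filter] at ha
            rw [← ha.2]
            exact ha.1.2)
          refine h5.trans ?_
          apply mul_le_mul_of_nonneg_left _ (by positivity)
          apply mul_le_mul_of_nonneg_left _ (by (clear * - hD; positivity))
          exact Real.rpow_le_rpow (by (clear * - hMne; positivity)) hMA hl.le
        refine (sum_le_sum h4).trans ?_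
        rw [sum_const, nsmul_eq_mul]
      refine (sum_le_sum h2).trans ?_
      rw [sum_const, nsmul_eq_mul, mul_assoc]
    have h8 := mul_le_mul_of_nonneg_left hfail hLD0
    have h9 : (A.card : ℝ) * ((D.card : ℝ) * ((S.card : ℝ) * (Real.log (1 / θ) + 2 + b) +
        2 * θ * (LD + LA))) = (D.card : ℝ) * A.card * ((S.card : ℝ) * (Real.log (1 / θ) + 2 + b) +
        2 * θ * (LD + LA)) := by ring
    rw [h9]
    linarith only [h8]
  -- the fibres are large
  have hMR : (M.card : ℝ) * R ≤ A.card := by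
    have h1 : (A.card : ℝ) = ∑ m₀ ∈ M, ((A.filter (fun a => m a = m₀)).card : ℝ) := by
      have := Finset.card_eq_sum_card_image m A
      exact_mod_cast this
    rw [h1, ← nsmul_eq_mul, ← sum_const]
    apply sum_le_sum
    intro m₀ hm₀
    obtain ⟨a, ha, rfl⟩ := mem_image.1 hm₀
    exact hfib a ha
  set G := C ^ S.card * ((D.card : ℝ) ^ lam * (A.card : ℝ) ^ lam) with hG
  have hG0 : 0 ≤ G := by (clear * - hC hD hA; positivity)
  have hDpos : (0:ℝ) < D.card := by linarith only [hD1]
  have hApos : (0:ℝ) < A.card := by linarith only [hM1, hMA]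
  have h10 : (1 / ((D.card : ℝ) * A.card)) * (-∑ e ∈ D ×ˢ A, Real.log (w e)) ≤
      (S.card : ℝ) * (Real.log (1 / θ) + 2 + b) + 2 * θ * (LD + LA) + LD * (G / R) := by
    have h11 := mul_le_mul_of_nonneg_left hcost
      (by (clear * - hD hA; positivity) : 0 ≤ 1 / ((D.card : ℝ) * A.card))
    refine h11.trans ?_
    have h12 : (1 / ((D.card : ℝ) * A.card)) * ((D.card : ℝ) * A.card *
        ((S.card : ℝ) * (Real.log (1 / θ) + 2 + b) + 2 * θ * (LD + LA)) +
        LD * ((D.card : ℝ) * M.card * G)) =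
        ((S.card : ℝ) * (Real.log (1 / θ) + 2 + b) + 2 * θ * (LD + LA)) +
        LD * (G * (M.card / A.card)) := by
      (clear * - hD hA; field_simp)
    rw [h12]
    have h13 : (M.card : ℝ) / A.card ≤ 1 / R := by
      rw [div_le_div_iff₀ hApos hR]
      linarith only [hMR]
    have h14 : LD * (G * (M.card / A.card)) ≤ LD * (G * (1 / R)) := by (clear * - h13 hC hD hA; gcongr)
    have h15 : LD * (G * (1 / R)) = LD * (G / R) := by ring
    linarith only [h14, h15]
  have h16 : (1 / ((D.card : ℝ) * A.card)) * (-∑ e ∈ D ×ˢ A, Real.log (w e)) =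
      -((1 / ((D.card : ℝ) * A.card)) * ∑ e ∈ D ×ˢ A, Real.log (w e)) := by ring
  rw [h16] at h10
  linarith only [hmain, h10]

/-- **Iterated sum step.** -/
theorem sum_iter' {θ lam : ℝ} (hθ0 : 0 < θ) (hθ1 : θ ≤ 1 / 2) (hl : 0 < lam) :
    ∃ b C : ℝ, 0 ≤ b ∧ 1 ≤ C ∧ ∀ S : Finset ℕ, (∀ p ∈ S, p.Prime) →
      ∀ A : Finset ℤ, A.Nonempty → (0:ℤ) ∉ A →
      ∀ (U : ℤ → ℕ) (m : ℤ → ℤ), (∀ a, U a ≠ 0) → (∀ a ∈ A, (U a : ℤ) * m a = a) →
      (∀ a ∈ A, ∀ a' ∈ A, (∀ p ∈ S, Pool.Agent.Helper5.val p a = Pool.Agent.Helper5.val p a') →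
        U a = U a') →
      ∀ R : ℝ, 0 < R →
      (∀ a ∈ A, R ≤ ((A.filter (fun a' => m a' = m a)).card : ℝ)) →
      ∀ N k : ℕ, A.card ≤ N → ∀ j : ℕ, j ≤ k →
      (j : ℝ) * (Real.log A.card - ((S.card : ℝ) * (Real.log (1 / θ) + 2 + b) +
        2 * θ * (((k:ℝ) + 1) * Real.log N) +
        (k * Real.log N) * (C ^ S.card * (N : ℝ) ^ (lam * (k + 1)) / R))) ≤
        Real.log ((sI A j).card : ℝ) := by
  classical
  obtain ⟨b, C, hb, hC, hstep⟩ := sum_step' hθ0 hθ1 hl
  refine ⟨b, C, hb, hC, ?_⟩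
  intro S hS A hA h0 U m hU0 hUm hdet R hR hfib N k hAN
  have hA1 : 1 ≤ A.card := card_pos.2 hA
  have hN1 : 1 ≤ N := hA1.trans hAN
  have hN1' : (1:ℝ) ≤ N := by exact_mod_cast hN1
  have hNpos : (0:ℝ) < N := by linarith only [hN1']
  have hLN : 0 ≤ Real.log N := Real.log_nonneg hN1'
  have hAN' : (A.card : ℝ) ≤ N := by exact_mod_cast hAN
  have hApos : (0:ℝ) < A.card := by exact_mod_cast hA1
  have hLA : Real.log A.card ≤ Real.log N := Real.log_le_log hApos hAN'
  intro j
  induction j with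
  | zero => intro _; simp [sI]
  | succ j ih =>
    intro hj
    have ih' := ih (by omega)
    have hne := sI_nonempty hA j
    have hDpos : (0:ℝ) < ((sI A j).card : ℝ) := by exact_mod_cast card_pos.2 hne
    have hD1 : (1:ℝ) ≤ ((sI A j).card : ℝ) := by exact_mod_cast card_pos.2 hne
    have hDN : ((sI A j).card : ℝ) ≤ (N:ℝ) ^ k := by
      have h1 : (sI A j).card ≤ N ^ k :=
        (sI_card A j).trans ((Nat.pow_le_pow_left hAN j).trans
          (Nat.pow_le_pow_right hN1 (by omega)))
      exact_mod_cast h1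
    have hLD : Real.log ((sI A j).card : ℝ) ≤ k * Real.log N := by
      rw [← Real.log_pow]
      exact Real.log_le_log hDpos hDN
    have hLD0 : 0 ≤ Real.log ((sI A j).card : ℝ) := Real.log_nonneg hD1
    have h2 := hstep S hS (sI A j) A hne hA h0 U m hU0 hUm hdet R hR hfib
    have h3 : ((sI A j).card : ℝ) ^ lam * (A.card : ℝ) ^ lam ≤ (N : ℝ) ^ (lam * (k + 1)) := by
      calc ((sI A j).card : ℝ) ^ lam * (A.card : ℝ) ^ lam
          ≤ ((N:ℝ) ^ k) ^ lam * (N : ℝ) ^ lam := by
            apply mul_le_mul (Real.rpow_le_rpow hDpos.le hDN hl.le)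
              (Real.rpow_le_rpow hApos.le hAN' hl.le) (by (clear * - hA; positivity)) (by positivity)
        _ = (N : ℝ) ^ (lam * (k + 1)) := by
            rw [← Real.rpow_natCast, ← Real.rpow_mul hNpos.le, ← Real.rpow_add hNpos]
            congr 1
            ring
    have h4 : Real.log ((sI A j).card : ℝ) *
        (C ^ S.card * (((sI A j).card : ℝ) ^ lam * (A.card : ℝ) ^ lam) / R) ≤
        (k * Real.log N) * (C ^ S.card * (N : ℝ) ^ (lam * (k + 1)) / R) := by
      apply mul_le_mul hLD _ (by (clear * - hC hne hA hR; positivity)) (by (clear * -; positivity))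
      (clear * - h3 hC hR; gcongr)
    have h5 : 2 * θ * (Real.log ((sI A j).card : ℝ) + Real.log A.card) ≤
        2 * θ * (((k:ℝ) + 1) * Real.log N) := by
      apply mul_le_mul_of_nonneg_left _ (by (clear * - hθ0; linarith only [hθ0]))
      linarith only [hLA, hLD]
    have h6 : image₂ (· + ·) (sI A j) A = sI A (j + 1) := rfl
    rw [h6] at h2
    push_cast
    (clear * - ih' h2 h4 h5; linarith only [ih', h2, h4, h5])

end Pool.Agent.Helper2.E
end

/- Helper24.FF.H2.ECoset -/
section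
set_option autoImplicit false

/-!
Rational multipliers and cosets of finitely generated multiplicative groups.
-/

open Finset

namespace Pool.Agent.Helper2.E

open Pool.Agent.Helper5 (uP mP uP_pos uP_mul_mP uP_factorization mP_ne_zero sI sI_card)

theorem exists_scale (A : Finset ℤ) (r : ℤ → ℚ) :
    ∃ Z : ℕ, 0 < Z ∧ ∀ a ∈ A, ∃ n : ℤ, r a * Z = n := by
  refine ⟨∏ a ∈ A, (r a).den, Finset.prod_pos (fun a _ => (r a).den_pos), ?_⟩
  intro a ha
  obtain ⟨t, ht⟩ := Finset.dvd_prod_of_mem (fun a => (r a).den) ha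
  refine ⟨(r a).num * t, ?_⟩
  rw [ht]
  push_cast
  have h := Rat.mul_den_eq_num (r a)
  rw [← mul_assoc, h]

theorem sI_scale (A : Finset ℤ) (Z : ℤ) (j : ℕ) :
    sI (A.image (fun a => Z * a)) j = (sI A j).image (fun a => Z * a) := by
  induction j with
  | zero => simp [sI]
  | succ j ih =>
    have h1 : sI (A.image (fun a => Z * a)) (j + 1) =
      image₂ (· + ·) (sI (A.image (fun a => Z * a)) j) (A.image (fun a => Z * a)) := rfl
    have h2 : sI A (j + 1) = image₂ (· + ·) (sI A j) A := rfl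
    rw [h1, h2, ih]
    ext x
    simp only [mem_image₂, mem_image]
    constructor
    · rintro ⟨_, ⟨y, hy, rfl⟩, _, ⟨z, hz, rfl⟩, rfl⟩
      exact ⟨y + z, ⟨y, hy, z, hz, rfl⟩, by ring⟩
    · rintro ⟨_, ⟨y, hy, z, hz, rfl⟩, rfl⟩
      exact ⟨Z * y, ⟨y, hy, rfl⟩, Z * z, ⟨z, hz, rfl⟩, by ring⟩

/-- clearing denominators of the multipliers and of the cofactors -/
theorem exists_norm (A : Finset ℤ) (u : ℤ → ℚ) (hu : ∀ a ∈ A, 0 < u a) :
    ∃ Z : ℕ, 0 < Z ∧ ∃ (U : ℤ → ℕ) (m : ℤ → ℤ), (∀ x, U x ≠ 0) ∧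
      (∀ a ∈ A, (U (Z * a) : ℤ) * m (Z * a) = Z * a) ∧
      (∀ a ∈ A, ∀ a' ∈ A, u a = u a' → U (Z * a) = U (Z * a')) ∧
      (∀ a ∈ A, ∀ a' ∈ A, (a : ℚ) / u a = (a' : ℚ) / u a' → m (Z * a) = m (Z * a')) := by
  classical
  obtain ⟨Z₁, hZ₁, h1⟩ := exists_scale A u
  obtain ⟨Z₂, hZ₂, h2⟩ := exists_scale A (fun a => (a : ℚ) / u a)
  choose! n₁ hn₁ using h1
  choose! n₂ hn₂ using h2
  set Z := Z₁ * Z₂ with hZ
  have hZpos : 0 < Z := Nat.mul_pos hZ₁ hZ₂
  have hZ0 : (Z : ℤ) ≠ 0 := by exact_mod_cast hZpos.ne'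
  have hZ₁q : (0:ℚ) < Z₁ := by exact_mod_cast hZ₁
  have hn₁pos : ∀ a ∈ A, 0 < n₁ a := by
    intro a ha
    have h := mul_pos (hu a ha) hZ₁q
    rw [hn₁ a ha] at h
    exact_mod_cast h
  refine ⟨Z, hZpos, fun x => if x / (Z : ℤ) ∈ A then (n₁ (x / (Z : ℤ))).natAbs else 1,
    fun x => n₂ (x / (Z : ℤ)), ?_, ?_, ?_, ?_⟩
  · intro x
    simp only
    split_ifs with h
    · exact Int.natAbs_ne_zero.2 (hn₁pos _ h).ne'
    · exact one_ne_zero
  · intro a ha
    have e : (Z : ℤ) * a / (Z : ℤ) = a := Int.mul_ediv_cancel_left _ hZ0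
    simp only [e]
    rw [if_pos ha]
    have h3 : ((n₁ a).natAbs : ℤ) = n₁ a := Int.natAbs_of_nonneg (hn₁pos a ha).le
    rw [h3]
    have h4 : ((n₁ a * n₂ a : ℤ) : ℚ) = ((Z : ℤ) * a : ℤ) := by
      push_cast
      rw [← hn₁ a ha, ← hn₂ a ha, hZ]
      push_cast
      have := (hu a ha).ne'
      (clear * - this hZ₂ hZ₁; field_simp)
    exact_mod_cast h4
  · intro a ha a' ha' h
    have e : ∀ b : ℤ, (Z : ℤ) * b / (Z : ℤ) = b := fun b => Int.mul_ediv_cancel_left _ hZ0
    simp only [e]
    rw [if_pos ha, if_pos ha']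
    have h3 : (n₁ a : ℚ) = n₁ a' := by rw [← hn₁ a ha, ← hn₁ a' ha', h]
    have h4 : n₁ a = n₁ a' := by exact_mod_cast h3
    rw [h4]
  · intro a ha a' ha' h
    have e : ∀ b : ℤ, (Z : ℤ) * b / (Z : ℤ) = b := fun b => Int.mul_ediv_cancel_left _ hZ0
    simp only [e]
    have h3 : (n₂ a : ℚ) = n₂ a' := by rw [← hn₂ a ha, ← hn₂ a' ha', h]
    exact_mod_cast h3

/-- **Iterated sum step with rational multipliers.** -/
theorem sum_iter_rat {θ lam : ℝ} (hθ0 : 0 < θ) (hθ1 : θ ≤ 1 / 2) (hl : 0 < lam) :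
    ∃ b C : ℝ, 0 ≤ b ∧ 1 ≤ C ∧ ∀ P : Finset ℕ, (∀ p ∈ P, p.Prime) →
      ∀ A : Finset ℤ, A.Nonempty → (0:ℤ) ∉ A →
      ∀ (u : ℤ → ℚ), (∀ a ∈ A, 0 < u a) →
      (∀ a ∈ A, ∀ a' ∈ A, (∀ p ∈ P, Pool.Agent.Helper5.val p a = Pool.Agent.Helper5.val p a') →
        u a = u a') →
      ∀ R : ℝ, 0 < R →
      (∀ a ∈ A, R ≤ ((A.filter (fun a' : ℤ => (a' : ℚ) / u a' = (a : ℚ) / u a)).card : ℝ)) →
      ∀ N k : ℕ, A.card ≤ N → ∀ j : ℕ, j ≤ k →
      (j : ℝ) * (Real.log A.card - ((P.card : ℝ) * (Real.log (1 / θ) + 2 + b) +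
        2 * θ * (((k:ℝ) + 1) * Real.log N) +
        (k * Real.log N) * (C ^ P.card * (N : ℝ) ^ (lam * (k + 1)) / R))) ≤
        Real.log ((sI A j).card : ℝ) := by
  classical
  obtain ⟨b, C, hb, hC, hstep⟩ := sum_iter' hθ0 hθ1 hl
  refine ⟨b, C, hb, hC, ?_⟩
  intro P hP A hA h0 u hu hdet R hR hfib N k hAN j hj
  obtain ⟨Z, hZ, U, m, hU0, hUm, hUu, hmm⟩ := exists_norm A u hu
  have hZ0 : (Z : ℤ) ≠ 0 := by exact_mod_cast hZ.ne'
  have hinj : Function.Injective (fun a : ℤ => (Z : ℤ) * a) := fun a b h =>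
    mul_left_cancel₀ hZ0 h
  set A' := A.image (fun a => (Z : ℤ) * a) with hA'
  have hcard : A'.card = A.card := card_image_of_injective _ hinj
  have hval : ∀ p ∈ P, ∀ a : ℤ, a ≠ 0 → Pool.Agent.Helper5.val p ((Z : ℤ) * a) =
      Pool.Agent.Helper5.val p (Z : ℤ) + Pool.Agent.Helper5.val p a := fun p _ a ha =>
    Pool.Agent.Helper5.val_mul hZ0 ha
  have hA0 : ∀ a ∈ A, a ≠ 0 := fun a ha h => h0 (h ▸ ha)
  have h := hstep P hP A' (hA.image _) (by
      intro hmem
      obtain ⟨a, ha, h⟩ := mem_image.1 hmem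
      rcases mul_eq_zero.1 h with h | h
      · exact hZ0 h
      · exact hA0 a ha h) U m hU0 (by
      intro x hx
      obtain ⟨a, ha, rfl⟩ := mem_image.1 hx
      exact hUm a ha) (by
      intro x hx y hy hxy
      obtain ⟨a, ha, rfl⟩ := mem_image.1 hx
      obtain ⟨a', ha', rfl⟩ := mem_image.1 hy
      apply hUu a ha a' ha'
      apply hdet a ha a' ha'
      intro p hp
      have := hxy p hp
      rw [hval p hp a (hA0 a ha), hval p hp a' (hA0 a' ha')] at this
      omega) R hR (by
      intro x hx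
      obtain ⟨a, ha, rfl⟩ := mem_image.1 hx
      refine (hfib a ha).trans ?_
      apply Nat.cast_le.2
      refine le_trans (le_of_eq (card_image_of_injective _ hinj).symm) ?_
      apply card_le_card
      intro y hy
      obtain ⟨a', ha', rfl⟩ := mem_image.1 hy
      rw [mem_filter] at ha'
      rw [mem_filter]
      exact ⟨mem_image_of_mem _ ha'.1, hmm a' ha'.1 a ha ha'.2⟩) N k (by rw [hcard]; exact hAN) j hj
  rw [hcard, hA', sI_scale, card_image_of_injective _ hinj] at h
  exact h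

/-- evaluation of an exponent vector -/
noncomputable def ev {ι : Type*} (g : ι → ℚ) (e : ι →₀ ℤ) : ℚ := e.prod fun i n => g i ^ n

theorem ev_pos {ι : Type*} {g : ι → ℚ} (hg : ∀ i, 0 < g i) (e : ι →₀ ℤ) : 0 < ev g e := by
  unfold ev Finsupp.prod
  exact Finset.prod_pos (fun i _ => zpow_pos (hg i) _)

theorem ev_add {ι : Type*} {g : ι → ℚ} (hg : ∀ i, 0 < g i) (e e' : ι →₀ ℤ) :
    ev g (e + e') = ev g e * ev g e' := by
  classical
  unfold ev
  rw [Finsupp.prod_add_index']
  · intro i; simp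
  · intro i m n; exact zpow_add₀ (hg i).ne' m n

theorem ev_neg {ι : Type*} {g : ι → ℚ} (hg : ∀ i, 0 < g i) (e : ι →₀ ℤ) :
    ev g (-e) = (ev g e)⁻¹ := by
  have h := ev_add hg e (-e)
  rw [add_neg_cancel] at h
  have h0 : ev g (0 : ι →₀ ℤ) = 1 := by unfold ev; simp
  rw [h0] at h
  exact eq_inv_of_mul_eq_one_right h.symm

theorem ev_sub {ι : Type*} {g : ι → ℚ} (hg : ∀ i, 0 < g i) (e e' : ι →₀ ℤ) :
    ev g (e - e') = ev g e / ev g e' := by
  rw [sub_eq_add_neg, ev_add hg, ev_neg hg, div_eq_mul_inv]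

/-- the valuation of an integer as the valuation of a rational -/
theorem padicValRat_eq_val {p : ℕ} (hp : p.Prime) {a : ℤ} {x : ℚ} (hx : |(a : ℚ)| = x) :
    padicValRat p x = (Pool.Agent.Helper5.val p a : ℤ) := by
  have h1 : x = ((a.natAbs : ℕ) : ℚ) := by rw [← hx, Nat.cast_natAbs, Int.cast_abs]
  rw [h1, padicValRat.of_nat]
  congr 1
  unfold Pool.Agent.Helper5.val
  rw [Nat.factorization_def _ hp]

/-- **Multipliers for a finitely generated group.** -/
theorem exists_mult {ι : Type*} {g : ι → ℚ} (hg : ∀ i, 0 < g i) (S : Finset ι)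
    (P : Finset ℕ) (hP : ∀ p ∈ P, p.Prime)
    (hinj : ∀ e : ι →₀ ℤ, e.support ⊆ S → (∀ p ∈ P, padicValRat p (ev g e) = 0) → e = 0)
    (A : Finset ℤ) (hA0 : ∀ a ∈ A, a ≠ 0) (e : ℤ → ι →₀ ℤ)
    (he : ∀ a ∈ A, |(a : ℚ)| = ev g (e a)) :
    ∃ u : ℤ → ℚ, (∀ a, 0 < u a) ∧
      (∀ a ∈ A, ∀ a' ∈ A, (∀ p ∈ P, Pool.Agent.Helper5.val p a = Pool.Agent.Helper5.val p a') →
        u a = u a') ∧
      (∀ a ∈ A, ∀ a' ∈ A, (e a - e a').support ⊆ S → |(a : ℚ)| / u a = |(a' : ℚ)| / u a') := by
  classical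
  -- the valuation vector
  let v : ℤ → (ℕ → ℤ) := fun a p => if p ∈ P then (Pool.Agent.Helper5.val p a : ℤ) else 0
  let φ : (ι →₀ ℤ) → (ℕ → ℤ) := fun e p => if p ∈ P then padicValRat p (ev g e) else 0
  have hφadd : ∀ e e' : ι →₀ ℤ, φ (e + e') = φ e + φ e' := by
    intro e e'
    funext p
    simp only [φ, Pi.add_apply]
    split_ifs with hp
    · haveI := Fact.mk (hP p hp)
      rw [ev_add hg, padicValRat.mul (ev_pos hg e).ne' (ev_pos hg e').ne']
    · rfl
  have hφneg : ∀ e : ι →₀ ℤ, φ (-e) = -φ e := by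
    intro e
    have h1 := hφadd e (-e)
    rw [add_neg_cancel] at h1
    have h0 : φ 0 = 0 := by
      have := hφadd 0 0
      rw [add_zero] at this
      exact left_eq_add.1 this
    rw [h0] at h1
    exact eq_neg_of_add_eq_zero_right h1.symm
  have hφinj : ∀ e e' : ι →₀ ℤ, e.support ⊆ S → e'.support ⊆ S → φ e = φ e' → e = e' := by
    intro e e' hs hs' h
    have h1 : e - e' = 0 := by
      apply hinj
      · intro i hi
        have := Finsupp.support_sub hi
        rcases mem_union.1 this with h | h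
        · exact hs h
        · exact hs' h
      · intro p hp
        have h2 : φ (e - e') = 0 := by rw [sub_eq_add_neg, hφadd, hφneg, h, add_neg_cancel]
        have h3 := congrFun h2 p
        simp only [φ, if_pos hp, Pi.zero_apply] at h3
        exact h3
    exact sub_eq_zero.1 h1
  -- the lattice relation
  let r : ℤ → ℤ → Prop := fun a a' => ∃ x : ι →₀ ℤ, x.support ⊆ S ∧ φ x = v a - v a'
  have hr : Equivalence r := by
    refine ⟨?_, ?_, ?_⟩
    · intro a
      refine ⟨0, by simp, ?_⟩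
      have := hφadd 0 0
      rw [add_zero] at this
      rw [sub_self]
      exact left_eq_add.1 this
    · rintro a a' ⟨x, hx, hx'⟩
      refine ⟨-x, by rw [Finsupp.support_neg]; exact hx, ?_⟩
      rw [hφneg, hx']; ring
    · rintro a a' a'' ⟨x, hx, hx'⟩ ⟨y, hy, hy'⟩
      refine ⟨x + y, ?_, ?_⟩
      · intro i hi
        rcases mem_union.1 (Finsupp.support_add hi) with h | h
        · exact hx h
        · exact hy h
      · rw [hφadd, hx', hy']; ring
  let st : Setoid ℤ := ⟨r, hr⟩
  let rep : ℤ → ℤ := fun a => (Quotient.mk st a).out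
  have hrep : ∀ a, r a (rep a) := by
    intro a
    have h : st.r (Quotient.mk st a).out a := Quotient.exact (Quotient.out_eq (Quotient.mk st a))
    exact hr.symm h
  have hrepeq : ∀ a a', r a a' → rep a = rep a' := by
    intro a a' h
    have : Quotient.mk st a = Quotient.mk st a' := Quotient.sound h
    simp only [rep]
    rw [this]
  choose x hxS hxφ using hrep
  refine ⟨fun a => ev g (x a), fun a => ev_pos hg _, ?_, ?_⟩
  · intro a ha a' ha' hval
    have hv : v a = v a' := by
      funext p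
      simp only [v]
      split_ifs with hp
      · rw [hval p hp]
      · rfl
    have h1 : r a a' := by
      refine ⟨0, by simp, ?_⟩
      have := hφadd 0 0
      rw [add_zero] at this
      rw [hv, sub_self]
      exact left_eq_add.1 this
    have h2 : x a = x a' := by
      apply hφinj _ _ (hxS a) (hxS a')
      rw [hxφ, hxφ, hrepeq a a' h1, hv]
    show ev g (x a) = ev g (x a')
    rw [h2]
  · intro a ha a' ha' hsupp
    have hφe : φ (e a - e a') = v a - v a' := by
      rw [sub_eq_add_neg, hφadd, hφneg]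
      funext p
      simp only [φ, v, Pi.add_apply, Pi.neg_apply, Pi.sub_apply]
      split_ifs with hp
      · rw [padicValRat_eq_val (hP p hp) (he a ha), padicValRat_eq_val (hP p hp) (he a' ha')]
        ring
      · ring
    have h1 : r a a' := ⟨e a - e a', hsupp, hφe⟩
    have h2 : x a = (e a - e a') + x a' := by
      apply hφinj _ _ (hxS a)
      · intro i hi
        rcases mem_union.1 (Finsupp.support_add hi) with h | h
        · exact hsupp h
        · exact hxS a' h
      · rw [hφadd, hφe, hxφ, hxφ, hrepeq a a' h1]; ring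
    show |(a : ℚ)| / ev g (x a) = |(a' : ℚ)| / ev g (x a')
    rw [h2, ev_add hg, ev_sub hg, ← he a ha, ← he a' ha']
    have e1 : (|(a : ℚ)|) ≠ 0 := by
      rw [abs_ne_zero]; exact_mod_cast hA0 a ha
    have e2 : (|(a' : ℚ)|) ≠ 0 := by
      rw [abs_ne_zero]; exact_mod_cast hA0 a' ha'
    have e3 := (ev_pos hg (x a')).ne'
    field_simp

end Pool.Agent.Helper2.E
end

/- Helper24.FF.H2.EVal -/
section
set_option autoImplicit false

/-!
Few primes separate the elements of a finitely generated multiplicative group.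
-/

open Finset

namespace Pool.Agent.Helper2.E

/-- few functionals separate the points of a finite dimensional space -/
theorem exists_sep {V : Type*} [AddCommGroup V] [Module ℚ V] [FiniteDimensional ℚ V]
    {I : Type*} [DecidableEq I] (Φ : I → V →ₗ[ℚ] ℚ) :
    ∀ (n : ℕ) (W : Submodule ℚ V), Module.finrank ℚ W ≤ n →
      (∀ w ∈ W, (∀ i, Φ i w = 0) → w = 0) →
      ∃ P : Finset I, P.card ≤ n ∧ ∀ w ∈ W, (∀ i ∈ P, Φ i w = 0) → w = 0 := by
  intro n
  induction n with
  | zero =>
    intro W hW _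
    refine ⟨∅, by simp, ?_⟩
    intro w hw _
    have h0 : Module.finrank ℚ W = 0 := by omega
    have h1 : W = ⊥ := Submodule.finrank_eq_zero.1 h0
    rw [h1] at hw
    exact (Submodule.mem_bot ℚ).1 hw
  | succ n ih =>
    intro W hW hsep
    by_cases hbot : W = ⊥
    · refine ⟨∅, by simp, ?_⟩
      intro w hw _
      rw [hbot] at hw
      exact (Submodule.mem_bot ℚ).1 hw
    · obtain ⟨w, hw, hw0⟩ := Submodule.exists_mem_ne_zero_of_ne_bot hbot
      have hex : ∃ i, Φ i w ≠ 0 := by
        by_contra h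
        push Not at h
        exact hw0 (hsep w hw h)
      obtain ⟨i, hi⟩ := hex
      set W' := W ⊓ LinearMap.ker (Φ i) with hW'
      have hlt : W' < W := by
        refine lt_of_le_of_ne inf_le_left ?_
        intro h
        have : w ∈ W' := by rw [h]; exact hw
        exact hi (LinearMap.mem_ker.1 this.2)
      have hfr := Submodule.finrank_lt_finrank_of_lt hlt
      obtain ⟨P, hP1, hP2⟩ := ih W' (by omega) (fun x hx hx' => hsep x hx.1 hx')
      refine ⟨insert i P, (card_insert_le _ _).trans (by omega), ?_⟩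
      intro x hx hx'
      apply hP2 x ⟨hx, LinearMap.mem_ker.2 (hx' i (mem_insert_self _ _))⟩
      intro j hj
      exact hx' j (mem_insert_of_mem hj)

theorem padicValRat_ev {ι : Type*} {g : ι → ℚ} (hg : ∀ i, 0 < g i) {p : ℕ} (hp : p.Prime)
    (e : ι →₀ ℤ) : padicValRat p (ev g e) = e.sum fun i n => n * padicValRat p (g i) := by
  classical
  haveI := Fact.mk hp
  induction e using Finsupp.induction with
  | zero =>
    unfold ev
    simp
  | single_add i n e hi hn ih =>
    rw [ev_add hg, padicValRat.mul (ev_pos hg _).ne' (ev_pos hg e).ne', ih]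
    rw [Finsupp.sum_add_index' (by intro j; simp) (by intro j m n; ring)]
    congr 1
    unfold ev
    rw [Finsupp.prod_single_index (by simp), Finsupp.sum_single_index (by simp)]
    exact padicValRat.zpow (g i)

/-- a positive rational with trivial valuations is one -/
theorem eq_one_of_padicValRat {x : ℚ} (hx : 0 < x) (h : ∀ p : ℕ, p.Prime → padicValRat p x = 0) :
    x = 1 := by
  have hnum : 0 < x.num := Rat.num_pos.2 hx
  have h1 : x.num.natAbs = x.den := by
    apply Nat.eq_of_factorization_eq (Int.natAbs_ne_zero.2 hnum.ne') x.den_ne_zero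
    intro p
    by_cases hp : p.Prime
    · have h2 := h p hp
      unfold padicValRat at h2
      rw [Nat.factorization_def _ hp, Nat.factorization_def _ hp]
      have h3 : padicValInt p x.num = padicValNat p x.num.natAbs := rfl
      rw [h3] at h2
      omega
    · rw [Nat.factorization_eq_zero_of_not_prime _ hp, Nat.factorization_eq_zero_of_not_prime _ hp]
  have h2 : x.num = x.den := by
    have := Int.natAbs_of_nonneg hnum.le
    rw [← this, h1]
  rw [← Rat.num_div_den x, h2]
  have : (x.den : ℚ) ≠ 0 := by exact_mod_cast x.den_ne_zero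
  rw [Int.cast_natCast, div_self this]

/-- **Few primes separate the elements of a finitely generated multiplicative group.** -/
theorem exists_primes {ι : Type*} [DecidableEq ι] {g : ι → ℚ} (hg : ∀ i, 0 < g i) (S : Finset ι)
    (hind : ∀ e : ι →₀ ℤ, e.support ⊆ S → ev g e = 1 → e = 0) :
    ∃ P : Finset ℕ, (∀ p ∈ P, p.Prime) ∧ P.card ≤ S.card ∧
      ∀ e : ι →₀ ℤ, e.support ⊆ S → (∀ p ∈ P, padicValRat p (ev g e) = 0) → e = 0 := by
  classical
  let Φ : {p : ℕ // p.Prime} → (({i // i ∈ S}) → ℚ) →ₗ[ℚ] ℚ := fun p =>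
    ∑ i : {i // i ∈ S}, (padicValRat p.1 (g i.1) : ℚ) • LinearMap.proj i
  have hΦ : ∀ p w, Φ p w = ∑ i : {i // i ∈ S}, (padicValRat p.1 (g i.1) : ℚ) * w i := by
    intro p w
    simp only [Φ, LinearMap.sum_apply, LinearMap.smul_apply, LinearMap.proj_apply, smul_eq_mul]
  -- an integer vector killed by all functionals is zero
  have hint : ∀ e : ι →₀ ℤ, e.support ⊆ S → ∀ p : {p : ℕ // p.Prime},
      Φ p (fun i => (e i.1 : ℚ)) = ((padicValRat p.1 (ev g e) : ℤ) : ℚ) := by
    intro e he p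
    rw [hΦ, padicValRat_ev hg p.2, Finsupp.sum_of_support_subset e he _ (by intro i _; simp)]
    push_cast
    rw [← Finset.sum_coe_sort S]
    apply sum_congr rfl
    intro i _
    ring
  have hsep : ∀ w ∈ (⊤ : Submodule ℚ ({i // i ∈ S} → ℚ)), (∀ p, Φ p w = 0) → w = 0 := by
    intro w _ hw
    -- clear denominators
    set D : ℕ := ∏ i : {i // i ∈ S}, (w i).den with hD
    have hDpos : 0 < D := Finset.prod_pos (fun i _ => (w i).den_pos)
    have hDi : ∀ i : {i // i ∈ S}, ∃ n : ℤ, w i * D = n := by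
      intro i
      obtain ⟨t, ht⟩ := Finset.dvd_prod_of_mem (fun i : {i // i ∈ S} => (w i).den) (mem_univ i)
      refine ⟨(w i).num * t, ?_⟩
      rw [hD, ht]
      push_cast
      rw [← mul_assoc, Rat.mul_den_eq_num]
    choose n hn using hDi
    let e : ι →₀ ℤ := Finsupp.onFinset S (fun i => if h : i ∈ S then n ⟨i, h⟩ else 0) (by
      intro i hi
      by_contra h
      rw [dif_neg h] at hi
      exact hi rfl)
    have heS : e.support ⊆ S := Finsupp.support_onFinset_subset
    have hei : ∀ i : {i // i ∈ S}, (e i.1 : ℚ) = w i * D := by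
      intro i
      have : e i.1 = n i := by
        simp only [e, Finsupp.onFinset_apply]
        rw [dif_pos i.2]
      rw [this, hn i]
    have hval : ∀ p : ℕ, p.Prime → padicValRat p (ev g e) = 0 := by
      intro p hp
      have h1 := hint e heS ⟨p, hp⟩
      have h2 : (fun i : {i // i ∈ S} => (e i.1 : ℚ)) = (D : ℚ) • w := by
        funext i
        rw [hei i, Pi.smul_apply, smul_eq_mul, mul_comm]
      rw [h2, map_smul, hw, smul_zero] at h1
      exact_mod_cast h1.symm
    have he0 : e = 0 := hind e heS (eq_one_of_padicValRat (ev_pos hg e) hval)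
    funext i
    have h3 := hei i
    rw [he0] at h3
    simp only [Finsupp.coe_zero, Pi.zero_apply, Int.cast_zero] at h3
    rcases mul_eq_zero.1 h3.symm with h | h
    · rw [h]; rfl
    · exact absurd h (by exact_mod_cast hDpos.ne')
  obtain ⟨P, hP1, hP2⟩ := exists_sep Φ S.card ⊤ (by
    rw [finrank_top, Module.finrank_pi, Fintype.card_coe]) hsep
  refine ⟨P.image Subtype.val, ?_, card_image_le.trans hP1, ?_⟩
  · intro p hp
    obtain ⟨q, _, rfl⟩ := mem_image.1 hp
    exact q.2
  · intro e he hval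
    have h1 := hP2 (fun i => (e i.1 : ℚ)) Submodule.mem_top (by
      intro p hp
      rw [hint e he p, hval p.1 (mem_image_of_mem _ hp), Int.cast_zero])
    ext i
    by_cases hi : i ∈ S
    · have h2 := congrFun h1 ⟨i, hi⟩
      simp only [Pi.zero_apply] at h2
      exact_mod_cast h2
    · exact Finsupp.notMem_support_iff.1 (fun h => hi (he h))

end Pool.Agent.Helper2.E
end

/- Helper24.FF.H2.ECoset2 -/
section
set_option autoImplicit false

/-!
Few primes separate the elements of a finitely generated multiplicative group: the version for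
generators that may satisfy multiplicative relations.
-/

open Finset

namespace Pool.Agent.Helper2.E

/-- few functionals of a family have the same common kernel as the whole family -/
theorem exists_sep' {V : Type*} [AddCommGroup V] [Module ℚ V] [FiniteDimensional ℚ V]
    {I : Type*} [DecidableEq I] (Φ : I → V →ₗ[ℚ] ℚ) :
    ∀ (n : ℕ) (W : Submodule ℚ V), Module.finrank ℚ W ≤ n →
      ∃ P : Finset I, P.card ≤ n ∧ ∀ w ∈ W, (∀ i ∈ P, Φ i w = 0) → ∀ i, Φ i w = 0 := by
  intro n
  induction n with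
  | zero =>
    intro W hW
    refine ⟨∅, by simp, ?_⟩
    intro w hw _ i
    have h0 : Module.finrank ℚ W = 0 := by omega
    have h1 : W = ⊥ := Submodule.finrank_eq_zero.1 h0
    rw [h1] at hw
    rw [(Submodule.mem_bot ℚ).1 hw, map_zero]
  | succ n ih =>
    intro W hW
    by_cases hall : ∀ w ∈ W, ∀ i, Φ i w = 0
    · exact ⟨∅, by simp, fun w hw _ => hall w hw⟩
    · push Not at hall
      obtain ⟨w, hw, i, hi⟩ := hall
      set W' := W ⊓ LinearMap.ker (Φ i) with hW'
      have hlt : W' < W := by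
        refine lt_of_le_of_ne inf_le_left ?_
        intro h
        have : w ∈ W' := by rw [h]; exact hw
        exact hi (LinearMap.mem_ker.1 this.2)
      have hfr := Submodule.finrank_lt_finrank_of_lt hlt
      obtain ⟨P, hP1, hP2⟩ := ih W' (by omega)
      refine ⟨insert i P, (card_insert_le _ _).trans (by omega), ?_⟩
      intro x hx hx'
      apply hP2 x ⟨hx, LinearMap.mem_ker.2 (hx' i (mem_insert_self _ _))⟩
      intro j hj
      exact hx' j (mem_insert_of_mem hj)

/-- **Few primes separate the elements of a finitely generated multiplicative group.** -/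
theorem exists_primes' {ι : Type*} [DecidableEq ι] {g : ι → ℚ} (hg : ∀ i, 0 < g i)
    (S : Finset ι) :
    ∃ P : Finset ℕ, (∀ p ∈ P, p.Prime) ∧ P.card ≤ S.card ∧
      ∀ e : ι →₀ ℤ, e.support ⊆ S → (∀ p ∈ P, padicValRat p (ev g e) = 0) → ev g e = 1 := by
  classical
  let Φ : {p : ℕ // p.Prime} → (({i // i ∈ S}) → ℚ) →ₗ[ℚ] ℚ := fun p =>
    ∑ i : {i // i ∈ S}, (padicValRat p.1 (g i.1) : ℚ) • LinearMap.proj i
  have hΦ : ∀ p w, Φ p w = ∑ i : {i // i ∈ S}, (padicValRat p.1 (g i.1) : ℚ) * w i := by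
    intro p w
    simp only [Φ, LinearMap.sum_apply, LinearMap.smul_apply, LinearMap.proj_apply, smul_eq_mul]
  have hint : ∀ e : ι →₀ ℤ, e.support ⊆ S → ∀ p : {p : ℕ // p.Prime},
      Φ p (fun i => (e i.1 : ℚ)) = ((padicValRat p.1 (ev g e) : ℤ) : ℚ) := by
    intro e he p
    rw [hΦ, padicValRat_ev hg p.2, Finsupp.sum_of_support_subset e he _ (by intro i _; simp)]
    push_cast
    rw [← Finset.sum_coe_sort S]
    apply sum_congr rfl
    intro i _
    ring
  obtain ⟨P, hP1, hP2⟩ := exists_sep' Φ S.card ⊤ (by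
    rw [finrank_top, Module.finrank_pi, Fintype.card_coe])
  refine ⟨P.image Subtype.val, ?_, card_image_le.trans hP1, ?_⟩
  · intro p hp
    obtain ⟨q, _, rfl⟩ := mem_image.1 hp
    exact q.2
  · intro e he hval
    have h1 := hP2 (fun i => (e i.1 : ℚ)) Submodule.mem_top (by
      intro p hp
      rw [hint e he p, hval p.1 (mem_image_of_mem _ hp), Int.cast_zero])
    apply eq_one_of_padicValRat (ev_pos hg e)
    intro p hp
    have h2 := h1 ⟨p, hp⟩
    rw [hint e he ⟨p, hp⟩] at h2
    exact_mod_cast h2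

/-- **Multipliers for a finitely generated group.** -/
theorem exists_mult' {ι : Type*} {g : ι → ℚ} (hg : ∀ i, 0 < g i) (S : Finset ι)
    (P : Finset ℕ) (hP : ∀ p ∈ P, p.Prime)
    (hinj : ∀ e : ι →₀ ℤ, e.support ⊆ S → (∀ p ∈ P, padicValRat p (ev g e) = 0) → ev g e = 1)
    (A : Finset ℤ) (hA0 : ∀ a ∈ A, a ≠ 0) :
    ∃ u : ℤ → ℚ, (∀ a, 0 < u a) ∧
      (∀ a ∈ A, ∀ a' ∈ A, (∀ p ∈ P, Pool.Agent.Helper5.val p a = Pool.Agent.Helper5.val p a') →
        u a = u a') ∧
      (∀ a ∈ A, ∀ a' ∈ A, (∃ x : ι →₀ ℤ, x.support ⊆ S ∧ |(a : ℚ)| = |(a' : ℚ)| * ev g x) →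
        |(a : ℚ)| / u a = |(a' : ℚ)| / u a') := by
  classical
  -- the valuation vector
  let v : ℤ → (ℕ → ℤ) := fun a p => if p ∈ P then (Pool.Agent.Helper5.val p a : ℤ) else 0
  let φ : (ι →₀ ℤ) → (ℕ → ℤ) := fun e p => if p ∈ P then padicValRat p (ev g e) else 0
  have hφadd : ∀ e e' : ι →₀ ℤ, φ (e + e') = φ e + φ e' := by
    intro e e'
    funext p
    simp only [φ, Pi.add_apply]
    split_ifs with hp
    · haveI := Fact.mk (hP p hp)
      rw [ev_add hg, padicValRat.mul (ev_pos hg e).ne' (ev_pos hg e').ne']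
    · rfl
  have hφneg : ∀ e : ι →₀ ℤ, φ (-e) = -φ e := by
    intro e
    have h1 := hφadd e (-e)
    rw [add_neg_cancel] at h1
    have h0 : φ 0 = 0 := by
      have := hφadd 0 0
      rw [add_zero] at this
      exact left_eq_add.1 this
    rw [h0] at h1
    exact eq_neg_of_add_eq_zero_right h1.symm
  have hφinj : ∀ e e' : ι →₀ ℤ, e.support ⊆ S → e'.support ⊆ S → φ e = φ e' →
      ev g e = ev g e' := by
    intro e e' hs hs' h
    have h1 : ev g (e - e') = 1 := by
      apply hinj
      · intro i hi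
        have := Finsupp.support_sub hi
        rcases mem_union.1 this with h | h
        · exact hs h
        · exact hs' h
      · intro p hp
        have h2 : φ (e - e') = 0 := by rw [sub_eq_add_neg, hφadd, hφneg, h, add_neg_cancel]
        have h3 := congrFun h2 p
        simp only [φ, if_pos hp, Pi.zero_apply] at h3
        exact h3
    rw [ev_sub hg, div_eq_one_iff_eq (ev_pos hg e').ne'] at h1
    exact h1
  -- the lattice relation
  let r : ℤ → ℤ → Prop := fun a a' => ∃ x : ι →₀ ℤ, x.support ⊆ S ∧ φ x = v a - v a'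
  have hr : Equivalence r := by
    refine ⟨?_, ?_, ?_⟩
    · intro a
      refine ⟨0, by simp, ?_⟩
      have := hφadd 0 0
      rw [add_zero] at this
      rw [sub_self]
      exact left_eq_add.1 this
    · rintro a a' ⟨x, hx, hx'⟩
      refine ⟨-x, by rw [Finsupp.support_neg]; exact hx, ?_⟩
      rw [hφneg, hx']; ring
    · rintro a a' a'' ⟨x, hx, hx'⟩ ⟨y, hy, hy'⟩
      refine ⟨x + y, ?_, ?_⟩
      · intro i hi
        rcases mem_union.1 (Finsupp.support_add hi) with h | h
        · exact hx h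
        · exact hy h
      · rw [hφadd, hx', hy']; ring
  let st : Setoid ℤ := ⟨r, hr⟩
  let rep : ℤ → ℤ := fun a => (Quotient.mk st a).out
  have hrep : ∀ a, r a (rep a) := by
    intro a
    have h : st.r (Quotient.mk st a).out a := Quotient.exact (Quotient.out_eq (Quotient.mk st a))
    exact hr.symm h
  have hrepeq : ∀ a a', r a a' → rep a = rep a' := by
    intro a a' h
    have : Quotient.mk st a = Quotient.mk st a' := Quotient.sound h
    simp only [rep]
    rw [this]
  choose x hxS hxφ using hrep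
  refine ⟨fun a => ev g (x a), fun a => ev_pos hg _, ?_, ?_⟩
  · intro a ha a' ha' hval
    have hv : v a = v a' := by
      funext p
      simp only [v]
      split_ifs with hp
      · rw [hval p hp]
      · rfl
    have h1 : r a a' := by
      refine ⟨0, by simp, ?_⟩
      have := hφadd 0 0
      rw [add_zero] at this
      rw [hv, sub_self]
      exact left_eq_add.1 this
    apply hφinj _ _ (hxS a) (hxS a')
    rw [hxφ, hxφ, hrepeq a a' h1, hv]
  · rintro a ha a' ha' ⟨e, he, hae⟩
    have ha0 : (0:ℚ) < |(a : ℚ)| := abs_pos.2 (by exact_mod_cast hA0 a ha)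
    have ha0' : (0:ℚ) < |(a' : ℚ)| := abs_pos.2 (by exact_mod_cast hA0 a' ha')
    have hφe : φ e = v a - v a' := by
      funext p
      simp only [φ, v, Pi.sub_apply]
      split_ifs with hp
      · haveI := Fact.mk (hP p hp)
        have h1 : padicValRat p |(a : ℚ)| = padicValRat p |(a' : ℚ)| + padicValRat p (ev g e) := by
          rw [hae, padicValRat.mul ha0'.ne' (ev_pos hg e).ne']
        rw [padicValRat_eq_val (hP p hp) (rfl : |(a : ℚ)| = |(a : ℚ)|),
          padicValRat_eq_val (hP p hp) (rfl : |(a' : ℚ)| = |(a' : ℚ)|)] at h1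
        (clear * - h1; linarith only [h1])
      · ring
    have h1 : r a a' := ⟨e, he, hφe⟩
    have h2 : ev g (x a) = ev g (e + x a') := by
      apply hφinj _ _ (hxS a)
      · intro i hi
        rcases mem_union.1 (Finsupp.support_add hi) with h | h
        · exact he h
        · exact hxS a' h
      · rw [hφadd, hφe, hxφ, hxφ, hrepeq a a' h1]; ring
    show |(a : ℚ)| / ev g (x a) = |(a' : ℚ)| / ev g (x a')
    rw [h2, ev_add hg, hae]
    have e3 := (ev_pos hg (x a')).ne'
    have e4 := (ev_pos hg e).ne'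
    (clear * - e4 e3 ha0'; field_simp)

end Pool.Agent.Helper2.E
end
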