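import Pool.Agent.Helper24.FG.G01

/- Helper24.FF.H2.EProdV -/
section
set_option autoImplicit false

/-!
The product side, on exponent vectors: iterated sumsets of finite sets of finitely supported
integer vectors.
-/

open Finset

namespace Pool.Agent.Helper2.E

/-- a sub-probability on the fibres of `f` forces many values -/
theorem log_image_ge' {ι β : Type*} [DecidableEq ι] [DecidableEq β] {Ω : Finset ι}
    (hΩ : Ω.Nonempty) (f : ι → β) (w : ι → ℝ) (hw : ∀ e ∈ Ω, 0 < w e)
    (hker : ∀ x, ∑ e ∈ Ω.filter (fun e => f e = x), w e ≤ 1) :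
    Real.log Ω.card + (1 / (Ω.card : ℝ)) * ∑ e ∈ Ω, Real.log (w e) ≤
      Real.log ((Ω.image f).card : ℝ) := by
  classical
  have hn : (0:ℝ) < Ω.card := by exact_mod_cast card_pos.2 hΩ
  have hT : (0:ℝ) < ((Ω.image f).card : ℝ) := by exact_mod_cast card_pos.2 (hΩ.image f)
  set n : ℝ := (Ω.card : ℝ) with hndef
  set T : ℝ := ((Ω.image f).card : ℝ) with hTdef
  have hsum : ∑ e ∈ Ω, w e ≤ T := by
    rw [← Finset.sum_fiberwise_of_maps_to (t := Ω.image f) (g := f)
      (fun e he => mem_image_of_mem _ he)]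
    calc ∑ x ∈ Ω.image f, ∑ e ∈ Ω.filter (fun e => f e = x), w e
        ≤ ∑ _x ∈ Ω.image f, (1:ℝ) := sum_le_sum (fun x _ => hker x)
      _ = T := by rw [sum_const, nsmul_eq_mul, mul_one]
  have h1 : ∀ e ∈ Ω, Real.log (w e) ≤ Real.log (T / n) + (n / T * w e - 1) := by
    intro e he
    have h2 : Real.log (n / T * w e) ≤ n / T * w e - 1 :=
      Real.log_le_sub_one_of_pos (mul_pos (div_pos hn hT) (hw e he))
    have h3 : Real.log (n / T * w e) = -Real.log (T / n) + Real.log (w e) := by
      rw [Real.log_mul (div_pos hn hT).ne' (hw e he).ne', Real.log_div hn.ne' hT.ne',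
        Real.log_div hT.ne' hn.ne']
      ring
    linarith
  have h4 : ∑ e ∈ Ω, Real.log (w e) ≤ n * Real.log (T / n) := by
    refine (sum_le_sum h1).trans ?_
    rw [sum_add_distrib, sum_sub_distrib, ← mul_sum, sum_const, sum_const, nsmul_eq_mul,
      nsmul_eq_mul, mul_one]
    have h5 : n / T * ∑ e ∈ Ω, w e ≤ n / T * T :=
      mul_le_mul_of_nonneg_left hsum (div_pos hn hT).le
    have h6 : n / T * T = n := by field_simp
    (clear * - h5 h6; linarith)
  have h7 : (1 / n) * ∑ e ∈ Ω, Real.log (w e) ≤ Real.log (T / n) := by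
    have := mul_le_mul_of_nonneg_left h4 (by (clear * - hΩ; positivity) : 0 ≤ 1 / n)
    have h8 : 1 / n * (n * Real.log (T / n)) = Real.log (T / n) := by (clear * - hn; field_simp)
    (clear * - this h8; linarith only [this, h8])
  rw [Real.log_div hT.ne' hn.ne'] at h7
  linarith only [h7]

/-- iterated sumset of vectors -/
noncomputable def vI {ι : Type*} [DecidableEq ι] (A : Finset (ι →₀ ℤ)) : ℕ → Finset (ι →₀ ℤ)
  | 0 => {0}
  | (j + 1) => image₂ (· + ·) (vI A j) A

variable {ι : Type*} [DecidableEq ι]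

/-- the class of vectors of `K` with `q`-coordinate `c` -/
def vc (K : Finset (ι →₀ ℤ)) (q : ι) (c : ℤ) : Finset (ι →₀ ℤ) := K.filter (fun d => d q = c)

theorem mem_vc {K : Finset (ι →₀ ℤ)} {q : ι} {c : ℤ} {d : ι →₀ ℤ} :
    d ∈ vc K q c ↔ d ∈ K ∧ d q = c := by
  unfold vc; rw [mem_filter]

/-- the factor at the coordinate `q` -/
noncomputable def fq (θ : ℝ) (K : Finset (ι →₀ ℤ)) (q : ι) (y c : ℤ) : ℝ :=
  if y = 0 then
    (if c = 0 then (((vc K q c).card : ℝ) / K.card) ^ θ else θ * (((vc K q c).card : ℝ) / K.card))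
  else (1 / 2) * (if c = y then 1 else (((vc K q c).card : ℝ) / K.card))

/-- the weight along a list of coordinates -/
noncomputable def wv (θ : ℝ) (y d : ι →₀ ℤ) : List ι → Finset (ι →₀ ℤ) → ℝ
  | [], _ => 1
  | (q :: l), K => fq θ K q (y q) (d q) * wv θ y d l (vc K q (d q))

theorem vc_sum (K : Finset (ι →₀ ℤ)) (q : ι) (hK : K.Nonempty) :
    ∑ c ∈ K.image (fun d => d q), (((vc K q c).card : ℝ) / K.card) = 1 := by
  have h1 : (K.card : ℝ) = ∑ c ∈ K.image (fun d => d q), ((vc K q c).card : ℝ) := by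
    have := Finset.card_eq_sum_card_image (fun d : ι →₀ ℤ => d q) K
    exact_mod_cast this
  have hpos : (0:ℝ) < K.card := by exact_mod_cast card_pos.2 hK
  rw [← sum_div, ← h1, div_self hpos.ne']

theorem fq_sum {θ : ℝ} (hθ0 : 0 < θ) (hθ1 : θ ≤ 1) (K : Finset (ι →₀ ℤ)) (hK : K.Nonempty)
    (q : ι) (y : ℤ) : ∑ c ∈ K.image (fun d => d q), fq θ K q y c ≤ 1 := by
  have hsum := vc_sum K q hK
  set ρ : ℤ → ℝ := fun c => ((vc K q c).card : ℝ) / K.card with hρ
  have hρ0 : ∀ c, 0 ≤ ρ c := fun c => by (clear * - hK; positivity)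
  by_cases hy : y = 0
  · have hf : ∀ c, fq θ K q y c = if c = 0 then (ρ c) ^ θ else θ * ρ c := by
      intro c; unfold fq; rw [if_pos hy]
    simp only [hf]
    by_cases h0 : (0:ℤ) ∈ K.image (fun d => d q)
    · rw [← add_sum_erase _ _ h0, if_pos rfl]
      have h1 : ∑ c ∈ (K.image (fun d => d q)).erase 0, (if c = 0 then (ρ c) ^ θ else θ * ρ c) =
          θ * ∑ c ∈ (K.image (fun d => d q)).erase 0, ρ c := by
        rw [mul_sum]
        apply sum_congr rfl
        intro c hc
        rw [if_neg (ne_of_mem_erase hc)]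
      have h2 : ∑ c ∈ (K.image (fun d => d q)).erase 0, ρ c = 1 - ρ 0 := by
        rw [← hsum, ← add_sum_erase _ _ h0]; ring
      rw [h1, h2]
      exact bern hθ0.le hθ1 (hρ0 0)
    · have h1 : ∑ c ∈ K.image (fun d => d q), (if c = 0 then (ρ c) ^ θ else θ * ρ c) =
          θ * ∑ c ∈ K.image (fun d => d q), ρ c := by
        rw [mul_sum]
        apply sum_congr rfl
        intro c hc
        rw [if_neg (fun h => h0 (by rw [← h]; exact hc))]
      rw [h1, hsum, mul_one]
      exact hθ1
  · have hf : ∀ c, fq θ K q y c ≤ (1 / 2) * (if c = y then 1 else 0) + (1 / 2) * ρ c := by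
      intro c
      unfold fq
      rw [if_neg hy]
      have := hρ0 c
      simp only [hρ] at this
      split_ifs with h
      · linarith
      · linarith only []
    refine (sum_le_sum (fun c _ => hf c)).trans ?_
    rw [sum_add_distrib, ← mul_sum, ← mul_sum, hsum]
    have h1 : ∑ c ∈ K.image (fun d => d q), (if c = y then (1:ℝ) else 0) ≤ 1 := by
      rw [sum_ite_eq']
      split_ifs <;> norm_num
    linarith only [h1]

theorem fq_pos {θ : ℝ} (hθ0 : 0 < θ) {K : Finset (ι →₀ ℤ)} {d : ι →₀ ℤ} (hd : d ∈ K)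
    (q : ι) (y : ℤ) : 0 < fq θ K q y (d q) := by
  have h1 : 0 < (vc K q (d q)).card := card_pos.2 ⟨d, mem_filter.2 ⟨hd, rfl⟩⟩
  have h2 : 0 < K.card := card_pos.2 ⟨d, hd⟩
  have h3 : (0:ℝ) < ((vc K q (d q)).card : ℝ) := by exact_mod_cast h1
  have h4 : (0:ℝ) < (K.card : ℝ) := by exact_mod_cast h2
  unfold fq
  split_ifs <;> (clear * - h1 h2 hθ0; positivity)

theorem wv_pos {θ : ℝ} (hθ0 : 0 < θ) (y d : ι →₀ ℤ) : ∀ (l : List ι) (K : Finset (ι →₀ ℤ)),
    d ∈ K → 0 < wv θ y d l K := by
  intro l
  induction l with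
  | nil => intro K _; exact one_pos
  | cons q l ih =>
    intro K hd
    exact mul_pos (fq_pos hθ0 hd q _) (ih _ (mem_filter.2 ⟨hd, rfl⟩))

/-- kernel -/
theorem wv_sum {θ : ℝ} (hθ0 : 0 < θ) (hθ1 : θ ≤ 1) (y : ι →₀ ℤ) :
    ∀ (l : List ι) (K : Finset (ι →₀ ℤ)),
      (∀ d ∈ K, ∀ d' ∈ K, (∀ q ∈ l, d q = d' q) → d = d') → ∑ d ∈ K, wv θ y d l K ≤ 1 := by
  intro l
  induction l with
  | nil =>
    intro K hsep
    have h1 : K.card ≤ 1 := by
      rw [card_le_one]
      intro d hd d' hd'
      exact hsep d hd d' hd' (by simp)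
    simp only [wv, sum_const, nsmul_eq_mul, mul_one]
    exact_mod_cast h1
  | cons q l ih =>
    intro K hsep
    rcases K.eq_empty_or_nonempty with h0 | hne
    · rw [h0, sum_empty]; exact zero_le_one
    rw [← Finset.sum_fiberwise_of_maps_to (t := K.image (fun d => d q)) (g := fun d => d q)
      (fun e he => mem_image_of_mem _ he)]
    refine le_trans (sum_le_sum (g := fun c => fq θ K q (y q) c) ?_) (fq_sum hθ0 hθ1 K hne q (y q))
    intro c hc
    have h1 : ∀ d ∈ K.filter (fun d => d q = c), wv θ y d (q :: l) K =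
        fq θ K q (y q) c * wv θ y d l (vc K q c) := by
      intro d hd
      rw [mem_filter] at hd
      show fq θ K q (y q) (d q) * wv θ y d l (vc K q (d q)) = _
      rw [hd.2]
    rw [sum_congr rfl h1, ← mul_sum]
    have h2 : ∑ d ∈ K.filter (fun d => d q = c), wv θ y d l (vc K q c) ≤ 1 := by
      apply ih
      intro d hd d' hd' h
      rw [mem_filter] at hd hd'
      apply hsep d hd.1 d' hd'.1
      intro q' hq'
      rcases List.mem_cons.1 hq' with rfl | hq'
      · rw [hd.2, hd'.2]
      · exact h q' hq'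
    have h3 : 0 ≤ fq θ K q (y q) c := by
      obtain ⟨d, hd, rfl⟩ := mem_image.1 hc
      exact (fq_pos hθ0 hd q _).le
    calc fq θ K q (y q) c * ∑ d ∈ K.filter (fun d => d q = c), wv θ y d l (vc K q c)
        ≤ fq θ K q (y q) c * 1 := mul_le_mul_of_nonneg_left h2 h3
      _ = _ := mul_one _

/-- cost of one coordinate -/
theorem fq_cost {θ : ℝ} (hθ0 : 0 < θ) (hθ1 : θ ≤ 1) {K : Finset (ι →₀ ℤ)} {d : ι →₀ ℤ}
    (hd : d ∈ K) (q : ι) (a : ℤ) :
    -Real.log (fq θ K q (d q + a) (d q)) ≤
      (if d q + a = 0 then 0 else 1) * Real.log 2 +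
      θ * (Real.log K.card - Real.log (vc K q (d q)).card) +
      (if a = 0 then 0 else 1) * (Real.log K.card - Real.log (vc K q (d q)).card) +
      (if a = 0 then 0 else 1) * ((if d q = 0 then 0 else 1) * Real.log (1 / θ)) := by
  have h1 : 0 < (vc K q (d q)).card := card_pos.2 ⟨d, mem_filter.2 ⟨hd, rfl⟩⟩
  have h2 : 0 < K.card := card_pos.2 ⟨d, hd⟩
  have h3 : (0:ℝ) < ((vc K q (d q)).card : ℝ) := by exact_mod_cast h1
  have h4 : (0:ℝ) < (K.card : ℝ) := by exact_mod_cast h2
  have h5 : Real.log ((vc K q (d q)).card : ℝ) ≤ Real.log K.card :=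
    Real.log_le_log h3 (by exact_mod_cast card_le_card (filter_subset _ _))
  have hlogθ : 0 ≤ Real.log (1 / θ) := by
    apply Real.log_nonneg
    rw [le_div_iff₀ hθ0]; linarith only [hθ1]
  have hlog2 : 0 < Real.log 2 := Real.log_pos (by norm_num)
  have hdiv : Real.log (((vc K q (d q)).card : ℝ) / K.card) =
      Real.log (vc K q (d q)).card - Real.log K.card := Real.log_div h3.ne' h4.ne'
  have hpos : 0 < ((vc K q (d q)).card : ℝ) / K.card := by (clear * - h1 h2; positivity)
  have hθ' : Real.log (1 / θ) = -Real.log θ := by rw [one_div, Real.log_inv]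
  have hge : 0 ≤ θ * (Real.log K.card - Real.log (vc K q (d q)).card) :=
    mul_nonneg hθ0.le (by linarith only [h5])
  unfold fq
  by_cases hy : d q + a = 0
  · rw [if_pos hy, if_pos hy]
    by_cases hc : d q = 0
    · have ha : a = 0 := by omega
      rw [if_pos hc, if_pos ha, if_pos hc, Real.log_rpow hpos, hdiv]
      simp only [zero_mul]
      linarith only []
    · have ha : a ≠ 0 := by omega
      rw [if_neg hc, if_neg ha, if_neg hc, Real.log_mul hθ0.ne' hpos.ne', hdiv, hθ']
      simp only [zero_mul, one_mul]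
      linarith only [hge]
  · rw [if_neg hy, if_neg hy]
    by_cases ha : a = 0
    · rw [if_pos (by omega), if_pos ha, Real.log_mul (by norm_num) (by norm_num), Real.log_one,
        one_div, Real.log_inv]
      simp only [zero_mul, one_mul]
      linarith only [hge]
    · rw [if_neg (by omega), if_neg ha, Real.log_mul (by norm_num) hpos.ne', hdiv, one_div,
        Real.log_inv]
      simp only [one_mul]
      have h6 : 0 ≤ (if d q = 0 then (0:ℝ) else 1) * Real.log (1 / θ) := by
        split_ifs <;> linarith only [hlogθ]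
      linarith only [hge, h6]

/-- total cost, averaged over the second summand -/
theorem wv_cost {θ κ : ℝ} (hθ0 : 0 < θ) (hθ1 : θ ≤ 1) (hκ0 : 0 ≤ κ) {α : Type*} (A : Finset α)
    (vec : α → ι →₀ ℤ)
    (hκ : ∀ q, ((A.filter (fun a => vec a q ≠ 0)).card : ℝ) ≤ κ * A.card)
    (d : ι →₀ ℤ) : ∀ (l : List ι) (K : Finset (ι →₀ ℤ)), d ∈ K →
    -∑ a ∈ A, Real.log (wv θ (d + vec a) d l K) ≤
      (∑ a ∈ A, ((l.countP (fun q => decide ((d + vec a) q ≠ 0)) : ℕ) : ℝ)) * Real.log 2 +
      (A.card : ℝ) * ((θ + κ) * Real.log K.card) +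
      κ * A.card * (((l.countP (fun q => decide (d q ≠ 0)) : ℕ) : ℝ) * Real.log (1 / θ)) := by
  have hlogθ : 0 ≤ Real.log (1 / θ) := by
    apply Real.log_nonneg
    rw [le_div_iff₀ hθ0]; linarith
  intro l
  induction l with
  | nil =>
    intro K hd
    simp only [wv, Real.log_one, sum_const_zero, neg_zero, List.countP_nil, Nat.cast_zero,
      zero_mul, mul_zero, add_zero, zero_add]
    have := Real.log_natCast_nonneg K.card
    (clear * - hθ0 hκ0; positivity)
  | cons q l ih =>
    intro K hd
    set K' := vc K q (d q) with hK'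
    have hd' : d ∈ K' := mem_vc.2 ⟨hd, rfl⟩
    have ih' := ih K' hd'
    have hK0 : (0:ℝ) < K'.card := by exact_mod_cast card_pos.2 ⟨d, hd'⟩
    set Δ := Real.log (K.card : ℝ) - Real.log (K'.card : ℝ) with hΔ
    have hΔ0 : 0 ≤ Δ := by
      have : Real.log (K'.card : ℝ) ≤ Real.log K.card :=
        Real.log_le_log hK0 (by exact_mod_cast card_le_card (filter_subset _ _))
      linarith only [this]
    have h1 : ∀ a ∈ A, Real.log (wv θ (d + vec a) d (q :: l) K) =
        Real.log (fq θ K q (d q + vec a q) (d q)) + Real.log (wv θ (d + vec a) d l K') := by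
      intro a _
      exact Real.log_mul (fq_pos hθ0 hd q _).ne' (wv_pos hθ0 _ _ l K' hd').ne'
    rw [sum_congr rfl h1, sum_add_distrib]
    have h2 : -∑ a ∈ A, Real.log (fq θ K q (d q + vec a q) (d q)) ≤
        (∑ a ∈ A, (if d q + vec a q = 0 then (0:ℝ) else 1)) * Real.log 2 +
        (A.card : ℝ) * (θ * Δ) + κ * A.card * Δ +
        κ * A.card * ((if d q = 0 then 0 else 1) * Real.log (1 / θ)) := by
      rw [← sum_neg_distrib]
      refine (sum_le_sum (fun a _ => fq_cost hθ0 hθ1 hd q (vec a q))).trans ?_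
      have e0 : ∀ (x y : α → ℝ) (c₁ c₂ c₃ c₄ : ℝ),
          ∑ a ∈ A, (x a * c₁ + c₂ + y a * c₃ + y a * c₄) =
          (∑ a ∈ A, x a) * c₁ + (A.card : ℝ) * c₂ + (∑ a ∈ A, y a) * c₃ +
            (∑ a ∈ A, y a) * c₄ := by
        intro x y c₁ c₂ c₃ c₄
        rw [sum_add_distrib, sum_add_distrib, sum_add_distrib, sum_mul, sum_mul, sum_mul,
          sum_const, nsmul_eq_mul]
      rw [e0]
      have h3 : ∑ a ∈ A, (if vec a q = 0 then (0:ℝ) else 1) ≤ κ * A.card := by
        refine le_trans (le_of_eq ?_) (hκ q)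
        rw [card_filter]
        push_cast
        apply sum_congr rfl
        intro a _
        by_cases h : vec a q = 0 <;> simp [h]
      have h4 : (∑ a ∈ A, (if vec a q = 0 then (0:ℝ) else 1)) * Δ ≤ κ * A.card * Δ :=
        mul_le_mul_of_nonneg_right h3 hΔ0
      have h5 : 0 ≤ (if d q = 0 then (0:ℝ) else 1) * Real.log (1 / θ) := by
        split_ifs <;> (clear * - hlogθ; linarith only [hlogθ])
      have h6 := mul_le_mul_of_nonneg_right h3 h5
      linarith only [h4, h6]
    have h7 : ∀ a ∈ A, (((q :: l).countP (fun q => decide ((d + vec a) q ≠ 0)) : ℕ) : ℝ) =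
        ((l.countP (fun q => decide ((d + vec a) q ≠ 0)) : ℕ) : ℝ) +
        (if d q + vec a q = 0 then (0:ℝ) else 1) := by
      intro a _
      rw [List.countP_cons]
      push_cast
      congr 1
      by_cases h : d q + vec a q = 0 <;> simp [h]
    have h8 : (((q :: l).countP (fun q => decide (d q ≠ 0)) : ℕ) : ℝ) =
        ((l.countP (fun q => decide (d q ≠ 0)) : ℕ) : ℝ) + (if d q = 0 then (0:ℝ) else 1) := by
      rw [List.countP_cons]
      push_cast
      congr 1
      by_cases h : d q = 0 <;> simp [h]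
    rw [sum_congr rfl h7, h8, sum_add_distrib]
    have h9 : Real.log (K.card : ℝ) = Real.log (K'.card : ℝ) + Δ := by rw [hΔ]; ring
    rw [h9]
    have h10 : (A.card : ℝ) * ((θ + κ) * (Real.log (K'.card : ℝ) + Δ)) =
      (A.card : ℝ) * ((θ + κ) * Real.log (K'.card : ℝ)) + (A.card : ℝ) * (θ * Δ) +
      κ * A.card * Δ := by ring
    rw [h10, add_mul, add_mul, mul_add]
    (clear * - ih' h2; linarith only [ih', h2])

end Pool.Agent.Helper2.E
end

/- Helper24.FF.H2.EProdV2 -/
section
set_option autoImplicit false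

/-!
The product step and its iteration on exponent vectors.
-/

open Finset

namespace Pool.Agent.Helper2.E

variable {ι : Type*} [DecidableEq ι]

/-- the part of a vector off `P` -/
noncomputable def off (P : Finset ι) (a : ι →₀ ℤ) : ι →₀ ℤ := a.filter (fun i => i ∉ P)

theorem off_apply (P : Finset ι) (a : ι →₀ ℤ) (q : ι) : off P a q = if q ∈ P then 0 else a q := by
  unfold off
  rw [Finsupp.filter_apply]
  by_cases h : q ∈ P <;> simp [h]

theorem off_add (P : Finset ι) (a b : ι →₀ ℤ) : off P (a + b) = off P a + off P b := by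
  ext q
  rw [Finsupp.add_apply, off_apply, off_apply, off_apply, Finsupp.add_apply]
  split_ifs <;> simp

theorem off_support (P : Finset ι) (a : ι →₀ ℤ) : (off P a).support ⊆ a.support := by
  intro q hq
  rw [Finsupp.mem_support_iff, off_apply] at hq
  rw [Finsupp.mem_support_iff]
  by_contra h
  rw [h] at hq
  simp at hq

theorem countP_le (S : Finset ι) (v : ι →₀ ℤ) :
    S.toList.countP (fun q => decide (v q ≠ 0)) ≤ v.support.card := by
  rw [List.countP_eq_length_filter]
  have h1 : (S.toList.filter (fun q => decide (v q ≠ 0))).Nodup := S.nodup_toList.filter _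
  rw [← List.toFinset_card_of_nodup h1]
  apply card_le_card
  intro q hq
  rw [List.mem_toFinset, List.mem_filter] at hq
  rw [Finsupp.mem_support_iff]
  simpa using hq.2

/-- **Product step** on exponent vectors. -/
theorem prod_stepV (P : Finset ι) {A : Finset (ι →₀ ℤ)} (hAne : A.Nonempty) {κ θ R : ℝ}
    (hκ : 0 ≤ κ) (hθ0 : 0 < θ) (hθ1 : θ ≤ 1) (hR0 : 0 < R)
    (hκA : ∀ q, q ∉ P → ((A.filter (fun a => a q ≠ 0)).card : ℝ) ≤ κ * A.card)
    (hR : ∀ b : ι →₀ ℤ, ((A.filter (fun a => off P a = b)).card : ℝ) ≤ R)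
    {D : Finset (ι →₀ ℤ)} (hDne : D.Nonempty) (W s' : ℕ)
    (hW : ∀ d ∈ D, ∀ a ∈ A, (d + off P a).support.card ≤ W)
    (hs' : ∀ d ∈ D, d.support.card ≤ s') :
    Real.log D.card + Real.log A.card - Real.log R - W * Real.log 2 -
      (θ + κ) * Real.log D.card - κ * (s' * Real.log (1 / θ)) ≤
      Real.log ((image₂ (· + ·) D (A.image (off P))).card : ℝ) := by
  classical
  set S : Finset ι := D.biUnion Finsupp.support with hS
  set l := S.toList with hl
  have hsep : ∀ d ∈ D, ∀ d' ∈ D, (∀ q ∈ l, d q = d' q) → d = d' := by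
    intro d hd d' hd' h
    ext q
    by_cases hq : q ∈ S
    · exact h q (mem_toList.2 hq)
    · have h1 : d q = 0 := by
        by_contra hne
        exact hq (mem_biUnion.2 ⟨d, hd, Finsupp.mem_support_iff.2 hne⟩)
      have h2 : d' q = 0 := by
        by_contra hne
        exact hq (mem_biUnion.2 ⟨d', hd', Finsupp.mem_support_iff.2 hne⟩)
      rw [h1, h2]
  have hlogθ : 0 ≤ Real.log (1 / θ) := by
    apply Real.log_nonneg
    rw [le_div_iff₀ hθ0]; linarith only [hθ1]
  have hlog2 : 0 < Real.log 2 := Real.log_pos (by norm_num)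
  let w : (ι →₀ ℤ) × (ι →₀ ℤ) → ℝ := fun e => wv θ (e.1 + off P e.2) e.1 l D / R
  have hwpos : ∀ e ∈ D ×ˢ A, 0 < w e := by
    intro e he
    exact div_pos (wv_pos hθ0 _ _ l D (mem_product.1 he).1) hR0
  have hker : ∀ y, ∑ e ∈ (D ×ˢ A).filter (fun e => e.1 + off P e.2 = y), w e ≤ 1 := by
    intro y
    rw [sum_filter, sum_product]
    have h1 : ∀ d ∈ D, ∑ a ∈ A, (if d + off P a = y then w (d, a) else 0) ≤
        wv θ y d l D := by
      intro d hd
      have hpos := wv_pos hθ0 y d l D hd
      rw [← sum_filter]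
      have h2 : ∀ a ∈ A.filter (fun a => d + off P a = y), w (d, a) = wv θ y d l D / R := by
        intro a ha
        rw [mem_filter] at ha
        show wv θ (d + off P a) d l D / R = _
        rw [ha.2]
      rw [sum_congr rfl h2, sum_const, nsmul_eq_mul]
      have h3 : ((A.filter (fun a => d + off P a = y)).card : ℝ) ≤ R := by
        refine le_trans ?_ (hR (y - d))
        apply Nat.cast_le.2
        apply card_le_card
        intro a ha
        rw [mem_filter] at ha ⊢
        exact ⟨ha.1, eq_sub_of_add_eq' ha.2⟩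
      calc ((A.filter (fun a => d + off P a = y)).card : ℝ) * (wv θ y d l D / R)
          ≤ R * (wv θ y d l D / R) := mul_le_mul_of_nonneg_right h3 (by positivity)
        _ = wv θ y d l D := by (clear * - hR0 hpos; field_simp)
    exact (sum_le_sum h1).trans (wv_sum hθ0 hθ1 y l D hsep)
  have hmain := log_image_ge' (hDne.product hAne)
    (fun e : (ι →₀ ℤ) × (ι →₀ ℤ) => e.1 + off P e.2) w hwpos hker
  have himg : (D ×ˢ A).image (fun e : (ι →₀ ℤ) × (ι →₀ ℤ) => e.1 + off P e.2) =
      image₂ (· + ·) D (A.image (off P)) := by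
    ext y
    simp only [mem_image, mem_image₂, mem_product, Prod.exists]
    constructor
    · rintro ⟨d, a, ⟨hd, ha⟩, rfl⟩
      exact ⟨d, hd, _, ⟨a, ha, rfl⟩, rfl⟩
    · rintro ⟨d, hd, _, ⟨a, ha, rfl⟩, rfl⟩
      exact ⟨d, a, ⟨hd, ha⟩, rfl⟩
  have hD0 : (0:ℝ) < D.card := by exact_mod_cast card_pos.2 hDne
  have hA0 : (0:ℝ) < A.card := by exact_mod_cast card_pos.2 hAne
  rw [himg, card_product] at hmain
  push_cast at hmain
  rw [Real.log_mul hD0.ne' hA0.ne'] at hmain
  have hκ' : ∀ q, ((A.filter (fun a => off P a q ≠ 0)).card : ℝ) ≤ κ * A.card := by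
    intro q
    by_cases hq : q ∈ P
    · have : A.filter (fun a => off P a q ≠ 0) = ∅ := by
        apply filter_false_of_mem
        intro a _ h
        rw [off_apply, if_pos hq] at h
        exact h rfl
      rw [this]
      simp only [card_empty, Nat.cast_zero]
      (clear * - hκ hAne; positivity)
    · refine le_trans (le_of_eq ?_) (hκA q hq)
      congr 2
      ext a
      rw [mem_filter, mem_filter, off_apply, if_neg hq]
  have hcost : -∑ e ∈ D ×ˢ A, Real.log (w e) ≤ (D.card : ℝ) * ((A.card : ℝ) *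
      (Real.log R + W * Real.log 2 + (θ + κ) * Real.log D.card +
        κ * (s' * Real.log (1 / θ)))) := by
    rw [sum_product, ← sum_neg_distrib]
    have h1 : ∀ d ∈ D, -∑ a ∈ A, Real.log (w (d, a)) ≤ (A.card : ℝ) *
      (Real.log R + W * Real.log 2 + (θ + κ) * Real.log D.card +
        κ * (s' * Real.log (1 / θ))) := by
      intro d hd
      have h2 : ∀ a ∈ A, Real.log (w (d, a)) =
          Real.log (wv θ (d + off P a) d l D) - Real.log R := by
        intro a _
        exact Real.log_div (wv_pos hθ0 _ _ l D hd).ne' hR0.ne'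
      rw [sum_congr rfl h2, sum_sub_distrib, sum_const, nsmul_eq_mul]
      have h3 := wv_cost hθ0 hθ1 hκ A (fun a => off P a) hκ' d l D hd
      have h4 : (∑ a ∈ A, ((l.countP (fun q => decide ((d + off P a) q ≠ 0)) : ℕ) : ℝ)) ≤
          A.card * W := by
        rw [← nsmul_eq_mul, ← sum_const]
        apply sum_le_sum
        intro a ha
        exact_mod_cast (countP_le S (d + off P a)).trans (hW d hd a ha)
      have h5 : (((l.countP (fun q => decide (d q ≠ 0)) : ℕ) : ℝ)) ≤ s' := by
        exact_mod_cast (countP_le S d).trans (hs' d hd)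
      have h6 := mul_le_mul_of_nonneg_right h4 hlog2.le
      have h7 : κ * (A.card : ℝ) * (((l.countP (fun q => decide (d q ≠ 0)) : ℕ) : ℝ) *
          Real.log (1 / θ)) ≤ κ * (A.card : ℝ) * (s' * Real.log (1 / θ)) := by
        apply mul_le_mul_of_nonneg_left _ (by (clear * - hκ hAne; positivity))
        exact mul_le_mul_of_nonneg_right h5 hlogθ
      have h8 : (A.card : ℝ) * (Real.log R + W * Real.log 2 + (θ + κ) * Real.log D.card +
        κ * (s' * Real.log (1 / θ))) = (A.card : ℝ) * Real.log R +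
        (A.card : ℝ) * W * Real.log 2 + (A.card : ℝ) * ((θ + κ) * Real.log D.card) +
        κ * (A.card : ℝ) * (s' * Real.log (1 / θ)) := by ring
      rw [h8]
      (clear * - h3 h6 h7; linarith only [h3, h6, h7])
    refine (sum_le_sum h1).trans ?_
    rw [sum_const, nsmul_eq_mul]
  have h10 : (1 / ((D.card : ℝ) * A.card)) * (-∑ e ∈ D ×ˢ A, Real.log (w e)) ≤
      Real.log R + W * Real.log 2 + (θ + κ) * Real.log D.card +
        κ * (s' * Real.log (1 / θ)) := by
    have h11 := mul_le_mul_of_nonneg_left hcost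
      (by (clear * - hDne hAne; positivity) : 0 ≤ 1 / ((D.card : ℝ) * A.card))
    refine h11.trans (le_of_eq ?_)
    (clear * - hDne hAne; field_simp)
  have h16 : (1 / ((D.card : ℝ) * A.card)) * (-∑ e ∈ D ×ˢ A, Real.log (w e)) =
      -((1 / ((D.card : ℝ) * A.card)) * ∑ e ∈ D ×ˢ A, Real.log (w e)) := by ring
  rw [h16] at h10
  linarith only [hmain, h10]

theorem vI_nonempty {A : Finset (ι →₀ ℤ)} (hA : A.Nonempty) (j : ℕ) : (vI A j).Nonempty := by
  induction j with
  | zero => exact ⟨0, by simp [vI]⟩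
  | succ j ih => exact Finset.Nonempty.image₂ ih hA

theorem vI_card (A : Finset (ι →₀ ℤ)) (j : ℕ) : (vI A j).card ≤ A.card ^ j := by
  induction j with
  | zero => simp [vI]
  | succ j ih =>
    simp only [vI, pow_succ]
    exact (card_image₂_le _ _ _).trans (Nat.mul_le_mul_right _ ih)

theorem vI_support {A : Finset (ι →₀ ℤ)} {s : ℕ} (h : ∀ a ∈ A, a.support.card ≤ s) (j : ℕ) :
    ∀ v ∈ vI A j, v.support.card ≤ j * s := by
  induction j with
  | zero =>
    intro v hv
    simp only [vI, mem_singleton] at hv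
    subst hv
    simp
  | succ j ih =>
    intro v hv
    simp only [vI, mem_image₂] at hv
    obtain ⟨x, hx, a, ha, rfl⟩ := hv
    have h1 := (card_le_card (Finsupp.support_add (g₁ := x) (g₂ := a))).trans
      (card_union_le _ _)
    have h2 := ih x hx
    have h3 := h a ha
    calc (x + a).support.card ≤ x.support.card + a.support.card := h1
      _ ≤ j * s + s := Nat.add_le_add h2 h3
      _ = (j + 1) * s := by ring

theorem vI_off (P : Finset ι) (A : Finset (ι →₀ ℤ)) (j : ℕ) :
    vI (A.image (off P)) j = (vI A j).image (off P) := by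
  induction j with
  | zero =>
    simp only [vI, image_singleton]
    congr 1
    ext q
    rw [off_apply]
    simp
  | succ j ih =>
    have h1 : vI (A.image (off P)) (j + 1) =
      image₂ (· + ·) (vI (A.image (off P)) j) (A.image (off P)) := rfl
    have h2 : vI A (j + 1) = image₂ (· + ·) (vI A j) A := rfl
    rw [h1, h2, ih]
    ext x
    simp only [mem_image₂, mem_image]
    constructor
    · rintro ⟨_, ⟨y, hy, rfl⟩, _, ⟨z, hz, rfl⟩, rfl⟩
      exact ⟨y + z, ⟨y, hy, z, hz, rfl⟩, off_add P y z⟩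
    · rintro ⟨_, ⟨y, hy, z, hz, rfl⟩, rfl⟩
      exact ⟨_, ⟨y, hy, rfl⟩, _, ⟨z, hz, rfl⟩, (off_add P y z).symm⟩

/-- **Iterated product step** on exponent vectors. -/
theorem prod_iterV (P : Finset ι) {A : Finset (ι →₀ ℤ)} (hAne : A.Nonempty) {κ θ R : ℝ}
    (hκ : 0 ≤ κ) (hθ0 : 0 < θ) (hθ1 : θ ≤ 1) (hR0 : 0 < R) (s k N : ℕ) (hAN : A.card ≤ N)
    (hω : ∀ a ∈ A, a.support.card ≤ s)
    (hκA : ∀ q, q ∉ P → ((A.filter (fun a => a q ≠ 0)).card : ℝ) ≤ κ * A.card)
    (hR : ∀ b : ι →₀ ℤ, ((A.filter (fun a => off P a = b)).card : ℝ) ≤ R) :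
    (k : ℝ) * (Real.log A.card - Real.log R - k * s * Real.log 2 -
      (θ + κ) * (k * Real.log N) - κ * (k * s * Real.log (1 / θ))) ≤
      Real.log ((vI A k).card : ℝ) := by
  classical
  have hA1 : 1 ≤ A.card := card_pos.2 hAne
  have hN1 : 1 ≤ N := hA1.trans hAN
  have hN1' : (1:ℝ) ≤ N := by exact_mod_cast hN1
  have hLN : 0 ≤ Real.log N := Real.log_nonneg hN1'
  have hlogθ : 0 ≤ Real.log (1 / θ) := by
    apply Real.log_nonneg
    rw [le_div_iff₀ hθ0]; (clear * - hθ1; linarith only [hθ1])
  have hlog2 : 0 < Real.log 2 := Real.log_pos (by norm_num)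
  set B := A.image (off P) with hB
  have hBne : B.Nonempty := hAne.image _
  have hωB : ∀ b ∈ B, b.support.card ≤ s := by
    intro b hb
    obtain ⟨a, ha, rfl⟩ := mem_image.1 hb
    exact (card_le_card (off_support P a)).trans (hω a ha)
  have hBN : B.card ≤ N := card_image_le.trans hAN
  have key : ∀ j : ℕ, j ≤ k → (j : ℝ) * (Real.log A.card - Real.log R - k * s * Real.log 2 -
      (θ + κ) * (k * Real.log N) - κ * (k * s * Real.log (1 / θ))) ≤
      Real.log ((vI B j).card : ℝ) := by
    intro j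
    induction j with
    | zero => intro _; simp [vI]
    | succ j ih =>
      intro hj
      have ih' := ih (by omega)
      have hne := vI_nonempty hBne j
      have hsupp := vI_support hωB j
      have h2 := prod_stepV P hAne hκ hθ0 hθ1 hR0 hκA hR hne (k * s) (k * s) (by
        intro d hd a ha
        have h3 := (card_le_card (Finsupp.support_add (g₁ := d) (g₂ := off P a))).trans
          (card_union_le _ _)
        have h4 := hsupp d hd
        have h5 := hωB _ (mem_image_of_mem _ ha)
        calc (d + off P a).support.card ≤ d.support.card + (off P a).support.card := h3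
          _ ≤ j * s + s := Nat.add_le_add h4 h5
          _ = (j + 1) * s := by ring
          _ ≤ k * s := Nat.mul_le_mul_right _ hj) (by
        intro d hd
        exact (hsupp d hd).trans (Nat.mul_le_mul_right _ (by omega)))
      have hD0 : (0:ℝ) < ((vI B j).card : ℝ) := by exact_mod_cast card_pos.2 hne
      have hDN : ((vI B j).card : ℝ) ≤ (N:ℝ) ^ k := by
        have h1 : (vI B j).card ≤ N ^ k :=
          (vI_card B j).trans ((Nat.pow_le_pow_left hBN j).trans
            (Nat.pow_le_pow_right hN1 (by omega)))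
        exact_mod_cast h1
      have hLD : Real.log ((vI B j).card : ℝ) ≤ k * Real.log N := by
        rw [← Real.log_pow]
        exact Real.log_le_log hD0 hDN
      have h6 : (θ + κ) * Real.log ((vI B j).card : ℝ) ≤ (θ + κ) * (k * Real.log N) := by
        (clear * - hLD hθ0 hκ; gcongr)
      have h7 : image₂ (· + ·) (vI B j) B = vI B (j + 1) := rfl
      rw [← hB, h7] at h2
      push_cast at h2 ⊢
      linarith only [ih', h6, h2]
  refine (key k le_rfl).trans ?_
  rw [hB, vI_off]
  apply Real.log_le_log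
  · exact_mod_cast card_pos.2 ((vI_nonempty hAne k).image _)
  · exact_mod_cast card_image_le

/-- **Kernel**: a set `P` contained in `Z a` for many `a`, all other elements being rare. -/
theorem kernelV {α : Type*} [DecidableEq α] (A : Finset α) (Z : α → Finset ι) (H : ℕ) :
    ∃ P : Finset ι, A.card ≤ H ^ P.card * (A.filter (fun a => P ⊆ Z a)).card ∧
      ∀ p, p ∉ P → H * ((A.filter (fun a => P ⊆ Z a)).filter (fun a => p ∈ Z a)).card ≤
        (A.filter (fun a => P ⊆ Z a)).card := by
  classical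
  rcases A.eq_empty_or_nonempty with rfl | hA
  · exact ⟨∅, by simp, by simp⟩
  let U := A.biUnion Z
  let Fam := U.powerset.filter
    (fun P => A.card ≤ H ^ P.card * (A.filter (fun a => P ⊆ Z a)).card)
  have hne : Fam.Nonempty := by
    refine ⟨∅, ?_⟩
    simp [Fam]
  obtain ⟨P, hP, hmax⟩ := exists_max_image Fam Finset.card hne
  rw [mem_filter, mem_powerset] at hP
  refine ⟨P, hP.2, ?_⟩
  intro p hp
  by_contra hcon
  push Not at hcon
  set A₀ := A.filter (fun a => P ⊆ Z a) with hA₀
  set A₁ := A₀.filter (fun a => p ∈ Z a) with hA₁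
  have hA₁eq : A₁ = A.filter (fun a => insert p P ⊆ Z a) := by
    ext a
    simp only [hA₁, hA₀, mem_filter, insert_subset_iff]
    tauto
  have hA₁ne : A₁.Nonempty := by
    rw [← card_pos]
    rcases Nat.eq_zero_or_pos A₁.card with h | h
    · rw [h] at hcon; simp at hcon
    · exact h
  obtain ⟨a, ha⟩ := hA₁ne
  have ha' := ha
  rw [hA₁eq, mem_filter] at ha'
  have hmem : insert p P ∈ Fam := by
    rw [mem_filter, mem_powerset]
    refine ⟨?_, ?_⟩
    · intro q hq
      exact mem_biUnion.mpr ⟨a, ha'.1, ha'.2 hq⟩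
    · rw [← hA₁eq, card_insert_of_notMem hp]
      calc A.card ≤ H ^ P.card * A₀.card := hP.2
        _ ≤ H ^ P.card * (H * A₁.card) := Nat.mul_le_mul_left _ hcon.le
        _ = _ := by ring
  have := hmax _ hmem
  rw [card_insert_of_notMem hp] at this
  omega

end Pool.Agent.Helper2.E
end

/- Helper24.FF.H2.EProdE -/
section
set_option autoImplicit false

/-!
The product side by an entropy argument: if every coordinate of the vectors of `V` is concentrated
(away from few vectors it takes one value), then `D + V` has nearly maximal size for every `D`.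
Here: the weights of one coordinate and their cost on a pair of classes.
-/

open Finset

namespace Pool.Agent.Helper2.E

section factor

variable {β α : Type*}

/-- frequency of the value `c` -/
noncomputable def mu (K : Finset β) (X : β → ℤ) (c : ℤ) : ℝ :=
  ((K.filter (fun d => X d = c)).card : ℝ) / K.card

/-- frequency of the values other than `c` -/
noncomputable def co (K : Finset β) (X : β → ℤ) (c : ℤ) : ℝ :=
  ((K.filter (fun d => X d ≠ c)).card : ℝ) / K.card

theorem mu_nonneg (K : Finset β) (X : β → ℤ) (c : ℤ) : 0 ≤ mu K X c := by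
  unfold mu; positivity

theorem co_nonneg (K : Finset β) (X : β → ℤ) (c : ℤ) : 0 ≤ co K X c := by
  unfold co; (clear * -; positivity)

theorem mu_add_co {K : Finset β} (hK : K.Nonempty) (X : β → ℤ) (c : ℤ) :
    mu K X c + co K X c = 1 := by
  unfold mu co
  have hpos : (0:ℝ) < K.card := by exact_mod_cast card_pos.2 hK
  have h : (K.filter (fun d => X d = c)).card + (K.filter (fun d => X d ≠ c)).card = K.card :=
    card_filter_add_card_filter_not _
  rw [← add_div, div_eq_one_iff_eq hpos.ne']
  exact_mod_cast h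

theorem mu_pos {K : Finset β} {X : β → ℤ} {d : β} (hd : d ∈ K) : 0 < mu K X (X d) := by
  unfold mu
  have h1 : 0 < (K.filter (fun d' => X d' = X d)).card :=
    card_pos.2 ⟨d, mem_filter.2 ⟨hd, rfl⟩⟩
  have h2 : 0 < K.card := card_pos.2 ⟨d, hd⟩
  have h3 : (0:ℝ) < ((K.filter (fun d' => X d' = X d)).card : ℝ) := by exact_mod_cast h1
  have h4 : (0:ℝ) < (K.card : ℝ) := by exact_mod_cast h2
  (clear * - h1 h2; positivity)

theorem co_pos {K : Finset β} {X : β → ℤ} {d : β} (hd : d ∈ K) {c : ℤ} (hc : X d ≠ c) :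
    0 < co K X c := by
  unfold co
  have h1 : 0 < (K.filter (fun d' => X d' ≠ c)).card :=
    card_pos.2 ⟨d, mem_filter.2 ⟨hd, hc⟩⟩
  have h2 : 0 < K.card := card_pos.2 ⟨d, hd⟩
  have h3 : (0:ℝ) < ((K.filter (fun d' => X d' ≠ c)).card : ℝ) := by exact_mod_cast h1
  have h4 : (0:ℝ) < (K.card : ℝ) := by exact_mod_cast h2
  positivity

theorem mu_le_co {K : Finset β} {X : β → ℤ} {c c' : ℤ} (hc : c ≠ c') : mu K X c ≤ co K X c' := by
  unfold mu co
  apply div_le_div_of_nonneg_right _ (by (clear * -; positivity))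
  apply Nat.cast_le.2
  apply card_le_card
  intro d hd
  rw [mem_filter] at hd ⊢
  exact ⟨hd.1, by rw [hd.2]; exact hc⟩

theorem sum_mu {K : Finset β} (hK : K.Nonempty) (X : β → ℤ) :
    ∑ c ∈ K.image X, mu K X c = 1 := by
  have h1 : (K.card : ℝ) = ∑ c ∈ K.image X, ((K.filter (fun d => X d = c)).card : ℝ) := by
    have := Finset.card_eq_sum_card_image X K
    exact_mod_cast this
  have hpos : (0:ℝ) < K.card := by exact_mod_cast card_pos.2 hK
  unfold mu
  rw [← sum_div, ← h1, div_self hpos.ne']

open Classical in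
/-- the two coefficients at the value `s` of the sum -/
noncomputable def AB (τ lam : ℝ) (K : Finset β) (X : β → ℤ) (L : Finset α) (Y : α → ℤ)
    (z s : ℤ) : ℝ × ℝ :=
  if h : ∃ j, co K X j ≤ τ then
    if co L Y z ≤ τ then
      if s = h.choose + z then
        (1 - co L Y z * co K X h.choose, co L Y z * co K X h.choose)
      else (co K X h.choose / (co L Y z + co K X h.choose),
        co L Y z / (co L Y z + co K X h.choose))
    else (0, 1)
  else (1 - lam, lam)

theorem AB_spec {τ lam : ℝ} (hτ1 : τ ≤ 1) (hl0 : 0 ≤ lam) (hl1 : lam ≤ 1)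
    (K : Finset β) (X : β → ℤ) (L : Finset α) (Y : α → ℤ) (z s : ℤ) :
    0 ≤ (AB τ lam K X L Y z s).1 ∧ 0 ≤ (AB τ lam K X L Y z s).2 ∧
      (AB τ lam K X L Y z s).1 + (AB τ lam K X L Y z s).2 ≤ 1 := by
  classical
  unfold AB
  split_ifs with h1 h2 h3
  · have e1 := co_nonneg L Y z
    have e2 := co_nonneg K X h1.choose
    have e3 := h1.choose_spec
    have e4 : co L Y z * co K X h1.choose ≤ 1 * 1 :=
      mul_le_mul (h2.trans hτ1) (e3.trans hτ1) e2 zero_le_one
    refine ⟨by simp only; (clear * - e4; linarith), mul_nonneg e1 e2, by simp⟩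
  · have e1 := co_nonneg L Y z
    have e2 := co_nonneg K X h1.choose
    refine ⟨by (clear * - e2 e1; positivity), by (clear * - e1 e2; positivity), ?_⟩
    simp only
    rw [← add_div, add_comm]
    exact div_self_le_one _
  · exact ⟨le_rfl, zero_le_one, by simp⟩
  · exact ⟨by simp only; (clear * - hl1; linarith only [hl1]), hl0, by simp⟩

/-- the factor at one coordinate -/
noncomputable def gf (τ lam : ℝ) (K : Finset β) (X : β → ℤ) (L : Finset α) (Y : α → ℤ)
    (z c u : ℤ) : ℝ :=
  (if u = z then (AB τ lam K X L Y z (c + u)).1 else 0) +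
    (AB τ lam K X L Y z (c + u)).2 * mu K X c

theorem gf_nonneg {τ lam : ℝ} (hτ1 : τ ≤ 1) (hl0 : 0 ≤ lam) (hl1 : lam ≤ 1)
    (K : Finset β) (X : β → ℤ) (L : Finset α) (Y : α → ℤ) (z c u : ℤ) :
    0 ≤ gf τ lam K X L Y z c u := by
  obtain ⟨h1, h2, h3⟩ := AB_spec hτ1 hl0 hl1 K X L Y z (c + u)
  unfold gf
  have := mu_nonneg K X c
  split_ifs <;> (clear * - h1 h2 this; positivity)

/-- kernel at one coordinate -/
theorem gf_sum {τ lam : ℝ} (hτ1 : τ ≤ 1) (hl0 : 0 ≤ lam) (hl1 : lam ≤ 1)
    {K : Finset β} (hK : K.Nonempty) (X : β → ℤ) (L : Finset α) (Y : α → ℤ) (z s : ℤ) :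
    ∑ c ∈ K.image X, gf τ lam K X L Y z c (s - c) ≤ 1 := by
  obtain ⟨h1, h2, h3⟩ := AB_spec hτ1 hl0 hl1 K X L Y z s
  have h4 : ∀ c, gf τ lam K X L Y z c (s - c) =
      (if s - z = c then (AB τ lam K X L Y z s).1 else 0) + (AB τ lam K X L Y z s).2 * mu K X c := by
    intro c
    unfold gf
    rw [show c + (s - c) = s by ring]
    congr 1
    by_cases h : s - c = z
    · rw [if_pos h, if_pos (by omega)]
    · rw [if_neg h, if_neg (by omega)]
  simp only [h4]
  rw [sum_add_distrib, ← mul_sum, sum_mu hK, mul_one, sum_ite_eq]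
  split_ifs
  · exact h3
  · (clear * - h1 h3; linarith only [h1, h3])

/-- Information of an element of a class. -/
noncomputable def info (K : Finset β) (X : β → ℤ) (d : β) : ℝ := -Real.log (mu K X (X d))

theorem info_nonneg {K : Finset β} {X : β → ℤ} {d : β} (hd : d ∈ K) : 0 ≤ info K X d := by
  unfold info
  rw [neg_nonneg]
  apply Real.log_nonpos (mu_nonneg _ _ _)
  have h1 := mu_add_co ⟨d, hd⟩ X (X d)
  have h2 := co_nonneg K X (X d)
  linarith only [h1, h2]

theorem info_eq {K : Finset β} {X : β → ℤ} {d : β} (hd : d ∈ K) :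
    info K X d = Real.log K.card - Real.log ((K.filter (fun d' => X d' = X d)).card : ℝ) := by
  unfold info mu
  have h1 : 0 < (K.filter (fun d' => X d' = X d)).card :=
    card_pos.2 ⟨d, mem_filter.2 ⟨hd, rfl⟩⟩
  have h2 : 0 < K.card := card_pos.2 ⟨d, hd⟩
  have h3 : (0:ℝ) < ((K.filter (fun d' => X d' = X d)).card : ℝ) := by exact_mod_cast h1
  have h4 : (0:ℝ) < (K.card : ℝ) := by exact_mod_cast h2
  rw [Real.log_div h3.ne' h4.ne']
  ring

/-- total information is at least `p log (1/p)` -/
theorem sum_info_ge {K : Finset β} (X : β → ℤ) (z : ℤ) :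
    ((K.filter (fun d => X d ≠ z)).card : ℝ) * (-Real.log (co K X z)) ≤ ∑ d ∈ K, info K X d := by
  classical
  rw [← nsmul_eq_mul, ← sum_const]
  refine le_trans (sum_le_sum (g := fun d => info K X d) ?_)
    (sum_le_sum_of_subset_of_nonneg (filter_subset (fun d => X d ≠ z) K)
      (fun d hd _ => info_nonneg hd))
  intro d hd
  rw [mem_filter] at hd
  unfold info
  apply neg_le_neg
  exact Real.log_le_log (mu_pos hd.1) (mu_le_co hd.2)

/-- pointwise cost in the concentrated case, bare form -/
theorem conc_cost {τ : ℝ} (hτ1 : τ ≤ 1 / 2)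
    {K : Finset β} {X : β → ℤ} {L : Finset α} {Y : α → ℤ} {z j : ℤ}
    (h1 : co K X j ≤ τ) (h2 : co L Y z ≤ τ) {d : β} {a : α} (hd : d ∈ K) (ha : a ∈ L)
    {A B : ℝ}
    (hA : A = if X d + Y a = j + z then 1 - co L Y z * co K X j
      else co K X j / (co L Y z + co K X j))
    (hB : B = if X d + Y a = j + z then co L Y z * co K X j
      else co L Y z / (co L Y z + co K X j)) :
    0 < (if Y a = z then A else 0) + B * mu K X (X d) ∧
    -Real.log ((if Y a = z then A else 0) + B * mu K X (X d)) ≤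
      2 * (co L Y z * co K X j) +
      (if Y a = z then 0 else 1) * (if X d = j then 0 else 1) *
        (-Real.log (co L Y z) - Real.log (co K X j)) +
      (if X d = j then 0 else 1) * (co L Y z / co K X j) +
      (if Y a = z then 0 else 1) * (co K X j / co L Y z) +
      (if Y a = z then 0 else 1) * info K X d := by
  classical
  have hmu : 0 < mu K X (X d) := mu_pos hd
  have hinfo := info_nonneg (K := K) (X := X) hd
  have hp0 := co_nonneg L Y z
  have hr0 := co_nonneg K X j
  have hp' : Y a ≠ z → 0 < co L Y z := fun h => co_pos ha h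
  have hr' : X d ≠ j → 0 < co K X j := fun h => co_pos hd h
  generalize co L Y z = p at *
  generalize co K X j = r at *
  have hpr : p * r ≤ 1 / 4 := by nlinarith only [hτ1, h2, h1, hr0]
  have hlp : 0 ≤ -Real.log p := by
    rw [neg_nonneg]; exact Real.log_nonpos hp0 (by (clear * - hτ1 h2; linarith only [hτ1, h2]))
  have hlr : 0 ≤ -Real.log r := by
    rw [neg_nonneg]; exact Real.log_nonpos hr0 (by linarith only [hτ1, h1])
  have hpr0 : 0 ≤ p * r := by (clear * - hp0 hr0; positivity)
  have hpr1 : 0 ≤ p / r := by (clear * - hp0 hr0; positivity)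
  have hpr2 : 0 ≤ r / p := by (clear * - hr0 hp0; positivity)
  by_cases hu : Y a = z
  · by_cases hc : X d = j
    · -- typical
      rw [if_pos (by rw [hu, hc])] at hA hB
      rw [if_pos hu, if_pos hu, if_pos hc]
      simp only [zero_mul, add_zero]
      have h3 : 0 < 1 - p * r := by linarith only [hpr]
      have h4 : 1 - p * r ≤ A + B * mu K X (X d) := by
        have : 0 ≤ p * r * mu K X (X d) := by (clear * - hp0 hr0 hmu; positivity)
        rw [hA, hB]
        linarith only [this]
      refine ⟨by linarith only [h3, h4], ?_⟩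
      have h5 : -Real.log (A + B * mu K X (X d)) ≤ -Real.log (1 - p * r) :=
        neg_le_neg (Real.log_le_log h3 h4)
      refine h5.trans ?_
      have h6 : -Real.log (1 - p * r) ≤ (p * r) / (1 - p * r) := by
        rw [← Real.log_inv]
        refine (Real.log_le_sub_one_of_pos (inv_pos.2 h3)).trans (le_of_eq ?_)
        field_simp
        ring
      refine h6.trans ?_
      rw [div_le_iff₀ h3]
      (clear * - hpr0 hpr; nlinarith only [hpr, hpr0])
    · have hr0' : 0 < r := hr' hc
      rw [if_neg (by rw [hu]; omega)] at hA hB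
      rw [if_pos hu, if_pos hu, if_neg hc]
      simp only [zero_mul, add_zero, one_mul]
      have h3 : 0 < r / (p + r) := by (clear * - hr0' hp0; positivity)
      have h4 : r / (p + r) ≤ A + B * mu K X (X d) := by
        have : 0 ≤ p / (p + r) * mu K X (X d) := by (clear * - hp0 hr0' hmu; positivity)
        rw [hA, hB]
        (clear * - this; linarith only [this])
      refine ⟨by (clear * - h3 h4; linarith only [h3, h4]), ?_⟩
      have h5 : -Real.log (A + B * mu K X (X d)) ≤
          -Real.log (r / (p + r)) := neg_le_neg (Real.log_le_log h3 h4)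
      have h6 : -Real.log (r / (p + r)) ≤ p / r := by
        rw [← Real.log_inv, inv_div]
        refine (Real.log_le_sub_one_of_pos (by (clear * - hp0 hr0'; positivity))).trans (le_of_eq ?_)
        field_simp
        ring
      linarith only [hpr0, h5, h6]
  · have hp0' : 0 < p := hp' hu
    by_cases hs : X d + Y a = j + z
    · have hc : X d ≠ j := by omega
      have hr0' : 0 < r := hr' hc
      rw [if_pos hs] at hA hB
      rw [if_neg hu, if_neg hu, if_neg hc, hB]
      simp only [one_mul, zero_add]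
      have h3 : 0 < p * r * mu K X (X d) := by (clear * - hp0' hr0' hmu; positivity)
      refine ⟨h3, ?_⟩
      rw [Real.log_mul (by (clear * - hp0' hr0'; positivity)) hmu.ne', Real.log_mul hp0'.ne' hr0'.ne']
      unfold info
      (clear * - hpr0 hpr1 hpr2; linarith only [hpr0, hpr1, hpr2])
    · rw [if_neg hs] at hA hB
      rw [if_neg hu, if_neg hu, hB]
      simp only [one_mul, zero_add]
      have h3 : 0 < p / (p + r) * mu K X (X d) := by (clear * - hp0' hr0 hmu; positivity)
      refine ⟨h3, ?_⟩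
      rw [Real.log_mul (by (clear * - hp0' hr0; positivity)) hmu.ne']
      have h6 : -Real.log (p / (p + r)) ≤ r / p := by
        rw [← Real.log_inv, inv_div]
        refine (Real.log_le_sub_one_of_pos (by (clear * - hp0' hr0; positivity))).trans (le_of_eq ?_)
        field_simp
        ring
      have e2 : 0 ≤ (if X d = j then (0:ℝ) else 1) * (-Real.log p - Real.log r) := by
        split_ifs
        · linarith only []
        · linarith only [hlp, hlr]
      have e3 : 0 ≤ (if X d = j then (0:ℝ) else 1) * (p / r) := by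
        split_ifs <;> (clear * - hp0' hr0; positivity)
      unfold info
      linarith only [hpr0, h6, e2, e3]

theorem sum_ind_not {σ : Type*} (L : Finset σ) (Y : σ → ℤ) (z : ℤ) :
    ∑ a ∈ L, (if Y a = z then (0:ℝ) else 1) = ((L.filter (fun a => Y a ≠ z)).card : ℝ) := by
  rw [card_filter]
  push_cast
  apply sum_congr rfl
  intro a _
  by_cases h : Y a = z <;> simp [h]

theorem co_mul_card {K : Finset β} (hK : K.Nonempty) (X : β → ℤ) (c : ℤ) :
    ((K.filter (fun d => X d ≠ c)).card : ℝ) = co K X c * K.card := by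
  unfold co
  have hpos : (0:ℝ) < K.card := by exact_mod_cast card_pos.2 hK
  field_simp

/-- lower bound of the total information by the concentration -/
theorem sum_info_ge' {K : Finset β} (hK : K.Nonempty) (X : β → ℤ) {z : ℤ} {τ : ℝ} (hτ0 : 0 < τ)
    (h : co K X z ≤ τ) : co K X z * K.card * (-Real.log τ) ≤ ∑ d ∈ K, info K X d := by
  have h1 := sum_info_ge (K := K) X z
  rw [co_mul_card hK] at h1
  refine le_trans ?_ h1
  rcases (co_nonneg K X z).eq_or_lt with h0 | h0
  · rw [← h0]; simp
  · apply mul_le_mul_of_nonneg_left _ (by (clear * - h0 hK; positivity))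
    exact neg_le_neg (Real.log_le_log h0 h)

/-- **Cost on a pair of classes.** -/
theorem pair_cost {τ lam : ℝ} (hτ0 : 0 < τ) (hτ1 : τ ≤ 1 / 2) (hl0 : 0 < lam) (hl1 : lam ≤ 1 / 2)
    {K : Finset β} (hK : K.Nonempty) (X : β → ℤ) {L : Finset α} (hL : L.Nonempty) (Y : α → ℤ)
    (z : ℤ) :
    (∀ d ∈ K, ∀ a ∈ L, 0 < gf τ lam K X L Y z (X d) (Y a)) ∧
    ∑ d ∈ K, ∑ a ∈ L, -Real.log (gf τ lam K X L Y z (X d) (Y a)) ≤
      (((2 * τ + 1) / (-Real.log τ) + τ) + 2 * lam / τ) * (L.card * ∑ d ∈ K, info K X d) +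
      ((2 * τ + 1) / (-Real.log τ) + τ) * (K.card * ∑ a ∈ L, info L Y a) +
      (1 / τ + 1 + (-Real.log lam) / τ) *
        (((L.filter (fun a => Y a ≠ z)).card : ℝ) * ∑ d ∈ K, info K X d) := by
  classical
  have hKpos : (0:ℝ) < K.card := by exact_mod_cast card_pos.2 hK
  have hLpos : (0:ℝ) < L.card := by exact_mod_cast card_pos.2 hL
  have hΛ : 0 < -Real.log τ := by
    rw [neg_pos]; exact Real.log_neg hτ0 (by linarith only [hτ1])
  have hll : 0 < -Real.log lam := by
    rw [neg_pos]; exact Real.log_neg hl0 (by (clear * - hl1; linarith only [hl1]))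
  have hI0 : 0 ≤ ∑ d ∈ K, info K X d := sum_nonneg (fun d hd => info_nonneg hd)
  have hJ0 : 0 ≤ ∑ a ∈ L, info L Y a := sum_nonneg (fun d hd => info_nonneg hd)
  have hN0 : (0:ℝ) ≤ ((L.filter (fun a => Y a ≠ z)).card : ℝ) := Nat.cast_nonneg _
  by_cases h1 : ∃ j, co K X j ≤ τ
  · by_cases h2 : co L Y z ≤ τ
    · -- both concentrated
      have hpt : ∀ d ∈ K, ∀ a ∈ L, _ := fun d hd a ha =>
        conc_cost (τ := τ) hτ1 h1.choose_spec h2 hd ha (A := (AB τ lam K X L Y z (X d + Y a)).1)
          (B := (AB τ lam K X L Y z (X d + Y a)).2)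
          (by unfold AB; rw [dif_pos h1, if_pos h2]; split_ifs <;> rfl)
          (by unfold AB; rw [dif_pos h1, if_pos h2]; split_ifs <;> rfl)
      refine ⟨fun d hd a ha => (hpt d hd a ha).1, ?_⟩
      have hr1 := h1.choose_spec
      refine (sum_le_sum (fun d hd => sum_le_sum (fun a ha => (hpt d hd a ha).2))).trans ?_
      generalize h1.choose = j at *
      have hI := sum_info_ge' hK X hτ0 hr1
      have hJ := sum_info_ge' hL Y hτ0 h2
      have hI' := sum_info_ge (K := K) X j
      have hJ' := sum_info_ge (K := L) Y z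
      have hp0 := co_nonneg L Y z
      have hr0 := co_nonneg K X j
      have hM := co_mul_card hK X j
      have hN := co_mul_card hL Y z
      have e0 : ∀ (x : β → ℝ) (y : α → ℝ) (I : β → ℝ) (c₁ c₂ c₃ c₄ : ℝ),
          ∑ d ∈ K, ∑ a ∈ L, (c₁ + y a * x d * c₂ + x d * c₃ + y a * c₄ + y a * I d) =
          K.card * (L.card * c₁) + (∑ d ∈ K, x d) * (∑ a ∈ L, y a) * c₂ +
          L.card * ((∑ d ∈ K, x d) * c₃) + K.card * ((∑ a ∈ L, y a) * c₄) +
          (∑ a ∈ L, y a) * ∑ d ∈ K, I d := by
        intro x y I c₁ c₂ c₃ c₄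
        have : ∀ d ∈ K, ∑ a ∈ L, (c₁ + y a * x d * c₂ + x d * c₃ + y a * c₄ + y a * I d) =
            L.card * c₁ + x d * ((∑ a ∈ L, y a) * c₂) + x d * (L.card * c₃) +
            (∑ a ∈ L, y a) * c₄ + I d * (∑ a ∈ L, y a) := by
          intro d _
          rw [sum_add_distrib, sum_add_distrib, sum_add_distrib, sum_add_distrib, sum_const,
            sum_const, nsmul_eq_mul, nsmul_eq_mul]
          have e1 : ∑ a ∈ L, y a * x d * c₂ = x d * ((∑ a ∈ L, y a) * c₂) := by
            rw [sum_mul, mul_sum]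
            apply sum_congr rfl; intro a _; ring
          rw [e1, ← sum_mul, ← sum_mul]
          ring
        rw [sum_congr rfl this]
        rw [sum_add_distrib, sum_add_distrib, sum_add_distrib, sum_add_distrib, sum_const,
          sum_const, nsmul_eq_mul, nsmul_eq_mul, ← sum_mul, ← sum_mul, ← sum_mul]
        ring
      rw [e0 (fun d => if X d = j then 0 else 1) (fun a => if Y a = z then 0 else 1)
        (fun d => info K X d)]
      rw [sum_ind_not, sum_ind_not, hM, hN]
      rw [hM] at hI'
      rw [hN] at hJ'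
      generalize (∑ d ∈ K, info K X d) = I at *
      generalize (∑ a ∈ L, info L Y a) = J at *
      generalize co L Y z = p at *
      generalize co K X j = r at *
      generalize (K.card : ℝ) = k at *
      generalize (L.card : ℝ) = l at *
      set Λ := -Real.log τ with hΛdef
      have hlp : 0 ≤ -Real.log p := by
        rw [neg_nonneg]; exact Real.log_nonpos hp0 (by (clear * - hτ1 h2; linarith only [hτ1, h2]))
      have hlr : 0 ≤ -Real.log r := by
        rw [neg_nonneg]; exact Real.log_nonpos hr0 (by linarith only [hτ1, hr1])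
      have hplp : 0 ≤ p * l * -Real.log p := by (clear * - hp0 hLpos hlp; positivity)
      have hrlr : 0 ≤ r * k * -Real.log r := by (clear * - hr0 hKpos hlr; positivity)
      -- the five terms
      have t1 : k * (l * (2 * (p * r))) ≤ 2 * τ / Λ * (k * J) := by
        have : 2 * τ / Λ * (k * J) = 2 * τ * k * J / Λ := by ring
        rw [this, le_div_iff₀ hΛ]
        calc k * (l * (2 * (p * r))) * Λ = 2 * r * k * (p * l * Λ) := by ring
          _ ≤ 2 * τ * k * J := by (clear * - hr1 hKpos hJ hp0 hLpos hΛ hτ0; gcongr)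
      have t2 : r * k * (p * l) * (-Real.log p - Real.log r) ≤ τ * (k * J) + τ * (l * I) := by
        have a1 : r * k * (p * l * -Real.log p) ≤ τ * k * J := by (clear * - hr1 hKpos hJ' hp0 hLpos hlp hτ0; gcongr)
        have a2 : p * l * (r * k * -Real.log r) ≤ τ * l * I := by (clear * - h2 hLpos hI' hr0 hKpos hlr hτ0; gcongr)
        linarith only [a1, a2]
      have t3 : l * (r * k * (p / r)) ≤ 1 / Λ * (k * J) := by
        have a1 : r * (p / r) ≤ p := by
          rcases hr0.eq_or_lt with h0 | h0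
          · rw [← h0]; simpa using hp0
          · rw [mul_div_cancel₀ _ h0.ne']
        have : 1 / Λ * (k * J) = k * J / Λ := by ring
        rw [this, le_div_iff₀ hΛ]
        calc l * (r * k * (p / r)) * Λ = k * l * Λ * (r * (p / r)) := by ring
          _ ≤ k * l * Λ * p := by (clear * - a1 hKpos hLpos hΛ; gcongr)
          _ = k * (p * l * Λ) := by ring
          _ ≤ k * J := by (clear * - hJ hKpos; gcongr)
      have t4 : k * (p * l * (r / p)) ≤ 1 / Λ * (l * I) := by
        have a1 : p * (r / p) ≤ r := by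
          rcases hp0.eq_or_lt with h0 | h0
          · rw [← h0]; simpa using hr0
          · rw [mul_div_cancel₀ _ h0.ne']
        have : 1 / Λ * (l * I) = l * I / Λ := by ring
        rw [this, le_div_iff₀ hΛ]
        calc k * (p * l * (r / p)) * Λ = k * l * Λ * (p * (r / p)) := by ring
          _ ≤ k * l * Λ * r := by (clear * - a1 hKpos hLpos hΛ; gcongr)
          _ = l * (r * k * Λ) := by ring
          _ ≤ l * I := by (clear * - hI hLpos; gcongr)
      have t5 : p * l * I ≤ (1 / τ + 1 + -Real.log lam / τ) * (p * l * I) := by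
        have a1 : 0 ≤ p * l * I := by (clear * - hp0 hLpos hI0; positivity)
        have a2 : 0 ≤ (1 / τ + -Real.log lam / τ) * (p * l * I) := by (clear * - hτ0 hll hp0 hLpos hI0; positivity)
        linarith only [a2]
      have t6 : 0 ≤ 2 * lam / τ * (l * I) := by (clear * - hl0 hτ0 hLpos hI0; positivity)
      have t7 : 0 ≤ 2 * τ / Λ * (l * I) := by (clear * - hτ0 hΛ hLpos hI0; positivity)
      have e5 : ((2 * τ + 1) / Λ + τ + 2 * lam / τ) * (l * I) +
          ((2 * τ + 1) / Λ + τ) * (k * J) = 2 * τ / Λ * (k * J) +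
          (τ * (k * J) + τ * (l * I)) + 1 / Λ * (k * J) + 1 / Λ * (l * I) +
          2 * lam / τ * (l * I) + 2 * τ / Λ * (l * I) := by ring
      rw [e5]
      linarith only [t1, t2, t3, t4, t5, t6, t7]
    · -- V not concentrated on this class
      push Not at h2
      have hg : ∀ d a, gf τ lam K X L Y z (X d) (Y a) = mu K X (X d) := by
        intro d a
        unfold gf AB
        rw [dif_pos h1, if_neg (not_le.2 h2)]
        simp
      simp only [hg]
      refine ⟨fun d hd _ _ => mu_pos hd, ?_⟩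
      have h3 : ∑ d ∈ K, ∑ _a ∈ L, -Real.log (mu K X (X d)) =
          L.card * ∑ d ∈ K, info K X d := by
        rw [mul_sum]
        apply sum_congr rfl
        intro d _
        rw [sum_const, nsmul_eq_mul]
        rfl
      rw [h3]
      have h4 : (L.card : ℝ) ≤ 1 / τ * ((L.filter (fun a => Y a ≠ z)).card : ℝ) := by
        rw [co_mul_card hL, one_div, ← div_eq_inv_mul, le_div_iff₀ hτ0]
        rw [mul_comm]
        (clear * - h2 hL; gcongr)
      have h5 : (L.card : ℝ) * ∑ d ∈ K, info K X d ≤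
          1 / τ * (((L.filter (fun a => Y a ≠ z)).card : ℝ) * ∑ d ∈ K, info K X d) := by
        rw [← mul_assoc]
        exact mul_le_mul_of_nonneg_right h4 hI0
      have h6 : 0 ≤ (((2 * τ + 1) / (-Real.log τ) + τ) + 2 * lam / τ) *
          (L.card * ∑ d ∈ K, info K X d) := by (clear * - hτ0 hΛ hl0 hL hI0; positivity)
      have h7 : 0 ≤ ((2 * τ + 1) / (-Real.log τ) + τ) * (K.card * ∑ a ∈ L, info L Y a) := by
        (clear * - hτ0 hΛ hK hJ0; positivity)
      have h8 : 0 ≤ (1 + (-Real.log lam) / τ) *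
        (((L.filter (fun a => Y a ≠ z)).card : ℝ) * ∑ d ∈ K, info K X d) := by (clear * - hll hτ0 hI0; positivity)
      have h9 : (1 / τ + 1 + (-Real.log lam) / τ) *
        (((L.filter (fun a => Y a ≠ z)).card : ℝ) * ∑ d ∈ K, info K X d) = 1 / τ *
        (((L.filter (fun a => Y a ≠ z)).card : ℝ) * ∑ d ∈ K, info K X d) +
        (1 + (-Real.log lam) / τ) *
        (((L.filter (fun a => Y a ≠ z)).card : ℝ) * ∑ d ∈ K, info K X d) := by ring
      rw [h9]
      linarith only [h5, h6, h7, h8]
  · -- D not concentrated on this class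
    have hg : ∀ d a, gf τ lam K X L Y z (X d) (Y a) =
        (if Y a = z then 1 - lam else 0) + lam * mu K X (X d) := by
      intro d a
      unfold gf AB
      rw [dif_neg h1]
    simp only [hg]
    have hpos : ∀ d ∈ K, ∀ a, 0 < (if Y a = z then 1 - lam else 0) + lam * mu K X (X d) := by
      intro d hd a
      have := mu_pos (X := X) hd
      split_ifs
      · have : 0 < 1 - lam := by (clear * - hl1; linarith only [hl1])
        positivity
      · (clear * - hl0 this; positivity)
    refine ⟨fun d hd a _ => hpos d hd a, ?_⟩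
    have hinfo : ∀ d ∈ K, τ ≤ info K X d := by
      intro d hd
      push Not at h1
      have e1 := h1 (X d)
      have e2 := mu_add_co hK X (X d)
      have e3 : mu K X (X d) ≤ 1 - τ := by linarith only [e1, e2]
      unfold info
      have e4 : Real.log (mu K X (X d)) ≤ mu K X (X d) - 1 :=
        Real.log_le_sub_one_of_pos (mu_pos hd)
      linarith only [e3, e4]
    have hpt : ∀ d ∈ K, ∀ a ∈ L,
        -Real.log ((if Y a = z then 1 - lam else 0) + lam * mu K X (X d)) ≤
        2 * lam / τ * info K X d +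
          (if Y a = z then 0 else 1) * ((1 + (-Real.log lam) / τ) * info K X d) := by
      intro d hd a _
      have hmu := mu_pos (X := X) hd
      have hi := hinfo d hd
      have hi0 : 0 ≤ info K X d := by linarith only [hτ0, hi]
      by_cases hu : Y a = z
      · rw [if_pos hu, if_pos hu, zero_mul, add_zero]
        have e1 : 0 < 1 - lam := by (clear * - hl1; linarith only [hl1])
        have e2 : -Real.log (1 - lam + lam * mu K X (X d)) ≤ -Real.log (1 - lam) := by
          apply neg_le_neg
          apply Real.log_le_log e1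
          have : 0 ≤ lam * mu K X (X d) := by (clear * - hl0 hmu; positivity)
          linarith only [this]
        have e3 : -Real.log (1 - lam) ≤ 2 * lam := by
          have : -Real.log (1 - lam) ≤ lam / (1 - lam) := by
            rw [← Real.log_inv]
            refine (Real.log_le_sub_one_of_pos (inv_pos.2 e1)).trans (le_of_eq ?_)
            field_simp
            ring
          refine this.trans ?_
          rw [div_le_iff₀ e1]
          (clear * - hl0 hl1; nlinarith only [hl0, hl1])
        have e4 : 2 * lam ≤ 2 * lam / τ * info K X d := by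
          calc 2 * lam = 2 * lam / τ * τ := by field_simp
            _ ≤ 2 * lam / τ * info K X d := by (clear * - hi hl0 hτ0; gcongr)
        linarith only [e2, e3, e4]
      · rw [if_neg hu, if_neg hu, zero_add, one_mul, Real.log_mul hl0.ne' hmu.ne']
        have e4 : -Real.log lam ≤ -Real.log lam / τ * info K X d := by
          calc -Real.log lam = -Real.log lam / τ * τ := by (clear * - hτ0; field_simp)
            _ ≤ -Real.log lam / τ * info K X d := by (clear * - hi hll hτ0; gcongr)
        have e5 : 0 ≤ 2 * lam / τ * info K X d := by (clear * - hl0 hτ0 hi0; positivity)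
        have e6 : info K X d = -Real.log (mu K X (X d)) := rfl
        linarith only [e4, e5, e6]
    refine (sum_le_sum (fun d hd => sum_le_sum (fun a ha => hpt d hd a ha))).trans ?_
    have e0 : ∑ d ∈ K, ∑ a ∈ L, (2 * lam / τ * info K X d +
          (if Y a = z then 0 else 1) * ((1 + (-Real.log lam) / τ) * info K X d)) =
        2 * lam / τ * (L.card * ∑ d ∈ K, info K X d) +
        (1 + (-Real.log lam) / τ) *
          (((L.filter (fun a => Y a ≠ z)).card : ℝ) * ∑ d ∈ K, info K X d) := by
      have : ∀ d ∈ K, ∑ a ∈ L, (2 * lam / τ * info K X d +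
          (if Y a = z then 0 else 1) * ((1 + (-Real.log lam) / τ) * info K X d)) =
          (2 * lam / τ * L.card + (1 + (-Real.log lam) / τ) *
            ((L.filter (fun a => Y a ≠ z)).card : ℝ)) * info K X d := by
        intro d _
        rw [sum_add_distrib, sum_const, nsmul_eq_mul, ← sum_mul, sum_ind_not]
        ring
      rw [sum_congr rfl this, ← mul_sum]
      ring
    rw [e0]
    have h6 : 0 ≤ ((2 * τ + 1) / (-Real.log τ) + τ) *
        (L.card * ∑ d ∈ K, info K X d) := by (clear * - hτ0 hΛ hL hI0; positivity)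
    have h7 : 0 ≤ ((2 * τ + 1) / (-Real.log τ) + τ) * (K.card * ∑ a ∈ L, info L Y a) := by
      (clear * - hτ0 hΛ hK hJ0; positivity)
    have h8 : 0 ≤ 1 / τ *
      (((L.filter (fun a => Y a ≠ z)).card : ℝ) * ∑ d ∈ K, info K X d) := by (clear * - hτ0 hI0; positivity)
    linarith only [h6, h7, h8]

end factor

end Pool.Agent.Helper2.E
end

/- Helper24.FF.H2.EProdE2 -/
section
set_option autoImplicit false

/-!
The entropy product step and its iteration.
-/

open Finset

namespace Pool.Agent.Helper2.E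

section weights

variable {β α ι : Type*}

/-- the weight along a list of coordinates -/
noncomputable def w2 (τ lam : ℝ) (x : β → ι → ℤ) (y : α → ι → ℤ) (z : ι → ℤ) (d : β) (a : α) :
    List ι → Finset β → Finset α → ℝ
  | [], _, _ => 1
  | q :: l, K, L =>
    gf τ lam K (fun d' => x d' q) L (fun a' => y a' q) (z q) (x d q) (y a q) *
      w2 τ lam x y z d a l (K.filter (fun d' => x d' q = x d q))
        (L.filter (fun a' => y a' q = y a q))

/-- kernel -/
theorem w2_sum [DecidableEq (ι → ℤ)] {τ lam : ℝ} (hτ1 : τ ≤ 1) (hl0 : 0 ≤ lam) (hl1 : lam ≤ 1) {R : ℝ} (hR : 0 ≤ R)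
    (x : β → ι → ℤ) (y : α → ι → ℤ) (z : ι → ℤ) (s : ι → ℤ) :
    ∀ (l : List ι) (K : Finset β) (L : Finset α),
      (∀ d ∈ K, ∀ d' ∈ K, (∀ q ∈ l, x d q = x d' q) → d = d') →
      (∀ d ∈ K, ((L.filter (fun a => x d + y a = s)).card : ℝ) ≤ R) →
      ∑ d ∈ K, ∑ a ∈ L.filter (fun a => x d + y a = s), w2 τ lam x y z d a l K L ≤ R := by
  classical
  intro l
  induction l with
  | nil =>
    intro K L hsep hfib
    rcases K.eq_empty_or_nonempty with h0 | ⟨d₀, hd₀⟩
    · rw [h0, sum_empty]; exact hR
    · have h1 : K = {d₀} := by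
        rw [eq_singleton_iff_unique_mem]
        exact ⟨hd₀, fun d hd => hsep d hd d₀ hd₀ (by simp)⟩
      rw [h1, sum_singleton]
      simp only [w2, sum_const, nsmul_eq_mul, mul_one]
      exact hfib d₀ hd₀
  | cons q l ih =>
    intro K L hsep hfib
    rcases K.eq_empty_or_nonempty with h0 | hne
    · rw [h0, sum_empty]; exact hR
    rw [← Finset.sum_fiberwise_of_maps_to (t := K.image (fun d => x d q)) (g := fun d => x d q)
      (fun e he => mem_image_of_mem _ he)]
    have hg := gf_sum (lam := lam) hτ1 hl0 hl1 hne (fun d => x d q) L (fun a => y a q) (z q) (s q)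
    calc ∑ c ∈ K.image (fun d => x d q), ∑ d ∈ K.filter (fun d => x d q = c),
          ∑ a ∈ L.filter (fun a => x d + y a = s), w2 τ lam x y z d a (q :: l) K L
        ≤ ∑ c ∈ K.image (fun d => x d q),
          gf τ lam K (fun d => x d q) L (fun a => y a q) (z q) c (s q - c) * R := by
          apply sum_le_sum
          intro c _
          have hin : ∀ d ∈ K.filter (fun d => x d q = c),
              ∑ a ∈ L.filter (fun a => x d + y a = s), w2 τ lam x y z d a (q :: l) K L =
              gf τ lam K (fun d => x d q) L (fun a => y a q) (z q) c (s q - c) *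
              ∑ a ∈ (L.filter (fun a => y a q = s q - c)).filter (fun a => x d + y a = s),
                w2 τ lam x y z d a l (K.filter (fun d => x d q = c))
                  (L.filter (fun a => y a q = s q - c)) := by
            intro d hd
            rw [mem_filter] at hd
            have hset : (L.filter (fun a => y a q = s q - c)).filter (fun a => x d + y a = s) =
                L.filter (fun a => x d + y a = s) := by
              ext a
              rw [mem_filter, mem_filter, mem_filter]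
              constructor
              · rintro ⟨⟨h1, _⟩, h3⟩
                exact ⟨h1, h3⟩
              · rintro ⟨h1, h3⟩
                refine ⟨⟨h1, ?_⟩, h3⟩
                have := congrFun h3 q
                rw [Pi.add_apply, hd.2] at this
                omega
            rw [hset, mul_sum]
            apply sum_congr rfl
            intro a ha
            rw [mem_filter] at ha
            have h4 : y a q = s q - c := by
              have := congrFun ha.2 q
              rw [Pi.add_apply, hd.2] at this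
              omega
            show gf τ lam K (fun d' => x d' q) L (fun a' => y a' q) (z q) (x d q) (y a q) *
              w2 τ lam x y z d a l (K.filter (fun d' => x d' q = x d q))
                (L.filter (fun a' => y a' q = y a q)) = _
            rw [hd.2, h4]
          rw [sum_congr rfl hin, ← mul_sum]
          apply mul_le_mul_of_nonneg_left _ (gf_nonneg hτ1 hl0 hl1 _ _ _ _ _ _ _)
          apply ih
          · intro d hd d' hd' h
            rw [mem_filter] at hd hd'
            apply hsep d hd.1 d' hd'.1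
            intro q' hq'
            rcases List.mem_cons.1 hq' with rfl | hq'
            · rw [hd.2, hd'.2]
            · exact h q' hq'
          · intro d hd
            refine le_trans ?_ (hfib d (mem_filter.1 hd).1)
            apply Nat.cast_le.2
            apply card_le_card
            intro a ha
            rw [mem_filter, mem_filter] at ha
            exact mem_filter.2 ⟨ha.1.1, ha.2⟩
      _ = (∑ c ∈ K.image (fun d => x d q),
          gf τ lam K (fun d => x d q) L (fun a => y a q) (z q) c (s q - c)) * R := by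
          rw [sum_mul]
      _ ≤ 1 * R := mul_le_mul_of_nonneg_right hg hR
      _ = R := one_mul R

end weights

section classes

variable {β ι : Type*}

/-- the class of `d` by the coordinates in `m` -/
def cls (S : Finset β) (x : β → ι → ℤ) (m : List ι) (d : β) : Finset β :=
  S.filter (fun d' => ∀ q ∈ m, x d' q = x d q)

theorem mem_cls {S : Finset β} {x : β → ι → ℤ} {m : List ι} {d d' : β} :
    d' ∈ cls S x m d ↔ d' ∈ S ∧ ∀ q ∈ m, x d' q = x d q := by
  unfold cls; rw [mem_filter]

theorem cls_nil (S : Finset β) (x : β → ι → ℤ) (d : β) : cls S x [] d = S := by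
  ext d'; rw [mem_cls]; simp

theorem cls_cons (S : Finset β) (x : β → ι → ℤ) (m : List ι) (q : ι) (d : β) :
    (cls S x m d).filter (fun d' => x d' q = x d q) = cls S x (q :: m) d := by
  ext d'
  rw [mem_filter, mem_cls, mem_cls]
  simp only [List.mem_cons, forall_eq_or_imp]
  tauto

theorem self_mem_cls {S : Finset β} {x : β → ι → ℤ} {m : List ι} {d : β} (hd : d ∈ S) :
    d ∈ cls S x m d := mem_cls.2 ⟨hd, fun _ _ => rfl⟩

theorem cls_eq {S : Finset β} {x : β → ι → ℤ} {m : List ι} {d d' : β}
    (h : d' ∈ cls S x m d) : cls S x m d' = cls S x m d := by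
  ext e
  rw [mem_cls, mem_cls]
  have h2 := (mem_cls.1 h).2
  constructor
  · rintro ⟨h3, h4⟩
    exact ⟨h3, fun q hq => (h4 q hq).trans (h2 q hq)⟩
  · rintro ⟨h3, h4⟩
    exact ⟨h3, fun q hq => (h4 q hq).trans (h2 q hq).symm⟩

theorem sum_cls [DecidableEq (Finset β)] (S : Finset β) (x : β → ι → ℤ) (m : List ι)
    (F : Finset β → β → ℝ) :
    ∑ d ∈ S, F (cls S x m d) d = ∑ K ∈ S.image (cls S x m), ∑ d ∈ K, F K d := by
  rw [← Finset.sum_fiberwise_of_maps_to (t := S.image (cls S x m)) (g := cls S x m)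
      (fun e he => mem_image_of_mem _ he)]
  apply sum_congr rfl
  intro K hK
  obtain ⟨d₀, hd₀, rfl⟩ := mem_image.1 hK
  have h1 : S.filter (fun d => cls S x m d = cls S x m d₀) = cls S x m d₀ := by
    ext d
    rw [mem_filter]
    constructor
    · rintro ⟨h1, h2⟩
      rw [← h2]
      exact self_mem_cls h1
    · intro h
      exact ⟨(mem_cls.1 h).1, cls_eq h⟩
  rw [h1]
  apply sum_congr rfl
  intro d hd
  rw [cls_eq hd]

theorem cls_image_nonempty [DecidableEq (Finset β)] {S : Finset β} {x : β → ι → ℤ} {m : List ι}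
    {K : Finset β} (hK : K ∈ S.image (cls S x m)) : K.Nonempty := by
  obtain ⟨d₀, hd₀, rfl⟩ := mem_image.1 hK
  exact ⟨d₀, self_mem_cls hd₀⟩

theorem cls_info {S : Finset β} {x : β → ι → ℤ} {m : List ι} {q : ι} {d : β} (hd : d ∈ S) :
    info (cls S x m d) (fun d' => x d' q) d =
      Real.log (cls S x m d).card - Real.log (cls S x (q :: m) d).card := by
  rw [info_eq (self_mem_cls hd), cls_cons]

end classes

section cost

variable {β α ι : Type*}

/-- cost of one level -/
theorem level_cost {τ lam : ℝ} (hτ0 : 0 < τ) (hτ1 : τ ≤ 1 / 2) (hl0 : 0 < lam) (hl1 : lam ≤ 1 / 2)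
    (D : Finset β) (V : Finset α) (x : β → ι → ℤ) (y : α → ι → ℤ) (z : ι → ℤ)
    (m : List ι) (q : ι) {κ : ℝ} (hκ0 : 0 ≤ κ)
    (hκ : ((V.filter (fun a => y a q ≠ z q)).card : ℝ) ≤ κ * V.card) {η : ℝ}
    (hη : ((2 * τ + 1) / (-Real.log τ) + τ) + 2 * lam / τ +
      (1 / τ + 1 + (-Real.log lam) / τ) * κ ≤ η) :
    (∀ d ∈ D, ∀ a ∈ V, 0 < gf τ lam (cls D x m d) (fun d' => x d' q) (cls V y m a)
      (fun a' => y a' q) (z q) (x d q) (y a q)) ∧
    ∑ d ∈ D, ∑ a ∈ V, -Real.log (gf τ lam (cls D x m d) (fun d' => x d' q) (cls V y m a)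
      (fun a' => y a' q) (z q) (x d q) (y a q)) ≤
      η * (V.card * ∑ d ∈ D, info (cls D x m d) (fun d' => x d' q) d) +
      η * (D.card * ∑ a ∈ V, info (cls V y m a) (fun a' => y a' q) a) := by
  classical
  refine ⟨?_, ?_⟩
  · intro d hd a ha
    exact (pair_cost hτ0 hτ1 hl0 hl1 ⟨d, self_mem_cls hd⟩ (fun d' => x d' q)
      ⟨a, self_mem_cls ha⟩ (fun a' => y a' q) (z q)).1 d (self_mem_cls hd) a (self_mem_cls ha)
  set c₁ := ((2 * τ + 1) / (-Real.log τ) + τ) + 2 * lam / τ with hc₁
  set c₂ := (2 * τ + 1) / (-Real.log τ) + τ with hc₂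
  set c₃ := 1 / τ + 1 + (-Real.log lam) / τ with hc₃
  have hΛ : 0 < -Real.log τ := by
    rw [neg_pos]; exact Real.log_neg hτ0 (by linarith only [hτ1])
  have hll : 0 < -Real.log lam := by
    rw [neg_pos]; exact Real.log_neg hl0 (by (clear * - hl1; linarith only [hl1]))
  have hc₃0 : 0 ≤ c₃ := by (clear * - hτ0 hll; positivity)
  have hc₁₂ : c₂ ≤ c₁ := by
    rw [hc₁]
    have : 0 ≤ 2 * lam / τ := by positivity
    linarith only [this]
  have h1 : ∑ d ∈ D, ∑ a ∈ V, -Real.log (gf τ lam (cls D x m d) (fun d' => x d' q) (cls V y m a)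
      (fun a' => y a' q) (z q) (x d q) (y a q)) =
      ∑ K ∈ D.image (cls D x m), ∑ L ∈ V.image (cls V y m), ∑ d ∈ K, ∑ a ∈ L,
        -Real.log (gf τ lam K (fun d' => x d' q) L (fun a' => y a' q) (z q) (x d q) (y a q)) := by
    rw [sum_cls D x m (fun K d => ∑ a ∈ V, -Real.log (gf τ lam K (fun d' => x d' q) (cls V y m a)
      (fun a' => y a' q) (z q) (x d q) (y a q)))]
    apply sum_congr rfl
    intro K _
    rw [sum_comm (s := V.image (cls V y m)) (t := K)]
    apply sum_congr rfl
    intro d _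
    exact sum_cls V y m (fun L a => -Real.log (gf τ lam K (fun d' => x d' q) L
      (fun a' => y a' q) (z q) (x d q) (y a q)))
  rw [h1]
  have h2 : ∀ K ∈ D.image (cls D x m), ∀ L ∈ V.image (cls V y m), ∑ d ∈ K, ∑ a ∈ L,
        -Real.log (gf τ lam K (fun d' => x d' q) L (fun a' => y a' q) (z q) (x d q) (y a q)) ≤
      c₁ * (L.card * ∑ d ∈ K, info K (fun d' => x d' q) d) +
      c₂ * (K.card * ∑ a ∈ L, info L (fun a' => y a' q) a) +
      c₃ * (((L.filter (fun a => y a q ≠ z q)).card : ℝ) *
        ∑ d ∈ K, info K (fun d' => x d' q) d) := by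
    intro K hK L hL
    exact (pair_cost hτ0 hτ1 hl0 hl1 (cls_image_nonempty hK) (fun d' => x d' q)
      (cls_image_nonempty hL) (fun a' => y a' q) (z q)).2
  refine (sum_le_sum (fun K hK => sum_le_sum (fun L hL => h2 K hK L hL))).trans ?_
  -- evaluate the double sum
  have hcardV : ∑ L ∈ V.image (cls V y m), (L.card : ℝ) = V.card := by
    have := sum_cls V y m (fun _ _ => (1:ℝ))
    simp only [sum_const, nsmul_eq_mul, mul_one] at this
    exact this.symm
  have hcardD : ∑ K ∈ D.image (cls D x m), (K.card : ℝ) = D.card := by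
    have := sum_cls D x m (fun _ _ => (1:ℝ))
    simp only [sum_const, nsmul_eq_mul, mul_one] at this
    exact this.symm
  have hcardN : ∑ L ∈ V.image (cls V y m), ((L.filter (fun a => y a q ≠ z q)).card : ℝ) =
      ((V.filter (fun a => y a q ≠ z q)).card : ℝ) := by
    have := sum_cls V y m (fun _ a => if y a q = z q then (0:ℝ) else 1)
    rw [sum_ind_not V (fun a => y a q) (z q)] at this
    rw [this]
    apply sum_congr rfl
    intro L _
    rw [sum_ind_not L (fun a => y a q) (z q)]
  have hID := sum_cls D x m (fun K d => info K (fun d' => x d' q) d)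
  have hIV := sum_cls V y m (fun L a => info L (fun a' => y a' q) a)
  have h3 : ∑ K ∈ D.image (cls D x m), ∑ L ∈ V.image (cls V y m),
      (c₁ * (L.card * ∑ d ∈ K, info K (fun d' => x d' q) d) +
      c₂ * (K.card * ∑ a ∈ L, info L (fun a' => y a' q) a) +
      c₃ * (((L.filter (fun a => y a q ≠ z q)).card : ℝ) *
        ∑ d ∈ K, info K (fun d' => x d' q) d)) =
      c₁ * (V.card * ∑ d ∈ D, info (cls D x m d) (fun d' => x d' q) d) +
      c₂ * (D.card * ∑ a ∈ V, info (cls V y m a) (fun a' => y a' q) a) +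
      c₃ * (((V.filter (fun a => y a q ≠ z q)).card : ℝ) *
        ∑ d ∈ D, info (cls D x m d) (fun d' => x d' q) d) := by
    rw [hID, hIV, ← hcardV, ← hcardD, ← hcardN]
    simp only [sum_add_distrib, ← mul_sum, ← sum_mul]
  rw [h3]
  have hI0 : 0 ≤ ∑ d ∈ D, info (cls D x m d) (fun d' => x d' q) d :=
    sum_nonneg (fun d hd => info_nonneg (self_mem_cls hd))
  have hJ0 : 0 ≤ ∑ a ∈ V, info (cls V y m a) (fun a' => y a' q) a :=
    sum_nonneg (fun d hd => info_nonneg (self_mem_cls hd))
  generalize ∑ d ∈ D, info (cls D x m d) (fun d' => x d' q) d = I at *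
  generalize ∑ a ∈ V, info (cls V y m a) (fun a' => y a' q) a = J at *
  have h4 : c₃ * (((V.filter (fun a => y a q ≠ z q)).card : ℝ) * I) ≤
      c₃ * κ * (V.card * I) := by
    calc c₃ * (((V.filter (fun a => y a q ≠ z q)).card : ℝ) * I) ≤
          c₃ * ((κ * V.card) * I) := by (clear * - hκ hI0 hτ0 hll; gcongr)
      _ = _ := by ring
  have h5 : c₂ * (D.card * J) ≤ η * (D.card * J) := by
    apply mul_le_mul_of_nonneg_right _ (by (clear * - hJ0; positivity))
    have : 0 ≤ c₃ * κ := by (clear * - hτ0 hll hκ0; positivity)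
    linarith only [hη, hc₁₂, this]
  have h6 : (c₁ + c₃ * κ) * (V.card * I) ≤ η * (V.card * I) :=
    mul_le_mul_of_nonneg_right hη (by (clear * - hI0; positivity))
  linarith only [h4, h5, h6]

/-- total cost -/
theorem w2_cost {τ lam : ℝ} (hτ0 : 0 < τ) (hτ1 : τ ≤ 1 / 2) (hl0 : 0 < lam) (hl1 : lam ≤ 1 / 2)
    (D : Finset β) (V : Finset α) (x : β → ι → ℤ) (y : α → ι → ℤ) (z : ι → ℤ)
    {κ : ℝ} (hκ0 : 0 ≤ κ)
    (hκ : ∀ q, ((V.filter (fun a => y a q ≠ z q)).card : ℝ) ≤ κ * V.card) {η : ℝ} (hη0 : 0 ≤ η)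
    (hη : ((2 * τ + 1) / (-Real.log τ) + τ) + 2 * lam / τ +
      (1 / τ + 1 + (-Real.log lam) / τ) * κ ≤ η) :
    ∀ (l m : List ι),
    (∀ d ∈ D, ∀ a ∈ V, 0 < w2 τ lam x y z d a l (cls D x m d) (cls V y m a)) ∧
    ∑ d ∈ D, ∑ a ∈ V, -Real.log (w2 τ lam x y z d a l (cls D x m d) (cls V y m a)) ≤
      η * (V.card * ∑ d ∈ D, Real.log (cls D x m d).card) +
      η * (D.card * ∑ a ∈ V, Real.log (cls V y m a).card) := by
  intro l
  induction l with
  | nil =>
    intro m
    refine ⟨fun _ _ _ _ => one_pos, ?_⟩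
    simp only [w2, Real.log_one, neg_zero, sum_const_zero]
    have h1 : 0 ≤ ∑ d ∈ D, Real.log ((cls D x m d).card : ℝ) :=
      sum_nonneg (fun d _ => Real.log_natCast_nonneg _)
    have h2 : 0 ≤ ∑ a ∈ V, Real.log ((cls V y m a).card : ℝ) :=
      sum_nonneg (fun d _ => Real.log_natCast_nonneg _)
    (clear * - hη0; positivity)
  | cons q l ih =>
    intro m
    obtain ⟨hpos, hcost⟩ := level_cost hτ0 hτ1 hl0 hl1 D V x y z m q hκ0 (hκ q) hη
    obtain ⟨ihpos, ihcost⟩ := ih (q :: m)
    have hw : ∀ d a, w2 τ lam x y z d a (q :: l) (cls D x m d) (cls V y m a) =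
        gf τ lam (cls D x m d) (fun d' => x d' q) (cls V y m a)
          (fun a' => y a' q) (z q) (x d q) (y a q) *
        w2 τ lam x y z d a l (cls D x (q :: m) d) (cls V y (q :: m) a) := by
      intro d a
      show _ * w2 τ lam x y z d a l ((cls D x m d).filter (fun d' => x d' q = x d q))
        ((cls V y m a).filter (fun a' => y a' q = y a q)) = _
      rw [cls_cons, cls_cons]
    refine ⟨fun d hd a ha => ?_, ?_⟩
    · rw [hw]
      exact mul_pos (hpos d hd a ha) (ihpos d hd a ha)
    · have h1 : ∑ d ∈ D, ∑ a ∈ V,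
          -Real.log (w2 τ lam x y z d a (q :: l) (cls D x m d) (cls V y m a)) =
          ∑ d ∈ D, ∑ a ∈ V, -Real.log (gf τ lam (cls D x m d) (fun d' => x d' q) (cls V y m a)
            (fun a' => y a' q) (z q) (x d q) (y a q)) +
          ∑ d ∈ D, ∑ a ∈ V,
            -Real.log (w2 τ lam x y z d a l (cls D x (q :: m) d) (cls V y (q :: m) a)) := by
        rw [← sum_add_distrib]
        apply sum_congr rfl
        intro d hd
        rw [← sum_add_distrib]
        apply sum_congr rfl
        intro a ha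
        rw [hw, Real.log_mul (hpos d hd a ha).ne' (ihpos d hd a ha).ne']
        ring
      rw [h1]
      have h2 : ∑ d ∈ D, info (cls D x m d) (fun d' => x d' q) d =
          ∑ d ∈ D, Real.log (cls D x m d).card -
            ∑ d ∈ D, Real.log (cls D x (q :: m) d).card := by
        rw [← sum_sub_distrib]
        exact sum_congr rfl (fun d hd => cls_info hd)
      have h3 : ∑ a ∈ V, info (cls V y m a) (fun a' => y a' q) a =
          ∑ a ∈ V, Real.log (cls V y m a).card -
            ∑ a ∈ V, Real.log (cls V y (q :: m) a).card := by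
        rw [← sum_sub_distrib]
        exact sum_congr rfl (fun d hd => cls_info hd)
      rw [h2, h3] at hcost
      linarith only [hcost, ihcost]

end cost

section step

variable {α ι : Type*} [DecidableEq ι]

/-- **Entropy product step.** -/
theorem prod_stepE {τ lam : ℝ} (hτ0 : 0 < τ) (hτ1 : τ ≤ 1 / 2) (hl0 : 0 < lam) (hl1 : lam ≤ 1 / 2)
    {κ : ℝ} (hκ0 : 0 ≤ κ) {η : ℝ} (hη0 : 0 ≤ η)
    (hη : ((2 * τ + 1) / (-Real.log τ) + τ) + 2 * lam / τ +
      (1 / τ + 1 + (-Real.log lam) / τ) * κ ≤ η)
    {A : Finset α} (hAne : A.Nonempty) (vec : α → ι →₀ ℤ) (z : ι → ℤ)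
    (hκ : ∀ q, ((A.filter (fun a => vec a q ≠ z q)).card : ℝ) ≤ κ * A.card)
    {R : ℝ} (hR0 : 0 < R)
    (hR : ∀ b : ι →₀ ℤ, ((A.filter (fun a => vec a = b)).card : ℝ) ≤ R)
    {D : Finset (ι →₀ ℤ)} (hDne : D.Nonempty) :
    Real.log D.card + Real.log A.card - Real.log R -
      η * (Real.log D.card + Real.log A.card) ≤
      Real.log ((image₂ (· + ·) D (A.image vec)).card : ℝ) := by
  classical
  set S : Finset ι := D.biUnion Finsupp.support with hS
  set l := S.toList with hl
  have hsep : ∀ d ∈ D, ∀ d' ∈ D, (∀ q ∈ l, d q = d' q) → d = d' := by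
    intro d hd d' hd' h
    ext q
    by_cases hq : q ∈ S
    · exact h q (mem_toList.2 hq)
    · have h1 : d q = 0 := by
        by_contra hne
        exact hq (mem_biUnion.2 ⟨d, hd, Finsupp.mem_support_iff.2 hne⟩)
      have h2 : d' q = 0 := by
        by_contra hne
        exact hq (mem_biUnion.2 ⟨d', hd', Finsupp.mem_support_iff.2 hne⟩)
      rw [h1, h2]
  obtain ⟨hwpos', hcost⟩ := w2_cost hτ0 hτ1 hl0 hl1 D A (fun d : ι →₀ ℤ => (d : ι → ℤ))
    (fun a => (vec a : ι → ℤ)) z hκ0 hκ hη0 hη l []
  simp only [cls_nil] at hwpos' hcost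
  rw [sum_const, sum_const, nsmul_eq_mul, nsmul_eq_mul] at hcost
  let w : (ι →₀ ℤ) × α → ℝ := fun e => w2 τ lam (fun d : ι →₀ ℤ => (d : ι → ℤ))
    (fun a => (vec a : ι → ℤ)) z e.1 e.2 l D A / R
  have hwpos : ∀ e ∈ D ×ˢ A, 0 < w e := by
    intro e he
    rw [mem_product] at he
    exact div_pos (hwpos' e.1 he.1 e.2 he.2) hR0
  have hker : ∀ s, ∑ e ∈ (D ×ˢ A).filter (fun e => e.1 + vec e.2 = s), w e ≤ 1 := by
    intro s
    have h1 := w2_sum (τ := τ) (lam := lam) (by (clear * - hτ1; linarith only [hτ1])) hl0.le (by (clear * - hl1; linarith only [hl1])) hR0.le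
      (fun d : ι →₀ ℤ => (d : ι → ℤ)) (fun a => (vec a : ι → ℤ)) z (s : ι → ℤ) l D A hsep (by
        intro d _
        refine le_trans ?_ (hR (s - d))
        apply Nat.cast_le.2
        apply card_le_card
        intro a ha
        rw [mem_filter] at ha ⊢
        refine ⟨ha.1, ?_⟩
        ext q
        have := congrFun ha.2 q
        rw [Pi.add_apply] at this
        rw [Finsupp.sub_apply]
        omega)
    have h2 : ∑ e ∈ (D ×ˢ A).filter (fun e => e.1 + vec e.2 = s), w e =
        (∑ d ∈ D, ∑ a ∈ A.filter (fun a => (d : ι → ℤ) + (vec a : ι → ℤ) = (s : ι → ℤ)),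
          w2 τ lam (fun d : ι →₀ ℤ => (d : ι → ℤ)) (fun a => (vec a : ι → ℤ)) z d a l D A) / R := by
      rw [sum_filter, sum_product, sum_div]
      apply sum_congr rfl
      intro d _
      rw [← sum_filter, sum_div]
      apply sum_congr
      · apply filter_congr
        intro a _
        rw [← Finsupp.coe_add]
        exact ⟨fun h => by rw [h], fun h => DFunLike.coe_injective h⟩
      · intro a _
        rfl
    rw [h2, div_le_one hR0]
    exact h1
  have hmain := log_image_ge' (hDne.product hAne)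
    (fun e : (ι →₀ ℤ) × α => e.1 + vec e.2) w hwpos hker
  have himg : (D ×ˢ A).image (fun e : (ι →₀ ℤ) × α => e.1 + vec e.2) =
      image₂ (· + ·) D (A.image vec) := by
    ext y
    simp only [mem_image, mem_image₂, mem_product, Prod.exists]
    constructor
    · rintro ⟨d, a, ⟨hd, ha⟩, rfl⟩
      exact ⟨d, hd, _, ⟨a, ha, rfl⟩, rfl⟩
    · rintro ⟨d, hd, _, ⟨a, ha, rfl⟩, rfl⟩
      exact ⟨d, a, ⟨hd, ha⟩, rfl⟩
  have hD0 : (0:ℝ) < D.card := by exact_mod_cast card_pos.2 hDne
  have hA0 : (0:ℝ) < A.card := by exact_mod_cast card_pos.2 hAne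
  rw [himg, card_product] at hmain
  push_cast at hmain
  rw [Real.log_mul hD0.ne' hA0.ne'] at hmain
  have h3 : -∑ e ∈ D ×ˢ A, Real.log (w e) ≤ (D.card : ℝ) * A.card *
      (Real.log R + η * (Real.log D.card + Real.log A.card)) := by
    rw [sum_product, ← sum_neg_distrib]
    have h4 : ∀ d ∈ D, -∑ a ∈ A, Real.log (w (d, a)) = A.card * Real.log R +
        ∑ a ∈ A, -Real.log (w2 τ lam (fun d : ι →₀ ℤ => (d : ι → ℤ))
          (fun a => (vec a : ι → ℤ)) z d a l D A) := by
      intro d hd
      rw [← sum_neg_distrib, ← nsmul_eq_mul, ← sum_const, ← sum_add_distrib]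
      apply sum_congr rfl
      intro a ha
      show -Real.log (w2 τ lam (fun d : ι →₀ ℤ => (d : ι → ℤ))
          (fun a => (vec a : ι → ℤ)) z d a l D A / R) = _
      rw [Real.log_div (hwpos' d hd a ha).ne' hR0.ne']
      ring
    rw [sum_congr rfl h4, sum_add_distrib, sum_const, nsmul_eq_mul]
    have h5 : (D.card : ℝ) * A.card *
      (Real.log R + η * (Real.log D.card + Real.log A.card)) =
      D.card * (A.card * Real.log R) + (η * (A.card * (D.card * Real.log D.card)) +
        η * (D.card * (A.card * Real.log A.card))) := by ring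
    rw [h5]
    linarith only [hcost]
  have h10 : (1 / ((D.card : ℝ) * A.card)) * (-∑ e ∈ D ×ˢ A, Real.log (w e)) ≤
      Real.log R + η * (Real.log D.card + Real.log A.card) := by
    have h11 := mul_le_mul_of_nonneg_left h3
      (by (clear * - hDne hAne; positivity) : 0 ≤ 1 / ((D.card : ℝ) * A.card))
    refine h11.trans (le_of_eq ?_)
    (clear * - hDne hAne; field_simp)
  have h16 : (1 / ((D.card : ℝ) * A.card)) * (-∑ e ∈ D ×ˢ A, Real.log (w e)) =
      -((1 / ((D.card : ℝ) * A.card)) * ∑ e ∈ D ×ˢ A, Real.log (w e)) := by ring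
  rw [h16] at h10
  (clear * - hmain h10; linarith only [hmain, h10])

/-- **Iterated entropy product step.** -/
theorem prod_iterE {τ lam : ℝ} (hτ0 : 0 < τ) (hτ1 : τ ≤ 1 / 2) (hl0 : 0 < lam) (hl1 : lam ≤ 1 / 2)
    {κ : ℝ} (hκ0 : 0 ≤ κ) {η : ℝ} (hη0 : 0 ≤ η)
    (hη : ((2 * τ + 1) / (-Real.log τ) + τ) + 2 * lam / τ +
      (1 / τ + 1 + (-Real.log lam) / τ) * κ ≤ η)
    {A : Finset α} (hAne : A.Nonempty) (vec : α → ι →₀ ℤ) (z : ι → ℤ)
    (hκ : ∀ q, ((A.filter (fun a => vec a q ≠ z q)).card : ℝ) ≤ κ * A.card)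
    {R : ℝ} (hR0 : 0 < R)
    (hR : ∀ b : ι →₀ ℤ, ((A.filter (fun a => vec a = b)).card : ℝ) ≤ R)
    (k N : ℕ) (hAN : A.card ≤ N) :
    (k : ℝ) * (Real.log A.card - Real.log R - η * (((k:ℝ) + 1) * Real.log N)) ≤
      Real.log ((vI (A.image vec) k).card : ℝ) := by
  classical
  have hA1 : 1 ≤ A.card := card_pos.2 hAne
  have hN1 : 1 ≤ N := hA1.trans hAN
  have hN1' : (1:ℝ) ≤ N := by exact_mod_cast hN1
  have hLN : 0 ≤ Real.log N := Real.log_nonneg hN1'
  have hA0 : (0:ℝ) < A.card := by exact_mod_cast card_pos.2 hAne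
  have hLA : Real.log A.card ≤ Real.log N := Real.log_le_log hA0 (by exact_mod_cast hAN)
  set B := A.image vec with hB
  have hBne : B.Nonempty := hAne.image _
  have hBN : B.card ≤ N := card_image_le.trans hAN
  have key : ∀ j : ℕ, j ≤ k → (j : ℝ) * (Real.log A.card - Real.log R -
      η * (((k:ℝ) + 1) * Real.log N)) ≤ Real.log ((vI B j).card : ℝ) := by
    intro j
    induction j with
    | zero => intro _; simp [vI]
    | succ j ih =>
      intro hj
      have ih' := ih (by omega)
      have hne := vI_nonempty hBne j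
      have h2 := prod_stepE hτ0 hτ1 hl0 hl1 hκ0 hη0 hη hAne vec z hκ hR0 hR hne
      have hD0 : (0:ℝ) < ((vI B j).card : ℝ) := by exact_mod_cast card_pos.2 hne
      have hDN : ((vI B j).card : ℝ) ≤ (N:ℝ) ^ k := by
        have h1 : (vI B j).card ≤ N ^ k :=
          (vI_card B j).trans ((Nat.pow_le_pow_left hBN j).trans
            (Nat.pow_le_pow_right hN1 (by omega)))
        exact_mod_cast h1
      have hLD : Real.log ((vI B j).card : ℝ) ≤ k * Real.log N := by
        rw [← Real.log_pow]
        exact Real.log_le_log hD0 hDN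
      have h6 : η * (Real.log ((vI B j).card : ℝ) + Real.log A.card) ≤
          η * (((k:ℝ) + 1) * Real.log N) := by
        apply mul_le_mul_of_nonneg_left _ hη0
        linarith only [hLA, hLD]
      have h7 : image₂ (· + ·) (vI B j) B = vI B (j + 1) := rfl
      rw [← hB, h7] at h2
      push_cast at h2 ⊢
      linarith only [ih', h2, h6]
  exact key k le_rfl

end step

/-- the parameters of the entropy step -/
theorem exists_params {η : ℝ} (hη : 0 < η) : ∃ τ lam κ : ℝ, 0 < τ ∧ τ ≤ 1 / 2 ∧ 0 < lam ∧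
    lam ≤ 1 / 2 ∧ 0 < κ ∧ ((2 * τ + 1) / (-Real.log τ) + τ) + 2 * lam / τ +
      (1 / τ + 1 + (-Real.log lam) / τ) * κ ≤ η := by
  -- choose τ = min (η/4) (exp (-8/η)) (1/2)
  set τ : ℝ := min (1 / 2) (min (η / 4) (Real.exp (-(8 / η)))) with hτ
  have hτ0 : 0 < τ := by
    rw [hτ]; exact lt_min (by norm_num) (lt_min (by (clear * - hη; positivity)) (Real.exp_pos _))
  have hτ1 : τ ≤ 1 / 2 := min_le_left _ _
  have hτ2 : τ ≤ η / 4 := (min_le_right _ _).trans (min_le_left _ _)
  have hτ3 : τ ≤ Real.exp (-(8 / η)) := (min_le_right _ _).trans (min_le_right _ _)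
  have hΛ : 8 / η ≤ -Real.log τ := by
    have := Real.log_le_log hτ0 hτ3
    rw [Real.log_exp] at this
    linarith only [this]
  have hΛ0 : 0 < -Real.log τ := lt_of_lt_of_le (by (clear * - hη; positivity)) hΛ
  set lam : ℝ := min (1 / 2) (η * τ / 8) with hlam
  have hl0 : 0 < lam := by rw [hlam]; exact lt_min (by norm_num) (by positivity)
  have hl1 : lam ≤ 1 / 2 := min_le_left _ _
  have hl2 : lam ≤ η * τ / 8 := min_le_right _ _
  have hll : 0 < -Real.log lam := by
    rw [neg_pos]; exact Real.log_neg hl0 (by (clear * - hl1; linarith only [hl1]))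
  set c₃ := 1 / τ + 1 + (-Real.log lam) / τ with hc₃
  have hc₃0 : 0 < c₃ := by (clear * - hη hll; positivity)
  refine ⟨τ, lam, η / 4 / c₃, hτ0, hτ1, hl0, hl1, by (clear * - hη hll; positivity), ?_⟩
  have e1 : (2 * τ + 1) / (-Real.log τ) ≤ η / 4 := by
    rw [div_le_iff₀ hΛ0]
    calc 2 * τ + 1 ≤ 2 := by linarith only [hτ1]
      _ = η / 4 * (8 / η) := by field_simp; norm_num
      _ ≤ η / 4 * (-Real.log τ) := by gcongr
  have e2 : 2 * lam / τ ≤ η / 4 := by
    rw [div_le_iff₀ hτ0]
    (clear * - hl2; linarith only [hl2])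
  have e3 : c₃ * (η / 4 / c₃) = η / 4 := by (clear * - hc₃0 hη; field_simp)
  rw [e3]
  (clear * - hτ2 e1 e2; linarith only [hτ2, e1, e2])

end Pool.Agent.Helper2.E
end
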