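import Pool.Agent.Helper24.FG.G02
import Pool.Agent.Helper24.FG.G03
import Pool.Agent.Helper24.FG.G04

/- Helper24.FF.H2.EFinal2 -/
section
set_option autoImplicit false

/-!
Assembly of the theorem for sets whose elements are sparse in a locally independent
multiplicative dictionary.
-/

open Finset

namespace Pool.Agent.Helper2.E

open Pool.Agent.Helper5 (sI pI kS kP sI_subset pI_subset kS_nonempty)

variable {ι : Type*} [DecidableEq ι]

/-- the products corresponding to the iterated sums of exponent vectors -/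
theorem vI_prod {g : ι → ℚ} (hg : ∀ i, 0 < g i) {A : Finset ℤ} {e : ℤ → ι →₀ ℤ}
    (he : ∀ a ∈ A, |(a : ℚ)| = ev g (e a)) (j : ℕ) :
    ∀ v ∈ vI (A.image e) j, ∃ x ∈ pI A j, |(x : ℚ)| = ev g v := by
  classical
  induction j with
  | zero =>
    intro v hv
    simp only [vI, mem_singleton] at hv
    subst hv
    refine ⟨1, by simp [pI], ?_⟩
    unfold ev
    simp
  | succ j ih =>
    intro v hv
    simp only [vI, mem_image₂] at hv
    obtain ⟨y, hy, b, hb, rfl⟩ := hv
    obtain ⟨a, ha, rfl⟩ := mem_image.1 hb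
    obtain ⟨x, hx, hxy⟩ := ih y hy
    refine ⟨x * a, ?_, ?_⟩
    · simp only [pI, mem_image₂]
      exact ⟨x, hx, a, ha, rfl⟩
    · rw [ev_add hg, ← hxy, ← he a ha]
      push_cast
      rw [abs_mul]

theorem coreV (k : ℕ) (hk : 1 ≤ k) (ε : ℝ) (hε : 0 < ε) :
    ∃ c : ℝ, 0 < c ∧ ∀ (ι : Type) (g : ι → ℚ), (∀ i, 0 < g i) →
      ∀ A : Finset ℤ, A.Nonempty →
      (∀ e : ι →₀ ℤ, (e.support.card : ℝ) ≤ Real.log A.card → ev g e = 1 → e = 0) →
      (∀ a ∈ A, a ≠ 0 → ∃ e : ι →₀ ℤ, |(a : ℚ)| = ev g e ∧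
        (e.support.card : ℝ) ≤ c * Real.log A.card) →
      c * (A.card : ℝ) ^ ((k : ℝ) - ε) ≤ max ((kS k A).card : ℝ) ((kP k A).card : ℝ) := by
  classical
  have hk0 : (0:ℝ) < k := by exact_mod_cast hk
  have hk1 : (1:ℝ) ≤ k := by exact_mod_cast hk
  -- parameters
  set ε₁ : ℝ := ε / (4 * k) with hε₁
  have hε₁0 : 0 < ε₁ := by (clear * - hε hk; positivity)
  set θ : ℝ := min (1 / 2) (ε / (8 * k * (k + 1))) with hθdef
  have hθ0 : 0 < θ := by
    rw [hθdef]; apply lt_min (by norm_num) (by (clear * - hε hk; positivity))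
  have hθ1 : θ ≤ 1 / 2 := min_le_left _ _
  have hθ2 : θ ≤ ε / (8 * k * (k + 1)) := min_le_right _ _
  set lam : ℝ := ε₁ / (4 * (k + 1)) with hlam
  have hlam0 : 0 < lam := by positivity
  set H : ℕ := ⌈16 * (k:ℝ) ^ 2 / ε⌉₊ + 2 with hH
  have hH2 : (2:ℝ) ≤ H := by
    rw [hH]; push_cast
    have : (0:ℝ) ≤ (⌈16 * (k:ℝ) ^ 2 / ε⌉₊ : ℝ) := Nat.cast_nonneg _
    (clear * -; linarith only [])
  have hHge : 16 * (k:ℝ) ^ 2 / ε ≤ H := by
    rw [hH]; push_cast
    have := Nat.le_ceil (16 * (k:ℝ) ^ 2 / ε)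
    linarith only [this]
  have hHpos : (0:ℝ) < H := by (clear * - hH2; linarith only [hH2])
  have hlogH : 0 ≤ Real.log H := Real.log_nonneg (by linarith only [hH2])
  obtain ⟨b, C, hb, hC, hsum⟩ := sum_iter_rat hθ0 hθ1 hlam0
  have hlogC : 0 ≤ Real.log C := Real.log_nonneg hC
  have hlogθ : 0 ≤ Real.log (1 / θ) := by
    apply Real.log_nonneg
    rw [le_div_iff₀ hθ0]; linarith only [hθ1]
  set Y : ℝ := Real.log H + k + k * Real.log (1 / θ) + Real.log (1 / θ) + 2 + b + Real.log C + 1
    with hY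
  have hkθ : 0 ≤ k * Real.log (1 / θ) := by (clear * - hk hlogθ; positivity)
  have hY1 : 1 ≤ Y := by rw [hY]; linarith only [hlogH, hb, hlogC, hlogθ, hkθ]
  have hYpos : 0 < Y := by (clear * - hY1; linarith only [hY1])
  set c₁ : ℝ := min (ε / (16 * k * Y)) (1 / (2 * k)) with hc₁
  have hc₁0 : 0 < c₁ := lt_min (by (clear * - hε hk hlogθ hb hlogC; positivity)) (by positivity)
  have hc₁le : c₁ ≤ ε / (16 * k * Y) := min_le_left _ _
  have hc₁k : c₁ ≤ 1 / (2 * k) := min_le_right _ _
  have hkc : k * c₁ * Y ≤ ε / 16 := by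
    calc k * c₁ * Y ≤ k * (ε / (16 * k * Y)) * Y := by (clear * - hc₁le hk hlogθ hb hlogC; gcongr)
      _ = ε / 16 := by (clear * - hk hY1 hε; field_simp)
  have hlog2 : Real.log 2 ≤ 1 := by
    have := Real.log_le_sub_one_of_pos (show (0:ℝ) < 2 by norm_num)
    linarith only [this]
  have hlog2' : 0 < Real.log 2 := Real.log_pos (by norm_num)
  have hYb : ∀ z : ℝ, z ≤ Y → k * c₁ * z ≤ ε / 16 := by
    intro z hz
    exact (mul_le_mul_of_nonneg_left hz (by (clear * - hk hε hlogθ hb hlogC; positivity))).trans hkc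
  have hb1 : k * c₁ * Real.log H ≤ ε / 16 := hYb _ (by rw [hY]; linarith only [hb, hlogC, hlogθ, hkθ])
  have hb2 : k * c₁ * (k * Real.log 2) ≤ ε / 16 := by
    apply hYb
    have : (k:ℝ) * Real.log 2 ≤ k * 1 := by (clear * - hlog2 hk; gcongr)
    rw [hY]; (clear * - hlogH hb hlogC hlogθ hkθ this; linarith only [hlogH, hb, hlogC, hlogθ, hkθ, this])
  have hb3 : k * c₁ * (Real.log (1 / θ) + 2 + b) ≤ ε / 16 := hYb _ (by rw [hY]; linarith only [hlogH, hlogC, hkθ])
  have hb5 : k * c₁ * (k * Real.log (1 / θ)) ≤ ε / 16 := hYb _ (by rw [hY]; (clear * - hlogH hb hlogC hlogθ; linarith only [hlogH, hb, hlogC, hlogθ]))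
  have hb4 : c₁ * Real.log C ≤ ε₁ / 4 := by
    have h1 : k * c₁ * Real.log C ≤ ε / 16 := hYb _ (by rw [hY]; (clear * - hlogH hb hlogθ hkθ; linarith only [hlogH, hb, hlogθ, hkθ]))
    have h2 : k * (ε₁ / 4) = ε / 16 := by rw [hε₁]; field_simp; norm_num
    have h3 : k * (c₁ * Real.log C) ≤ k * (ε₁ / 4) := by rw [h2]; linarith only [h1]
    exact le_of_mul_le_mul_left h3 hk0
  set K₁ : ℝ := k * (3 * Real.log 2 + k * (2 / ε₁)) with hK₁
  have hK₁0 : 0 ≤ K₁ := by positivity
  refine ⟨min c₁ (Real.exp (-(K₁ + k * Real.log 4))), lt_min hc₁0 (Real.exp_pos _), ?_⟩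
  intro ι g hg A hAne hrel hfew
  have hlog4 : 0 < Real.log 4 := Real.log_pos (by norm_num)
  set c := min c₁ (Real.exp (-(K₁ + k * Real.log 4))) with hc
  have hcc₁ : c ≤ c₁ := min_le_left _ _
  have hcK4 : c ≤ Real.exp (-(K₁ + k * Real.log 4)) := min_le_right _ _
  have hcK : c ≤ Real.exp (-K₁) := hcK4.trans (Real.exp_le_exp.2 (by
    have : 0 ≤ (k:ℝ) * Real.log 4 := by positivity
    linarith only [this]))
  have hcpos : 0 < c := lt_min hc₁0 (Real.exp_pos _)
  clear_value c
  set n := A.card with hn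
  have hn1 : 1 ≤ n := card_pos.mpr hAne
  have hn1' : (1 : ℝ) ≤ n := by exact_mod_cast hn1
  have hnpos : (0 : ℝ) < n := by linarith only [hn1']
  have hmax1 : (1 : ℝ) ≤ max ((kS k A).card : ℝ) ((kP k A).card : ℝ) := by
    apply le_max_of_le_left
    exact_mod_cast card_pos.mpr (kS_nonempty k hAne)
  rcases Nat.lt_or_ge n 2 with hlt | hge
  · have hn1'' : n = 1 := by (clear * - k ε hn1 hlt; omega)
    rw [hn1'']
    have : c ≤ 1 := hcK.trans (Real.exp_le_one_iff.2 (by linarith only [hK₁0]))
    simp only [Nat.cast_one, Real.one_rpow, mul_one]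
    linarith only [hmax1, this]
  · set L := Real.log n with hL
    have hL0 : 0 ≤ L := Real.log_nonneg hn1'
    -- a large part of one sign
    obtain ⟨A', hA'A, hA'card2, hsign⟩ : ∃ A' ⊆ A, n ≤ 4 * A'.card ∧
        (∀ a ∈ A', a ≠ 0) ∧ (∀ a ∈ A', ∀ a' ∈ A', ∀ x y : ℚ, |(a : ℚ)| * x = |(a' : ℚ)| * y →
          (a : ℚ) * x = (a' : ℚ) * y) := by
      have h1 : n ≤ (A.filter (fun a => 0 < a)).card + (A.filter (fun a => a < 0)).card + 1 := by
        have h2 : A ⊆ (A.filter (fun a => 0 < a) ∪ A.filter (fun a => a < 0)) ∪ {0} := by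
          intro a ha
          rw [mem_union, mem_union, mem_filter, mem_filter, mem_singleton]
          rcases lt_trichotomy a 0 with h | h | h
          · exact Or.inl (Or.inr ⟨ha, h⟩)
          · exact Or.inr h
          · exact Or.inl (Or.inl ⟨ha, h⟩)
        have h3 := (card_le_card h2).trans (card_union_le _ _)
        have h4 := card_union_le (A.filter (fun a => 0 < a)) (A.filter (fun a => a < 0))
        rw [card_singleton] at h3
        omega
      rcases le_total (A.filter (fun a => a < 0)).card (A.filter (fun a => 0 < a)).card with h | h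
      · refine ⟨A.filter (fun a => 0 < a), filter_subset _ _, by omega, ?_, ?_⟩
        · intro a ha; exact (mem_filter.1 ha).2.ne'
        · intro a ha a' ha' x y hxy
          have e1 : (0:ℚ) < a := by exact_mod_cast (mem_filter.1 ha).2
          have e2 : (0:ℚ) < a' := by exact_mod_cast (mem_filter.1 ha').2
          rw [abs_of_pos e1, abs_of_pos e2] at hxy
          exact hxy
      · refine ⟨A.filter (fun a => a < 0), filter_subset _ _, by omega, ?_, ?_⟩
        · intro a ha; exact (mem_filter.1 ha).2.ne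
        · intro a ha a' ha' x y hxy
          have e1 : (a:ℚ) < 0 := by exact_mod_cast (mem_filter.1 ha).2
          have e2 : (a':ℚ) < 0 := by exact_mod_cast (mem_filter.1 ha').2
          rw [abs_of_neg e1, abs_of_neg e2] at hxy
          linarith only [hxy]
    obtain ⟨hA'ne0, hsign⟩ := hsign
    have hA'ne : A'.Nonempty := by rw [← card_pos]; omega
    have hA'0 : (0:ℤ) ∉ A' := fun h => hA'ne0 0 h rfl
    -- exponent vectors
    choose! e he hes using fun a (ha : a ∈ A') => hfew a (hA'A ha) (hA'ne0 a ha)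
    have heinj : Set.InjOn e (A' : Set ℤ) := by
      intro a ha a' ha' h
      have h1 : |(a : ℚ)| * 1 = |(a' : ℚ)| * 1 := by rw [he a ha, he a' ha', h]
      have h2 := hsign a ha a' ha' 1 1 h1
      simp only [mul_one] at h2
      exact_mod_cast h2
    set s := ⌊c₁ * L⌋₊ with hs
    have hsL : (s:ℝ) ≤ c₁ * L := Nat.floor_le (by (clear * - hε hk hlogθ hb hlogC; positivity))
    have hω : ∀ a ∈ A', (e a).support.card ≤ s := by
      intro a ha
      apply Nat.le_floor
      have h1 := hes a ha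
      have h2 : c * L ≤ c₁ * L := by (clear * - hcc₁; gcongr)
      exact h1.trans h2
    have hks : (2 * k * s : ℝ) ≤ L := by
      calc (2 * k * s : ℝ) ≤ 2 * k * (c₁ * L) := by (clear * - hsL hk; gcongr)
        _ ≤ 2 * k * (1 / (2 * k) * L) := by (clear * - hc₁k hk; gcongr)
        _ = L := by (clear * - hk; field_simp)
    obtain ⟨S, hS1, hS2⟩ := kernelV A' (fun a => (e a).support) H
    set A₀ := A'.filter (fun a => S ⊆ (e a).support) with hA₀
    have hA₀pos : 0 < A₀.card := by
      rcases Nat.eq_zero_or_pos A₀.card with h | h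
      · rw [h, mul_zero] at hS1
        have := card_pos.2 hA'ne
        omega
      · exact h
    obtain ⟨a₀, ha₀⟩ := card_pos.1 hA₀pos
    have ha₀' := mem_filter.1 ha₀
    have hSs : S.card ≤ s := (card_le_card ha₀'.2).trans (hω a₀ ha₀'.1)
    have hSL : (S.card : ℝ) ≤ c₁ * L := le_trans (by exact_mod_cast hSs) hsL
    have hA₀A' : A₀ ⊆ A' := filter_subset _ _
    have hA₀A : A₀ ⊆ A := hA₀A'.trans hA'A
    have hA₀0 : (0:ℤ) ∉ A₀ := fun h => hA'0 (mem_filter.1 h).1
    -- size of A₀
    have hlogA₀ : L - Real.log 4 - c₁ * L * Real.log H ≤ Real.log A₀.card := by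
      have h1 : (n:ℝ) ≤ 4 * ((H:ℝ) ^ S.card * A₀.card) := by
        have h2 : n ≤ 4 * (H ^ S.card * A₀.card) :=
          hA'card2.trans (Nat.mul_le_mul_left 4 hS1)
        exact_mod_cast h2
      have hA₀pos' : (0:ℝ) < A₀.card := by exact_mod_cast hA₀pos
      have h3 : L ≤ Real.log (4 * ((H:ℝ) ^ S.card * A₀.card)) := Real.log_le_log hnpos h1
      rw [Real.log_mul (by norm_num) (by (clear * - hk hε hA₀pos; positivity)), Real.log_mul (by positivity) (by (clear * - hA₀pos; positivity)),
        Real.log_pow] at h3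
      have h4 : (S.card : ℝ) * Real.log H ≤ c₁ * L * Real.log H := by (clear * - hSL; gcongr)
      linarith only [h3, h4]
    set R : ℝ := Real.exp (ε₁ * L) with hR
    have hR0 : 0 < R := Real.exp_pos _
    -- it suffices to bound the logarithm
    have hfin : ∀ m : ℕ, 1 ≤ m → (k:ℝ) * L - ε * L - (K₁ + k * Real.log 4) ≤ Real.log m →
        (m:ℝ) ≤ max ((kS k A).card : ℝ) ((kP k A).card : ℝ) →
        c * (n : ℝ) ^ ((k : ℝ) - ε) ≤ max ((kS k A).card : ℝ) ((kP k A).card : ℝ) := by
      intro m hm1 hlog hm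
      refine le_trans ?_ hm
      have hmpos : (0:ℝ) < m := by exact_mod_cast hm1
      calc c * (n : ℝ) ^ ((k : ℝ) - ε)
          ≤ Real.exp (-(K₁ + k * Real.log 4)) * Real.exp (((k:ℝ) - ε) * L) := by
            apply mul_le_mul hcK4 _ (by (clear * - hAne hc hcc₁ hcK4 hcK hcpos hfew hes; positivity)) (Real.exp_pos _).le
            rw [Real.rpow_def_of_pos hnpos, mul_comm]
        _ = Real.exp ((k:ℝ) * L - ε * L - (K₁ + k * Real.log 4)) := by
            rw [← Real.exp_add]; congr 1; ring
        _ ≤ Real.exp (Real.log m) := Real.exp_le_exp.2 hlog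
        _ = m := Real.exp_log hmpos
    set fib : ℤ → ℕ := fun a => (A₀.filter (fun a' => off S (e a') = off S (e a))).card with hfib
    set As := A₀.filter (fun a => (fib a : ℝ) ≤ R) with hAs
    set Al := A₀.filter (fun a => ¬ (fib a : ℝ) ≤ R) with hAl
    have hsplit : As.card + Al.card = A₀.card := card_filter_add_card_filter_not _
    rcases le_total Al.card As.card with hcase | hcase
    · -- product side
      have hhalf : A₀.card ≤ 2 * As.card := by omega
      have hAspos : 0 < As.card := by omega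
      have hAsne : As.Nonempty := card_pos.1 hAspos
      have hAsA' : As ⊆ A' := (filter_subset _ _).trans hA₀A'
      have hAsA : As ⊆ A := hAsA'.trans hA'A
      have hAsn : As.card ≤ n := card_le_card hAsA
      set V := As.image e with hV
      have heinjs : Set.InjOn e (As : Set ℤ) := heinj.mono (by exact_mod_cast hAsA')
      have hVcard : V.card = As.card := card_image_of_injOn heinjs
      have hcardf : ∀ (Q : (ι →₀ ℤ) → Prop) [DecidablePred Q], (V.filter Q).card =
          (As.filter (fun a => Q (e a))).card := by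
        intro Q _
        have : V.filter Q = (As.filter (fun a => Q (e a))).image e := by
          ext v
          simp only [hV, mem_filter, mem_image]
          constructor
          · rintro ⟨⟨a, ha, rfl⟩, hq⟩
            exact ⟨a, ⟨ha, hq⟩, rfl⟩
          · rintro ⟨a, ⟨ha, hq⟩, rfl⟩
            exact ⟨⟨a, ha, rfl⟩, hq⟩
        rw [this, card_image_of_injOn (heinjs.mono (by
          intro a ha
          exact (mem_filter.1 (mem_coe.1 ha)).1))]
      have hκA : ∀ q, q ∉ S →
          ((V.filter (fun v => v q ≠ 0)).card : ℝ) ≤ (2 / (H:ℝ)) * V.card := by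
        intro q hqS
        have h1 := hS2 q hqS
        have h2 : (V.filter (fun v => v q ≠ 0)).card ≤
            (A₀.filter (fun a => q ∈ (e a).support)).card := by
          rw [hcardf]
          apply card_le_card
          intro a ha
          rw [mem_filter] at ha
          rw [mem_filter]
          exact ⟨(mem_filter.1 ha.1).1, Finsupp.mem_support_iff.2 ha.2⟩
        have h3 : H * (V.filter (fun v => v q ≠ 0)).card ≤ 2 * V.card := by
          rw [hVcard]
          exact (Nat.mul_le_mul_left _ h2).trans (h1.trans hhalf)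
        have h4 : (H:ℝ) * ((V.filter (fun v => v q ≠ 0)).card : ℝ) ≤ 2 * V.card := by
          exact_mod_cast h3
        rw [div_mul_eq_mul_div, le_div_iff₀ hHpos]
        linarith only [h4]
      have hRfib : ∀ x, ((V.filter (fun v => off S v = x)).card : ℝ) ≤ R := by
        intro x
        rw [hcardf]
        rcases (As.filter (fun a => off S (e a) = x)).eq_empty_or_nonempty with h0 | ⟨a, ha⟩
        · rw [h0]; simpa using hR0.le
        · rw [mem_filter] at ha
          have ha2 := (mem_filter.1 ha.1).2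
          refine le_trans ?_ ha2
          rw [← ha.2]
          apply Nat.cast_le.2
          apply card_le_card
          intro a' ha'
          rw [mem_filter] at ha' ⊢
          exact ⟨(mem_filter.1 ha'.1).1, ha'.2⟩
      have hωV : ∀ v ∈ V, v.support.card ≤ s := by
        intro v hv
        obtain ⟨a, ha, rfl⟩ := mem_image.1 hv
        exact hω a (hAsA' ha)
      have hVne : V.Nonempty := hAsne.image _
      have hprod := prod_iterV S hVne (κ := 2 / (H:ℝ)) (by positivity) hθ0 (by linarith only [hθ1]) hR0 s k n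
        (by rw [hVcard]; exact hAsn) hωV hκA hRfib
      -- products
      have hpk : ((vI V k).card : ℝ) ≤ max ((kS k A).card : ℝ) ((kP k A).card : ℝ) := by
        apply le_max_of_le_right
        apply Nat.cast_le.2
        choose! x hx hxv using vI_prod hg (A := As) (e := e) (fun a ha => he a (hAsA' ha)) k
        apply card_le_card_of_injOn x
        · intro v hv
          exact mem_coe.2 (pI_subset hAsA k (hx v (mem_coe.1 hv)))
        · intro v hv v' hv' h
          rw [mem_coe] at hv hv'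
          have h1 : ev g v = ev g v' := by rw [← hxv v hv, ← hxv v' hv', h]
          have h2 : ev g (v - v') = 1 := by
            rw [ev_sub hg, h1, div_self (ev_pos hg v').ne']
          have h3 : (v - v').support.card ≤ 2 * (k * s) := by
            have e1 := (card_le_card (Finsupp.support_sub (f := v) (g := v'))).trans
              (card_union_le _ _)
            have e2 := vI_support hωV k v hv
            have e3 := vI_support hωV k v' hv'
            omega
          have h4 : v - v' = 0 := by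
            apply hrel _ _ h2
            calc ((v - v').support.card : ℝ) ≤ ((2 * (k * s) : ℕ) : ℝ) := by exact_mod_cast h3
              _ = 2 * k * s := by push_cast; ring
              _ ≤ L := hks
          exact sub_eq_zero.1 h4
      have hvIne : 1 ≤ (vI V k).card := card_pos.2 (vI_nonempty hVne k)
      refine hfin _ hvIne ?_ hpk
      refine le_trans ?_ hprod
      rw [hVcard]
      have hlogAs : Real.log A₀.card - Real.log 2 ≤ Real.log As.card := by
        have h1 : (A₀.card : ℝ) ≤ 2 * As.card := by exact_mod_cast hhalf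
        have hA₀pos' : (0:ℝ) < A₀.card := by exact_mod_cast hA₀pos
        have hAspos' : (0:ℝ) < As.card := by exact_mod_cast hAspos
        have h2 := Real.log_le_log hA₀pos' h1
        rw [Real.log_mul (by norm_num) hAspos'.ne'] at h2
        linarith only [h2]
      have hlogR : Real.log R = ε₁ * L := by rw [hR, Real.log_exp]
      rw [hlogR, ← hL]
      have h5 : (s:ℝ) * Real.log 2 ≤ c₁ * L * Real.log 2 := by (clear * - hsL; gcongr)
      have h5' : (s:ℝ) * Real.log (1 / θ) ≤ c₁ * L * Real.log (1 / θ) := by (clear * - hsL hlogθ; gcongr)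
      have hκ1 : 2 / (H:ℝ) ≤ 1 := by rw [div_le_one hHpos]; exact hH2
      have h6 : 2 / (H:ℝ) * k * k ≤ ε / 8 := by
        have : 16 * (k:ℝ) ^ 2 / ε ≤ H := hHge
        rw [div_le_iff₀ hε] at this
        rw [div_mul_eq_mul_div, div_mul_eq_mul_div, div_le_iff₀ hHpos]
        linarith only [this]
      have h6' : θ * k * k ≤ ε / 8 := by
        calc θ * k * k ≤ ε / (8 * k * (k + 1)) * k * k := by (clear * - hθ2 hk; gcongr)
          _ = ε / 8 * (k / (k + 1)) := by (clear * - hk hε; field_simp)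
          _ ≤ ε / 8 * 1 := by
              apply mul_le_mul_of_nonneg_left _ (by positivity)
              rw [div_le_one (by positivity)]; linarith only []
          _ = ε / 8 := mul_one _
      have h7 : (k:ℝ) * ε₁ = ε / 4 := by rw [hε₁]; field_simp
      have h8 : (k:ℝ) * (L - Real.log 4 - Real.log 2 - c₁ * L * Real.log H - ε₁ * L -
          k * (c₁ * L * Real.log 2) - (θ + 2 / (H:ℝ)) * (k * L) -
          k * (c₁ * L * Real.log (1 / θ))) ≤
          (k:ℝ) * (Real.log As.card - ε₁ * L - k * s * Real.log 2 -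
            (θ + 2 / (H:ℝ)) * (k * L) - 2 / (H:ℝ) * (k * s * Real.log (1 / θ))) := by
        apply mul_le_mul_of_nonneg_left _ hk0.le
        have h9 : (k:ℝ) * s * Real.log 2 ≤ k * (c₁ * L * Real.log 2) := by
          rw [mul_assoc]; (clear * - h5 hk; gcongr)
        have h9' : 2 / (H:ℝ) * (k * s * Real.log (1 / θ)) ≤ k * (c₁ * L * Real.log (1 / θ)) := by
          calc 2 / (H:ℝ) * (k * s * Real.log (1 / θ)) ≤ 1 * (k * s * Real.log (1 / θ)) := by
                (clear * - hκ1 hk hlogθ; gcongr)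
            _ = k * (s * Real.log (1 / θ)) := by ring
            _ ≤ _ := by (clear * - h5' hk; gcongr)
        linarith only [hlogA₀, hlogAs, h9, h9']
      refine le_trans ?_ h8
      have h10 : (k:ℝ) * (L - Real.log 4 - Real.log 2 - c₁ * L * Real.log H - ε₁ * L -
          k * (c₁ * L * Real.log 2) - (θ + 2 / (H:ℝ)) * (k * L) -
          k * (c₁ * L * Real.log (1 / θ))) =
          k * L - k * Real.log 4 - k * Real.log 2 - (k * c₁ * Real.log H + k * ε₁ +
            k * c₁ * (k * Real.log 2) + (θ * k * k + 2 / (H:ℝ) * k * k) +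
            k * c₁ * (k * Real.log (1 / θ))) * L := by ring
      rw [h10]
      have h11 : (k * c₁ * Real.log H + k * ε₁ + k * c₁ * (k * Real.log 2) +
          (θ * k * k + 2 / (H:ℝ) * k * k) + k * c₁ * (k * Real.log (1 / θ))) * L ≤ ε * L := by
        apply mul_le_mul_of_nonneg_right _ hL0
        linarith only [hε, hb1, hb2, hb5, h6, h6', h7]
      have h12 : (k:ℝ) * Real.log 2 ≤ K₁ := by
        rw [hK₁]
        apply mul_le_mul_of_nonneg_left _ hk0.le
        have : 0 ≤ (k:ℝ) * (2 / ε₁) := by positivity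
        linarith only [hlog2', this]
      linarith only [h11, h12]
    · -- sum side
      have hhalf : A₀.card ≤ 2 * Al.card := by omega
      have hAlpos : 0 < Al.card := by omega
      have hAlne : Al.Nonempty := card_pos.1 hAlpos
      have hAlA' : Al ⊆ A' := (filter_subset _ _).trans hA₀A'
      have hAl0 : (0:ℤ) ∉ Al := fun h => hA'0 (hAlA' h)
      have hAlA : Al ⊆ A := hAlA'.trans hA'A
      have hAln : Al.card ≤ n := card_le_card hAlA
      obtain ⟨P, hPprime, hPS, hPinj⟩ := exists_primes hg S (by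
        intro x hx hx1
        apply hrel x _ hx1
        have h1 : (x.support.card : ℝ) ≤ s := by exact_mod_cast (card_le_card hx).trans hSs
        have h2 : (s:ℝ) ≤ 2 * k * s := by
          have : (0:ℝ) ≤ s := Nat.cast_nonneg _
          (clear * - hk1; nlinarith only [hk1])
        linarith only [hks, h1, h2])
      have hPL : (P.card : ℝ) ≤ c₁ * L := le_trans (by exact_mod_cast hPS) hSL
      obtain ⟨u, hu0, hu1, hu2⟩ := exists_mult hg S P hPprime hPinj Al
        (fun a ha => hA'ne0 a (hAlA' ha)) e (fun a ha => he a (hAlA' ha))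
      have hRfib : ∀ a ∈ Al, R ≤
          ((Al.filter (fun a' : ℤ => (a' : ℚ) / u a' = (a : ℚ) / u a)).card : ℝ) := by
        intro a ha
        have ha2 := (mem_filter.1 ha).2
        push Not at ha2
        refine ha2.le.trans ?_
        apply Nat.cast_le.2
        apply card_le_card
        intro a' ha'
        rw [mem_filter] at ha' ⊢
        have ha'l : a' ∈ Al := by
          rw [hAl, mem_filter]
          refine ⟨ha'.1, ?_⟩
          have : fib a' = fib a := by
            simp only [hfib]; rw [ha'.2]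
          rw [this]
          push Not
          exact ha2
        refine ⟨ha'l, ?_⟩
        have hsupp : (e a' - e a).support ⊆ S := by
          intro q hq
          by_contra hqS
          have h1 := DFunLike.congr_fun ha'.2 q
          rw [off_apply, off_apply, if_neg hqS, if_neg hqS] at h1
          rw [Finsupp.mem_support_iff, Finsupp.sub_apply, h1, sub_self] at hq
          exact hq rfl
        have h2 := hu2 a' ha'l a ha hsupp
        rw [div_eq_mul_inv, div_eq_mul_inv] at h2 ⊢
        exact hsign a' (hAlA' ha'l) a (hAlA' ha) _ _ h2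
      have hsumk := hsum P hPprime Al hAlne hAl0 u (fun a _ => hu0 a) hu1 R hR0 hRfib n k hAln k
        le_rfl
      have hsIne : 1 ≤ (sI Al k).card := card_pos.2 (sI_nonempty hAlne k)
      have hsk : ((sI Al k).card : ℝ) ≤ max ((kS k A).card : ℝ) ((kP k A).card : ℝ) := by
        apply le_max_of_le_left
        exact_mod_cast card_le_card (sI_subset hAlA k)
      refine hfin _ hsIne ?_ hsk
      refine le_trans ?_ hsumk
      have hlogAl : Real.log A₀.card - Real.log 2 ≤ Real.log Al.card := by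
        have h1 : (A₀.card : ℝ) ≤ 2 * Al.card := by exact_mod_cast hhalf
        have hA₀pos' : (0:ℝ) < A₀.card := by exact_mod_cast hA₀pos
        have hAlpos' : (0:ℝ) < Al.card := by exact_mod_cast hAlpos
        have h2 := Real.log_le_log hA₀pos' h1
        rw [Real.log_mul (by norm_num) hAlpos'.ne'] at h2
        linarith only [h2]
      -- the exceptional term
      have hCpos : 0 < C := by linarith only [hC]
      have h1 : C ^ P.card * (n : ℝ) ^ (lam * (k + 1)) / R ≤ Real.exp (-(ε₁ / 2 * L)) := by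
        have e1 : C ^ P.card ≤ Real.exp (ε₁ / 4 * L) := by
          have : C ^ P.card = Real.exp (P.card * Real.log C) := by
            rw [← Real.log_pow, Real.exp_log (by (clear * - hC; positivity))]
          rw [this]
          apply Real.exp_le_exp.2
          calc (P.card : ℝ) * Real.log C ≤ (c₁ * L) * Real.log C := by (clear * - hPL hlogC; gcongr)
            _ = (c₁ * Real.log C) * L := by ring
            _ ≤ ε₁ / 4 * L := by (clear * - hb4; gcongr)
        have e2 : (n : ℝ) ^ (lam * (k + 1)) = Real.exp (ε₁ / 4 * L) := by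
          rw [Real.rpow_def_of_pos hnpos]
          congr 1
          rw [hlam]
          field_simp
          exact hL.symm
        rw [e2, div_le_iff₀ hR0, hR, ← Real.exp_add]
        calc C ^ P.card * Real.exp (ε₁ / 4 * L)
            ≤ Real.exp (ε₁ / 4 * L) * Real.exp (ε₁ / 4 * L) := by (clear * - e1; gcongr)
          _ = Real.exp (-(ε₁ / 2 * L) + ε₁ * L) := by
              rw [← Real.exp_add]; congr 1; ring
      have h2 : (k * L) * (C ^ P.card * (n : ℝ) ^ (lam * (k + 1)) / R) ≤ k * (2 / ε₁) := by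
        calc (k * L) * (C ^ P.card * (n : ℝ) ^ (lam * (k + 1)) / R)
            ≤ (k * L) * Real.exp (-(ε₁ / 2 * L)) := by (clear * - h1 hk; gcongr)
          _ = k * (L * Real.exp (-(ε₁ / 2 * L))) := by ring
          _ ≤ k * (1 / (ε₁ / 2)) := by
              apply mul_le_mul_of_nonneg_left (mul_exp_neg_le (by positivity)) hk0.le
          _ = k * (2 / ε₁) := by congr 1; (clear * - hε₁0; field_simp)
      have h3 : (P.card : ℝ) * (Real.log (1 / θ) + 2 + b) ≤
          c₁ * L * (Real.log (1 / θ) + 2 + b) := by (clear * - hPL hlogθ hb; gcongr)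
      have h4 : (k:ℝ) * (L - Real.log 4 - Real.log 2 - c₁ * L * Real.log H -
          (c₁ * L * (Real.log (1 / θ) + 2 + b) + 2 * θ * ((k + 1) * L) + k * (2 / ε₁))) ≤
          (k:ℝ) * (Real.log Al.card - ((P.card : ℝ) * (Real.log (1 / θ) + 2 + b) +
        2 * θ * (((k:ℝ) + 1) * Real.log n) +
        (k * Real.log n) * (C ^ P.card * (n : ℝ) ^ (lam * (k + 1)) / R))) := by
        apply mul_le_mul_of_nonneg_left _ hk0.le
        rw [← hL]
        linarith only [hlogA₀, hlogAl, h2, h3]
      refine le_trans ?_ h4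
      have h5 : (k:ℝ) * (2 * θ * (k + 1)) ≤ ε / 4 := by
        calc (k:ℝ) * (2 * θ * (k + 1)) = 2 * k * (k + 1) * θ := by ring
          _ ≤ 2 * k * (k + 1) * (ε / (8 * k * (k + 1))) := by (clear * - hθ2 hk; gcongr)
          _ = ε / 4 := by field_simp; norm_num
      have h10 : (k:ℝ) * (L - Real.log 4 - Real.log 2 - c₁ * L * Real.log H -
          (c₁ * L * (Real.log (1 / θ) + 2 + b) + 2 * θ * ((k + 1) * L) + k * (2 / ε₁))) =
          k * L - k * Real.log 4 - k * (Real.log 2 + k * (2 / ε₁)) - (k * c₁ * Real.log H +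
            k * c₁ * (Real.log (1 / θ) + 2 + b) + k * (2 * θ * (k + 1))) * L := by ring
      rw [h10]
      have h11 : (k * c₁ * Real.log H + k * c₁ * (Real.log (1 / θ) + 2 + b) +
          k * (2 * θ * (k + 1))) * L ≤ ε * L := by
        apply mul_le_mul_of_nonneg_right _ hL0
        linarith only [hε, hb1, hb3, h5]
      have h12 : (k:ℝ) * (Real.log 2 + k * (2 / ε₁)) ≤ K₁ := by
        rw [hK₁]
        apply mul_le_mul_of_nonneg_left _ hk0.le
        linarith only [hlog2']
      linarith only [h11, h12]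

end Pool.Agent.Helper2.E
end

/- Helper24.FF.H2.EFinal3 -/
section
set_option autoImplicit false

/-!
Assembly of the theorem for sets with few popular primes (popular coordinates).
-/

open Finset

namespace Pool.Agent.Helper2.E

open Pool.Agent.Helper5 (sI pI kS kP sI_subset pI_subset kS_nonempty)

/-- a large part of one sign -/
theorem exists_sign (A : Finset ℤ) (hA : 2 ≤ A.card) : ∃ A' ⊆ A, A.card ≤ 4 * A'.card ∧
    (∀ a ∈ A', a ≠ 0) ∧ (∀ a ∈ A', ∀ a' ∈ A', ∀ x y : ℚ, |(a : ℚ)| * x = |(a' : ℚ)| * y →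
      (a : ℚ) * x = (a' : ℚ) * y) := by
  classical
  have h1 : A.card ≤ (A.filter (fun a => 0 < a)).card + (A.filter (fun a => a < 0)).card + 1 := by
    have h2 : A ⊆ (A.filter (fun a => 0 < a) ∪ A.filter (fun a => a < 0)) ∪ {0} := by
      intro a ha
      rw [mem_union, mem_union, mem_filter, mem_filter, mem_singleton]
      rcases lt_trichotomy a 0 with h | h | h
      · exact Or.inl (Or.inr ⟨ha, h⟩)
      · exact Or.inr h
      · exact Or.inl (Or.inl ⟨ha, h⟩)
    have h3 := (card_le_card h2).trans (card_union_le _ _)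
    have h4 := card_union_le (A.filter (fun a => 0 < a)) (A.filter (fun a => a < 0))
    rw [card_singleton] at h3
    omega
  rcases le_total (A.filter (fun a => a < 0)).card (A.filter (fun a => 0 < a)).card with h | h
  · refine ⟨A.filter (fun a => 0 < a), filter_subset _ _, by omega, ?_, ?_⟩
    · intro a ha; exact (mem_filter.1 ha).2.ne'
    · intro a ha a' ha' x y hxy
      have e1 : (0:ℚ) < a := by exact_mod_cast (mem_filter.1 ha).2
      have e2 : (0:ℚ) < a' := by exact_mod_cast (mem_filter.1 ha').2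
      rw [abs_of_pos e1, abs_of_pos e2] at hxy
      exact hxy
  · refine ⟨A.filter (fun a => a < 0), filter_subset _ _, by omega, ?_, ?_⟩
    · intro a ha; exact (mem_filter.1 ha).2.ne
    · intro a ha a' ha' x y hxy
      have e1 : (a:ℚ) < 0 := by exact_mod_cast (mem_filter.1 ha).2
      have e2 : (a':ℚ) < 0 := by exact_mod_cast (mem_filter.1 ha').2
      rw [abs_of_neg e1, abs_of_neg e2] at hxy
      linarith only [hxy]

/-- **Sum side**: many elements in the coset `a Γ`, `Γ` generated by few elements. -/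
theorem sum_side (k : ℕ) (hk : 1 ≤ k) {ε ε₁ : ℝ} (hε : 0 < ε) (hε₁0 : 0 < ε₁) :
    ∃ c₁ K₁ : ℝ, 0 < c₁ ∧ 0 ≤ K₁ ∧ ∀ (ι : Type) (g : ι → ℚ), (∀ i, 0 < g i) →
      ∀ (T : Finset ι) (n : ℕ), (T.card : ℝ) ≤ c₁ * Real.log n →
      ∀ A : Finset ℤ, A.Nonempty → A.card ≤ n → (∀ a ∈ A, a ≠ 0) →
      (∀ a ∈ A, ∀ a' ∈ A, ∀ x y : ℚ, |(a : ℚ)| * x = |(a' : ℚ)| * y →
        (a : ℚ) * x = (a' : ℚ) * y) →
      ∀ F : ℤ → Finset ℤ, (∀ a ∈ A, F a ⊆ A) →
      (∀ a ∈ A, Real.exp (ε₁ * Real.log n) ≤ ((F a).card : ℝ)) →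
      (∀ a ∈ A, ∀ a' ∈ F a, ∃ x : ι →₀ ℤ, x.support ⊆ T ∧ |(a' : ℚ)| = |(a : ℚ)| * ev g x) →
      (k : ℝ) * Real.log A.card - ε * Real.log n - K₁ ≤ Real.log ((sI A k).card : ℝ) := by
  classical
  have hk0 : (0:ℝ) < k := by exact_mod_cast hk
  have hk1 : (1:ℝ) ≤ k := by exact_mod_cast hk
  set θ : ℝ := min (1 / 2) (ε / (8 * k * (k + 1))) with hθdef
  have hθ0 : 0 < θ := by
    rw [hθdef]; apply lt_min (by norm_num) (by (clear * - hε hk; positivity))
  have hθ1 : θ ≤ 1 / 2 := min_le_left _ _
  have hθ2 : θ ≤ ε / (8 * k * (k + 1)) := min_le_right _ _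
  set lam : ℝ := ε₁ / (4 * (k + 1)) with hlam
  have hlam0 : 0 < lam := by (clear * - hε₁0 hk; positivity)
  obtain ⟨b, C, hb, hC, hsum⟩ := sum_iter_rat hθ0 hθ1 hlam0
  have hlogC : 0 ≤ Real.log C := Real.log_nonneg hC
  have hlogθ : 0 ≤ Real.log (1 / θ) := by
    apply Real.log_nonneg
    rw [le_div_iff₀ hθ0]; (clear * - hθ1; linarith only [hθ1])
  set Y : ℝ := Real.log (1 / θ) + 2 + b + 1 with hY
  have hYpos : 0 < Y := by linarith only [hb, hlogθ]
  set c₁ : ℝ := min (ε / (4 * k * Y)) (ε₁ / 4 / (Real.log C + 1)) with hc₁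
  have hc₁0 : 0 < c₁ := lt_min (by (clear * - hε hk hlogθ hb; positivity)) (by (clear * - hε₁0 hlogC; positivity))
  have hc₁le : c₁ ≤ ε / (4 * k * Y) := min_le_left _ _
  have hb4 : c₁ * Real.log C ≤ ε₁ / 4 := by
    calc c₁ * Real.log C ≤ ε₁ / 4 / (Real.log C + 1) * Real.log C := by
          gcongr; exact min_le_right _ _
      _ = ε₁ / 4 * (Real.log C / (Real.log C + 1)) := by ring
      _ ≤ ε₁ / 4 * 1 := by
          apply mul_le_mul_of_nonneg_left _ (by positivity)
          rw [div_le_one (by linarith only [hlogC])]; linarith only []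
      _ = ε₁ / 4 := mul_one _
  have hb3 : k * c₁ * (Real.log (1 / θ) + 2 + b) ≤ ε / 4 := by
    calc k * c₁ * (Real.log (1 / θ) + 2 + b) ≤ k * c₁ * Y := by
          apply mul_le_mul_of_nonneg_left _ (by (clear * - hk hε hlogθ hb hε₁0 hlogC; positivity))
          rw [hY]; linarith only []
      _ ≤ k * (ε / (4 * k * Y)) * Y := by (clear * - hc₁le hk hlogθ hb; gcongr)
      _ = ε / 4 := by field_simp
  set K₁ : ℝ := k * (k * (2 / ε₁)) with hK₁
  refine ⟨c₁, K₁, hc₁0, by (clear * - hk hε₁0; positivity), ?_⟩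
  intro ι g hg T n hT A hA hAn hA0 hsign F hFA hF hcos
  have hA1 : 1 ≤ A.card := card_pos.2 hA
  have hn1 : 1 ≤ n := hA1.trans hAn
  have hn1' : (1 : ℝ) ≤ n := by exact_mod_cast hn1
  have hnpos : (0 : ℝ) < n := by linarith only [hn1']
  set L := Real.log n with hL
  have hL0 : 0 ≤ L := Real.log_nonneg hn1'
  set R : ℝ := Real.exp (ε₁ * L) with hR
  have hR0 : 0 < R := Real.exp_pos _
  have hA0' : (0:ℤ) ∉ A := fun h => hA0 0 h rfl
  obtain ⟨P, hPprime, hPS, hPinj⟩ := exists_primes' hg T
  have hPL : (P.card : ℝ) ≤ c₁ * L := le_trans (by exact_mod_cast hPS) hT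
  obtain ⟨u, hu0, hu1, hu2⟩ := exists_mult' hg T P hPprime hPinj A hA0
  have hRfib : ∀ a ∈ A, R ≤
      ((A.filter (fun a' : ℤ => (a' : ℚ) / u a' = (a : ℚ) / u a)).card : ℝ) := by
    intro a ha
    refine (hF a ha).trans ?_
    apply Nat.cast_le.2
    apply card_le_card
    intro a' ha'
    have ha'A := hFA a ha ha'
    rw [mem_filter]
    refine ⟨ha'A, ?_⟩
    have h2 := hu2 a' ha'A a ha (hcos a ha a' ha')
    rw [div_eq_mul_inv, div_eq_mul_inv] at h2 ⊢
    exact hsign a' ha'A a ha _ _ h2
  have hsumk := hsum P hPprime A hA hA0' u (fun a _ => hu0 a) hu1 R hR0 hRfib n k hAn k le_rfl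
  refine le_trans ?_ hsumk
  have hCpos : 0 < C := by linarith only [hC]
  have h1 : C ^ P.card * (n : ℝ) ^ (lam * (k + 1)) / R ≤ Real.exp (-(ε₁ / 2 * L)) := by
    have e1 : C ^ P.card ≤ Real.exp (ε₁ / 4 * L) := by
      have : C ^ P.card = Real.exp (P.card * Real.log C) := by
        rw [← Real.log_pow, Real.exp_log (by positivity)]
      rw [this]
      apply Real.exp_le_exp.2
      calc (P.card : ℝ) * Real.log C ≤ (c₁ * L) * Real.log C := by (clear * - hPL hlogC; gcongr)
        _ = (c₁ * Real.log C) * L := by ring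
        _ ≤ ε₁ / 4 * L := by (clear * - hb4; gcongr)
    have e2 : (n : ℝ) ^ (lam * (k + 1)) = Real.exp (ε₁ / 4 * L) := by
      rw [Real.rpow_def_of_pos hnpos]
      congr 1
      rw [hlam]
      field_simp
      exact hL.symm
    rw [e2, div_le_iff₀ hR0, hR, ← Real.exp_add]
    calc C ^ P.card * Real.exp (ε₁ / 4 * L)
        ≤ Real.exp (ε₁ / 4 * L) * Real.exp (ε₁ / 4 * L) := by (clear * - e1; gcongr)
      _ = Real.exp (-(ε₁ / 2 * L) + ε₁ * L) := by
          rw [← Real.exp_add]; congr 1; ring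
  have h2 : (k * L) * (C ^ P.card * (n : ℝ) ^ (lam * (k + 1)) / R) ≤ k * (2 / ε₁) := by
    calc (k * L) * (C ^ P.card * (n : ℝ) ^ (lam * (k + 1)) / R)
        ≤ (k * L) * Real.exp (-(ε₁ / 2 * L)) := by (clear * - h1 hk; gcongr)
      _ = k * (L * Real.exp (-(ε₁ / 2 * L))) := by ring
      _ ≤ k * (1 / (ε₁ / 2)) := by
          apply mul_le_mul_of_nonneg_left (mul_exp_neg_le (by positivity)) hk0.le
      _ = k * (2 / ε₁) := by congr 1; field_simp
  have h3 : (P.card : ℝ) * (Real.log (1 / θ) + 2 + b) ≤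
      c₁ * L * (Real.log (1 / θ) + 2 + b) := by (clear * - hPL hlogθ hb; gcongr)
  have h4 : (k:ℝ) * (Real.log A.card -
      (c₁ * L * (Real.log (1 / θ) + 2 + b) + 2 * θ * ((k + 1) * L) + k * (2 / ε₁))) ≤
      (k:ℝ) * (Real.log A.card - ((P.card : ℝ) * (Real.log (1 / θ) + 2 + b) +
    2 * θ * (((k:ℝ) + 1) * Real.log n) +
    (k * Real.log n) * (C ^ P.card * (n : ℝ) ^ (lam * (k + 1)) / R))) := by
    apply mul_le_mul_of_nonneg_left _ hk0.le
    rw [← hL]
    linarith only [h2, h3]
  refine le_trans ?_ h4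
  have h5 : (k:ℝ) * (2 * θ * (k + 1)) ≤ ε / 4 := by
    calc (k:ℝ) * (2 * θ * (k + 1)) = 2 * k * (k + 1) * θ := by ring
      _ ≤ 2 * k * (k + 1) * (ε / (8 * k * (k + 1))) := by (clear * - hθ2 hk; gcongr)
      _ = ε / 4 := by field_simp; norm_num
  have h10 : (k:ℝ) * (Real.log A.card -
      (c₁ * L * (Real.log (1 / θ) + 2 + b) + 2 * θ * ((k + 1) * L) + k * (2 / ε₁))) =
      k * Real.log A.card - K₁ - (k * c₁ * (Real.log (1 / θ) + 2 + b) +
        k * (2 * θ * (k + 1))) * L := by rw [hK₁]; ring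
  rw [h10]
  have h11 : (k * c₁ * (Real.log (1 / θ) + 2 + b) + k * (2 * θ * (k + 1))) * L ≤ ε * L := by
    apply mul_le_mul_of_nonneg_right _ hL0
    (clear * - hε hb3 h5; linarith only [hε, hb3, h5])
  linarith only [h11]

theorem coreP (k : ℕ) (hk : 1 ≤ k) (ε : ℝ) (hε : 0 < ε) :
    ∃ c : ℝ, 0 < c ∧ ∀ (ι : Type) (g : ι → ℚ), (∀ i, 0 < g i) →
      ∀ M : ℝ, (∀ e : ι →₀ ℤ, (e.support.card : ℝ) ≤ M → ev g e = 1 → e = 0) →
      ∀ A : Finset ℤ, A.Nonempty → ∀ e : ℤ → ι →₀ ℤ,
      (∀ a ∈ A, a ≠ 0 → |(a : ℚ)| = ev g (e a) ∧ ((e a).support.card : ℝ) ≤ c * M) →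
      ∀ T : Finset ι, (T.card : ℝ) ≤ c * Real.log A.card →
      (∀ i, i ∉ T → ∃ z : ℤ, ((A.filter (fun a => e a i ≠ z)).card : ℝ) ≤ c * A.card) →
      c * (A.card : ℝ) ^ ((k : ℝ) - ε) ≤ max ((kS k A).card : ℝ) ((kP k A).card : ℝ) := by
  classical
  have hk0 : (0:ℝ) < k := by exact_mod_cast hk
  have hk1 : (1:ℝ) ≤ k := by exact_mod_cast hk
  -- parameters
  set ε₁ : ℝ := ε / (4 * k) with hε₁
  have hε₁0 : 0 < ε₁ := by (clear * - hε hk; positivity)
  obtain ⟨c₁, K₁, hc₁0, hK₁0, hsum⟩ := sum_side k hk hε hε₁0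
  obtain ⟨τ, lam, κ, hτ0, hτ1, hl0, hl1, hκ0, hpar⟩ :=
    exists_params (η := ε / (4 * k * (k + 1))) (by (clear * - hε hk; positivity))
  set η : ℝ := ε / (4 * k * (k + 1)) with hη
  have hη0 : 0 < η := by positivity
  set K₂ : ℝ := K₁ + k * Real.log 8 with hK₂
  have hlog8 : 0 < Real.log 8 := Real.log_pos (by norm_num)
  have hK₂0 : 0 ≤ K₂ := by (clear * - hK₁0 hk; positivity)
  refine ⟨min (min c₁ (κ / 8)) (min (1 / (2 * k)) (Real.exp (-K₂))),
    lt_min (lt_min hc₁0 (by positivity)) (lt_min (by positivity) (Real.exp_pos _)), ?_⟩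
  intro ι g hg M hrel A hAne e he T hT hpop
  set c := min (min c₁ (κ / 8)) (min (1 / (2 * k)) (Real.exp (-K₂))) with hc
  have hcc₁ : c ≤ c₁ := (min_le_left _ _).trans (min_le_left _ _)
  have hcκ : c ≤ κ / 8 := (min_le_left _ _).trans (min_le_right _ _)
  have hck : c ≤ 1 / (2 * k) := (min_le_right _ _).trans (min_le_left _ _)
  have hcK : c ≤ Real.exp (-K₂) := (min_le_right _ _).trans (min_le_right _ _)
  have hcpos : 0 < c := lt_min (lt_min hc₁0 (by positivity))
    (lt_min (by positivity) (Real.exp_pos _))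
  clear_value c
  set n := A.card with hn
  have hn1 : 1 ≤ n := card_pos.mpr hAne
  have hn1' : (1 : ℝ) ≤ n := by exact_mod_cast hn1
  have hnpos : (0 : ℝ) < n := by linarith only [hn1']
  have hmax1 : (1 : ℝ) ≤ max ((kS k A).card : ℝ) ((kP k A).card : ℝ) := by
    apply le_max_of_le_left
    exact_mod_cast card_pos.mpr (kS_nonempty k hAne)
  rcases Nat.lt_or_ge n 2 with hlt | hge
  · have hn1'' : n = 1 := by omega
    rw [hn1'']
    have : c ≤ 1 := hcK.trans (Real.exp_le_one_iff.2 (by (clear * - hK₂0; linarith only [hK₂0])))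
    simp only [Nat.cast_one, Real.one_rpow, mul_one]
    linarith only [hmax1, this]
  · set L := Real.log n with hL
    have hL0 : 0 ≤ L := Real.log_nonneg hn1'
    obtain ⟨A', hA'A, hA'card, hA'ne0, hsign⟩ := exists_sign A hge
    have hA'ne : A'.Nonempty := by rw [← card_pos]; omega
    have hA'n : A'.card ≤ n := card_le_card hA'A
    have hev : ∀ a ∈ A', |(a : ℚ)| = ev g (e a) := fun a ha =>
      (he a (hA'A ha) (hA'ne0 a ha)).1
    have hsup : ∀ a ∈ A', ((e a).support.card : ℝ) ≤ c * M := fun a ha =>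
      (he a (hA'A ha) (hA'ne0 a ha)).2
    have heinj : Set.InjOn e (A' : Set ℤ) := by
      intro a ha a' ha' h
      have h1 : |(a : ℚ)| * 1 = |(a' : ℚ)| * 1 := by rw [hev a ha, hev a' ha', h]
      have h2 := hsign a ha a' ha' 1 1 h1
      simp only [mul_one] at h2
      exact_mod_cast h2
    -- it suffices to bound the logarithm
    have hfin : ∀ m : ℕ, 1 ≤ m → (k:ℝ) * L - ε * L - K₂ ≤ Real.log m →
        (m:ℝ) ≤ max ((kS k A).card : ℝ) ((kP k A).card : ℝ) →
        c * (n : ℝ) ^ ((k : ℝ) - ε) ≤ max ((kS k A).card : ℝ) ((kP k A).card : ℝ) := by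
      intro m hm1 hlog hm
      refine le_trans ?_ hm
      have hmpos : (0:ℝ) < m := by exact_mod_cast hm1
      calc c * (n : ℝ) ^ ((k : ℝ) - ε)
          ≤ Real.exp (-K₂) * Real.exp (((k:ℝ) - ε) * L) := by
            apply mul_le_mul hcK _ (by (clear * - hAne hc he hcc₁ hcκ hck hcK hcpos hpop hT hsup; positivity)) (Real.exp_pos _).le
            rw [Real.rpow_def_of_pos hnpos, mul_comm]
        _ = Real.exp ((k:ℝ) * L - ε * L - K₂) := by
            rw [← Real.exp_add]; congr 1; ring
        _ ≤ Real.exp (Real.log m) := Real.exp_le_exp.2 hlog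
        _ = m := Real.exp_log hmpos
    set R : ℝ := Real.exp (ε₁ * L) with hR
    have hR0 : 0 < R := Real.exp_pos _
    set fib : ℤ → Finset ℤ := fun a => A'.filter (fun a' => off T (e a') = off T (e a)) with hfib
    set As := A'.filter (fun a => ((fib a).card : ℝ) ≤ R) with hAs
    set Al := A'.filter (fun a => ¬ ((fib a).card : ℝ) ≤ R) with hAl
    have hsplit : As.card + Al.card = A'.card := card_filter_add_card_filter_not _
    have hlog8' : ∀ m : ℕ, 0 < m → n ≤ 8 * m → L - Real.log 8 ≤ Real.log m := by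
      intro m hm h
      have hm' : (0:ℝ) < m := by exact_mod_cast hm
      have h1 : (n : ℝ) ≤ 8 * m := by exact_mod_cast h
      have h2 := Real.log_le_log hnpos h1
      rw [Real.log_mul (by norm_num) hm'.ne'] at h2
      linarith only [h2]
    rcases le_total Al.card As.card with hcase | hcase
    · -- product side
      have hAspos : 0 < As.card := by omega
      have hAsne : As.Nonempty := card_pos.1 hAspos
      have hAsA' : As ⊆ A' := filter_subset _ _
      have hAsA : As ⊆ A := hAsA'.trans hA'A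
      have hAsn : As.card ≤ n := card_le_card hAsA
      have h8 : n ≤ 8 * As.card := by omega
      choose! z hz using hpop
      have hprod := prod_iterE hτ0 hτ1 hl0 hl1 hκ0.le hη0.le hpar (A := As) hAsne
        (fun a => off T (e a)) (fun i => if i ∈ T then 0 else z i) (by
          intro q
          simp only [off_apply]
          by_cases hq : q ∈ T
          · simp only [if_pos hq, ne_eq, not_true_eq_false, filter_false, card_empty,
              Nat.cast_zero]
            (clear * - hκ0 hAsne hc he hcc₁ hcκ hck hcK hcpos hT hsup hfin hz; positivity)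
          · simp only [if_neg hq]
            have h1 : ((As.filter (fun a => e a q ≠ z q)).card : ℝ) ≤
                ((A.filter (fun a => e a q ≠ z q)).card : ℝ) := by
              apply Nat.cast_le.2
              exact card_le_card (filter_subset_filter _ hAsA)
            refine h1.trans ((hz q hq).trans ?_)
            have h2 : (n : ℝ) ≤ 8 * As.card := by exact_mod_cast h8
            calc c * (n:ℝ) ≤ κ / 8 * (8 * As.card) := by (clear * - hcκ h2 hAne hc he hcc₁ hck hcK hcpos hT hsup hfin hz hκ0; gcongr)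
              _ = κ * As.card := by ring) hR0 (by
          intro b
          rcases (As.filter (fun a => off T (e a) = b)).eq_empty_or_nonempty with h0 | ⟨a, ha⟩
          · rw [h0]; simpa using hR0.le
          · rw [mem_filter] at ha
            have ha2 := (mem_filter.1 ha.1).2
            refine le_trans ?_ ha2
            rw [← ha.2]
            apply Nat.cast_le.2
            apply card_le_card
            intro a' ha'
            rw [mem_filter] at ha'
            exact mem_filter.2 ⟨hAsA' ha'.1, ha'.2⟩) k n hAsn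
      -- from vectors to products
      set s := ⌊c * M⌋₊ with hs
      have hωV : ∀ v ∈ As.image e, v.support.card ≤ s := by
        intro v hv
        obtain ⟨a, ha, rfl⟩ := mem_image.1 hv
        exact Nat.le_floor (hsup a (hAsA' ha))
      have hcM : 0 ≤ c * M := by
        obtain ⟨a, ha⟩ := hAsne
        exact le_trans (Nat.cast_nonneg _) (hsup a (hAsA' ha))
      have hM0 : 0 ≤ M := nonneg_of_mul_nonneg_right hcM hcpos
      have hks : (2 * k * s : ℝ) ≤ M := by
        have hsL : (s:ℝ) ≤ c * M := Nat.floor_le hcM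
        calc (2 * k * s : ℝ) ≤ 2 * k * (c * M) := by (clear * - hsL hk; gcongr)
          _ ≤ 2 * k * (1 / (2 * k) * M) := by (clear * - hck hM0 hk; gcongr)
          _ = M := by (clear * - hk; field_simp)
      have hVne : (As.image e).Nonempty := hAsne.image _
      have hpk : ((vI (As.image e) k).card : ℝ) ≤
          max ((kS k A).card : ℝ) ((kP k A).card : ℝ) := by
        apply le_max_of_le_right
        apply Nat.cast_le.2
        choose! x hx hxv using vI_prod hg (A := As) (e := e) (fun a ha => hev a (hAsA' ha)) k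
        apply card_le_card_of_injOn x
        · intro v hv
          exact mem_coe.2 (pI_subset hAsA k (hx v (mem_coe.1 hv)))
        · intro v hv v' hv' h
          rw [mem_coe] at hv hv'
          have h1 : ev g v = ev g v' := by rw [← hxv v hv, ← hxv v' hv', h]
          have h2 : ev g (v - v') = 1 := by
            rw [ev_sub hg, h1, div_self (ev_pos hg v').ne']
          have h3 : (v - v').support.card ≤ 2 * (k * s) := by
            have e1 := (card_le_card (Finsupp.support_sub (f := v) (g := v'))).trans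
              (card_union_le _ _)
            have e2 := vI_support hωV k v hv
            have e3 := vI_support hωV k v' hv'
            omega
          have h4 : v - v' = 0 := by
            apply hrel _ _ h2
            calc ((v - v').support.card : ℝ) ≤ ((2 * (k * s) : ℕ) : ℝ) := by exact_mod_cast h3
              _ = 2 * k * s := by push_cast; ring
              _ ≤ M := hks
          exact sub_eq_zero.1 h4
      have hvIne : 1 ≤ (vI (As.image e) k).card := card_pos.2 (vI_nonempty hVne k)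
      refine hfin _ hvIne ?_ hpk
      have himg : As.image (fun a => off T (e a)) = (As.image e).image (off T) := by
        rw [image_image]; rfl
      rw [himg, vI_off] at hprod
      have hle : Real.log (((vI (As.image e) k).image (off T)).card : ℝ) ≤
          Real.log ((vI (As.image e) k).card : ℝ) := by
        apply Real.log_le_log
        · exact_mod_cast card_pos.2 ((vI_nonempty hVne k).image _)
        · exact_mod_cast card_image_le
      refine le_trans ?_ (hprod.trans hle)
      have hlogR : Real.log R = ε₁ * L := by rw [hR, Real.log_exp]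
      rw [hlogR, ← hL]
      have h5 := hlog8' As.card hAspos h8
      have h7 : (k:ℝ) * ε₁ = ε / 4 := by rw [hε₁]; (clear * - hk hε; field_simp)
      have h6 : (k:ℝ) * (η * (k + 1)) = ε / 4 := by rw [hη]; (clear * - hk hε; field_simp)
      have h9 : (k:ℝ) * (L - Real.log 8 - ε₁ * L - η * ((k + 1) * L)) ≤
          k * (Real.log As.card - ε₁ * L - η * ((k + 1) * L)) := by
        apply mul_le_mul_of_nonneg_left _ hk0.le
        linarith only [h5]
      refine le_trans ?_ h9
      have h10 : (k:ℝ) * (L - Real.log 8 - ε₁ * L - η * ((k + 1) * L)) =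
          k * L - k * Real.log 8 - (k * ε₁ + k * (η * (k + 1))) * L := by ring
      rw [h10, h7, h6]
      have h11 : (ε / 4 + ε / 4) * L ≤ ε * L := by
        apply mul_le_mul_of_nonneg_right _ hL0
        linarith only [hε]
      rw [hK₂]
      linarith only [hK₁0, h11]
    · -- sum side
      have hAlpos : 0 < Al.card := by omega
      have hAlne : Al.Nonempty := card_pos.1 hAlpos
      have hAlA' : Al ⊆ A' := filter_subset _ _
      have hAlA : Al ⊆ A := hAlA'.trans hA'A
      have hAln : Al.card ≤ n := card_le_card hAlA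
      have h8 : n ≤ 8 * Al.card := by omega
      have hsumk := hsum ι g hg T n (hT.trans (by (clear * - hcc₁; gcongr))) Al hAlne hAln
        (fun a ha => hA'ne0 a (hAlA' ha))
        (fun a ha a' ha' x y h => hsign a (hAlA' ha) a' (hAlA' ha') x y h) fib (by
          intro a ha a' ha'
          have ha2 := (mem_filter.1 ha).2
          have ha'2 := mem_filter.1 ha'
          rw [hAl, mem_filter]
          refine ⟨ha'2.1, ?_⟩
          have : fib a' = fib a := by
            simp only [hfib]; rw [ha'2.2]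
          rw [this]
          exact ha2) (by
          intro a ha
          have ha2 := (mem_filter.1 ha).2
          push Not at ha2
          exact ha2.le) (by
          intro a ha a' ha'
          have ha'2 := mem_filter.1 ha'
          refine ⟨e a' - e a, ?_, ?_⟩
          · intro q hq
            by_contra hqT
            have h1 := DFunLike.congr_fun ha'2.2 q
            rw [off_apply, off_apply, if_neg hqT, if_neg hqT] at h1
            rw [Finsupp.mem_support_iff, Finsupp.sub_apply, h1, sub_self] at hq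
            exact hq rfl
          · rw [ev_sub hg, hev a' ha'2.1, hev a (hAlA' ha)]
            have := (ev_pos hg (e a)).ne'
            (clear * - this; field_simp))
      have hsIne : 1 ≤ (sI Al k).card := card_pos.2 (sI_nonempty hAlne k)
      have hsk : ((sI Al k).card : ℝ) ≤ max ((kS k A).card : ℝ) ((kP k A).card : ℝ) := by
        apply le_max_of_le_left
        exact_mod_cast card_le_card (sI_subset hAlA k)
      refine hfin _ hsIne ?_ hsk
      refine le_trans ?_ hsumk
      have h5 := hlog8' Al.card hAlpos h8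
      have h9 : (k:ℝ) * (L - Real.log 8) ≤ k * Real.log Al.card := by (clear * - h5 hk; gcongr)
      rw [hK₂, ← hL]
      linarith only [h9]

end Pool.Agent.Helper2.E
end

/- Helper24.FF.H2.EFac -/
section
set_option autoImplicit false

/-!
Exponent vectors of integers, and the passage from a large subset to the set.
-/

open Finset

namespace Pool.Agent.Helper2.E

open Pool.Agent.Helper5

/-- The conclusion for a set `A` from the one for a large subset `B`. -/
theorem lift (k : ℕ) (hk : 1 ≤ k) (ε : ℝ) (hε : 0 < ε) {c' : ℝ} (hc' : 0 < c') {c : ℝ}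
    (hc1 : c ≤ c' / 2) (hc2 : c ≤ 1 / 2) (hc3 : c ≤ ε / (2 * k)) (hcpos : 0 < c)
    {A B : Finset ℤ} (hA : A.Nonempty) (hBA : B ⊆ A)
    (hcard : (A.card : ℝ) ^ (1 - c) ≤ (B.card : ℝ)) :
    B.Nonempty ∧ c * Real.log A.card ≤ c' * Real.log B.card ∧
    (c' * (B.card : ℝ) ^ ((k : ℝ) - ε / 2) ≤ max ((kS k B).card : ℝ) ((kP k B).card : ℝ) →
      c * (A.card : ℝ) ^ ((k : ℝ) - ε) ≤ max ((kS k A).card : ℝ) ((kP k A).card : ℝ)) := by
  have hk0 : (0 : ℝ) < k := by exact_mod_cast hk
  have hn1 : 1 ≤ A.card := card_pos.mpr hA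
  have hn1' : (1 : ℝ) ≤ A.card := by exact_mod_cast hn1
  have hnpos : (0 : ℝ) < A.card := by (clear * - hn1'; linarith only [hn1'])
  have hbpos : (0 : ℝ) < B.card := lt_of_lt_of_le (Real.rpow_pos_of_pos hnpos _) hcard
  have hBne : B.Nonempty := by
    rw [← card_pos]; exact_mod_cast hbpos
  have hlogn : 0 ≤ Real.log A.card := Real.log_nonneg hn1'
  have hloglow : (1 - c) * Real.log A.card ≤ Real.log B.card := by
    rw [← Real.log_rpow hnpos]
    exact Real.log_le_log (Real.rpow_pos_of_pos hnpos _) hcard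
  have hloglow2 : Real.log A.card ≤ 2 * Real.log B.card := by
    have : 1 / 2 * Real.log A.card ≤ (1 - c) * Real.log A.card :=
      mul_le_mul_of_nonneg_right (by (clear * - hc2; linarith only [hc2])) hlogn
    linarith only [hloglow, this]
  have hkey : c * Real.log A.card ≤ c' * Real.log B.card := by
    calc c * Real.log A.card ≤ c' / 2 * Real.log A.card :=
          mul_le_mul_of_nonneg_right hc1 hlogn
      _ ≤ c' / 2 * (2 * Real.log B.card) :=
          mul_le_mul_of_nonneg_left hloglow2 (by positivity)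
      _ = _ := by ring
  refine ⟨hBne, hkey, ?_⟩
  intro hB
  have hmono : max ((kS k B).card : ℝ) ((kP k B).card : ℝ) ≤
      max ((kS k A).card : ℝ) ((kP k A).card : ℝ) := by
    apply max_le_max
    · exact_mod_cast card_le_card (kS_mono k hBA)
    · exact_mod_cast card_le_card (kP_mono k hBA)
  have hmax1 : (1 : ℝ) ≤ max ((kS k A).card : ℝ) ((kP k A).card : ℝ) := by
    apply le_max_of_le_left
    exact_mod_cast card_pos.mpr (kS_nonempty k hA)
  rcases le_or_gt 0 ((k : ℝ) - ε / 2) with h0 | h0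
  · have h1 : (A.card : ℝ) ^ ((k : ℝ) - ε) ≤ (B.card : ℝ) ^ ((k : ℝ) - ε / 2) := by
      calc (A.card : ℝ) ^ ((k : ℝ) - ε) ≤ (A.card : ℝ) ^ ((1 - c) * ((k : ℝ) - ε / 2)) := by
            apply Real.rpow_le_rpow_of_exponent_le hn1'
            have h2 : c * k ≤ ε / 2 := by
              calc c * k ≤ ε / (2 * k) * k := mul_le_mul_of_nonneg_right hc3 hk0.le
                _ = ε / 2 := by field_simp
            have h3 : 0 ≤ c * (ε / 2) := by positivity
            (clear * - h2 h3; linarith only [h2, h3])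
        _ = ((A.card : ℝ) ^ (1 - c)) ^ ((k : ℝ) - ε / 2) := Real.rpow_mul hnpos.le _ _
        _ ≤ (B.card : ℝ) ^ ((k : ℝ) - ε / 2) :=
            Real.rpow_le_rpow (Real.rpow_nonneg hnpos.le _) hcard h0
    calc c * (A.card : ℝ) ^ ((k : ℝ) - ε) ≤ c' * (B.card : ℝ) ^ ((k : ℝ) - ε / 2) := by
          apply mul_le_mul _ h1 (Real.rpow_nonneg hnpos.le _) hc'.le
          linarith only [hc', hc1]
      _ ≤ _ := hB
      _ ≤ _ := hmono
  · have h1 : (A.card : ℝ) ^ ((k : ℝ) - ε) ≤ 1 :=
      Real.rpow_le_one_of_one_le_of_nonpos hn1' (by linarith only [h0])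
    calc c * (A.card : ℝ) ^ ((k : ℝ) - ε) ≤ 1 * 1 := by
          apply mul_le_mul (by linarith only [hc2]) h1 (Real.rpow_nonneg hnpos.le _) (by norm_num)
      _ ≤ _ := by linarith only [hmax1]

/-- the type of primes -/
abbrev Pr : Type := {p : ℕ // p.Prime}

/-- the exponent vector of an integer, in the primes -/
noncomputable def fac (b : ℤ) : Pr →₀ ℤ :=
  (b.natAbs.factorization.comapDomain (Subtype.val : Pr → ℕ)
    Subtype.val_injective.injOn).mapRange (fun n : ℕ => (n : ℤ)) rfl

theorem fac_apply (b : ℤ) (p : Pr) : fac b p = (padicValInt p b : ℤ) := by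
  unfold fac
  rw [Finsupp.mapRange_apply, Finsupp.comapDomain_apply, Nat.factorization_def _ p.2]
  rfl

theorem fac_mul {a b : ℤ} (ha : a ≠ 0) (hb : b ≠ 0) : fac (a * b) = fac a + fac b := by
  ext p
  haveI := Fact.mk p.2
  rw [Finsupp.add_apply, fac_apply, fac_apply, fac_apply, padicValInt.mul ha hb]
  push_cast
  ring

theorem fac_inj {a b : ℤ} (ha : a ≠ 0) (hb : b ≠ 0) (h : fac a = fac b) : a = b ∨ a = -b := by
  apply Int.natAbs_eq_natAbs_iff.1
  apply Nat.eq_of_factorization_eq (Int.natAbs_ne_zero.2 ha) (Int.natAbs_ne_zero.2 hb)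
  intro p
  by_cases hp : p.Prime
  · have h1 := DFunLike.congr_fun h ⟨p, hp⟩
    rw [fac_apply, fac_apply] at h1
    rw [Nat.factorization_def _ hp, Nat.factorization_def _ hp]
    exact_mod_cast h1
  · rw [Nat.factorization_eq_zero_of_not_prime _ hp, Nat.factorization_eq_zero_of_not_prime _ hp]

theorem primes_pos (p : Pr) : (0 : ℚ) < ((p : ℕ) : ℚ) := by
  exact_mod_cast p.2.pos

theorem val_ev (e : Pr →₀ ℤ) (p : Pr) :
    padicValRat p (ev (fun p : Pr => ((p : ℕ) : ℚ)) e) = e p := by
  haveI := Fact.mk p.2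
  rw [padicValRat_ev primes_pos p.2, Finsupp.sum, Finset.sum_eq_single p]
  · rw [padicValRat.self p.2.one_lt, mul_one]
  · intro q _ hq
    haveI := Fact.mk q.2
    rw [padicValRat.of_nat, padicValNat_primes (fun h => hq (Subtype.ext h.symm))]
    simp
  · intro h
    rw [Finsupp.notMem_support_iff.1 h, zero_mul]

theorem ev_fac {b : ℤ} (hb : b ≠ 0) :
    |(b : ℚ)| = ev (fun p : Pr => ((p : ℕ) : ℚ)) (fac b) := by
  have h1 : (0:ℚ) < |(b : ℚ)| := abs_pos.2 (by exact_mod_cast hb)
  have h2 := ev_pos primes_pos (fac b)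
  have h3 : |(b : ℚ)| / ev (fun p : Pr => ((p : ℕ) : ℚ)) (fac b) = 1 := by
    apply eq_one_of_padicValRat (by (clear * - hb h2; positivity))
    intro p hp
    haveI := Fact.mk hp
    rw [padicValRat.div h1.ne' h2.ne', padicValRat_eq_val hp rfl,
      val_ev (fac b) ⟨p, hp⟩, fac_apply]
    have : Pool.Agent.Helper5.val p b = padicValInt p b := by
      unfold Pool.Agent.Helper5.val
      rw [Nat.factorization_def _ hp]
      rfl
    rw [this, sub_self]
  rw [div_eq_one_iff_eq h2.ne'] at h3
  exact h3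

open Classical in
/-- exponent vector outside `T` -/
noncomputable def offT (T : Set ℕ) (b : ℤ) : Pr →₀ ℤ := (fac b).filter (fun p => (p : ℕ) ∉ T)

open Classical in
theorem offT_apply (T : Set ℕ) (b : ℤ) (p : Pr) :
    offT T b p = if (p : ℕ) ∈ T then 0 else (padicValInt p b : ℤ) := by
  unfold offT
  rw [Finsupp.filter_apply, ← fac_apply]
  by_cases h : (p : ℕ) ∈ T <;> simp [h]

theorem offT_mul (T : Set ℕ) {a b : ℤ} (ha : a ≠ 0) (hb : b ≠ 0) :
    offT T (a * b) = offT T a + offT T b := by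
  classical
  unfold offT
  rw [fac_mul ha hb, Finsupp.filter_add]

/-- products correspond to sums of exponent vectors -/
theorem vI_offT (T : Set ℕ) (A : Finset ℤ) (hA : ∀ a ∈ A, a ≠ 0) (j : ℕ) :
    (∀ x ∈ pI A j, x ≠ 0) ∧ vI (A.image (offT T)) j = (pI A j).image (offT T) := by
  classical
  induction j with
  | zero =>
    refine ⟨?_, ?_⟩
    · intro x hx
      simp only [pI, mem_singleton] at hx
      rw [hx]; norm_num
    · simp only [vI, pI, image_singleton]
      congr 1
      ext p
      rw [offT_apply]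
      simp
  | succ j ih =>
    obtain ⟨ih1, ih2⟩ := ih
    refine ⟨?_, ?_⟩
    · intro x hx
      simp only [pI, mem_image₂] at hx
      obtain ⟨y, hy, a, ha, rfl⟩ := hx
      exact mul_ne_zero (ih1 y hy) (hA a ha)
    · have h1 : vI (A.image (offT T)) (j + 1) =
        image₂ (· + ·) (vI (A.image (offT T)) j) (A.image (offT T)) := rfl
      have h2 : pI A (j + 1) = image₂ (· * ·) (pI A j) A := rfl
      rw [h1, h2, ih2]
      ext v
      simp only [mem_image₂, mem_image]
      constructor
      · rintro ⟨_, ⟨y, hy, rfl⟩, _, ⟨z, hz, rfl⟩, rfl⟩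
        exact ⟨y * z, ⟨y, hy, z, hz, rfl⟩, offT_mul T (ih1 y hy) (hA z hz)⟩
      · rintro ⟨_, ⟨y, hy, z, hz, rfl⟩, rfl⟩
        exact ⟨_, ⟨y, hy, rfl⟩, _, ⟨z, hz, rfl⟩, (offT_mul T (ih1 y hy) (hA z hz)).symm⟩

end Pool.Agent.Helper2.E
end

/- Helper24.FF.H2.ERich -/
section
set_option autoImplicit false

/-!
Sumsets of sets with rich cosets of a multiplicative group of small rank.
-/

open Finset

namespace Pool.Agent.Helper2.E

open Pool.Agent.Helper5

/-- the absolute value of a unit -/
def gab (t : ℚˣ) : ℚ := |(t : ℚ)|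

theorem gab_pos (t : ℚˣ) : 0 < gab t := abs_pos.2 t.ne_zero

/-- elements of the group generated by `T`, in terms of exponent vectors -/
theorem closure_ev (T : Finset ℚˣ) {γ : ℚˣ} (hγ : γ ∈ Subgroup.closure (T : Set ℚˣ)) :
    ∃ x : ℚˣ →₀ ℤ, x.support ⊆ T ∧ |(γ : ℚ)| = ev gab x := by
  classical
  induction hγ using Subgroup.closure_induction with
  | mem t ht =>
    refine ⟨Finsupp.single t 1, ?_, ?_⟩
    · intro i hi
      have := Finsupp.support_single_subset hi
      rw [mem_singleton] at this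
      subst this
      exact ht
    · unfold ev
      rw [Finsupp.prod_single_index (by simp)]
      simp [gab]
  | one =>
    refine ⟨0, by simp, ?_⟩
    unfold ev
    simp
  | mul a b _ _ ha hb =>
    obtain ⟨x, hx, hx'⟩ := ha
    obtain ⟨y, hy, hy'⟩ := hb
    refine ⟨x + y, ?_, ?_⟩
    · intro i hi
      rcases mem_union.1 (Finsupp.support_add hi) with h | h
      · exact hx h
      · exact hy h
    · rw [ev_add gab_pos, ← hx', ← hy', Units.val_mul, abs_mul]
  | inv a _ ha =>
    obtain ⟨x, hx, hx'⟩ := ha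
    refine ⟨-x, by rw [Finsupp.support_neg]; exact hx, ?_⟩
    rw [ev_neg gab_pos, ← hx', Units.val_inv_eq_inv_val, abs_inv]

/-- same coset up to sign -/
def Rel (T : Finset ℚˣ) (a b : ℤ) : Prop :=
  ∃ x : ℚˣ →₀ ℤ, x.support ⊆ T ∧ |(a : ℚ)| = |(b : ℚ)| * ev gab x

theorem Rel.refl (T : Finset ℚˣ) (a : ℤ) : Rel T a a := by
  refine ⟨0, by simp, ?_⟩
  unfold ev
  simp

theorem Rel.symm {T : Finset ℚˣ} {a b : ℤ} (h : Rel T a b) : Rel T b a := by
  obtain ⟨x, hx, hx'⟩ := h
  refine ⟨-x, by rw [Finsupp.support_neg]; exact hx, ?_⟩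
  rw [ev_neg gab_pos, hx']
  have := (ev_pos gab_pos x).ne'
  (clear * - this; field_simp)

theorem Rel.trans {T : Finset ℚˣ} {a b d : ℤ} (h : Rel T a b) (h' : Rel T b d) : Rel T a d := by
  classical
  obtain ⟨x, hx, hx'⟩ := h
  obtain ⟨y, hy, hy'⟩ := h'
  refine ⟨x + y, ?_, ?_⟩
  · intro i hi
    rcases mem_union.1 (Finsupp.support_add hi) with h | h
    · exact hx h
    · exact hy h
  · rw [ev_add gab_pos, hx', hy']
    ring

/-- half of the elements of rich classes have rich classes of their own sign -/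
theorem exists_one_sign (T : Finset ℚˣ) (A W : Finset ℤ) (hWA : W ⊆ A) (r : ℝ)
    (hA0 : ∀ a ∈ W, a ≠ 0)
    (hW : ∀ a ∈ W, ∀ F : Finset ℤ, (∀ a', a' ∈ F ↔ a' ∈ A ∧ a' ≠ 0 ∧ Rel T a' a) →
      2 * r ≤ (F.card : ℝ)) :
    ∃ (P : Finset ℤ) (F : ℤ → Finset ℤ), P ⊆ A ∧ W.card ≤ 4 * P.card ∧ (∀ a ∈ P, a ≠ 0) ∧
      (∀ a ∈ P, ∀ a' ∈ P, ∀ x y : ℚ, |(a : ℚ)| * x = |(a' : ℚ)| * y →
        (a : ℚ) * x = (a' : ℚ) * y) ∧
      (∀ a ∈ P, F a ⊆ P) ∧ (∀ a ∈ P, r ≤ ((F a).card : ℝ)) ∧
      (∀ a ∈ P, ∀ a' ∈ F a, Rel T a' a) := by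
  classical
  -- positive and negative parts of the class
  let Fp : ℤ → Finset ℤ := fun a => A.filter (fun a' => 0 < a' ∧ Rel T a' a)
  let Fn : ℤ → Finset ℤ := fun a => A.filter (fun a' => a' < 0 ∧ Rel T a' a)
  let P : Finset ℤ := A.filter (fun a => 0 < a ∧ r ≤ ((Fp a).card : ℝ))
  let Q : Finset ℤ := A.filter (fun a => a < 0 ∧ r ≤ ((Fn a).card : ℝ))
  have hFp : ∀ a a', Rel T a a' → Fp a = Fp a' := by
    intro a a' h
    ext x
    simp only [Fp, mem_filter]
    constructor
    · rintro ⟨h1, h2, h3⟩; exact ⟨h1, h2, h3.trans h⟩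
    · rintro ⟨h1, h2, h3⟩; exact ⟨h1, h2, h3.trans h.symm⟩
  have hFn : ∀ a a', Rel T a a' → Fn a = Fn a' := by
    intro a a' h
    ext x
    simp only [Fn, mem_filter]
    constructor
    · rintro ⟨h1, h2, h3⟩; exact ⟨h1, h2, h3.trans h⟩
    · rintro ⟨h1, h2, h3⟩; exact ⟨h1, h2, h3.trans h.symm⟩
  have htot : ∀ a ∈ W, 2 * r ≤ ((Fp a).card : ℝ) + ((Fn a).card : ℝ) := by
    intro a ha
    have h1 := hW a ha (Fp a ∪ Fn a) (by
      intro a'
      simp only [Fp, Fn, mem_union, mem_filter]
      constructor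
      · rintro (⟨h1, h2, h3⟩ | ⟨h1, h2, h3⟩)
        · exact ⟨h1, h2.ne', h3⟩
        · exact ⟨h1, h2.ne, h3⟩
      · rintro ⟨h1, h2, h3⟩
        rcases lt_or_gt_of_ne h2 with h | h
        · exact Or.inr ⟨h1, h, h3⟩
        · exact Or.inl ⟨h1, h, h3⟩)
    refine h1.trans ?_
    exact_mod_cast card_union_le _ _
  -- the elements whose class is mostly positive
  have hWp : (W.filter (fun a => (Fn a).card ≤ (Fp a).card)).card ≤ 2 * P.card := by
    rw [card_eq_sum_card_image Fp]
    have h1 : ∀ C ∈ (W.filter (fun a => (Fn a).card ≤ (Fp a).card)).image Fp,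
        ((W.filter (fun a => (Fn a).card ≤ (Fp a).card)).filter (fun a => Fp a = C)).card ≤
        2 * (P.filter (fun a => Fp a = C)).card := by
      intro C hC
      obtain ⟨a₀, ha₀, rfl⟩ := mem_image.1 hC
      rw [mem_filter] at ha₀
      have hr := htot a₀ ha₀.1
      have hr2 : r ≤ ((Fp a₀).card : ℝ) := by
        have : ((Fn a₀).card : ℝ) ≤ (Fp a₀).card := by exact_mod_cast ha₀.2
        linarith only [hr, this]
      have hrel : ∀ a ∈ (W.filter (fun a => (Fn a).card ≤ (Fp a).card)).filter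
          (fun a => Fp a = Fp a₀), a ∈ Fp a₀ ∪ Fn a₀ := by
        intro a ha
        rw [mem_filter, mem_filter] at ha
        obtain ⟨⟨haW, hle⟩, heq⟩ := ha
        have hra : Rel T a a₀ := by
          by_cases hne : (Fp a₀).Nonempty
          · obtain ⟨x, hx⟩ := hne
            have hx' := hx
            rw [← heq] at hx'
            exact (mem_filter.1 hx').2.2.symm.trans (mem_filter.1 hx).2.2
          · exfalso
            rw [not_nonempty_iff_eq_empty] at hne
            have h0 : (Fp a).card = 0 := by rw [heq, hne]; rfl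
            have h0' : (Fn a).card = 0 := by omega
            rcases lt_or_gt_of_ne (hA0 a haW) with h | h
            · exact (card_pos.2 ⟨a, mem_filter.2 ⟨hWA haW, h, Rel.refl T a⟩⟩).ne' h0'
            · exact (card_pos.2 ⟨a, mem_filter.2 ⟨hWA haW, h, Rel.refl T a⟩⟩).ne' h0
        rw [mem_union]
        rcases lt_or_gt_of_ne (hA0 a haW) with h | h
        · exact Or.inr (mem_filter.2 ⟨hWA haW, h, hra⟩)
        · exact Or.inl (mem_filter.2 ⟨hWA haW, h, hra⟩)
      have h2 := (card_le_card hrel).trans (card_union_le _ _)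
      have h3 : Fp a₀ ⊆ P.filter (fun a => Fp a = Fp a₀) := by
        intro x hx
        have hx' := mem_filter.1 hx
        rw [mem_filter, mem_filter]
        have he := hFp x a₀ hx'.2.2
        exact ⟨⟨hx'.1, hx'.2.1, by rw [he]; exact hr2⟩, he⟩
      have h4 := card_le_card h3
      have h5 := ha₀.2
      omega
    refine (sum_le_sum h1).trans ?_
    rw [← mul_sum]
    apply Nat.mul_le_mul_left
    rw [← card_biUnion]
    · apply card_le_card
      intro x hx
      obtain ⟨C, _, hx⟩ := mem_biUnion.1 hx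
      exact (mem_filter.1 hx).1
    · intro C _ C' _ hCC
      rw [Function.onFun, disjoint_left]
      intro x hx hx'
      exact hCC ((mem_filter.1 hx).2.symm.trans (mem_filter.1 hx').2)
  have hWn : (W.filter (fun a => ¬ (Fn a).card ≤ (Fp a).card)).card ≤ 2 * Q.card := by
    rw [card_eq_sum_card_image Fn]
    have h1 : ∀ C ∈ (W.filter (fun a => ¬ (Fn a).card ≤ (Fp a).card)).image Fn,
        ((W.filter (fun a => ¬ (Fn a).card ≤ (Fp a).card)).filter (fun a => Fn a = C)).card ≤
        2 * (Q.filter (fun a => Fn a = C)).card := by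
      intro C hC
      obtain ⟨a₀, ha₀, rfl⟩ := mem_image.1 hC
      rw [mem_filter] at ha₀
      have hr := htot a₀ ha₀.1
      have hle₀ : (Fp a₀).card ≤ (Fn a₀).card := (not_le.1 ha₀.2).le
      have hr2 : r ≤ ((Fn a₀).card : ℝ) := by
        have : ((Fp a₀).card : ℝ) ≤ (Fn a₀).card := by exact_mod_cast hle₀
        linarith only [hr, this]
      have hrel : ∀ a ∈ (W.filter (fun a => ¬ (Fn a).card ≤ (Fp a).card)).filter
          (fun a => Fn a = Fn a₀), a ∈ Fp a₀ ∪ Fn a₀ := by
        intro a ha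
        rw [mem_filter, mem_filter] at ha
        obtain ⟨⟨haW, hle⟩, heq⟩ := ha
        have hra : Rel T a a₀ := by
          have hne : (Fn a₀).Nonempty := by
            rw [← card_pos]
            have := ha₀.2
            omega
          obtain ⟨x, hx⟩ := hne
          have hx' := hx
          rw [← heq] at hx'
          exact (mem_filter.1 hx').2.2.symm.trans (mem_filter.1 hx).2.2
        rw [mem_union]
        rcases lt_or_gt_of_ne (hA0 a haW) with h | h
        · exact Or.inr (mem_filter.2 ⟨hWA haW, h, hra⟩)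
        · exact Or.inl (mem_filter.2 ⟨hWA haW, h, hra⟩)
      have h2 := (card_le_card hrel).trans (card_union_le _ _)
      have h3 : Fn a₀ ⊆ Q.filter (fun a => Fn a = Fn a₀) := by
        intro x hx
        have hx' := mem_filter.1 hx
        rw [mem_filter, mem_filter]
        have he := hFn x a₀ hx'.2.2
        exact ⟨⟨hx'.1, hx'.2.1, by rw [he]; exact hr2⟩, he⟩
      have h4 := card_le_card h3
      (clear * - ha₀ h2 h4; omega)
    refine (sum_le_sum h1).trans ?_
    rw [← mul_sum]
    apply Nat.mul_le_mul_left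
    rw [← card_biUnion]
    · apply card_le_card
      intro x hx
      obtain ⟨C, _, hx⟩ := mem_biUnion.1 hx
      exact (mem_filter.1 hx).1
    · intro C _ C' _ hCC
      rw [Function.onFun, disjoint_left]
      intro x hx hx'
      exact hCC ((mem_filter.1 hx).2.symm.trans (mem_filter.1 hx').2)
  have hsplit : (W.filter (fun a => (Fn a).card ≤ (Fp a).card)).card +
      (W.filter (fun a => ¬ (Fn a).card ≤ (Fp a).card)).card = W.card :=
    card_filter_add_card_filter_not _
  rcases le_total Q.card P.card with h | h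
  · refine ⟨P, Fp, filter_subset _ _, by omega, ?_, ?_, ?_, ?_, ?_⟩
    · intro a ha; exact (mem_filter.1 ha).2.1.ne'
    · intro a ha a' ha' x y hxy
      have e1 : (0:ℚ) < a := by exact_mod_cast (mem_filter.1 ha).2.1
      have e2 : (0:ℚ) < a' := by exact_mod_cast (mem_filter.1 ha').2.1
      rw [abs_of_pos e1, abs_of_pos e2] at hxy
      exact hxy
    · intro a ha x hx
      have hx' := mem_filter.1 hx
      have he := hFp x a hx'.2.2
      exact mem_filter.2 ⟨hx'.1, hx'.2.1, by rw [he]; exact (mem_filter.1 ha).2.2⟩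
    · intro a ha; exact (mem_filter.1 ha).2.2
    · intro a _ a' ha'; exact (mem_filter.1 ha').2.2
  · refine ⟨Q, Fn, filter_subset _ _, by omega, ?_, ?_, ?_, ?_, ?_⟩
    · intro a ha; exact (mem_filter.1 ha).2.1.ne
    · intro a ha a' ha' x y hxy
      have e1 : (a:ℚ) < 0 := by exact_mod_cast (mem_filter.1 ha).2.1
      have e2 : (a':ℚ) < 0 := by exact_mod_cast (mem_filter.1 ha').2.1
      rw [abs_of_neg e1, abs_of_neg e2] at hxy
      linarith only [hxy]
    · intro a ha x hx
      have hx' := mem_filter.1 hx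
      have he := hFn x a hx'.2.2
      exact mem_filter.2 ⟨hx'.1, hx'.2.1, by rw [he]; exact (mem_filter.1 ha).2.2⟩
    · intro a ha; exact (mem_filter.1 ha).2.2
    · intro a _ a' ha'; exact (mem_filter.1 ha').2.2

/-- **Many elements in rich cosets of one multiplicative group of small rank force a sumset of
nearly maximal size.**

For all `k ≥ 1`, `ε > 0` and `δ > 0` there is `c > 0` with the following property. Let `A` be a
finite set of integers and let `Γ` be a subgroup of the multiplicative group of the rationals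
generated by at most `c log |A|` elements. If at least `|A|^(1-c)` elements `b` of `A` are such
that the coset `Γ b` contains at least `|A|^δ` elements of `A`, then `|kA| ≥ c |A|^(k-ε)`. -/
theorem rich_cosets : ∀ k : ℕ, 1 ≤ k → ∀ ε : ℝ, 0 < ε → ∀ δ : ℝ, 0 < δ → ∃ c : ℝ, 0 < c ∧
    ∀ A B : Finset ℤ, A.Nonempty → B ⊆ A → (A.card : ℝ) ^ (1 - c) ≤ (B.card : ℝ) →
    ∀ T : Finset ℚˣ, (T.card : ℝ) ≤ c * Real.log (A.card : ℝ) →
      (∀ b ∈ B, b ≠ 0 → (A.card : ℝ) ^ δ ≤
        (Set.ncard {a : ℤ | a ∈ A ∧ ∃ γ ∈ Subgroup.closure (T : Set ℚˣ),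
          (a : ℚ) = (γ : ℚ) * (b : ℚ)} : ℝ)) →
      c * (A.card : ℝ) ^ ((k : ℝ) - ε) ≤
        (((Fintype.piFinset (fun _ : Fin k => A)).image
            (fun f : Fin k → ℤ => ∑ i, f i)).card : ℝ) := by
  intro k hk ε hε δ hδ
  have hk0 : (0 : ℝ) < k := by exact_mod_cast hk
  obtain ⟨c₁, K₁, hc₁0, hK₁0, hsum⟩ := sum_side k hk (ε := ε / 2) (ε₁ := δ / 2) (by positivity)
    (by positivity)
  -- for |A| ≥ exp (2 log 2 / δ) the factor 2 is harmless
  set Λ : ℝ := 2 * Real.log 2 / δ with hΛ
  have hlog2 : 0 < Real.log 2 := Real.log_pos (by norm_num)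
  have hlog8 : 0 < Real.log 8 := Real.log_pos (by norm_num)
  have hΛ0 : 0 < Λ := by (clear * - hδ; positivity)
  set K₂ : ℝ := K₁ + k * Real.log 8 + k * Λ with hK₂
  have hK₂0 : 0 ≤ K₂ := by (clear * - hK₁0 hk hδ; positivity)
  set c : ℝ := min (min c₁ (ε / (2 * k))) (min (1 / 2) (Real.exp (-K₂))) with hc
  have hcpos : 0 < c := lt_min (lt_min hc₁0 (by positivity)) (lt_min (by norm_num)
    (Real.exp_pos _))
  have hcc₁ : c ≤ c₁ := (min_le_left _ _).trans (min_le_left _ _)
  have hcε : c ≤ ε / (2 * k) := (min_le_left _ _).trans (min_le_right _ _)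
  have hch : c ≤ 1 / 2 := (min_le_right _ _).trans (min_le_left _ _)
  have hcK : c ≤ Real.exp (-K₂) := (min_le_right _ _).trans (min_le_right _ _)
  clear_value c
  refine ⟨c, hcpos, ?_⟩
  intro A B hA hBA hcard T hT hrich
  show c * (A.card : ℝ) ^ ((k : ℝ) - ε) ≤ ((kS k A).card : ℝ)
  have hn1 : 1 ≤ A.card := card_pos.mpr hA
  have hn1' : (1 : ℝ) ≤ A.card := by exact_mod_cast hn1
  have hnpos : (0 : ℝ) < A.card := by linarith only [hn1']
  set L := Real.log (A.card : ℝ) with hL
  have hL0 : 0 ≤ L := Real.log_nonneg hn1'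
  have hS1 : (1 : ℝ) ≤ ((kS k A).card : ℝ) := by exact_mod_cast card_pos.mpr (kS_nonempty k hA)
  have hbpos : (0 : ℝ) < B.card := lt_of_lt_of_le (Real.rpow_pos_of_pos hnpos _) hcard
  have hloglow : (1 - c) * L ≤ Real.log B.card := by
    rw [hL, ← Real.log_rpow hnpos]
    exact Real.log_le_log (Real.rpow_pos_of_pos hnpos _) hcard
  -- it suffices to bound the logarithm
  have hfin : (k:ℝ) * L - ε * L - K₂ ≤ Real.log ((kS k A).card : ℝ) →
      c * (A.card : ℝ) ^ ((k : ℝ) - ε) ≤ ((kS k A).card : ℝ) := by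
    intro hlog
    have hmpos : (0:ℝ) < ((kS k A).card : ℝ) := by linarith only [hS1]
    calc c * (A.card : ℝ) ^ ((k : ℝ) - ε)
        ≤ Real.exp (-K₂) * Real.exp (((k:ℝ) - ε) * L) := by
          apply mul_le_mul hcK _ (by (clear * - hA hc hcpos hcc₁ hcε hch hcK hcard hT hloglow; positivity)) (Real.exp_pos _).le
          rw [Real.rpow_def_of_pos hnpos, mul_comm]
      _ = Real.exp ((k:ℝ) * L - ε * L - K₂) := by
          rw [← Real.exp_add]; congr 1; ring
      _ ≤ Real.exp (Real.log ((kS k A).card : ℝ)) := Real.exp_le_exp.2 hlog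
      _ = _ := Real.exp_log hmpos
  by_cases hsmall : L ≤ Λ
  · -- small sets
    apply hfin
    have h1 : 0 ≤ Real.log ((kS k A).card : ℝ) := Real.log_nonneg hS1
    have h2 : (k:ℝ) * L ≤ k * Λ := by (clear * - hsmall hk; gcongr)
    have h3 : 0 ≤ ε * L := by (clear * - hε; positivity)
    have h4 : 0 ≤ k * Real.log 8 := by positivity
    (clear * - hK₁0 h1 h2 h3 h4; linarith only [hK₁0, h1, h2, h3, h4])
  · push Not at hsmall
    have hLpos : 0 < L := lt_trans hΛ0 hsmall
    -- B has at least two elements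
    have hB2 : 2 ≤ B.card := by
      have h1 : 0 < Real.log B.card := lt_of_lt_of_le (by
        apply mul_pos _ hLpos; (clear * - hch; linarith only [hch])) hloglow
      by_contra hlt
      push Not at hlt
      have h2 : B.card = 0 ∨ B.card = 1 := by omega
      rcases h2 with h2 | h2 <;> rw [h2] at h1 <;> simp at h1
    set W := B.erase 0 with hW
    have hWcard : B.card ≤ 2 * W.card := by
      have h : B.card - 1 ≤ W.card := pred_card_le_card_erase
      omega
    have hr : 2 * Real.exp (δ / 2 * L) ≤ (A.card : ℝ) ^ δ := by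
      rw [Real.rpow_def_of_pos hnpos, ← hL]
      have h1 : Real.exp (L * δ) = Real.exp (δ / 2 * L) * Real.exp (δ / 2 * L) := by
        rw [← Real.exp_add]; congr 1; ring
      rw [h1]
      apply mul_le_mul_of_nonneg_right _ (Real.exp_pos _).le
      have h2 : Real.log 2 ≤ δ / 2 * L := by
        have h3 : δ / 2 * Λ ≤ δ / 2 * L := by (clear * - hsmall hδ; gcongr)
        have h4 : δ / 2 * Λ = Real.log 2 := by rw [hΛ]; field_simp
        (clear * - h3 h4; linarith only [h3, h4])
      calc (2:ℝ) = Real.exp (Real.log 2) := (Real.exp_log (by norm_num)).symm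
        _ ≤ Real.exp (δ / 2 * L) := Real.exp_le_exp.2 h2
    obtain ⟨P, F, hPA, hWP, hP0, hPsign, hFP, hFr, hFrel⟩ := exists_one_sign T A W
      ((erase_subset _ _).trans hBA) (Real.exp (δ / 2 * L))
      (fun a ha => ne_of_mem_erase ha) (by
      intro a ha F hF
      have ha0 := ne_of_mem_erase ha
      refine hr.trans ((hrich a (mem_of_mem_erase ha) ha0).trans ?_)
      apply Nat.cast_le.2
      rw [← Set.ncard_coe_finset F]
      apply Set.ncard_le_ncard _ F.finite_toSet
      rintro x ⟨hxA, γ, hγ, hxγ⟩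
      rw [mem_coe, hF]
      have ha0' : (a : ℚ) ≠ 0 := by exact_mod_cast ha0
      refine ⟨hxA, ?_, ?_⟩
      · intro h0
        rw [h0, Int.cast_zero] at hxγ
        exact mul_ne_zero γ.ne_zero ha0' hxγ.symm
      · obtain ⟨y, hy, hy'⟩ := closure_ev T hγ
        refine ⟨y, hy, ?_⟩
        rw [hxγ, abs_mul, hy', mul_comm])
    have hPcard : B.card ≤ 8 * P.card := by omega
    have hPpos : 0 < P.card := by omega
    have hPne : P.Nonempty := card_pos.1 hPpos
    have hlogP : (1 - c) * L - Real.log 8 ≤ Real.log P.card := by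
      have hP' : (0:ℝ) < P.card := by exact_mod_cast hPpos
      have h1 : (B.card : ℝ) ≤ 8 * P.card := by exact_mod_cast hPcard
      have h2 := Real.log_le_log hbpos h1
      rw [Real.log_mul (by norm_num) hP'.ne'] at h2
      linarith only [hloglow, h2]
    have hmain := hsum ℚˣ gab gab_pos T A.card (hT.trans (by (clear * - hcc₁ hLpos; gcongr))) P hPne
      (card_le_card hPA) hP0 hPsign F hFP hFr (fun a ha a' ha' => hFrel a ha a' ha')
    have hsub : Real.log ((sI P k).card : ℝ) ≤ Real.log ((kS k A).card : ℝ) := by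
      apply Real.log_le_log
      · exact_mod_cast card_pos.2 (sI_nonempty hPne k)
      · exact_mod_cast card_le_card (sI_subset hPA k)
    apply hfin
    refine le_trans ?_ (hmain.trans hsub)
    have h1 : (k:ℝ) * ((1 - c) * L - Real.log 8) ≤ k * Real.log P.card := by (clear * - hlogP hk; gcongr)
    have h2 : k * c * L ≤ ε / 2 * L := by
      apply mul_le_mul_of_nonneg_right _ hL0
      calc k * c ≤ k * (ε / (2 * k)) := by (clear * - hcε hk; gcongr)
        _ = ε / 2 := by (clear * - hk hε; field_simp)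
    have h3 : 0 ≤ k * Λ := by positivity
    rw [← hL]
    have h4 : (k:ℝ) * ((1 - c) * L - Real.log 8) = k * L - k * c * L - k * Real.log 8 := by ring
    linarith only [h1, h2, h3]

end Pool.Agent.Helper2.E
end

/- Helper24.FF.H2.EFreiman -/
section
set_option autoImplicit false

/-!
The Erdős–Szemerédi inequality for sets with a Freiman homomorphism that has concentrated
coordinates and whose fibres lie in cosets of a group of small rank.
-/

open Finset

namespace Pool.Agent.Helper2.E

open Pool.Agent.Helper5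

theorem vI_mem {ι : Type*} [DecidableEq ι] (V : Finset (ι →₀ ℤ)) (k : ℕ) :
    ∀ v ∈ vI V k, ∃ f : Fin k → ι →₀ ℤ, (∀ j, f j ∈ V) ∧ ∑ j, f j = v := by
  induction k with
  | zero =>
    intro v hv
    simp only [vI, mem_singleton] at hv
    exact ⟨fun j => j.elim0, fun j => j.elim0, by rw [hv]; simp⟩
  | succ k ih =>
    intro v hv
    simp only [vI, mem_image₂] at hv
    obtain ⟨x, hx, a, ha, rfl⟩ := hv
    obtain ⟨f, hf, hfx⟩ := ih x hx
    refine ⟨Fin.snoc f a, ?_, ?_⟩
    · intro j
      refine Fin.lastCases ?_ (fun j => ?_) j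
      · simpa using ha
      · simpa using hf j
    · rw [Fin.sum_univ_castSucc]
      simp [hfx]

theorem coreH (k : ℕ) (hk : 1 ≤ k) (ε : ℝ) (hε : 0 < ε) :
    ∃ c : ℝ, 0 < c ∧ ∀ (ι : Type) (A : Finset ℤ), A.Nonempty → (0 : ℤ) ∉ A →
      ∀ (φ : ℤ → ι →₀ ℤ) (T : Finset ℚˣ),
      (∀ x y : Fin k → ℤ, (∀ j, x j ∈ A) → (∀ j, y j ∈ A) → ∏ j, x j = ∏ j, y j →
        ∑ j, φ (x j) = ∑ j, φ (y j)) →
      (∀ i, ∃ z : ℤ, ((A.filter (fun a => φ a i ≠ z)).card : ℝ) ≤ c * A.card) →
      (T.card : ℝ) ≤ c * Real.log A.card →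
      (∀ a ∈ A, ∀ a' ∈ A, φ a = φ a' → ∃ γ ∈ Subgroup.closure (T : Set ℚˣ),
        (a' : ℚ) = (γ : ℚ) * (a : ℚ)) →
      c * (A.card : ℝ) ^ ((k : ℝ) - ε) ≤ max ((kS k A).card : ℝ) ((kP k A).card : ℝ) := by
  classical
  have hk0 : (0:ℝ) < k := by exact_mod_cast hk
  -- parameters
  set ε₁ : ℝ := ε / (4 * k) with hε₁
  have hε₁0 : 0 < ε₁ := by (clear * - hε hk; positivity)
  obtain ⟨cR, hcR0, hrich⟩ := rich_cosets k hk ε hε ε₁ hε₁0
  obtain ⟨τ, lam, κ, hτ0, hτ1, hl0, hl1, hκ0, hpar⟩ :=
    exists_params (η := ε / (4 * k * (k + 1))) (by positivity)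
  set η : ℝ := ε / (4 * k * (k + 1)) with hη
  have hη0 : 0 < η := by positivity
  have hlog2 : 0 < Real.log 2 := Real.log_pos (by norm_num)
  set Λ : ℝ := Real.log 2 / cR with hΛ
  have hΛ0 : 0 < Λ := by positivity
  set K₂ : ℝ := k * Real.log 2 + k * Λ with hK₂
  have hK₂0 : 0 ≤ K₂ := by positivity
  refine ⟨min (min cR (κ / 2)) (Real.exp (-K₂)),
    lt_min (lt_min hcR0 (by positivity)) (Real.exp_pos _), ?_⟩
  intro ι A hAne hA0 φ T hfrei hpop hT hfibT
  set c := min (min cR (κ / 2)) (Real.exp (-K₂)) with hc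
  have hccR : c ≤ cR := (min_le_left _ _).trans (min_le_left _ _)
  have hcκ : c ≤ κ / 2 := (min_le_left _ _).trans (min_le_right _ _)
  have hcK : c ≤ Real.exp (-K₂) := min_le_right _ _
  have hcpos : 0 < c := lt_min (lt_min hcR0 (by positivity)) (Real.exp_pos _)
  clear_value c
  set n := A.card with hn
  have hn1 : 1 ≤ n := card_pos.mpr hAne
  have hn1' : (1 : ℝ) ≤ n := by exact_mod_cast hn1
  have hnpos : (0 : ℝ) < n := by linarith only [hn1']
  have hmax1 : (1 : ℝ) ≤ max ((kS k A).card : ℝ) ((kP k A).card : ℝ) := by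
    apply le_max_of_le_left
    exact_mod_cast card_pos.mpr (kS_nonempty k hAne)
  set L := Real.log n with hL
  have hL0 : 0 ≤ L := Real.log_nonneg hn1'
  -- it suffices to bound the logarithm
  have hfin : ∀ m : ℕ, 1 ≤ m → (k:ℝ) * L - ε * L - K₂ ≤ Real.log m →
      (m:ℝ) ≤ max ((kS k A).card : ℝ) ((kP k A).card : ℝ) →
      c * (n : ℝ) ^ ((k : ℝ) - ε) ≤ max ((kS k A).card : ℝ) ((kP k A).card : ℝ) := by
    intro m hm1 hlog hm
    refine le_trans ?_ hm
    have hmpos : (0:ℝ) < m := by exact_mod_cast hm1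
    calc c * (n : ℝ) ^ ((k : ℝ) - ε)
        ≤ Real.exp (-K₂) * Real.exp (((k:ℝ) - ε) * L) := by
          apply mul_le_mul hcK _ (by (clear * - hAne hc hccR hcκ hcK hcpos hpop hT; positivity)) (Real.exp_pos _).le
          rw [Real.rpow_def_of_pos hnpos, mul_comm]
      _ = Real.exp ((k:ℝ) * L - ε * L - K₂) := by
          rw [← Real.exp_add]; congr 1; ring
      _ ≤ Real.exp (Real.log m) := Real.exp_le_exp.2 hlog
      _ = m := Real.exp_log hmpos
  by_cases hsmall : L ≤ Λ
  · -- small sets
    refine hfin 1 le_rfl ?_ (by exact_mod_cast hmax1)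
    simp only [Nat.cast_one, Real.log_one]
    have h2 : (k:ℝ) * L ≤ k * Λ := by (clear * - hsmall hk; gcongr)
    have h3 : 0 ≤ ε * L := by (clear * - hε; positivity)
    have h4 : 0 ≤ k * Real.log 2 := by positivity
    linarith only [h2, h3, h4]
  · push Not at hsmall
    set R : ℝ := Real.exp (ε₁ * L) with hR
    have hR0 : 0 < R := Real.exp_pos _
    set fib' : ℤ → Finset ℤ := fun a => A.filter (fun a' => φ a = φ a') with hfib'
    set As := A.filter (fun a => ((fib' a).card : ℝ) ≤ R) with hAs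
    set Al := A.filter (fun a => ¬ ((fib' a).card : ℝ) ≤ R) with hAl
    have hsplit : As.card + Al.card = A.card := card_filter_add_card_filter_not _
    rcases le_total Al.card As.card with hcase | hcase
    · -- product side
      have h2n : n ≤ 2 * As.card := by omega
      have hAspos : 0 < As.card := by omega
      have hAsne : As.Nonempty := card_pos.1 hAspos
      have hAsA : As ⊆ A := filter_subset _ _
      have hAsn : As.card ≤ n := card_le_card hAsA
      choose z hz using hpop
      have hprod := prod_iterE hτ0 hτ1 hl0 hl1 hκ0.le hη0.le hpar (A := As) hAsne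
        φ z (by
          intro q
          have h1 : ((As.filter (fun a => φ a q ≠ z q)).card : ℝ) ≤
              ((A.filter (fun a => φ a q ≠ z q)).card : ℝ) := by
            apply Nat.cast_le.2
            exact card_le_card (filter_subset_filter _ hAsA)
          refine h1.trans ((hz q).trans ?_)
          have h2 : (n : ℝ) ≤ 2 * As.card := by exact_mod_cast h2n
          calc c * (n:ℝ) ≤ κ / 2 * (2 * As.card) := by (clear * - hcκ h2 hAne hc hccR hcK hcpos hT hfin hz hκ0; gcongr)
            _ = κ * As.card := by ring) hR0 (by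
          intro b
          rcases (As.filter (fun a => φ a = b)).eq_empty_or_nonempty with h0 | ⟨a, ha⟩
          · rw [h0]; simpa using hR0.le
          · rw [mem_filter] at ha
            have ha2 := (mem_filter.1 ha.1).2
            refine le_trans ?_ ha2
            apply Nat.cast_le.2
            apply card_le_card
            intro a' ha'
            rw [mem_filter] at ha'
            exact mem_filter.2 ⟨hAsA ha'.1, ha.2.trans ha'.2.symm⟩) k n hAsn
      -- from vectors to products
      have hVne : (As.image φ).Nonempty := hAsne.image _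
      have hpk : ((vI (As.image φ) k).card : ℝ) ≤
          max ((kS k A).card : ℝ) ((kP k A).card : ℝ) := by
        apply le_max_of_le_right
        apply Nat.cast_le.2
        have hex : ∀ v ∈ vI (As.image φ) k, ∃ f : Fin k → ℤ, (∀ j, f j ∈ As) ∧
            ∑ j, φ (f j) = v := by
          intro v hv
          obtain ⟨f, hf, hfv⟩ := vI_mem _ k v hv
          choose g hg hgf using fun j => mem_image.1 (hf j)
          refine ⟨g, hg, ?_⟩
          rw [← hfv]
          exact sum_congr rfl (fun j _ => hgf j)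
        choose! f hf hfv using hex
        apply card_le_card_of_injOn (fun v => ∏ j, f v j)
        · intro v hv
          have hv' := mem_coe.1 hv
          refine mem_coe.2 (mem_image.2 ⟨f v, Fintype.mem_piFinset.2 (fun j => ?_), rfl⟩)
          exact hAsA (hf v hv' j)
        · intro v hv w hw h
          have hv' := mem_coe.1 hv
          have hw' := mem_coe.1 hw
          rw [← hfv v hv', ← hfv w hw']
          exact hfrei (f v) (f w) (fun j => hAsA (hf v hv' j)) (fun j => hAsA (hf w hw' j)) h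
      have hvIne : 1 ≤ (vI (As.image φ) k).card := card_pos.2 (vI_nonempty hVne k)
      refine hfin _ hvIne ?_ hpk
      refine le_trans ?_ hprod
      have hlogR : Real.log R = ε₁ * L := by rw [hR, Real.log_exp]
      rw [hlogR, ← hL]
      have h5 : L - Real.log 2 ≤ Real.log As.card := by
        have hm' : (0:ℝ) < As.card := by exact_mod_cast hAspos
        have h1 : (n : ℝ) ≤ 2 * As.card := by exact_mod_cast h2n
        have h2 := Real.log_le_log hnpos h1
        rw [Real.log_mul (by norm_num) hm'.ne'] at h2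
        linarith only [h2]
      have h7 : (k:ℝ) * ε₁ = ε / 4 := by rw [hε₁]; field_simp
      have h6 : (k:ℝ) * (η * (k + 1)) = ε / 4 := by rw [hη]; (clear * - hk hε; field_simp)
      have h9 : (k:ℝ) * (L - Real.log 2 - ε₁ * L - η * ((k + 1) * L)) ≤
          k * (Real.log As.card - ε₁ * L - η * ((k + 1) * L)) := by
        apply mul_le_mul_of_nonneg_left _ hk0.le
        linarith only [h5]
      refine le_trans ?_ h9
      have h10 : (k:ℝ) * (L - Real.log 2 - ε₁ * L - η * ((k + 1) * L)) =
          k * L - k * Real.log 2 - (k * ε₁ + k * (η * (k + 1))) * L := by ring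
      rw [h10, h7, h6]
      have h11 : (ε / 4 + ε / 4) * L ≤ ε * L := by
        apply mul_le_mul_of_nonneg_right _ hL0
        linarith only [hε]
      have h12 : 0 ≤ k * Λ := by positivity
      rw [hK₂]
      linarith only [h11, h12]
    · -- sum side
      have h2n : n ≤ 2 * Al.card := by omega
      have hAlA : Al ⊆ A := filter_subset _ _
      have hAlcard : (n : ℝ) ^ (1 - cR) ≤ (Al.card : ℝ) := by
        have h1 : (2:ℝ) ≤ (n : ℝ) ^ cR := by
          rw [Real.rpow_def_of_pos hnpos, ← hL]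
          have h2 : Real.log 2 ≤ L * cR := by
            have : Λ * cR = Real.log 2 := by rw [hΛ]; field_simp
            (clear * - this hccR hsmall hcpos; nlinarith only [hccR, hcpos, hsmall, this])
          calc (2:ℝ) = Real.exp (Real.log 2) := (Real.exp_log (by norm_num)).symm
            _ ≤ Real.exp (L * cR) := Real.exp_le_exp.2 h2
        have h2 : (n : ℝ) ^ (1 - cR) * (n : ℝ) ^ cR = n := by
          rw [← Real.rpow_add hnpos]
          simp
        have h3 : 0 < (n : ℝ) ^ (1 - cR) := Real.rpow_pos_of_pos hnpos _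
        have h4 : (n : ℝ) ≤ 2 * Al.card := by exact_mod_cast h2n
        (clear * - h2 h4 h1; nlinarith only [h1, h2, h4])
      have hsum := hrich A Al hAne hAlA hAlcard T (hT.trans (by (clear * - hccR; gcongr))) (by
        intro b hb _
        have hb2 := mem_filter.1 hb
        have h1 := hb2.2
        push Not at h1
        have h2 : (n : ℝ) ^ ε₁ = R := by
          rw [hR, Real.rpow_def_of_pos hnpos, ← hL, mul_comm]
        rw [h2]
        refine h1.le.trans ?_
        apply Nat.cast_le.2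
        rw [← Set.ncard_coe_finset]
        apply Set.ncard_le_ncard
        · intro a ha
          have ha' := mem_filter.1 (mem_coe.1 ha)
          exact ⟨ha'.1, hfibT b hb2.1 a ha'.1 ha'.2⟩
        · apply A.finite_toSet.subset
          rintro a ⟨ha, _⟩
          exact ha)
      refine le_trans ?_ (le_max_left _ _)
      refine le_trans ?_ hsum
      apply mul_le_mul_of_nonneg_right hccR
      (clear * - hAne hc hccR hcκ hcK hcpos hpop hT hfin; positivity)

end Pool.Agent.Helper2.E
end

/- Helper24.FF.H2.Variants.PopularPrimes -/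
section
set_option autoImplicit false

namespace Pool.Agent.Helper2.Variants.PopularPrimes

open Finset Pool.Agent.Helper5 Pool.Agent.Helper2.E

/-- **The Erdős–Szemerédi conjecture, for all `k`, for sets with few popular primes.**

For every `k ≥ 1` and `ε > 0` there is `c > 0` with the following property. Let `B ⊆ A` be finite
sets of integers with `0 ∉ B` and `|B| ≥ |A|^(1-c)`, and let `φ` be a map to exponent vectors that
is a Freiman homomorphism of order `k` on `B` for multiplication, each coordinate of which is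
constant on all but at most `c |B|` elements of `B`. If any two elements of `B` with the same
exponent vector lie in the same coset of a multiplicative group of rational numbers generated by
at most `c log |A|` elements, then `max (|kA|, |A^k|) ≥ c |A|^(k - ε)`.

See `primes_case` below for the case of the valuations at all but `c log |A|` primes. -/
theorem result : ∀ k : ℕ, 1 ≤ k → ∀ ε : ℝ, 0 < ε → ∃ c : ℝ, 0 < c ∧
    ∀ A B : Finset ℤ, A.Nonempty → B ⊆ A → (0 : ℤ) ∉ B →
      (A.card : ℝ) ^ (1 - c) ≤ (B.card : ℝ) →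
      ∀ (ι : Type) (φ : ℤ → ι →₀ ℤ),
      (∀ x y : Fin k → ℤ, (∀ j, x j ∈ B) → (∀ j, y j ∈ B) → ∏ j, x j = ∏ j, y j →
        ∑ j, φ (x j) = ∑ j, φ (y j)) →
      (∀ i : ι, ∃ z : ℤ, ((B.filter (fun b => φ b i ≠ z)).card : ℝ) ≤ c * (B.card : ℝ)) →
      ∀ T : Finset ℚˣ, (T.card : ℝ) ≤ c * Real.log (A.card : ℝ) →
      (∀ b ∈ B, ∀ b' ∈ B, φ b = φ b' → ∃ γ ∈ Subgroup.closure (T : Set ℚˣ),
        (b' : ℚ) = (γ : ℚ) * (b : ℚ)) →
      c * (A.card : ℝ) ^ ((k : ℝ) - ε) ≤
        max
          (((Fintype.piFinset (fun _ : Fin k => A)).image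
              (fun f : Fin k → ℤ => ∑ i, f i)).card : ℝ)
          (((Fintype.piFinset (fun _ : Fin k => A)).image
              (fun f : Fin k → ℤ => ∏ i, f i)).card : ℝ) := by
  intro k hk ε hε
  obtain ⟨c', hc', hcore⟩ := coreH k hk (ε / 2) (by positivity)
  have hk0 : (0 : ℝ) < k := by exact_mod_cast hk
  refine ⟨min (c' / 2) (min (1 / 2) (ε / (2 * k))), by positivity, ?_⟩
  set c := min (c' / 2) (min (1 / 2) (ε / (2 * k))) with hc
  have hc1 : c ≤ c' / 2 := min_le_left _ _
  have hc2 : c ≤ 1 / 2 := (min_le_right _ _).trans (min_le_left _ _)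
  have hc3 : c ≤ ε / (2 * k) := (min_le_right _ _).trans (min_le_right _ _)
  have hcpos : 0 < c := by rw [hc]; (clear * - hc' hε hk; positivity)
  have hcc' : c ≤ c' := by (clear * - hc1 hcpos; linarith only [hc1, hcpos])
  clear_value c
  intro A B hA hBA hB0 hcard ι φ hφ hpop T hT hfib
  obtain ⟨hBne, hkey, hlift⟩ := lift k hk ε hε hc' hc1 hc2 hc3 hcpos hA hBA hcard
  apply hlift
  refine hcore ι B hBne hB0 φ T hφ ?_ (hT.trans hkey) hfib
  intro i
  obtain ⟨z, hz⟩ := hpop i
  refine ⟨z, hz.trans ?_⟩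
  (clear * - hcc' hBne hc hc1 hc2 hc3 hcpos hcard hpop hT hkey hlift hz; gcongr)

/-! ### The valuations at all but few primes -/

/-- a prime as a unit of `ℚ` -/
def unitPr (p : Pr) : ℚˣ := Units.mk0 ((p : ℕ) : ℚ) (primes_pos p).ne'

/-- `-1` and the primes of `T`, as units of `ℚ` -/
def genT (T : Finset ℕ) : Finset ℚˣ := insert (-1 : ℚˣ) ((T.subtype Nat.Prime : Finset Pr).image unitPr)

theorem card_genT (T : Finset ℕ) : (genT T).card ≤ T.card + 1 := by
  refine (card_insert_le _ _).trans ?_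
  apply Nat.add_le_add_right
  refine card_image_le.trans ?_
  rw [card_subtype]
  exact card_filter_le _ _

/-- integers with the same valuations outside `T` differ by an element of the group generated by
the primes in `T` and `-1`. -/
theorem exists_unit (T : Finset ℕ) {a b : ℤ} (ha : a ≠ 0) (hb : b ≠ 0)
    (h : offT (T : Set ℕ) a = offT (T : Set ℕ) b) :
    ∃ γ ∈ Subgroup.closure (genT T : Set ℚˣ), (b : ℚ) = (γ : ℚ) * (a : ℚ) := by
  classical
  set d : Pr →₀ ℤ := fac b - fac a with hd
  set u : ℚˣ := d.prod (fun p n => unitPr p ^ n) with hu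
  have hu1 : u ∈ Subgroup.closure (genT T : Set ℚˣ) := by
    rw [hu, Finsupp.prod]
    apply Subgroup.prod_mem
    intro p hp
    by_cases hpT : (p : ℕ) ∈ T
    · apply Subgroup.zpow_mem
      apply Subgroup.subset_closure
      apply mem_coe.2
      apply mem_insert_of_mem
      exact mem_image.2 ⟨p, mem_subtype.2 hpT, rfl⟩
    · exfalso
      rw [Finsupp.mem_support_iff] at hp
      apply hp
      have h1 := DFunLike.congr_fun h p
      rw [offT_apply, offT_apply, if_neg (by exact_mod_cast hpT),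
        if_neg (by exact_mod_cast hpT)] at h1
      rw [hd, Finsupp.sub_apply, fac_apply, fac_apply, h1, sub_self]
  have hu2 : (u : ℚ) = ev (fun p : Pr => ((p : ℕ) : ℚ)) d := by
    rw [hu, Finsupp.prod, Units.coe_prod, ev, Finsupp.prod]
    apply prod_congr rfl
    intro p _
    rw [Units.val_zpow_eq_zpow_val]
    rfl
  have hu3 : |(b : ℚ)| = (u : ℚ) * |(a : ℚ)| := by
    rw [hu2, ev_fac hb, ev_fac ha, ← ev_add primes_pos, hd, sub_add_cancel]
  have hneg : (-1 : ℚˣ) ∈ Subgroup.closure (genT T : Set ℚˣ) :=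
    Subgroup.subset_closure (mem_coe.2 (mem_insert_self _ _))
  have hcases : (b : ℚ) = (u : ℚ) * a ∨ (b : ℚ) = -((u : ℚ) * a) := by
    have hupos : 0 < (u : ℚ) := by rw [hu2]; exact ev_pos primes_pos d
    rw [← abs_eq_abs, abs_mul, abs_of_pos hupos]
    exact hu3
  rcases hcases with h | h
  · exact ⟨u, hu1, h⟩
  · refine ⟨-1 * u, Subgroup.mul_mem _ hneg hu1, ?_⟩
    rw [h]
    simp

/-- The case of the valuations at primes: the Erdős–Szemerédi inequality holds, with the full
exponent and for all `k`, if `v_p` is constant on all but at most `c |B|` elements of `B` for all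
but at most `c log |A|` primes `p`. -/
theorem primes_case : ∀ k : ℕ, 1 ≤ k → ∀ ε : ℝ, 0 < ε → ∃ c : ℝ, 0 < c ∧
    ∀ A B : Finset ℤ, A.Nonempty → B ⊆ A → (0 : ℤ) ∉ B →
      (A.card : ℝ) ^ (1 - c) ≤ (B.card : ℝ) →
      ∀ T : Finset ℕ, (T.card : ℝ) ≤ c * Real.log (A.card : ℝ) →
      (∀ p : ℕ, p.Prime → p ∉ T →
        ∃ z : ℕ, ((B.filter (fun b => padicValInt p b ≠ z)).card : ℝ) ≤ c * (B.card : ℝ)) →
      c * (A.card : ℝ) ^ ((k : ℝ) - ε) ≤
        max
          (((Fintype.piFinset (fun _ : Fin k => A)).image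
              (fun f : Fin k → ℤ => ∑ i, f i)).card : ℝ)
          (((Fintype.piFinset (fun _ : Fin k => A)).image
              (fun f : Fin k → ℤ => ∏ i, f i)).card : ℝ) := by
  intro k hk ε hε
  obtain ⟨c', hc'0, hgen⟩ := result k hk ε hε
  have hk0 : (0 : ℝ) < k := by exact_mod_cast hk
  -- for `log |A| ≥ 2 / c'` we have room for `-1`
  refine ⟨min (c' / 2) (Real.exp (-(k * (2 / c')))),
    lt_min (by positivity) (Real.exp_pos _), ?_⟩
  set c := min (c' / 2) (Real.exp (-(k * (2 / c')))) with hc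
  have hc1 : c ≤ c' / 2 := min_le_left _ _
  have hc2 : c ≤ Real.exp (-(k * (2 / c'))) := min_le_right _ _
  have hc0 : 0 < c := lt_min (by positivity) (Real.exp_pos _)
  have hcc' : c ≤ c' := by (clear * - hc1 hc0; linarith only [hc1, hc0])
  clear_value c
  intro A B hA hBA hB0 hcard T hT hpop
  have hn1 : 1 ≤ A.card := card_pos.mpr hA
  have hn1' : (1 : ℝ) ≤ A.card := by exact_mod_cast hn1
  have hnpos : (0 : ℝ) < A.card := by linarith only [hn1']
  have hL0 : 0 ≤ Real.log (A.card : ℝ) := Real.log_nonneg hn1'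
  by_cases hL : Real.log (A.card : ℝ) ≤ 2 / c'
  · have hmax1 : (1 : ℝ) ≤ max ((kS k A).card : ℝ) ((kP k A).card : ℝ) := by
      apply le_max_of_le_left
      exact_mod_cast card_pos.mpr (kS_nonempty k hA)
    refine le_trans ?_ hmax1
    calc c * (A.card : ℝ) ^ ((k : ℝ) - ε)
        ≤ Real.exp (-(k * (2 / c'))) * Real.exp (k * (2 / c')) := by
          apply mul_le_mul hc2 _ (by (clear * - hA hc hc1 hc2 hc0 hcc' hcard hT hpop; positivity)) (Real.exp_pos _).le
          rw [Real.rpow_def_of_pos hnpos]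
          apply Real.exp_le_exp.2
          have h1 : Real.log (A.card : ℝ) * ((k : ℝ) - ε) ≤ Real.log (A.card : ℝ) * k := by
            apply mul_le_mul_of_nonneg_left _ hL0
            linarith only [hε]
          refine h1.trans ?_
          rw [mul_comm]
          exact mul_le_mul_of_nonneg_left hL hk0.le
      _ = 1 := by rw [← Real.exp_add, neg_add_cancel, Real.exp_zero]
  · push Not at hL
    classical
    have hmain := hgen A B hA hBA hB0 ?_ Pr (offT (T : Set ℕ)) ?_ ?_
      (genT T) ?_ ?_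
    · refine le_trans ?_ hmain
      (clear * - hcc' hA hc hc1 hc2 hc0 hcard hT hpop; gcongr)
    · refine le_trans ?_ hcard
      apply Real.rpow_le_rpow_of_exponent_le hn1'
      linarith only [hcc']
    · intro x y hx hy hxy
      have hx0 : ∀ j, x j ≠ 0 := fun j h => hB0 (h ▸ hx j)
      have hy0 : ∀ j, y j ≠ 0 := fun j h => hB0 (h ▸ hy j)
      have key : ∀ (s : Finset (Fin k)) (w : Fin k → ℤ), (∀ j, w j ≠ 0) →
          ∑ j ∈ s, offT (T : Set ℕ) (w j) = offT (T : Set ℕ) (∏ j ∈ s, w j) := by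
        intro s w hw
        induction s using Finset.induction_on with
        | empty =>
          ext p
          rw [sum_empty, prod_empty, offT_apply]
          simp
        | insert a s has ih =>
          rw [sum_insert has, prod_insert has, ih,
            offT_mul _ (hw a) (prod_ne_zero_iff.2 (fun j _ => hw j))]
      rw [key _ x hx0, key _ y hy0, hxy]
    · intro p
      by_cases hpT : (p : ℕ) ∈ T
      · refine ⟨0, ?_⟩
        have h0 : B.filter (fun b => offT (T : Set ℕ) b p ≠ 0) = ∅ := by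
          apply filter_false_of_mem
          intro b _ hb
          rw [offT_apply, if_pos (by exact_mod_cast hpT)] at hb
          exact hb rfl
        rw [h0]
        simp only [card_empty, Nat.cast_zero]
        (clear * - hc'0; positivity)
      · obtain ⟨z, hz⟩ := hpop p p.2 hpT
        refine ⟨z, ?_⟩
        have h1 : B.filter (fun b => offT (T : Set ℕ) b p ≠ (z : ℤ)) =
            B.filter (fun b => padicValInt p b ≠ z) := by
          apply filter_congr
          intro b _
          rw [offT_apply, if_neg (by exact_mod_cast hpT)]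
          norm_cast
        rw [h1]
        refine hz.trans ?_
        (clear * - hcc'; gcongr)
    · have h2 : ((genT T).card : ℝ) ≤ T.card + 1 := by exact_mod_cast card_genT T
      refine h2.trans ?_
      have h3 : (T.card : ℝ) ≤ c' / 2 * Real.log (A.card : ℝ) :=
        hT.trans (mul_le_mul_of_nonneg_right hc1 hL0)
      have h4 : 1 ≤ c' / 2 * Real.log (A.card : ℝ) := by
        have h5 : c' / 2 * (2 / c') = 1 := by field_simp
        calc (1 : ℝ) = c' / 2 * (2 / c') := h5.symm
          _ ≤ _ := mul_le_mul_of_nonneg_left hL.le (by positivity)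
      linarith only [h3, h4]
    · intro b hb b' hb' h
      exact exists_unit T (fun h => hB0 (h ▸ hb)) (fun h => hB0 (h ▸ hb')) h

end Pool.Agent.Helper2.Variants.PopularPrimes
end

/- Helper24.FF.H24.PP.Light -/
section
set_option autoImplicit false

/-!
MP_120218_co: from the sets with few popular primes (`primes_case`, helper2) to groups of elements,
affine maps, and sets whose elements have few prime factors.
-/

open Finset

namespace Pool.Agent.Helper24.PP

open Pool.Agent.Helper5

/-- the number of elements of `S` whose valuation at `p` is not that of `g` -/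
def nd (g : ℤ) (S : Finset ℤ) (p : ℕ) : ℕ :=
  (S.filter (fun a => padicValInt p a ≠ padicValInt p g)).card

/-- on average an element of `U` has another valuation than `g` for at most `R + δ |Q|` primes
of `Q`, for all `Q` -/
def Light (g : ℤ) (R δ : ℝ) (U : Finset ℤ) : Prop :=
  ∀ Q : Finset ℕ, (∀ p ∈ Q, p.Prime) → ∑ p ∈ Q, (nd g U p : ℝ) ≤ (U.card : ℝ) * (R + δ * Q.card)

theorem light_empty (g : ℤ) (R δ : ℝ) : Light g R δ ∅ := by
  intro Q _
  simp [nd]

theorem light_union {g : ℤ} {R δ : ℝ} {U G : Finset ℤ} (hd : Disjoint U G) (hU : Light g R δ U)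
    (hG : Light g R δ G) : Light g R δ (U ∪ G) := by
  intro Q hQ
  have h1 : ∀ p : ℕ, nd g (U ∪ G) p = nd g U p + nd g G p := by
    intro p
    unfold nd
    rw [filter_union, card_union_of_disjoint (disjoint_filter_filter hd)]
  have h2 := hU Q hQ
  have h3 := hG Q hQ
  have h4 : ∑ p ∈ Q, (nd g (U ∪ G) p : ℝ) =
      ∑ p ∈ Q, (nd g U p : ℝ) + ∑ p ∈ Q, (nd g G p : ℝ) := by
    rw [← sum_add_distrib]
    apply sum_congr rfl
    intro p _
    rw [h1 p]
    push_cast
    ring
  rw [h4, card_union_of_disjoint hd]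
  push_cast
  linarith only [h2, h3]

/-- `j` elements of `S` such that more than `r` primes have another valuation at each of them
than at `g` -/
def Rich (g : ℤ) (r : ℝ) (j : ℕ) (S : Finset ℤ) : Prop :=
  ∃ T ⊆ S, T.card = j ∧ ∃ Q : Finset ℕ,
    (∀ p ∈ Q, p.Prime ∧ ∀ a ∈ T, padicValInt p a ≠ padicValInt p g) ∧ r < (Q.card : ℝ)

/-- a group of `M j` elements which is not rich is light -/
theorem bad_light {g : ℤ} {r : ℝ} {M j : ℕ} {G : Finset ℤ} (hM : 1 ≤ M)
    (hG : G.card = M * j) (hbad : ¬ Rich g r j G) :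
    Light g (((M * j).choose j : ℝ) * r) (1 / (M : ℝ)) G := by
  classical
  intro Q hQ
  have hM0 : (0 : ℝ) < M := by exact_mod_cast hM
  set Q₁ := Q.filter (fun p => j ≤ nd g G p) with hQ₁
  -- the number of the primes active at `j` elements
  have hcard : (Q₁.card : ℝ) ≤ ((M * j).choose j : ℝ) * r := by
    have hsub : Q₁ ⊆ (powersetCard j G).biUnion
        (fun T => Q.filter (fun p : ℕ => ∀ a ∈ T, padicValInt p a ≠ padicValInt p g)) := by
      intro p hp
      have hp' := mem_filter.1 hp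
      obtain ⟨T, hT, hTj⟩ := exists_subset_card_eq hp'.2
      refine mem_biUnion.2 ⟨T, mem_powersetCard.2 ⟨hT.trans (filter_subset _ _), hTj⟩, ?_⟩
      exact mem_filter.2 ⟨hp'.1, fun a ha => (mem_filter.1 (hT ha)).2⟩
    have h1 : (Q₁.card : ℝ) ≤ ∑ T ∈ powersetCard j G,
        ((Q.filter (fun p : ℕ => ∀ a ∈ T, padicValInt p a ≠ padicValInt p g)).card : ℝ) := by
      have := (card_le_card hsub).trans card_biUnion_le
      exact_mod_cast this
    have h2 : ∀ T ∈ powersetCard j G,
        ((Q.filter (fun p : ℕ => ∀ a ∈ T, padicValInt p a ≠ padicValInt p g)).card : ℝ) ≤ r := by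
      intro T hT
      have hT' := mem_powersetCard.1 hT
      by_contra hlt
      push Not at hlt
      exact hbad ⟨T, hT'.1, hT'.2, _, fun p hp =>
        ⟨hQ p (mem_filter.1 hp).1, (mem_filter.1 hp).2⟩, hlt⟩
    have h3 := sum_le_sum h2
    rw [sum_const, card_powersetCard, hG, nsmul_eq_mul] at h3
    exact h1.trans h3
  have hsplit : ∑ p ∈ Q, (nd g G p : ℝ) ≤
      ∑ p ∈ Q, ((if j ≤ nd g G p then (G.card : ℝ) else 0) + j) := by
    apply sum_le_sum
    intro p _
    split_ifs with h
    · have h1 : (nd g G p : ℝ) ≤ G.card := by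
        exact_mod_cast card_le_card (filter_subset _ _)
      have h2 : (0 : ℝ) ≤ j := Nat.cast_nonneg _
      linarith only [h1]
    · have h1 : (nd g G p : ℝ) ≤ j := by
        push Not at h
        exact_mod_cast h.le
      linarith only [h1]
  refine hsplit.trans ?_
  rw [sum_add_distrib, ← sum_filter, sum_const, sum_const, nsmul_eq_mul, nsmul_eq_mul, ← hQ₁]
  have hGj : (G.card : ℝ) * (1 / (M : ℝ)) = j := by
    rw [hG]
    push_cast
    field_simp
  have h4 : (0 : ℝ) ≤ (G.card : ℝ) := Nat.cast_nonneg _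
  calc (Q₁.card : ℝ) * (G.card : ℝ) + (Q.card : ℝ) * j
      ≤ (((M * j).choose j : ℝ) * r) * G.card + (Q.card : ℝ) * j := by
        have := mul_le_mul_of_nonneg_right hcard h4
        (clear * - this; linarith only [this])
    _ = (G.card : ℝ) * (((M * j).choose j : ℝ) * r + 1 / (M : ℝ) * Q.card) := by
        rw [← hGj]
        ring

/-- a maximal light subset, and what is outside -/
theorem exists_maxLight {g : ℤ} {r : ℝ} {M j : ℕ} (A : Finset ℤ) (hM : 1 ≤ M) (hj : 1 ≤ j) :
    ∃ U ⊆ A, Light g (((M * j).choose j : ℝ) * r) (1 / (M : ℝ)) U ∧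
      ∀ S ⊆ A \ U, M * j ≤ S.card → Rich g r j S := by
  classical
  set R : ℝ := ((M * j).choose j : ℝ) * r with hR
  obtain ⟨U, hU, hmax⟩ := exists_max_image
    (A.powerset.filter (fun U => Light g R (1 / (M : ℝ)) U))
    (fun U => U.card) ⟨∅, mem_filter.2 ⟨mem_powerset.2 (empty_subset _), light_empty _ _ _⟩⟩
  have hU' := mem_filter.1 hU
  refine ⟨U, mem_powerset.1 hU'.1, hU'.2, fun S hS hMS => ?_⟩
  by_contra hnr
  obtain ⟨G, hGS, hGc⟩ := exists_subset_card_eq hMS
  have hbad : ¬ Rich g r j G := by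
    rintro ⟨T, hT, h⟩
    exact hnr ⟨T, hT.trans hGS, h⟩
  have hGl := bad_light hM hGc hbad
  have hGA : G ⊆ A \ U := hGS.trans hS
  have hdisj : Disjoint U G :=
    disjoint_of_subset_right hGA disjoint_sdiff
  have hun := light_union hdisj hU'.2 hGl
  have h1 := hmax (U ∪ G) (mem_filter.2 ⟨mem_powerset.2
    (union_subset (mem_powerset.1 hU'.1) (hGA.trans sdiff_subset)), hun⟩)
  rw [card_union_of_disjoint hdisj, hGc] at h1
  have h2 : 0 < M * j := Nat.mul_pos hM hj
  omega

/-- a light set has few popular primes -/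
theorem pop_count {g : ℤ} {R C : ℝ} {M : ℕ} {U : Finset ℤ} (hC : 0 < C) (hM : 2 * C ≤ M)
    (hU : Light g R (1 / (M : ℝ)) U) (hne : U.Nonempty) (P : Finset ℕ)
    (hP : ∀ p ∈ P, p.Prime) (hpop : ∀ p ∈ P, (U.card : ℝ) ≤ C * (nd g U p : ℝ)) :
    (P.card : ℝ) ≤ 2 * C * R := by
  have hUc : (0 : ℝ) < U.card := by exact_mod_cast card_pos.2 hne
  have hM0 : (0 : ℝ) < M := by linarith only [hC, hM]
  have h1 := hU P hP
  have h2 : (P.card : ℝ) * U.card ≤ C * ∑ p ∈ P, (nd g U p : ℝ) := by
    rw [mul_sum]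
    calc (P.card : ℝ) * U.card = ∑ p ∈ P, (U.card : ℝ) := by rw [sum_const, nsmul_eq_mul]
      _ ≤ ∑ p ∈ P, C * (nd g U p : ℝ) := sum_le_sum hpop
  have h3 : (P.card : ℝ) * U.card ≤ C * (U.card * (R + 1 / (M : ℝ) * P.card)) :=
    h2.trans (mul_le_mul_of_nonneg_left h1 hC.le)
  have h4 : (P.card : ℝ) ≤ C * (R + 1 / (M : ℝ) * P.card) := by
    have : (P.card : ℝ) * U.card ≤ (C * (R + 1 / (M : ℝ) * P.card)) * U.card := by (clear * - h3; linarith only [h3])
    exact le_of_mul_le_mul_right this hUc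
  have h5 : C * (1 / (M : ℝ)) ≤ 1 / 2 := by
    rw [mul_one_div, div_le_div_iff₀ hM0 (by norm_num)]
    linarith only [hM]
  have h6 : (0 : ℝ) ≤ P.card := Nat.cast_nonneg _
  (clear * - h4 h5; nlinarith only [h4, h5])

open Classical in
/-- the popular primes -/
noncomputable def popP (g : ℤ) (C : ℝ) (U : Finset ℤ) : Finset ℕ :=
  (g.natAbs.primeFactors ∪ U.biUnion (fun a => a.natAbs.primeFactors)).filter
    (fun p => (U.card : ℝ) ≤ C * (nd g U p : ℝ))

theorem popP_prime {g : ℤ} {C : ℝ} {U : Finset ℤ} : ∀ p ∈ popP g C U, p.Prime := by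
  classical
  intro p hp
  unfold popP at hp
  rcases mem_union.1 (mem_filter.1 hp).1 with h | h
  · exact Nat.prime_of_mem_primeFactors h
  · obtain ⟨a, _, ha⟩ := mem_biUnion.1 h
    exact Nat.prime_of_mem_primeFactors ha

theorem popP_pop {g : ℤ} {C : ℝ} {U : Finset ℤ} :
    ∀ p ∈ popP g C U, (U.card : ℝ) ≤ C * (nd g U p : ℝ) := by
  classical
  intro p hp
  unfold popP at hp
  exact (mem_filter.1 hp).2

theorem unpop_popP {g : ℤ} {C : ℝ} {U : Finset ℤ} (hC : 0 < C) {p : ℕ} (hp : p.Prime)
    (hpP : p ∉ popP g C U) : (nd g U p : ℝ) ≤ 1 / C * U.card := by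
  classical
  by_cases hm : p ∈ g.natAbs.primeFactors ∪ U.biUnion (fun a => a.natAbs.primeFactors)
  · have h1 : ¬ (U.card : ℝ) ≤ C * (nd g U p : ℝ) := by
      intro h
      apply hpP
      unfold popP
      exact mem_filter.2 ⟨hm, h⟩
    push Not at h1
    rw [one_div, inv_mul_eq_div, le_div_iff₀ hC]
    linarith
  · have h0 : nd g U p = 0 := by
      unfold nd
      rw [card_eq_zero, filter_eq_empty_iff]
      intro a ha hne
      apply hne
      have hz : ∀ b : ℤ, p ∉ b.natAbs.primeFactors → padicValInt p b = 0 := by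
        intro b hb
        rw [padicValInt]
        rcases eq_or_ne b.natAbs 0 with h | h
        · rw [h]
          simp
        · apply padicValNat.eq_zero_of_not_dvd
          intro hd
          exact hb (Nat.mem_primeFactors.2 ⟨hp, hd, h⟩)
      have hg' : p ∉ g.natAbs.primeFactors := fun h => hm (mem_union_left _ h)
      have ha' : p ∉ a.natAbs.primeFactors := fun h =>
        hm (mem_union_right _ (mem_biUnion.2 ⟨a, ha, h⟩))
      rw [hz g hg', hz a ha']
    rw [h0]
    simp only [CharP.cast_eq_zero]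
    (clear * - hC; positivity)

end Pool.Agent.Helper24.PP
end

/- Helper24.FF.H24.PP.Few -/
section
set_option autoImplicit false

/-!
MP_120218_co: groups of elements, affine maps, few prime factors.
-/

open Finset

namespace Pool.Agent.Helper24.PP

open Pool.Agent.Helper5

/-- the maximum of the numbers of `k`-fold sums and products -/
noncomputable def mx (k : ℕ) (A : Finset ℤ) : ℝ :=
  max (((Fintype.piFinset (fun _ : Fin k => A)).image
      (fun f : Fin k → ℤ => ∑ i, f i)).card : ℝ)
    (((Fintype.piFinset (fun _ : Fin k => A)).image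
      (fun f : Fin k → ℤ => ∏ i, f i)).card : ℝ)

theorem one_le_mx {k : ℕ} {A : Finset ℤ} (hA : A.Nonempty) : 1 ≤ mx k A := by
  obtain ⟨a, ha⟩ := hA
  have h1 : ((Fintype.piFinset (fun _ : Fin k => A)).image
      (fun f : Fin k → ℤ => ∑ i, f i)).Nonempty :=
    ⟨_, mem_image_of_mem _ (Fintype.mem_piFinset.2 (fun _ => ha) :
      (fun _ : Fin k => a) ∈ Fintype.piFinset (fun _ : Fin k => A))⟩
  have h2 := card_pos.2 h1
  refine le_trans ?_ (le_max_left _ _)
  exact_mod_cast h2

/-- small sets -/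
theorem small_case {k : ℕ} {ε L c : ℝ} {A : Finset ℤ} (hA : A.Nonempty) (hε : 0 < ε)
    (hc : c ≤ Real.exp (-(k * L))) (hsm : Real.log A.card ≤ L) :
    c * (A.card : ℝ) ^ ((k : ℝ) - ε) ≤ mx k A := by
  refine le_trans ?_ (one_le_mx hA)
  have hn1 : (1 : ℝ) ≤ A.card := by exact_mod_cast card_pos.mpr hA
  have hnpos : (0 : ℝ) < A.card := by (clear * - hn1; linarith only [hn1])
  have hL0 : 0 ≤ Real.log (A.card : ℝ) := Real.log_nonneg hn1
  have hk0 : (0 : ℝ) ≤ k := Nat.cast_nonneg _
  have h1 : (A.card : ℝ) ^ ((k : ℝ) - ε) ≤ Real.exp (k * L) := by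
    rw [Real.rpow_def_of_pos hnpos]
    apply Real.exp_le_exp.2
    (clear * - hsm hε hL0; nlinarith only [hε, hsm, hL0])
  calc c * (A.card : ℝ) ^ ((k : ℝ) - ε) ≤ Real.exp (-(k * L)) * Real.exp (k * L) := by
        apply mul_le_mul hc h1 (Real.rpow_nonneg hnpos.le _) (Real.exp_pos _).le
    _ = 1 := by rw [← Real.exp_add]; simp

/-- few popular primes, with a small constant -/
theorem few_pop (k : ℕ) (hk : 1 ≤ k) (ε : ℝ) (hε : 0 < ε) : ∃ c : ℝ, 0 < c ∧ c ≤ 1 / 2 ∧
    ∀ A B : Finset ℤ, A.Nonempty → B ⊆ A → (0 : ℤ) ∉ B →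
      (A.card : ℝ) ^ (1 - c) ≤ (B.card : ℝ) →
      ∀ (g : ℤ) (T : Finset ℕ), (T.card : ℝ) ≤ c * Real.log (A.card : ℝ) →
      (∀ p : ℕ, p.Prime → p ∉ T → (nd g B p : ℝ) ≤ c * (B.card : ℝ)) →
      c * (A.card : ℝ) ^ ((k : ℝ) - ε) ≤ mx k A := by
  obtain ⟨c₁, hc₁, h⟩ := Pool.Agent.Helper2.Variants.PopularPrimes.primes_case k hk ε hε
  refine ⟨min c₁ (1 / 2), by (clear * - hc₁; positivity), min_le_right _ _, ?_⟩
  set c := min c₁ (1 / 2) with hc
  have hcc : c ≤ c₁ := min_le_left _ _
  have hc0 : 0 < c := by rw [hc]; positivity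
  clear_value c
  intro A B hA hBA hB0 hcard g T hT hpop
  have hn1 : (1 : ℝ) ≤ A.card := by exact_mod_cast card_pos.mpr hA
  have hL0 : 0 ≤ Real.log (A.card : ℝ) := Real.log_nonneg hn1
  have h1 := h A B hA hBA hB0
    ((Real.rpow_le_rpow_of_exponent_le hn1 (by linarith only [hcc])).trans hcard) T
    (hT.trans (mul_le_mul_of_nonneg_right hcc hL0)) (fun p hp hpT =>
      ⟨padicValInt p g, (hpop p hp hpT).trans
        (mul_le_mul_of_nonneg_right hcc (Nat.cast_nonneg _))⟩)
  refine le_trans ?_ h1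
  exact mul_le_mul_of_nonneg_right hcc (Real.rpow_nonneg (by linarith only []) _)

/-- the primes at which `a` and `g` have different valuations -/
def act (g a : ℤ) : Finset ℕ :=
  (g.natAbs.primeFactors ∪ a.natAbs.primeFactors).filter
    (fun p => padicValInt p a ≠ padicValInt p g)

theorem val_zero {p : ℕ} {b : ℤ} (hp : p.Prime) (hb : p ∉ b.natAbs.primeFactors) :
    padicValInt p b = 0 := by
  rw [padicValInt]
  rcases eq_or_ne b.natAbs 0 with h | h
  · rw [h]
    simp
  · apply padicValNat.eq_zero_of_not_dvd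
    intro hd
    exact hb (Nat.mem_primeFactors.2 ⟨hp, hd, h⟩)

theorem mem_act {g a : ℤ} {p : ℕ} (hp : p.Prime) (h : padicValInt p a ≠ padicValInt p g) :
    p ∈ act g a := by
  refine mem_filter.2 ⟨?_, h⟩
  by_contra hm
  apply h
  rw [val_zero hp (fun h' => hm (mem_union_right _ h')),
    val_zero hp (fun h' => hm (mem_union_left _ h'))]

theorem prime_of_mem_act {g a : ℤ} {p : ℕ} (h : p ∈ act g a) : p.Prime := by
  rcases mem_union.1 (mem_filter.1 h).1 with h' | h' <;> exact Nat.prime_of_mem_primeFactors h'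

theorem act_one {a : ℤ} : act 1 a ⊆ a.natAbs.primeFactors := by
  intro p hp
  have h := mem_filter.1 hp
  rcases mem_union.1 h.1 with h' | h'
  · simp at h'
  · exact h'

/-- the double count -/
theorem sum_nd_le (g : ℤ) (B : Finset ℤ) (P : Finset ℕ) (hP : ∀ p ∈ P, p.Prime) :
    ∑ p ∈ P, (nd g B p : ℝ) ≤ ∑ a ∈ B, ((act g a).card : ℝ) := by
  classical
  have h1 : ∑ p ∈ P, nd g B p = ∑ a ∈ B, (P.filter (fun p : ℕ =>
      padicValInt p a ≠ padicValInt p g)).card := by
    unfold nd
    simp only [card_filter]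
    exact sum_comm
  have h2 : ∑ a ∈ B, (P.filter (fun p : ℕ => padicValInt p a ≠ padicValInt p g)).card ≤
      ∑ a ∈ B, (act g a).card := by
    apply sum_le_sum
    intro a _
    apply card_le_card
    intro p hp
    exact mem_act (hP p (mem_filter.1 hp).1) (mem_filter.1 hp).2
  have h3 : ∑ p ∈ P, nd g B p ≤ ∑ a ∈ B, (act g a).card := h1.le.trans h2
  exact_mod_cast h3

/-- **Few prime factors.** -/
theorem few (k : ℕ) (hk : 1 ≤ k) (ε : ℝ) (hε : 0 < ε) : ∃ c : ℝ, 0 < c ∧
    ∀ A : Finset ℤ, A.Nonempty → ∀ g : ℤ,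
      ∑ a ∈ A.erase 0, ((act g a).card : ℝ) ≤ c * (A.card * Real.log A.card) →
      c * (A.card : ℝ) ^ ((k : ℝ) - ε) ≤ mx k A := by
  classical
  obtain ⟨c₀, hc₀, hc₀h, hfew⟩ := few_pop k hk ε hε
  set L₂ : ℝ := Real.log 2 / c₀ with hL₂
  have hlog2 : 0 < Real.log 2 := Real.log_pos (by norm_num)
  refine ⟨min (c₀ ^ 2 / 2) (Real.exp (-(k * L₂))), by positivity, ?_⟩
  set c : ℝ := min (c₀ ^ 2 / 2) (Real.exp (-(k * L₂))) with hc
  have hc1 : c ≤ c₀ ^ 2 / 2 := min_le_left _ _
  have hc2 : c ≤ Real.exp (-(k * L₂)) := min_le_right _ _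
  have hcpos : 0 < c := by rw [hc]; (clear * - hc₀; positivity)
  clear_value c
  intro A hA g hsum
  have hn1 : (1 : ℝ) ≤ A.card := by exact_mod_cast card_pos.mpr hA
  have hn0 : (0 : ℝ) < A.card := by (clear * - hn1; linarith only [hn1])
  have hL0 : 0 ≤ Real.log (A.card : ℝ) := Real.log_nonneg hn1
  rcases le_or_gt (Real.log (A.card : ℝ)) L₂ with hsm | hbig
  · exact small_case hA hε hc2 hsm
  have h2 : 2 ≤ (A.card : ℝ) ^ c₀ := by
    rw [Real.rpow_def_of_pos hn0]
    calc (2 : ℝ) = Real.exp (Real.log 2) := (Real.exp_log (by norm_num)).symm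
      _ ≤ Real.exp (Real.log A.card * c₀) := by
        apply Real.exp_le_exp.2
        have := (div_lt_iff₀ hc₀).1 hbig
        linarith only [this]
  have h2' : (2 : ℝ) ≤ A.card := by
    refine h2.trans ?_
    calc (A.card : ℝ) ^ c₀ ≤ (A.card : ℝ) ^ (1 : ℝ) :=
          Real.rpow_le_rpow_of_exponent_le hn1 (by (clear * - hc₀h; linarith only [hc₀h]))
      _ = A.card := Real.rpow_one _
  set B := A.erase 0 with hB
  have hBc : (A.card : ℝ) / 2 ≤ B.card := by
    have h3 : A.card ≤ B.card + 1 := by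
      rw [hB]
      have := pred_card_le_card_erase (s := A) (a := (0 : ℤ))
      omega
    have h4 : (A.card : ℝ) ≤ B.card + 1 := by exact_mod_cast h3
    (clear * - h2' h4; linarith only [h2', h4])
  have hB0 : (0 : ℝ) < B.card := by linarith only [h2', hBc]
  have hcard : (A.card : ℝ) ^ (1 - c₀) ≤ (B.card : ℝ) := by
    refine le_trans ?_ hBc
    rw [Real.rpow_sub hn0, Real.rpow_one]
    exact div_le_div_of_nonneg_left hn0.le (by norm_num) h2
  have hT : ((popP g (1 / c₀) B).card : ℝ) ≤ c₀ * Real.log A.card := by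
    have h5 : ((popP g (1 / c₀) B).card : ℝ) * B.card ≤
        1 / c₀ * ∑ p ∈ popP g (1 / c₀) B, (nd g B p : ℝ) := by
      rw [mul_sum]
      calc ((popP g (1 / c₀) B).card : ℝ) * B.card =
            ∑ p ∈ popP g (1 / c₀) B, (B.card : ℝ) := by rw [sum_const, nsmul_eq_mul]
        _ ≤ _ := sum_le_sum popP_pop
    have h6 : ((popP g (1 / c₀) B).card : ℝ) * B.card ≤
        1 / c₀ * (c * (A.card * Real.log A.card)) :=
      h5.trans (mul_le_mul_of_nonneg_left ((sum_nd_le g B _ popP_prime).trans hsum)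
        (by positivity))
    have h7 : 1 / c₀ * (c * (A.card * Real.log A.card)) ≤
        (c₀ * Real.log A.card) * B.card := by
      have h8 : 1 / c₀ * c ≤ c₀ / 2 := by
        rw [one_div, inv_mul_le_iff₀ hc₀]
        linarith only [hc1]
      calc 1 / c₀ * (c * (A.card * Real.log A.card)) =
            (1 / c₀ * c) * (A.card * Real.log A.card) := by ring
        _ ≤ (c₀ / 2) * (A.card * Real.log A.card) :=
            mul_le_mul_of_nonneg_right h8 (by (clear * - hA hc hc1 hc2 hcpos hsum h6 h8; positivity))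
        _ = (c₀ * Real.log A.card) * (A.card / 2) := by ring
        _ ≤ (c₀ * Real.log A.card) * B.card :=
            mul_le_mul_of_nonneg_left hBc (by (clear * - hc₀; positivity))
    exact le_of_mul_le_mul_right (h6.trans h7) hB0
  have key := hfew A B hA (erase_subset _ _) (notMem_erase _ _) hcard g _ hT
    (fun p hp hpT => by
      have := unpop_popP (C := 1 / c₀) (by positivity) hp hpT
      rwa [one_div_one_div] at this)
  refine le_trans ?_ key
  have h9 : c ≤ c₀ := by (clear * - hc₀ hc1 hc₀h; nlinarith only [hc₀, hc₀h, hc1])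
  exact mul_le_mul_of_nonneg_right h9 (Real.rpow_nonneg hn0.le _)

end Pool.Agent.Helper24.PP
end

/- Helper24.FF.H24.PP.GroupsF -/
section
set_option autoImplicit false

/-!
MP_120218_co: every set; groups of elements and affine maps.
-/

open Finset

namespace Pool.Agent.Helper24.PP

/-- **The structure of the exceptions.** -/
theorem groups (k : ℕ) (hk : 1 ≤ k) (ε : ℝ) (hε : 0 < ε) : ∃ M : ℕ, ∀ j : ℕ, 2 ≤ j →
    ∃ c : ℝ, 0 < c ∧ ∀ A : Finset ℤ, A.Nonempty → ∀ g : ℤ,
      c * (A.card : ℝ) ^ ((k : ℝ) - ε) ≤ mx k A ∨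
      ∃ E ⊆ A, (E.card : ℝ) ≤ (A.card : ℝ) ^ (1 - c) ∧
        (∀ a ∈ A \ E, a ≠ 0 ∧ c * Real.log A.card < ((act g a).card : ℝ)) ∧
        ∀ S ⊆ A \ E, M * j ≤ S.card → Rich g (c * Real.log A.card) j S := by
  classical
  obtain ⟨c₀, hc₀, hc₀h, hfew⟩ := few_pop k hk ε hε
  set M : ℕ := ⌈2 * (1 / c₀)⌉₊ with hM
  have hM1 : 2 * (1 / c₀) ≤ M := Nat.le_ceil _
  have hMpos : 1 ≤ M := Nat.ceil_pos.2 (by positivity)
  clear_value M
  refine ⟨M, fun j hj => ?_⟩
  set B : ℝ := ((M * j).choose j : ℝ) with hB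
  have hB1 : 1 ≤ B := by
    rw [hB]
    have : 0 < (M * j).choose j := Nat.choose_pos (by nlinarith only [hMpos])
    exact_mod_cast this
  clear_value B
  set L₂ : ℝ := 2 * Real.log (2 + M * j) / c₀ with hL₂
  have hc₀B : 0 < c₀ ^ 2 / (2 * B) := by (clear * - hc₀ hB1; positivity)
  refine ⟨min (c₀ / 2) (min (c₀ ^ 2 / (2 * B)) (Real.exp (-(k * L₂)))), by positivity, ?_⟩
  set c : ℝ := min (c₀ / 2) (min (c₀ ^ 2 / (2 * B)) (Real.exp (-(k * L₂)))) with hc
  have hc1 : c ≤ c₀ / 2 := min_le_left _ _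
  have hc2 : c ≤ c₀ ^ 2 / (2 * B) := (min_le_right _ _).trans (min_le_left _ _)
  have hc3 : c ≤ Real.exp (-(k * L₂)) := (min_le_right _ _).trans (min_le_right _ _)
  have hcpos : 0 < c := by rw [hc]; positivity
  clear_value c
  intro A hA g
  have hn1 : (1 : ℝ) ≤ A.card := by exact_mod_cast card_pos.mpr hA
  have hn0 : (0 : ℝ) < A.card := by linarith only [hn1]
  have hL0 : 0 ≤ Real.log (A.card : ℝ) := Real.log_nonneg hn1
  rcases le_or_gt (Real.log (A.card : ℝ)) L₂ with hsm | hbig
  · exact Or.inl (small_case hA hε hc3 hsm)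
  set r : ℝ := c * Real.log A.card with hr
  have hr0 : 0 ≤ r := by (clear * - hcpos; positivity)
  obtain ⟨U, hUA, hUl, hUmax⟩ := exists_maxLight (g := g) (r := r) (A.erase 0) hMpos
    (show 1 ≤ j by omega)
  rw [← hB] at hUl
  rcases le_or_gt ((A.card : ℝ) ^ (1 - c₀)) (U.card : ℝ) with hUc | hUc
  · -- a large light set
    left
    have hUne : U.Nonempty := by
      rw [← card_pos]
      have : (0 : ℝ) < U.card := lt_of_lt_of_le (Real.rpow_pos_of_pos hn0 _) hUc
      exact_mod_cast this
    have hcount := pop_count (C := 1 / c₀) (by positivity) hM1 hUl hUne (popP g (1 / c₀) U)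
      popP_prime popP_pop
    have hT : ((popP g (1 / c₀) U).card : ℝ) ≤ c₀ * Real.log A.card := by
      refine hcount.trans ?_
      have h1 : B * c ≤ c₀ ^ 2 / 2 := by
        calc B * c ≤ B * (c₀ ^ 2 / (2 * B)) := mul_le_mul_of_nonneg_left hc2 (by (clear * - hB1; linarith only [hB1]))
          _ = c₀ ^ 2 / 2 := by field_simp
      have h2 : 2 * (1 / c₀) * (B * r) = 2 * (1 / c₀) * (B * c) * Real.log A.card := by
        rw [hr]; ring
      rw [h2]
      apply mul_le_mul_of_nonneg_right _ hL0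
      calc 2 * (1 / c₀) * (B * c) ≤ 2 * (1 / c₀) * (c₀ ^ 2 / 2) :=
            mul_le_mul_of_nonneg_left h1 (by positivity)
        _ = c₀ := by (clear * - hc₀; field_simp)
    have h0 : (0 : ℤ) ∉ U := fun h => notMem_erase _ _ (hUA h)
    have key := hfew A U hA (hUA.trans (erase_subset _ _)) h0 hUc g _ hT
      (fun p hp hpT => by
        have := unpop_popP (C := 1 / c₀) (by positivity) hp hpT
        rwa [one_div_one_div] at this)
    refine le_trans ?_ key
    exact mul_le_mul_of_nonneg_right (by linarith only [hc₀, hc1]) (Real.rpow_nonneg hn0.le _)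
  · right
    -- the elements with few active primes
    set A₀ := (A.erase 0 \ U).filter (fun a => ((act g a).card : ℝ) ≤ r) with hA₀
    have hA₀c : A₀.card < M * j := by
      by_contra hlt
      push Not at hlt
      obtain ⟨T, hT, hTj, Q, hQ, hlt'⟩ := hUmax A₀ (filter_subset _ _) hlt
      obtain ⟨a, ha⟩ : T.Nonempty := by
        rw [← card_pos]
        omega
      have h1 := (mem_filter.1 (hT ha)).2
      have h2 : Q ⊆ act g a := fun p hp => mem_act (hQ p hp).1 ((hQ p hp).2 a ha)
      have h3 : (Q.card : ℝ) ≤ (act g a).card := by exact_mod_cast card_le_card h2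
      linarith only [hlt', h1, h3]
    set E := (U ∪ A₀) ∪ (A.filter (fun a => a = 0)) with hE
    have hA₀A : A₀ ⊆ A.erase 0 := (filter_subset _ _).trans sdiff_subset
    have hsub : A \ E ⊆ A.erase 0 \ U := by
      intro a ha
      have ha' := mem_sdiff.1 ha
      have hne : a ≠ 0 := by
        intro h
        apply ha'.2
        rw [hE]
        exact mem_union_right _ (mem_filter.2 ⟨ha'.1, h⟩)
      refine mem_sdiff.2 ⟨mem_erase.2 ⟨hne, ha'.1⟩, fun h => ha'.2 ?_⟩
      rw [hE]
      exact mem_union_left _ (mem_union_left _ h)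
    refine ⟨E, ?_, ?_, ?_, ?_⟩
    · rw [hE]
      exact union_subset (union_subset (hUA.trans (erase_subset _ _))
        (hA₀A.trans (erase_subset _ _))) (filter_subset _ _)
    · have h1 : E.card ≤ U.card + A₀.card + 1 := by
        rw [hE]
        refine (card_union_le _ _).trans ?_
        have h2 : (A.filter (fun a => a = 0)).card ≤ 1 := by
          rw [card_le_one]
          intro x hx y hy
          rw [(mem_filter.1 hx).2, (mem_filter.1 hy).2]
        have h3 := card_union_le U A₀
        omega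
      have h2 : (E.card : ℝ) ≤ (A.card : ℝ) ^ (1 - c₀) + M * j + 1 := by
        have h3 : (E.card : ℝ) ≤ U.card + A₀.card + 1 := by exact_mod_cast h1
        have h4 : (A₀.card : ℝ) ≤ M * j := by exact_mod_cast hA₀c.le
        linarith only [hUc, h3, h4]
      have h5 : (1 : ℝ) ≤ (A.card : ℝ) ^ (1 - c₀) := Real.one_le_rpow hn1 (by linarith only [hc₀h])
      have hMj : (0 : ℝ) ≤ (M : ℝ) * j := by (clear * - hMpos hj; positivity)
      have h6 : (A.card : ℝ) ^ (1 - c₀) + M * j + 1 ≤ (2 + M * j) * (A.card : ℝ) ^ (1 - c₀) := by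
        (clear * - h5 hMj; nlinarith only [h5, hMj])
      have h7 : (2 + (M : ℝ) * j) ≤ (A.card : ℝ) ^ (c₀ / 2) := by
        rw [Real.rpow_def_of_pos hn0]
        calc (2 + (M : ℝ) * j) = Real.exp (Real.log (2 + M * j)) :=
              (Real.exp_log (by positivity)).symm
          _ ≤ Real.exp (Real.log A.card * (c₀ / 2)) := by
              apply Real.exp_le_exp.2
              have := (div_lt_iff₀ hc₀).1 hbig
              linarith only [this]
      have h8 : (2 + (M : ℝ) * j) * (A.card : ℝ) ^ (1 - c₀) ≤ (A.card : ℝ) ^ (1 - c) := by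
        calc (2 + (M : ℝ) * j) * (A.card : ℝ) ^ (1 - c₀)
            ≤ (A.card : ℝ) ^ (c₀ / 2) * (A.card : ℝ) ^ (1 - c₀) :=
              mul_le_mul_of_nonneg_right h7 (Real.rpow_nonneg hn0.le _)
          _ = (A.card : ℝ) ^ (c₀ / 2 + (1 - c₀)) := (Real.rpow_add hn0 _ _).symm
          _ ≤ (A.card : ℝ) ^ (1 - c) :=
              Real.rpow_le_rpow_of_exponent_le hn1 (by linarith only [hc1])
      linarith only [h2, h6, h8]
    · intro a ha
      have ha' := hsub ha
      refine ⟨(mem_erase.1 (mem_sdiff.1 ha').1).1, ?_⟩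
      by_contra hle
      push Not at hle
      apply (mem_sdiff.1 ha).2
      rw [hE]
      exact mem_union_left _ (mem_union_right _ (mem_filter.2 ⟨ha', hle⟩))
    · intro S hS hMS
      exact hUmax S (hS.trans hsub) hMS

/-- affine maps -/
theorem affine_maps {r : ℝ} {n j : ℕ} (hj : 2 ≤ j) {F : Finset ℤ}
    (hF : ∀ a ∈ F, a ≠ 0 ∧ r < ((act 1 a).card : ℝ))
    (hrich : ∀ S ⊆ F, n ≤ S.card → Rich 1 r j S) (X : Finset (ℤ × ℤ × ℤ))
    (hX : ∀ x ∈ X, x.1 ≠ 0 ∧ x.2.1 ≠ 0)
    (hXX : ∀ x ∈ X, ∀ x' ∈ X, x ≠ x' → x.1 * x'.2.2 - x'.1 * x.2.2 ≠ 0 ∧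
      (((x.1 * x'.2.2 - x'.1 * x.2.2).natAbs.primeFactors.card : ℕ) : ℝ) ≤ r) (y : ℚ) :
    ((F ×ˢ X).filter
      (fun z => ((z.2.2.1 : ℚ) * z.1 + z.2.2.2) / z.2.1 = y)).card < n := by
  classical
  by_contra hlt
  push Not at hlt
  set Z := (F ×ˢ X).filter (fun z => ((z.2.2.1 : ℚ) * z.1 + z.2.2.2) / z.2.1 = y) with hZ
  have hZmem : ∀ z ∈ Z, z.1 ∈ F ∧ z.2 ∈ X ∧
      ((z.2.2.1 : ℚ) * z.1 + z.2.2.2) = z.2.1 * y := by
    intro z hz
    have h1 := mem_filter.1 hz
    have h2 := mem_product.1 h1.1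
    refine ⟨h2.1, h2.2, ?_⟩
    have h3 : (z.2.1 : ℚ) ≠ 0 := by exact_mod_cast (hX _ h2.2).1
    have h4 := h1.2
    field_simp at h4
    (clear * - h4; linarith only [h4])
  -- the determinants
  have hdet : ∀ z ∈ Z, ∀ z' ∈ Z, z.2.1 * z'.2.2.2 - z'.2.1 * z.2.2.2 =
      z'.2.1 * z.2.2.1 * z.1 - z.2.1 * z'.2.2.1 * z'.1 := by
    intro z hz z' hz'
    have h1 := (hZmem z hz).2.2
    have h2 := (hZmem z' hz').2.2
    have h3 : ((z.2.1 * z'.2.2.2 - z'.2.1 * z.2.2.2 : ℤ) : ℚ) =
        ((z'.2.1 * z.2.2.1 * z.1 - z.2.1 * z'.2.2.1 * z'.1 : ℤ) : ℚ) := by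
      push_cast
      have h4 : (z'.2.2.2 : ℚ) = z'.2.1 * y - z'.2.2.1 * z'.1 := by linarith only [h2]
      have h5 : (z.2.2.2 : ℚ) = z.2.1 * y - z.2.2.1 * z.1 := by linarith only [h1]
      rw [h4, h5]
      ring
    exact_mod_cast h3
  -- the first projection is injective
  have hinj : Set.InjOn (fun z : ℤ × ℤ × ℤ × ℤ => z.1) (Z : Set (ℤ × ℤ × ℤ × ℤ)) := by
    intro z hz z' hz' he
    simp only at he
    by_contra hne
    have hz1 := hZmem z hz
    have hz2 := hZmem z' hz'
    have hxx : z.2 ≠ z'.2 := fun h => hne (Prod.ext he h)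
    have h1 := hXX _ hz1.2.1 _ hz2.2.1 hxx
    have h2 := hdet z hz z' hz'
    have h3 : z.1 ∣ z.2.1 * z'.2.2.2 - z'.2.1 * z.2.2.2 := by
      rw [h2, ← he, ← sub_mul]
      exact dvd_mul_left _ _
    have h4 : (act 1 z.1).card ≤ (z.2.1 * z'.2.2.2 - z'.2.1 * z.2.2.2).natAbs.primeFactors.card := by
      apply card_le_card
      refine act_one.trans ?_
      apply Nat.primeFactors_mono (Int.natAbs_dvd_natAbs.2 h3)
      exact Int.natAbs_ne_zero.2 h1.1
    have h5 := (hF _ hz1.1).2
    have h6 : ((act 1 z.1).card : ℝ) ≤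
        ((z.2.1 * z'.2.2.2 - z'.2.1 * z.2.2.2).natAbs.primeFactors.card : ℝ) := by
      exact_mod_cast h4
    (clear * - h1 h5 h6; linarith only [h1, h5, h6])
  set S := Z.image (fun z => z.1) with hS
  have hSF : S ⊆ F := by
    intro a ha
    obtain ⟨z, hz, rfl⟩ := mem_image.1 ha
    exact (hZmem z hz).1
  have hSc : n ≤ S.card := by
    rw [hS, card_image_of_injOn hinj]
    exact hlt
  obtain ⟨T, hT, hTj, Q, hQ, hQr⟩ := hrich S hSF hSc
  obtain ⟨a, ha, a', ha', hne⟩ := one_lt_card.1 (show 1 < T.card by omega)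
  obtain ⟨z, hz, hza⟩ := mem_image.1 (hT ha)
  obtain ⟨z', hz', hza'⟩ := mem_image.1 (hT ha')
  have hz1 := hZmem z hz
  have hz2 := hZmem z' hz'
  have hxx : z.2 ≠ z'.2 := by
    intro h
    apply hne
    have h1 := hz1.2.2
    have h2 := hz2.2.2
    rw [h] at h1
    have h3 : (z'.2.2.1 : ℚ) * z.1 = z'.2.2.1 * z'.1 := by (clear * - h1 h2; linarith only [h1, h2])
    have h4 : (z'.2.2.1 : ℚ) ≠ 0 := by exact_mod_cast (hX _ hz2.2.1).2
    have h5 : (z.1 : ℚ) = z'.1 := mul_left_cancel₀ h4 h3
    have h6 : z.1 = z'.1 := by exact_mod_cast h5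
    rw [← hza, ← hza', h6]
  have h1 := hXX _ hz1.2.1 _ hz2.2.1 hxx
  have h2 := hdet z hz z' hz'
  have hdiv : ∀ b : ℤ, ∀ p ∈ Q, b ∈ T → (p : ℤ) ∣ b := by
    intro b p hp hb
    have h3 := (hQ p hp).2 b hb
    have h4 := act_one (mem_act (hQ p hp).1 h3)
    exact Int.natCast_dvd.2 (Nat.dvd_of_mem_primeFactors h4)
  have h3 : Q ⊆ (z.2.1 * z'.2.2.2 - z'.2.1 * z.2.2.2).natAbs.primeFactors := by
    intro p hp
    refine Nat.mem_primeFactors.2 ⟨(hQ p hp).1, ?_, Int.natAbs_ne_zero.2 h1.1⟩
    apply Int.natCast_dvd.1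
    rw [h2]
    apply dvd_sub
    · have h5 := hdiv a p hp ha
      rw [← hza] at h5
      exact Dvd.dvd.mul_left h5 _
    · have h5 := hdiv a' p hp ha'
      rw [← hza'] at h5
      exact Dvd.dvd.mul_left h5 _
  have h4 : (Q.card : ℝ) ≤
      ((z.2.1 * z'.2.2.2 - z'.2.1 * z.2.2.2).natAbs.primeFactors.card : ℝ) := by
    exact_mod_cast card_le_card h3
  (clear * - hQr h1 h4; linarith only [hQr, h1, h4])

/-- coprime progressions -/
theorem progressions {r : ℝ} {n j : ℕ} (hj : 2 ≤ j) {F : Finset ℤ}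
    (hrich : ∀ S ⊆ F, n ≤ S.card → Rich 1 r j S) {b q : ℤ} (hbq : IsCoprime b q)
    (D : Finset ℤ) (hD : ∀ t ∈ D, ∀ t' ∈ D, t ≠ t' →
      (((t - t').natAbs.primeFactors.card : ℕ) : ℝ) ≤ r) :
    (F.filter (fun a => ∃ t ∈ D, a = b + q * t)).card < n := by
  classical
  by_contra hlt
  push Not at hlt
  obtain ⟨T, hT, hTj, Q, hQ, hQr⟩ := hrich _ (filter_subset _ _) hlt
  obtain ⟨a, ha, a', ha', hne⟩ := one_lt_card.1 (show 1 < T.card by omega)
  obtain ⟨t, ht, hat⟩ := (mem_filter.1 (hT ha)).2
  obtain ⟨t', ht', hat'⟩ := (mem_filter.1 (hT ha')).2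
  have htt : t ≠ t' := by
    intro h
    apply hne
    rw [hat, hat', h]
  have hdiv : ∀ x : ℤ, ∀ p ∈ Q, x ∈ T → (p : ℤ) ∣ x := by
    intro x p hp hx
    have h3 := (hQ p hp).2 x hx
    have h4 := act_one (mem_act (hQ p hp).1 h3)
    exact Int.natCast_dvd.2 (Nat.dvd_of_mem_primeFactors h4)
  have h3 : Q ⊆ (t - t').natAbs.primeFactors := by
    intro p hp
    refine Nat.mem_primeFactors.2 ⟨(hQ p hp).1, ?_, Int.natAbs_ne_zero.2 (sub_ne_zero.2 htt)⟩
    apply Int.natCast_dvd.1
    have h5 := hdiv a p hp ha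
    have h6 := hdiv a' p hp ha'
    have h7 : (p : ℤ) ∣ q * (t - t') := by
      have h8 := dvd_sub h5 h6
      rw [hat, hat'] at h8
      have h9 : b + q * t - (b + q * t') = q * (t - t') := by ring
      rwa [h9] at h8
    have h8 : IsCoprime (p : ℤ) q := by
      have h9 : IsCoprime (b + q * t) q := IsCoprime.add_mul_left_left hbq t
      rw [← hat] at h9
      exact h9.of_isCoprime_of_dvd_left h5
    exact h8.dvd_of_dvd_mul_left h7
  have h4 : (Q.card : ℝ) ≤ ((t - t').natAbs.primeFactors.card : ℝ) := by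
    exact_mod_cast card_le_card h3
  (clear * - hD ht ht' htt hQr h4; linarith only [hD t ht t' ht' htt, hQr, h4])

/-- the active primes occur in the fraction `a / g` -/
theorem act_subset_frac {g a : ℤ} (hg : g ≠ 0) (ha : a ≠ 0) :
    ((act g a).card : ℝ) ≤ ((((a : ℚ) / g).num.natAbs.primeFactors.card : ℕ) : ℝ) +
      ((((a : ℚ) / g).den.primeFactors.card : ℕ) : ℝ) := by
  classical
  have hsub : act g a ⊆ ((a : ℚ) / g).num.natAbs.primeFactors ∪
      ((a : ℚ) / g).den.primeFactors := by
    intro p hp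
    have hpp := prime_of_mem_act hp
    haveI : Fact p.Prime := ⟨hpp⟩
    have hne := (mem_filter.1 hp).2
    have hga : ((a : ℚ) / g) ≠ 0 := by
      have h1 : (a : ℚ) ≠ 0 := by exact_mod_cast ha
      have h2 : (g : ℚ) ≠ 0 := by exact_mod_cast hg
      exact div_ne_zero h1 h2
    have hval : padicValRat p ((a : ℚ) / g) = (padicValInt p a : ℤ) - (padicValInt p g : ℤ) := by
      rw [padicValRat.div (by exact_mod_cast ha) (by exact_mod_cast hg),
        padicValRat.of_int, padicValRat.of_int]
    by_contra hm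
    rw [mem_union, not_or] at hm
    have h1 : padicValInt p ((a : ℚ) / g).num = 0 := val_zero hpp hm.1
    have h2 : padicValNat p ((a : ℚ) / g).den = 0 := by
      apply padicValNat.eq_zero_of_not_dvd
      intro hd
      exact hm.2 (Nat.mem_primeFactors.2 ⟨hpp, hd, ((a : ℚ) / g).den_ne_zero⟩)
    rw [padicValRat, h1, h2] at hval
    apply hne
    have h3 : (padicValInt p a : ℤ) = (padicValInt p g : ℤ) := by
      simp at hval
      (clear * - hval; linarith only [hval])
    exact_mod_cast h3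
  have h1 := (card_le_card hsub).trans (card_union_le _ _)
  exact_mod_cast h1

end Pool.Agent.Helper24.PP
end
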